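import Pool.Agent.Lib.MP_f80667_ag.Gx.XHc

/-!
Levels over a ramified field.

* `Uf L π`: `π` is a uniformizer of `K`.
* `Dr f L π s M`: the displacements over `M` of level `s`: congruences modulo `π ^ s`.
-/

open ZC BE PE CV IntermediateField

namespace GX

/-- `π` is a uniformizer of `K`. -/
structure Uf {K Ω : Type} [Field K] [Field Ω] [Algebra K Ω] (L : Ld K Ω) (π : Ω) : Prop where
  bot : π ∈ (⊥ : IntermediateField K Ω)
  pos : 0 < L.nm π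
  lt : L.nm π < 1
  val : ∀ x : K, x ≠ 0 → ∃ n : ℤ, L.nm (algebraMap K Ω x) = L.nm π ^ n

section fld

variable {K Ω : Type} [Field K] [CharZero K] [Field Ω] [Algebra K Ω] [IsAlgClosure K Ω]
  {L : Ld K Ω} {π : Ω}

omit [CharZero K] [IsAlgClosure K Ω] in
theorem exists_uf (L : Ld K Ω) : ∃ π : Ω, Uf L π := by
  obtain ⟨π, h1, h2, h3, h4⟩ := L.unif ⊥ inferInstance
  refine ⟨π, h1, h2, h3, fun x hx => h4 _ ?_ ?_⟩
  · exact IntermediateField.algebraMap_mem _ x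
  · exact (_root_.map_ne_zero _).2 hx

omit [CharZero K] [IsAlgClosure K Ω] in
theorem Uf.mem (hπ : Uf L π) (M : IntermediateField K Ω) : π ∈ M := (bot_le : ⊥ ≤ M) hπ.bot

omit [CharZero K] [IsAlgClosure K Ω] in
theorem Uf.ne (hπ : Uf L π) : π ≠ 0 := L.ne_zero hπ.pos

/-- The values of an unramified field. -/
theorem Uf.um_val (hπ : Uf L π) {M : IntermediateField K Ω} (hM : Um L M) :
    ∀ x ∈ M, x ≠ 0 → ∃ k : ℤ, L.nm x = L.nm π ^ k := by
  intro x hx h0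
  obtain ⟨N, hN, hMN⟩ := hM
  obtain ⟨φ, q, hφ⟩ := exists_frob L.toLf (⊥ : IntermediateField K Ω)
  obtain ⟨f, hf, hq, -⟩ := Ld.frob_q hφ
  rw [hq] at hφ
  have hx' : x ∈ L.Ur ⊥ (f * N) := Ld.ur_dvd ⊥ (dvd_mul_left N f) (hMN hx)
  obtain ⟨y, hy, hyx⟩ := Ld.ur_val hφ hf hN hx'
  obtain ⟨k, rfl⟩ := IntermediateField.mem_bot.1 hy
  have hk : k ≠ 0 := by
    intro h
    rw [h, map_zero, L.zero] at hyx
    exact (L.pos h0).ne hyx
  obtain ⟨n, hn⟩ := hπ.val k hk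
  exact ⟨n, by rw [← hyx, hn]⟩

theorem Uf.um_lt' (hπ : Uf L π) {M : IntermediateField K Ω} (hM : Um L M) {x : Ω} (hx : x ∈ M)
    {i : ℕ} (h : L.nm x < L.nm π ^ i) : L.nm x ≤ L.nm π ^ (i + 1) := by
  by_cases h0 : x = 0
  · rw [h0, L.zero]
    exact pow_nonneg hπ.pos.le _
  obtain ⟨n, hn⟩ := hπ.um_val hM x hx h0
  rw [hn] at h ⊢
  rw [← zpow_natCast] at h ⊢
  have h1 : (i : ℤ) < n := (zpow_lt_zpow_iff_right_of_lt_one₀ hπ.pos hπ.lt).1 h
  exact (zpow_le_zpow_iff_right_of_lt_one₀ hπ.pos hπ.lt).2 (by push_cast; omega)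

theorem Uf.um_lt (hπ : Uf L π) {M : IntermediateField K Ω} (hM : Um L M) {x : Ω} (hx : x ∈ M)
    (h : L.nm x < 1) : L.nm x ≤ L.nm π := by
  have h1 := hπ.um_lt' hM hx (i := 0) (by rw [pow_zero]; exact h)
  rwa [zero_add, pow_one] at h1

omit [CharZero K] [IsAlgClosure K Ω] in
theorem Uf.pow_lt (hπ : Uf L π) {s : ℕ} (hs : s ≠ 0) : L.nm π ^ s < 1 :=
  pow_lt_one₀ hπ.pos.le hπ.lt hs

omit [CharZero K] [IsAlgClosure K Ω] in
theorem Uf.pow_le (hπ : Uf L π) {s t : ℕ} (h : s ≤ t) : L.nm π ^ t ≤ L.nm π ^ s :=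
  pow_le_pow_of_le_one hπ.pos.le hπ.lt.le h

omit [IsAlgClosure K Ω] in
/-- `p` is a uniformizer if `K` is unramified. -/
theorem uf_p [L.Unr] : Uf L (L.p : Ω) where
  bot := IntermediateField.natCast_mem _ L.p
  pos := L.p_pos
  lt := L.lt
  val := L.unr

end fld

variable {F : Type} [Field F] {N : ℕ} {ι : Type} {K Ω : Type} [Field K] [CharZero K] [Field Ω]
  [Algebra K Ω] [Algebra F K] [Algebra F Ω] [IsScalarTower F K Ω] [IsAlgClosure K Ω]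

/-- The displacements over `M` of level `s`: congruences modulo `π ^ s`. -/
noncomputable def Dr (f : ι → MvPolynomial (Fin N) F) (L : Ld K Ω) (π : Ω) (s : ℕ)
    (M : IntermediateField K Ω) : AddSubgroup ((Xf f).pt Ω →₀ ℤ) :=
  Dsp L (Xf f) (Nrh f L (L.nm π ^ s)) M

variable {f : ι → MvPolynomial (Fin N) F} {L : Ld K Ω} {π : Ω} {M M' : IntermediateField K Ω}

omit [CharZero K] [IsAlgClosure K Ω] in
theorem dr_dl {s : ℕ} : Dr f L (L.p : Ω) s M = Dl f L s M := rfl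

/-- Over an unramified field congruent points are congruent modulo `π`. -/
theorem Uf.nrh_up (hπ : Uf L π) (hf : Hm f) (hM : Um L M) {r : ℝ} (hr : r < 1)
    {P P' : (Xf f).pt Ω} (h : Nrh f L r P P') (hP : Fp (Xf f) M P) (hP' : Fp (Xf f) M P') :
    Nrh f L (L.nm π) P P' := by
  obtain ⟨x, x', i, k1, k2, k3, k4, k5, k6, k7⟩ := nrh_nco hf hr h
  exact ⟨x, x', k1, k2, k5, k6, ⟨i, by rw [k3, L.one]⟩, ⟨i, by rw [k4, L.one]⟩, fun j =>
    hπ.um_lt hM (sub_mem (fp_mem hP k1 k3 j) (fp_mem hP' k2 k4 j)) ((k7 j).trans_lt hr)⟩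

theorem dr_pt [FiniteDimensional K M] {s : ℕ} {P P' : (Xf f).pt Ω} (hP : Fp (Xf f) M P)
    (hP' : Fp (Xf f) M P') (h : Nrh f L (L.nm π ^ s) P P') :
    (Finsupp.single P 1 - Finsupp.single P' 1 : (Xf f).pt Ω →₀ ℤ) ∈ Dr f L π s M :=
  dsp_pt hP hP' h

theorem dr_mono (hπ : Uf L π) {s t : ℕ} (h : s ≤ t) : Dr f L π t M ≤ Dr f L π s M :=
  dsp_mono fun _ _ => nrh_mono (hπ.pow_le h)

theorem dr_up [FiniteDimensional K M] (h : Em L M M') {s : ℕ} :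
    Dr f L π s M ≤ Dr f L π s M' := by
  have : Hf (Xf f) := inferInstance
  exact dsp_up h fun γ _ _ _ h1 => nrh_act γ h1

/-- Generators. -/
theorem dr_gen [FiniteDimensional K M] {s : ℕ} : Dr f L π s M = AddSubgroup.closure
    {z | ∃ M' y y', Em L M M' ∧ Fp (Xf f) M' y ∧ Fp (Xf f) M' y' ∧
      Nrh f L (L.nm π ^ s) y y' ∧
        z = Nm M M' (Finsupp.single y 1 - Finsupp.single y' 1 : (Xf f).pt Ω →₀ ℤ)} :=
  dsp_gen

theorem dr_fx [FiniteDimensional K M] {s : ℕ} {z : (Xf f).pt Ω →₀ ℤ} (hz : z ∈ Dr f L π s M) :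
    Fx M z := dsp_fx hz

/-- The norms of the displacements over an unramified field. -/
theorem dr_nm [FiniteDimensional K M] (hM : Um L M) {s : ℕ} {z : (Xf f).pt Ω →₀ ℤ}
    (hz : z ∈ Dr f L π s M) : Nm (K := K) ⊥ M z ∈ Dr f L π s ⊥ := GM.nm_dsp hM hz

end GX
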