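import Pool.Agent.Lib.MP_f80667_ag.Lv.Tb
import Pool.Agent.Lib.MP_f80667_ag.Gm.GsC

/-! Values of displacements: extension of the field for data over the smaller field. -/

open ZC BE PE CV IntermediateField

namespace GX

variable {F : Type} [Field F] {N d : ℕ} {ι : Type} {f : ι → MvPolynomial (Fin N) F} {K Ω : Type}
  [Field K] [CharZero K] [Field Ω] [Algebra K Ω] [Algebra F K] [Algebra F Ω]
  [IsScalarTower F K Ω] [IsAlgClosure K Ω] {L : Ld K Ω} {ψ : Prj K N d} {π : Ω}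
  {M M' : IntermediateField K Ω} {c h : Fin (d + 1) → Ω} {w : Ω}

/-- The degree of `Ur ⊥ (n * k)` over `Ur ⊥ n` is `k`. Proof: `GM.mu_rank` for `M = Ur ⊥ n`, `R = n` (`Rf (Ur ⊥ n) n` follows from `Rf ⊥ r`, `r ∣ n`: `Ld.rf_ur`), `Ur (Ur ⊥ n) (n * k) = Ur ⊥ (n * k)` (`Ld.ur_ur`). -/
theorem ur_rank {r n k : ℕ} (hr : L.Rf ⊥ r) (hn : n ≠ 0) (hrn : r ∣ n) (hk : k ≠ 0) :
    Module.finrank K (L.Ur ⊥ (n * k)) = k * Module.finrank K (L.Ur ⊥ n) := by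
  have hum : Um L (L.Ur ⊥ n) := ⟨n, hn, le_rfl⟩
  obtain ⟨e, rfl⟩ := hrn
  have hrf : L.Rf (L.Ur ⊥ (r * e)) (r * e) := Ld.rf_ur hr (right_ne_zero_of_mul hn)
  have h := GM.mu_rank hum hrf hk
  rw [← h, GM.Mu, Ld.ur_ur ⊥ (dvd_mul_right (r * e) k)]

private theorem tu_fx (hψ : Pj f L ψ) (g : Gp L ψ M c w) :
    Fx M (zx f ((ψ.om Ω).pt c w) : (Xf f).pt Ω →₀ ℤ) := by
  obtain ⟨-, -, -, -, P, -, hP, h⟩ := g.pt hψ
  rw [h]
  exact fx_single hP 1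

private theorem tu_nm {V : Vr F} [Hf V] {M M' : IntermediateField K Ω} [FiniteDimensional K M']
    (h : M ≤ M') {d : ℕ} (hd : Module.finrank K M' = d * Module.finrank K M)
    {z : V.pt Ω →₀ ℤ} (hz : Fx M z) : Nm (⊥ : IntermediateField K Ω) M' z =
      d • Nm (⊥ : IntermediateField K Ω) M z := by
  have hfM : FiniteDimensional K M :=
    FiniteDimensional.of_injective (IntermediateField.inclusion h).toLinearMap
      (IntermediateField.inclusion_injective h)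
  rw [nm_tr bot_le h (hz.mono h), ← nm_nsmul bot_le]
  congr 1
  obtain ⟨S, h1, h3, -, h2⟩ := nm_rep (K := K) (Ω := Ω) h
  rw [h2 _ z, Finset.sum_congr rfl fun γ hγ => hz γ (h3 γ hγ), Finset.sum_const, h1]
  have h5 := relIndex_fix h
  rw [hd] at h5
  rw [mul_right_cancel₀ (Module.finrank_pos (R := K) (M := M)).ne' h5]

/-- **UP.** Proof: the cycle is invariant over `Ur ⊥ n`; `nm_tr`; the trace from `Ur ⊥ (n * k)` to `Ur ⊥ n` of an invariant cycle is `k` times the cycle (`nm_rep`, `ur_rank`; compare `vl_up` in `Gm/GsE.lean`, `BE.rtr_mul`). -/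
theorem cyv_up (hψ : Pj f L ψ) {r n k : ℕ} (hr : L.Rf ⊥ r) (hn : n ≠ 0) (hrn : r ∣ n)
    (hk : k ≠ 0) (g : Gp L ψ (L.Ur ⊥ n) c w) (hh : Iv L (L.Ur ⊥ n) h)
    (h1 : ∀ r, L.nm (h r) < 1) :
    cyv f L ψ (L.Ur ⊥ (n * k)) c w h = k • cyv f L ψ (L.Ur ⊥ n) c w h := by
  obtain ⟨r0, -, hr0⟩ := Finset.exists_max_image Finset.univ (fun r => L.nm (h r))
    ⟨0, Finset.mem_univ 0⟩
  have h2 := g.sh hψ hh (h1 r0) fun r => hr0 r (Finset.mem_univ r)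
  have hz : Fx (L.Ur ⊥ n) (zx f ((ψ.om Ω).pt (c + h) (sht L ψ w (c + h))) -
      zx f ((ψ.om Ω).pt c w) : (Xf f).pt Ω →₀ ℤ) := (tu_fx hψ h2.1).sub (tu_fx hψ g)
  have hfd : FiniteDimensional K (L.Ur ⊥ (n * k)) := Ld.ur_fin ⊥ _ (mul_ne_zero hn hk)
  exact tu_nm (Ld.ur_dvd ⊥ (dvd_mul_right n k)) (ur_rank hr hn hrn hk) hz

end GX
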