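import Pool.Agent.Lib.MP_f80667_ag.Lv.Je

/-!
Divisibility of displacements (D1) and the multiplication by `p` of displacements over a ramified field.
-/

open ZC BE PE CV IntermediateField Polynomial

namespace GX

variable {F : Type} [Field F] {N d m : ℕ} {ι : Type} {f : ι → MvPolynomial (Fin N) F} {K Ω : Type}
  [Field K] [CharZero K] [Field Ω] [Algebra K Ω] [Algebra F K] [Algebra F Ω]
  [IsScalarTower F K Ω] [IsAlgClosure K Ω] {L : Ld K Ω} {π : Ω}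

/-- **D1** for two points. -/
theorem Uf.d1_two (hπ : Uf L π) {ψ : Prj K N d} (hψ : Pj f L ψ) {M : IntermediateField K Ω}
    (hM : Um L M) {x x' : Fin N → Ω} (hx : Iv L M x) (hx' : Iv L M x')
    (hD : L.nm (MvPolynomial.aeval (ψ.uv x) ψ.D) = 1)
    {P P' : (Xf f).pt Ω} (hP : Co P x) (hP' : Co P' x') {l u s : ℕ} (hlp : l.Prime)
    (hu : L.nm (l : Ω) = L.nm π ^ u) (hus : u < (l - 1) * s)
    (h : ∀ i, L.nm (x' i - x i) ≤ L.nm π ^ (s + u)) :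
    ∃ z ∈ Dr f L π s M, (Finsupp.single P' 1 - Finsupp.single P 1 : (Xf f).pt Ω →₀ ℤ) - l • z ∈
      (Xf f).ratEq M Ω := by
  have hfd : FiniteDimensional K M := hM.fd
  have h00 : L.nm (0 : Ω) < 1 := by rw [L.zero]; exact zero_lt_one
  have hs0 : s ≠ 0 := by
    rintro rfl
    omega
  obtain ⟨e, he⟩ : ∃ e : Ω, e = π ^ (s + u) := ⟨_, rfl⟩
  have heM : e ∈ M := by
    rw [he]
    exact pow_mem (hπ.mem M) _
  have he0 : e ≠ 0 := by
    rw [he]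
    exact pow_ne_zero _ hπ.ne
  have hen : L.nm e = L.nm π ^ (s + u) := by rw [he, L.pow]
  have hepos : 0 < L.nm e := by
    rw [hen]
    exact pow_pos hπ.pos _
  have he1 : L.nm e < 1 := by
    rw [hen]
    exact hπ.pow_lt (by omega)
  have hx1 : ∀ i, L.nm (x i) ≤ 1 := fun i => (hx i).2
  obtain ⟨hux, hyx, hyx'⟩ := hψ.uv_iv hx
  obtain ⟨hux', -, -⟩ := hψ.uv_iv hx'
  have hDne : MvPolynomial.aeval (ψ.uv x) ψ.D ≠ 0 := L.ne_zero (by rw [hD]; exact zero_lt_one)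
  have h' : ∀ i, L.nm (x' i - x i) ≤ L.nm e := fun i => by
    rw [hen]
    exact h i
  have huu : ∀ r, L.nm (ψ.uv x' r - ψ.uv x r) ≤ L.nm e := fun r =>
    lv_close (hψ.iu r) hepos.le h'
  obtain ⟨a, hArc, hae⟩ := lin_arc hux hux' heM hepos huu
  have ha0 : (fun r => (a r).eval 0) = ψ.uv x := funext fun r => by rw [hae]; ring
  have hap : ∀ r, (a r).eval e = ψ.uv x' r := fun r => by
    rw [hae, div_mul_cancel₀ _ he0]
    ring
  have hD0 : L.nm (MvPolynomial.aeval (fun r => (a r).eval 0) ψ.D) = 1 := by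
    rw [ha0]
    exact hD
  have hG0 : L.nm (pe (fun r => (a r).eval 0) (ψ.yv x) ψ.G) < 1 := by
    rw [ha0, (hψ.pt_eq (co_ne hP) (co_zero hP) hDne).1]
    exact h00
  obtain ⟨Q, hQa, -, hQc, -⟩ := exists_br hψ hArc hyx hyx' hD0 hG0
  have hP0 : P = Q 0 := hQc 0 h00 P x hP hx1 (fun r => (congrFun ha0 r).symm)
    (by rw [sub_self]; exact h00)
  have hPe : P' = Q e := hQc _ he1 P' x' hP' (fun i => (hx' i).2) (fun r => (hap r).symm)
    ((lv_close hψ.iy hepos.le h').trans_lt he1)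
  obtain ⟨z, hz, hz'⟩ := la_ch hψ (hπ.mem M) hπ.pos hπ.lt (hπ.um_val hM) hArc hyx hyx' hD0 hG0 hQa
    (lin_dpo heM he1) (lin_dpo (zero_mem M) h00)
    (by rw [natDegree_X_sub_C, natDegree_X_sub_C]) (l := l) (u := u) (s := s)
    (Or.inr ⟨hlp, hu, hus⟩)
    (fun i => by
      rw [coeff_sub, coeff_sub, coeff_C, coeff_C]
      by_cases hi : i = 0
      · rw [if_pos hi, if_pos hi, ← hen]
        have h5 : (X : Polynomial Ω).coeff i - e - ((X : Polynomial Ω).coeff i - 0) = -e := by ring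
        rw [h5, L.neg]
      · rw [if_neg hi, if_neg hi, sub_self, L.zero]
        exact pow_nonneg hπ.pos.le _)
  rw [rcy_X_sub, rcy_X_sub, ← hP0, ← hPe] at hz'
  exact ⟨z, hz, hz'⟩

/-- The cycles which are `l` times a displacement modulo rational equivalence. -/
noncomputable def lR (f : ι → MvPolynomial (Fin N) F) (L : Ld K Ω) (π : Ω) (l s : ℕ) :
    AddSubgroup ((Xf f).pt Ω →₀ ℤ) :=
  (Dr f L π s ⊥).map (nsmulAddMonoidHom l) ⊔ (Xf f).ratEq K Ω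

theorem mem_lR {l s : ℕ} {z : (Xf f).pt Ω →₀ ℤ} :
    z ∈ lR f L π l s ↔ ∃ z' ∈ Dr f L π s ⊥, z - l • z' ∈ (Xf f).ratEq K Ω := by
  unfold lR
  rw [AddSubgroup.mem_sup]
  constructor
  · rintro ⟨_, ⟨y, hy, rfl⟩, r, hr, rfl⟩
    refine ⟨y, hy, ?_⟩
    change l • y + r - l • y ∈ _
    rwa [add_sub_cancel_left]
  · rintro ⟨z', hz', h⟩
    exact ⟨l • z', ⟨z', hz', rfl⟩, _, h, add_sub_cancel _ _⟩

/-- A property of the generators. -/
theorem dr_ind (hf : Hm f) {ψ : Fin m → Prj K N d} (hc : Cvr f L ψ) (hπ : Uf L π) {s : ℕ}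
    (hs : s ≠ 0) {H : AddSubgroup ((Xf f).pt Ω →₀ ℤ)}
    (h : ∀ (M : IntermediateField K Ω) (k : Fin m) (x x' : Fin N → Ω) (P P' : (Xf f).pt Ω),
      Um L M → Iv L M x → Iv L M x' → L.nm (MvPolynomial.aeval ((ψ k).uv x) (ψ k).D) = 1 →
      Co P x → Co P' x' → (∀ i, L.nm (x' i - x i) ≤ L.nm π ^ s) →
        Nm (K := K) ⊥ M (Finsupp.single P' 1 - Finsupp.single P 1 : (Xf f).pt Ω →₀ ℤ) ∈ H) :
    Dr f L π s ⊥ ≤ H := by
  intro z hz
  rw [dr_gen] at hz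
  induction hz using AddSubgroup.closure_induction with
  | zero => exact zero_mem _
  | add a b _ _ ha hb => exact add_mem ha hb
  | neg a _ ha => exact neg_mem ha
  | mem z hz =>
    obtain ⟨M', y, y', he, h4, h5, h6, rfl⟩ := hz
    have hM' : Um L M' := by
      obtain ⟨-, N', hN', h⟩ := he
      exact ⟨N', hN', h⟩
    obtain ⟨x, x', i, hx, hx', hi, hi', h1, h1', h2⟩ := nrh_nco hf (hπ.pow_lt hs) h6
    obtain ⟨k, hk⟩ := hc x' h1' ⟨i, by rw [hi', L.one]⟩ fun j => by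
      rw [co_zero hx' j, L.zero]
      exact zero_lt_one
    exact h M' k x' x y' y hM' (fun j => ⟨fp_mem h5 hx' hi' j, h1' j⟩)
      (fun j => ⟨fp_mem h4 hx hi j, h1 j⟩) hk hx' hx h2

/-- **D1.** -/
theorem Uf.x_d1 (hπ : Uf L π) (hf : Hm f) {ψ : Fin m → Prj K N d} (hψ : ∀ i, Pj f L (ψ i))
    (hc : Cvr f L ψ) {l u s : ℕ} (hl : l.Prime) (hu : L.nm (l : Ω) = L.nm π ^ u)
    (hus : u < (l - 1) * s) :
    ∀ z ∈ Dr f L π (s + u) ⊥, ∃ z' ∈ Dr f L π s ⊥, z - l • z' ∈ (Xf f).ratEq K Ω := by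
  have hs0 : s ≠ 0 := by
    rintro rfl
    rw [Nat.mul_zero] at hus
    exact absurd hus (Nat.not_lt_zero u)
  intro z hz
  rw [← mem_lR]
  refine dr_ind hf hc hπ (s := s + u) (by omega) (fun M k x x' P P' hM hx hx' hk hP hP' h => ?_) hz
  have hfd : FiniteDimensional K M := hM.fd
  obtain ⟨z₁, hz₁, h7⟩ := hπ.d1_two (hψ k) hM hx hx' hk hP hP' hl hu hus h
  obtain ⟨z₂, hz₂, h9⟩ := GM.nm_div (V := Xf f) hM (l := l)
    (z := (Finsupp.single P' 1 - Finsupp.single P 1 : (Xf f).pt Ω →₀ ℤ)) ⟨z₁, hz₁, h7⟩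
    ((fx_single (fp_co hP' fun j => (hx' j).1) 1).sub
      (fx_single (fp_co hP fun j => (hx j).1) 1))
  exact mem_lR.2 ⟨z₂, hz₂, h9⟩

/-- Two near points: `p` times the displacement is a displacement of level `t`. -/
theorem Uf.pm_two (hπ : Uf L π) {ψ : Prj K N d} (hψ : Pj f L ψ) {M : IntermediateField K Ω}
    (hM : Um L M) {x x' : Fin N → Ω} (hx : Iv L M x) (hx' : Iv L M x')
    (hD : L.nm (MvPolynomial.aeval (ψ.uv x) ψ.D) = 1)
    {P P' : (Xf f).pt Ω} (hP : Co P x) (hP' : Co P' x') {u s t : ℕ}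
    (hu : L.nm (L.p : Ω) = L.nm π ^ u) (hs : s ≠ 0) (ht : t ≤ s + u) (ht' : t ≤ L.p * s)
    (ht0 : t ≠ 0) (h : ∀ i, L.nm (x' i - x i) ≤ L.nm π ^ s) :
    (L.p • (Finsupp.single P' 1 - Finsupp.single P 1) : (Xf f).pt Ω →₀ ℤ) ∈
      Dr f L π t M ⊔ (Xf f).ratEq M Ω := by
  have hfd : FiniteDimensional K M := hM.fd
  have h00 : L.nm (0 : Ω) < 1 := by rw [L.zero]; exact zero_lt_one
  have hπs : π ^ s ∈ M ∧ L.nm (π ^ s) < 1 := ⟨pow_mem (hπ.mem M) _, by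
    rw [L.pow]
    exact hπ.pow_lt hs⟩
  have hπ0 : π ^ s ≠ 0 := pow_ne_zero _ hπ.ne
  have hπp : 0 < L.nm π ^ s := pow_pos hπ.pos _
  obtain ⟨hux, hyx, hyx'⟩ := hψ.uv_iv hx
  obtain ⟨hux', -, -⟩ := hψ.uv_iv hx'
  have hDne : MvPolynomial.aeval (ψ.uv x) ψ.D ≠ 0 := L.ne_zero (by rw [hD]; exact zero_lt_one)
  have hG : L.nm (pe (ψ.uv x) (ψ.yv x) ψ.G) < 1 := by
    rw [(hψ.pt_eq (co_ne hP) (co_zero hP) hDne).1]
    exact h00
  obtain ⟨h', hh'⟩ : ∃ h' : Fin (d + 1) → Ω, h' = fun r => (ψ.uv x' r - ψ.uv x r) / π ^ s :=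
    ⟨_, rfl⟩
  have hh : Iv L M h' := fun r => by
    rw [hh']
    refine ⟨div_mem (sub_mem (hux' r).1 (hux r).1) hπs.1, ?_⟩
    rw [L.div, L.pow, div_le_one hπp]
    exact lv_close (hψ.iu r) hπp.le h
  have hxh : ∀ r, ψ.uv x r + π ^ s * h' r = ψ.uv x' r := fun r => by
    rw [hh']
    dsimp only
    rw [mul_div_cancel₀ _ hπ0]
    ring
  have hpM : (L.p : Ω) ∈ M := IntermediateField.natCast_mem M L.p
  have hpπ : L.nm ((L.p : Ω) * π ^ s) ≤ L.nm π ^ t := by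
    rw [L.mul, L.pow, hu, ← pow_add]
    exact hπ.pow_le (by omega)
  have hsm : ∀ r, L.nm ((L.p : Ω) * π ^ s * h' r) ≤ L.nm π ^ t := fun r => by
    rw [L.mul]
    exact (mul_le_of_le_one_right (L.nonneg _) (hh r).2).trans hpπ
  have ht1 := hπ.pow_lt ht0
  obtain ⟨x₂, P₂, h₂, -, -⟩ := exists_nb (f := f) (M := M) hψ (fun r => (hux r).2) hyx hyx' hD hG
    (π := π) (c' := fun r => ψ.uv x r + (L.p : Ω) * π ^ s * h' r) (fun r =>
      ⟨add_mem (hux r).1 (mul_mem (mul_mem hpM hπs.1) (hh r).1), (L.add _ _).trans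
        (max_le (hux r).2 ((hsm r).trans ht1.le))⟩) fun r => by
      rw [add_sub_cancel_left]
      exact (hsm r).trans_lt ht1
  have h₀ : Nb f L ψ π M (ψ.yv x) t (ψ.uv x) x P := ⟨hx, hP, by rw [sub_self]; exact h00,
    fun r => by
      rw [sub_self, L.zero]
      exact pow_nonneg (L.nonneg _) _⟩
  have h₁ : Nb f L ψ π M (ψ.yv x) t (fun r => ψ.uv x r + π ^ s * h' r) x' P' := by
    refine ⟨hx', hP', ?_, fun r => ?_⟩
    · exact (lv_close hψ.iy hπp.le h).trans_lt (hπ.pow_lt hs)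
    · rw [hxh, sub_self, L.zero]
      exact pow_nonneg (L.nonneg _) _
  have k1 := x_mul hπ hψ hM hux hh hyx hyx' hD hG (s := t) ht0 hπs (by
      rw [hu, L.pow, ← pow_mul, ← pow_add]
      exact hπ.pow_le (by omega)) (by
      rw [L.pow, ← pow_mul]
      exact hπ.pow_le (by rw [mul_comm]; exact ht')) h₀ h₁ (h₂ t)
  have k2 := nb_nb hπ hψ (fun r => (hux r).2) hD ht0 (c' := ψ.uv x)
    (fun r => by rw [sub_self]; exact h00) h₀ ((h₂ t).of fun r => by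
      rw [add_sub_cancel_left]
      exact hsm r)
  have e1 : (L.p • (Finsupp.single P' 1 - Finsupp.single P 1) : (Xf f).pt Ω →₀ ℤ) =
      (L.p • (Finsupp.single P' 1 - Finsupp.single P 1) -
        (Finsupp.single P₂ 1 - Finsupp.single P 1)) +
      (Finsupp.single P₂ 1 - Finsupp.single P 1) := by abel
  rw [e1]
  exact add_mem k1 (AddSubgroup.mem_sup_left k2)

/-- **The multiplication by `p`.** -/
theorem Uf.x_pm (hπ : Uf L π) (hf : Hm f) {ψ : Fin m → Prj K N d} (hψ : ∀ i, Pj f L (ψ i))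
    (hc : Cvr f L ψ) {u s t : ℕ} (hu : L.nm (L.p : Ω) = L.nm π ^ u) (hs : s ≠ 0)
    (ht : t ≤ s + u) (ht' : t ≤ L.p * s) :
    ∀ z ∈ Dr f L π s ⊥, L.p • z ∈ Dr f L π t ⊥ ⊔ (Xf f).ratEq K Ω := by
  rcases Nat.eq_zero_or_pos t with ht0 | ht0
  · subst ht0
    intro z hz
    exact AddSubgroup.mem_sup_left (nsmul_mem (dr_mono hπ (Nat.zero_le s) hz) _)
  intro z hz
  refine dr_ind (H := (Dr f L π t ⊥ ⊔ (Xf f).ratEq K Ω).comap (nsmulAddMonoidHom L.p)) hf hc hπ hs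
    (fun M k x x' P P' hM hx hx' hk hP hP' h => ?_) hz
  have hfd : FiniteDimensional K M := hM.fd
  have h1 := hπ.pm_two (hψ k) hM hx hx' hk hP hP' hu hs ht ht' ht0.ne' h
  have hfx : Fx M (Finsupp.single P' 1 - Finsupp.single P 1 : (Xf f).pt Ω →₀ ℤ) :=
    (fx_single (fp_co hP' fun j => (hx' j).1) 1).sub (fx_single (fp_co hP fun j => (hx j).1) 1)
  have h2 := GM.nm_sup hM h1 (hfx.nsmul L.p)
  rw [nm_nsmul bot_le] at h2
  exact h2

end GX
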