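import Pool.Agent.Lib.MP_f80667_ag.Lv.Te
import Pool.Agent.Lib.MP_f80667_ag.Gx.ChD

/-!
The tangent vectors of the displacements.

* `Gp.tan`: the difference of the points over `c + h` and `c` is the tangent vector over `h` up to the square of the norm of `h`.
* `dr_sum`: a displacement of level `s` as a finite sum of values.
-/

open ZC BE PE CV IntermediateField

namespace GX

variable {F : Type} [Field F] {N d m : ℕ} {ι : Type} {f : ι → MvPolynomial (Fin N) F} {K Ω : Type}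
  [Field K] [CharZero K] [Field Ω] [Algebra K Ω] [Algebra F K] [Algebra F Ω]
  [IsScalarTower F K Ω] [IsAlgClosure K Ω] {L : Ld K Ω} {π : Ω}

section pt

variable {ψ : Prj K N d} {M : IntermediateField K Ω} {c h : Fin (d + 1) → Ω} {w : Ω}

theorem lt_form (c ξ : Fin (d + 1) → Ω) (w : Ω) (j : Fin N) :
    (ψ.om Ω).lt c w ξ j = (∑ r, ξ r * pe c w (ψ.tp r j)) /
      (MvPolynomial.aeval c ψ.D ^ 2 * pe c w (Polynomial.derivative ψ.G)) := by
  have h1 : ∀ r, (ψ.om Ω).lt c w (Pi.single r 1) j = pe c w ((ψ.om Ω).tp r j) /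
      (MvPolynomial.eval c (ψ.om Ω).D ^ 2 *
        pe c w (Polynomial.derivative (ψ.om Ω).G)) := by
    intro r
    rw [Prj.lt, Finset.sum_eq_single r]
    · rw [Pi.single_eq_same, one_mul]
    · intro b _ hb
      rw [Pi.single_eq_of_ne hb, zero_mul]
    · intro h
      exact absurd (Finset.mem_univ r) h
  rw [Prj.lt, Finset.sum_div, Finset.sum_div]
  refine Finset.sum_congr rfl fun r _ => ?_
  rw [mul_div_assoc, ← h1, lt_map, mul_div_assoc]

/-- The tangent vectors over `M`. -/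
theorem lt_mem {ξ : Fin (d + 1) → Ω} (hc : ∀ r, c r ∈ M) (hw : w ∈ M) (hξ : ∀ r, ξ r ∈ M)
    (j : Fin N) : (ψ.om Ω).lt c w ξ j ∈ M := by
  rw [lt_form]
  refine M.div_mem (sum_mem fun r _ => M.mul_mem (hξ r) (pe_mem _ hc hw))
    (M.mul_mem (pow_mem (aev_mem _ hc) 2) (pe_mem _ hc hw))

/-- **The tangent vector.** -/
theorem Gp.tan (hψ : Pj f L ψ) (g : Gp L ψ M c w) (hh : Iv L M h) {t : ℝ} (ht0 : 0 ≤ t)
    (ht : t < 1) (h1 : ∀ r, L.nm (h r) ≤ t) :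
    Tg (fun i => MvPolynomial.map (algebraMap F Ω) (f i)) ((ψ.om Ω).pt c w)
      ((ψ.om Ω).lt c w h) ∧
    (∀ j, (ψ.om Ω).lt c w h j ∈ M) ∧ (∀ j, L.nm ((ψ.om Ω).lt c w h j) ≤ t) ∧
    ∀ j, L.nm ((ψ.om Ω).pt (c + h) (sht L ψ w (c + h)) j - (ψ.om Ω).pt c w j -
      (ψ.om Ω).lt c w h j) ≤ t ^ 2 := by
  obtain ⟨a1, a2, a3, a4, P, a5, a6, a7⟩ := g.pt hψ
  obtain ⟨b, -⟩ := g.sh hψ hh ht h1
  obtain ⟨b1, b2, b3, b4, P', b5, b6, b7⟩ := b.pt hψ
  have hD : MvPolynomial.eval c (ψ.om Ω).D ≠ 0 := by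
    rw [om_D]
    exact L.ne_zero (by rw [g.D]; exact one_pos)
  refine ⟨(hψ.ok.lt_tg (om_hom hψ.hom) (by rw [om_G]; exact g.G) hD h).1,
    lt_mem (fun r => (g.iv r).1) g.mem fun r => (hh r).1,
    hψ.lt_le (fun r => (g.iv r).2) g.le g.G g.D ht0 h1, fun j => ?_⟩
  have h2 := hψ.second (x := (ψ.om Ω).pt c w)
    (x' := (ψ.om Ω).pt (c + h) (sht L ψ w (c + h))) (fun j => (a1 j).2) (fun j => (b1 j).2)
    (co_zero a5) (co_zero b5) (by rw [a3]; exact g.D) ht0 ht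
    (g.near hψ hh ht h1) j
  rwa [a3, a4, b3, add_sub_cancel_left] at h2

end pt

/-- **A displacement of level `s` as a finite sum.** -/
theorem dr_sum (hf : Hm f) {ψ : Fin m → Prj K N d} (hψ : ∀ i, Pj f L (ψ i)) (hc : Cvr f L ψ)
    (hπ : Uf L π) {s : ℕ} (hs : s ≠ 0) {k : ℕ} (hk : L.Rf ⊥ k) {z : (Xf f).pt Ω →₀ ℤ}
    (hz : z ∈ Dr f L π s (⊥ : IntermediateField K Ω)) :
    ∃ (I : Type) (S : Finset I) (e : I → ℤ) (i : I → Fin m) (n : I → ℕ)
      (c : I → Fin (d + 1) → Ω) (w : I → Ω) (h : I → Fin (d + 1) → Ω),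
      (∀ a, n a ≠ 0 ∧ k ∣ n a ∧ Gp L (ψ (i a)) (L.Ur ⊥ (n a)) (c a) (w a) ∧
        Iv L (L.Ur ⊥ (n a)) (h a) ∧ ∀ r, L.nm (h a r) ≤ L.nm π ^ s) ∧
      z = ∑ a ∈ S, e a • cyv f L (ψ (i a)) (L.Ur ⊥ (n a)) (c a) (w a) (h a) := by
  classical
  have h1 := dr_cyv hf hψ hc hπ hs hk hz
  clear hz
  induction h1 using AddSubgroup.closure_induction with
  | mem z hz =>
    obtain ⟨i, n, c, w, h, h1, h2, h3, h4, h5, rfl⟩ := hz
    refine ⟨Unit, {()}, fun _ => 1, fun _ => i, fun _ => n, fun _ => c, fun _ => w, fun _ => h,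
      fun _ => ⟨h1, h2, h3, h4, h5⟩, ?_⟩
    rw [Finset.sum_singleton, one_smul]
  | zero =>
    refine ⟨Empty, ∅, fun _ => 1, fun i => i.elim, fun i => i.elim, fun i => i.elim,
      fun i => i.elim, fun i => i.elim, fun i => i.elim, ?_⟩
    rw [Finset.sum_empty]
  | add z z' _ _ h h' =>
    obtain ⟨I, S, e, i, n, c, w, h, h1, rfl⟩ := h
    obtain ⟨I', S', e', i', n', c', w', h', h1', rfl⟩ := h'
    refine ⟨I ⊕ I', S.disjSum S', Sum.elim e e', Sum.elim i i', Sum.elim n n', Sum.elim c c',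
      Sum.elim w w', Sum.elim h h', ?_, ?_⟩
    · rintro (a | a)
      · exact h1 a
      · exact h1' a
    · rw [Finset.sum_disjSum]
      rfl
  | neg z _ h =>
    obtain ⟨I, S, e, i, n, c, w, h, h1, rfl⟩ := h
    refine ⟨I, S, fun a => - e a, i, n, c, w, h, h1, ?_⟩
    rw [← Finset.sum_neg_distrib]
    exact Finset.sum_congr rfl fun a _ => by rw [neg_smul]

end GX
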