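import Pool.Agent.Lib.MP_f80667_ag.Lv.Ln

/-!
Relations between displacements of level `s`: additivity, four points on a line, the multiplication by `p`.
-/

open ZC BE PE CV IntermediateField Polynomial

namespace GX

section coe

variable {K Ω : Type} [Field K] [Field Ω] [Algebra K Ω] (L : Ld K Ω)

/-- Two pairs of points with the same sum. -/
theorem two_coeff {a b a' b' : Ω} (h : a + b = a' + b') {t : ℝ} (ht : L.nm (a * b - a' * b') ≤ t)
    (k : ℕ) : L.nm ((∏ i, (X - C (![a, b] i)) : Polynomial Ω).coeff k -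
      (∏ i, (X - C (![a', b'] i)) : Polynomial Ω).coeff k) ≤ t := by
  have ht0 : 0 ≤ t := (L.nonneg _).trans ht
  have e1 : ∀ a b : Ω, (∏ i, (X - C (![a, b] i)) : Polynomial Ω) =
      X ^ 2 + C (-(a + b)) * X + C (a * b) := by
    intro a b
    rw [Fin.prod_univ_two]
    simp only [Matrix.cons_val_zero, Matrix.cons_val_one]
    rw [C_neg, C_add, C_mul]
    ring
  rw [← coeff_sub, e1, e1, h]
  have e2 : (X ^ 2 + C (-(a' + b')) * X + C (a * b) - (X ^ 2 + C (-(a' + b')) * X + C (a' * b')) :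
      Polynomial Ω) = C (a * b - a' * b') := by
    rw [C_sub]
    ring
  rw [e2, coeff_C]
  split_ifs
  · exact ht
  · rw [L.zero]
    exact ht0

/-- `(X - a) ^ n` and `X ^ (n - 1) (X - n a)` for a prime `n`. -/
theorem pow_coeff {n : ℕ} (hn : n.Prime) {a : Ω} (ha : L.nm a ≤ 1) {t : ℝ}
    (h1 : L.nm (n : Ω) * L.nm a ^ 2 ≤ t) (h2 : L.nm a ^ n ≤ t) (k : ℕ) :
    L.nm (((X - C a) ^ n : Polynomial Ω).coeff k -
      ((X - C ((n : Ω) * a)) * X ^ (n - 1) : Polynomial Ω).coeff k) ≤ t := by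
  have ht0 : 0 ≤ t := (pow_nonneg (L.nonneg _) _).trans h2
  have hn2 := hn.two_le
  obtain ⟨m, rfl⟩ : ∃ m, n = m + 1 := ⟨n - 1, by omega⟩
  have e1 : ((X - C (((m + 1 : ℕ) : Ω) * a)) * X ^ (m + 1 - 1) : Polynomial Ω) =
      X ^ (m + 1) - C (((m + 1 : ℕ) : Ω) * a) * X ^ m := by
    rw [Nat.add_sub_cancel, sub_mul, pow_succ']
  have e0 : (X - C a : Polynomial Ω) = X + C (-a) := by rw [C_neg, sub_eq_add_neg]
  rw [e1, e0, coeff_X_add_C_pow, coeff_sub, coeff_X_pow, coeff_C_mul, coeff_X_pow]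
  rcases lt_trichotomy k (m + 1) with h | h | h
  · rcases Nat.lt_or_ge k m with h' | h'
    · rw [if_neg h.ne, if_neg h'.ne, mul_zero, sub_zero, sub_zero, L.mul, L.pow, L.neg]
      rcases Nat.eq_zero_or_pos k with hk | hk
      · subst hk
        rw [Nat.sub_zero, Nat.choose_zero_right, Nat.cast_one, L.one, mul_one]
        exact h2
      · obtain ⟨c, hc⟩ := hn.dvd_choose_self hk.ne' h
        rw [hc, Nat.cast_mul, L.mul]
        have h3 : L.nm a ^ (m + 1 - k) ≤ L.nm a ^ 2 :=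
          pow_le_pow_of_le_one (L.nonneg _) ha (by omega)
        have h4 : L.nm ((m + 1 : ℕ) : Ω) * L.nm (c : Ω) ≤ L.nm ((m + 1 : ℕ) : Ω) :=
          mul_le_of_le_one_right (L.nonneg _) (L.nat_le c)
        calc L.nm a ^ (m + 1 - k) * (L.nm ((m + 1 : ℕ) : Ω) * L.nm (c : Ω))
            ≤ L.nm a ^ 2 * L.nm ((m + 1 : ℕ) : Ω) :=
              mul_le_mul h3 h4 (mul_nonneg (L.nonneg _) (L.nonneg _)) (pow_nonneg (L.nonneg _) _)
          _ ≤ t := by rw [mul_comm]; exact h1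
    · have h'' : k = m := by omega
      subst h''
      rw [if_neg h.ne, if_pos rfl, mul_one, Nat.add_sub_cancel_left, pow_one,
        Nat.choose_succ_self_right]
      have e2 : -a * ((k + 1 : ℕ) : Ω) - (0 - ((k + 1 : ℕ) : Ω) * a) = 0 := by ring
      rw [e2, L.zero]
      exact ht0
  · subst h
    rw [Nat.sub_self, pow_zero, Nat.choose_self, Nat.cast_one, if_pos rfl, if_neg (by omega),
      mul_zero, sub_zero, mul_one, sub_self, L.zero]
    exact ht0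
  · rw [Nat.choose_eq_zero_of_lt h, Nat.cast_zero, if_neg h.ne', if_neg (by omega), mul_zero,
      mul_zero, sub_zero, sub_zero, L.zero]
    exact ht0

end coe

variable {F : Type} [Field F] {N d : ℕ} {ι : Type} {f : ι → MvPolynomial (Fin N) F} {K Ω : Type}
  [Field K] [CharZero K] [Field Ω] [Algebra K Ω] [Algebra F K] [Algebra F Ω]
  [IsScalarTower F K Ω] [IsAlgClosure K Ω] {L : Ld K Ω} {ψ : Prj K N d} {π : Ω}
  {M : IntermediateField K Ω}

/-- Two pairs of points on a line. -/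
theorem ln_two (hπ : Uf L π) (hψ : Pj f L ψ) (hM : Um L M) {c h : Fin (d + 1) → Ω}
    (hc : Iv L M c) (hh : Iv L M h) {w₀ : Ω} (hw : w₀ ∈ M) (hw1 : L.nm w₀ ≤ 1)
    (hD : L.nm (MvPolynomial.aeval c ψ.D) = 1) (hG : L.nm (pe c w₀ ψ.G) < 1)
    {x₁ x₂ x₃ x₄ : Fin N → Ω} {P₁ P₂ P₃ P₄ : (Xf f).pt Ω} {a b a' b' : Ω} {s : ℕ} (hs : s ≠ 0)
    (h₁ : Nb f L ψ π M w₀ s (fun r => c r + a * h r) x₁ P₁)
    (h₂ : Nb f L ψ π M w₀ s (fun r => c r + b * h r) x₂ P₂)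
    (h₃ : Nb f L ψ π M w₀ s (fun r => c r + a' * h r) x₃ P₃)
    (h₄ : Nb f L ψ π M w₀ s (fun r => c r + b' * h r) x₄ P₄)
    (ha : a ∈ M ∧ L.nm a < 1) (hb : b ∈ M ∧ L.nm b < 1) (ha' : a' ∈ M ∧ L.nm a' < 1)
    (hb' : b' ∈ M ∧ L.nm b' < 1) (hab : a + b = a' + b')
    (hs' : L.nm (a * b - a' * b') ≤ L.nm π ^ s) :
    (Finsupp.single P₁ 1 + Finsupp.single P₂ 1 - (Finsupp.single P₃ 1 + Finsupp.single P₄ 1) :
      (Xf f).pt Ω →₀ ℤ) ∈ Dr f L π s M ⊔ (Xf f).ratEq M Ω := by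
  have h := ln hπ hψ hM hc hh hw hw1 hD hG (n := 2) (x := ![x₁, x₂]) (x' := ![x₃, x₄])
    (P := ![P₁, P₂]) (P' := ![P₃, P₄]) (α := ![a, b]) (α' := ![a', b']) hs
    (fun i => by
      fin_cases i
      · exact h₁
      · exact h₂)
    (fun i => by
      fin_cases i
      · exact h₃
      · exact h₄)
    (fun i => by
      fin_cases i
      · exact ha
      · exact hb)
    (fun i => by
      fin_cases i
      · exact ha'
      · exact hb')
    (two_coeff L hab hs')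
  rw [Fin.sum_univ_two, Fin.sum_univ_two] at h
  exact h

/-- **Additivity** of the displacements with the error `α ^ 2`. -/
theorem x_add (hπ : Uf L π) (hψ : Pj f L ψ) (hp : 2 < L.p) (hM : Um L M)
    {c u v : Fin (d + 1) → Ω} (hc : Iv L M c) (hu : Iv L M u) (hv : Iv L M v) {w₀ : Ω}
    (hw : w₀ ∈ M) (hw1 : L.nm w₀ ≤ 1) (hD : L.nm (MvPolynomial.aeval c ψ.D) = 1)
    (hG : L.nm (pe c w₀ ψ.G) < 1) {x₀ x₁ x₂ x₃ : Fin N → Ω} {P₀ P₁ P₂ P₃ : (Xf f).pt Ω} {α : Ω}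
    (hα : α ∈ M) (hα1 : L.nm α < 1) {s : ℕ} (hs : s ≠ 0) (hαs : L.nm α ^ 2 ≤ L.nm π ^ s)
    (h₀ : Nb f L ψ π M w₀ s c x₀ P₀)
    (h₁ : Nb f L ψ π M w₀ s (fun r => c r + α * u r) x₁ P₁)
    (h₂ : Nb f L ψ π M w₀ s (fun r => c r + α * v r) x₂ P₂)
    (h₃ : Nb f L ψ π M w₀ s (fun r => c r + α * (u r + v r)) x₃ P₃) :
    (Finsupp.single P₁ 1 + Finsupp.single P₂ 1 - (Finsupp.single P₀ 1 + Finsupp.single P₃ 1) :
      (Xf f).pt Ω →₀ ℤ) ∈ Dr f L π s M ⊔ (Xf f).ratEq M Ω := by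
  have hfd : FiniteDimensional K M := hM.fd
  have h2n : L.nm (2 : Ω) = 1 := by
    have h1 : ¬ L.p ∣ 2 := fun h => absurd (Nat.le_of_dvd two_pos h) (not_le.2 hp)
    have h2 := L.nat_unit h1
    rwa [Nat.cast_ofNat] at h2
  have h20 : (2 : Ω) ≠ 0 := L.ne_zero (by rw [h2n]; exact zero_lt_one)
  have h2M : (2 : Ω) ∈ M := by
    have h := IntermediateField.natCast_mem M 2
    rwa [Nat.cast_ofNat] at h
  have hhalf : α / 2 ∈ M ∧ L.nm (α / 2) < 1 := by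
    refine ⟨div_mem hα h2M, ?_⟩
    rw [L.div, h2n, div_one]
    exact hα1
  have hh2 : α / 2 + α / 2 = α := by rw [← two_mul, mul_div_cancel₀ _ h20]
  have hz : (0 : Ω) ∈ M ∧ L.nm (0 : Ω) < 1 := ⟨zero_mem M, by rw [L.zero]; exact zero_lt_one⟩
  have hsm : ∀ {t v : Ω}, t ∈ M ∧ L.nm t ≤ 1 → v ∈ M ∧ L.nm v < 1 → v * t ∈ M ∧ L.nm (v * t) < 1 := by
    intro t v ht hv
    refine ⟨mul_mem hv.1 ht.1, ?_⟩
    rw [L.mul]
    exact mul_lt_one_of_nonneg_of_lt_one_left (L.nonneg _) hv.2 ht.2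
  have hadd : Iv L M fun r => u r + v r := fun r =>
    ⟨add_mem (hu r).1 (hv r).1, (L.add _ _).trans (max_le (hu r).2 (hv r).2)⟩
  -- the midpoint
  obtain ⟨x₄, P₄, h₄, -, -⟩ := exists_nb (f := f) (M := M) hψ (fun r => (hc r).2) hw hw1 hD hG
    (π := π) (c' := fun r => c r + α / 2 * (u r + v r)) (fun r =>
      ⟨add_mem (hc r).1 (hsm (hadd r) hhalf).1, (L.add _ _).trans (max_le (hc r).2
        (hsm (hadd r) hhalf).2.le)⟩) fun r => by
      rw [add_sub_cancel_left]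
      exact (hsm (hadd r) hhalf).2
  have hmid : L.nm (α / 2 * (α / 2)) ≤ L.nm π ^ s := by
    rw [L.mul, L.div, h2n, div_one, ← pow_two]
    exact hαs
  -- the line through `c`
  have k1 := ln_two hπ hψ hM hc hadd hw hw1 hD hG hs (a := 0) (b := α) (a' := α / 2)
    (b' := α / 2) (h₀.of fun r => by
      rw [zero_mul, add_zero, sub_self, L.zero]
      exact pow_nonneg (L.nonneg _) s) h₃ (h₄ s) (h₄ s) hz ⟨hα, hα1⟩ hhalf hhalf
    (by rw [zero_add, hh2]) (by rw [zero_mul, zero_sub, L.neg]; exact hmid)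
  -- the line through `c + α v` with the direction `u - v`
  have hcv : Iv L M fun r => c r + α * v r := fun r =>
    ⟨add_mem (hc r).1 (hsm (hv r) ⟨hα, hα1⟩).1, (L.add _ _).trans (max_le (hc r).2
      (hsm (hv r) ⟨hα, hα1⟩).2.le)⟩
  have hcv1 : ∀ r, L.nm (c r - (c r + α * v r)) < 1 := fun r => by
    rw [sub_add_cancel_left, L.neg]
    exact (hsm (hv r) ⟨hα, hα1⟩).2
  have hsub : Iv L M fun r => u r - v r := fun r =>
    ⟨sub_mem (hu r).1 (hv r).1, (L.sub _ _).trans (max_le (hu r).2 (hv r).2)⟩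
  have hD' := hψ.D_close (fun r => (hc r).2) (fun r => (hcv r).2) hcv1 hD
  obtain ⟨i₀, -, hi₀⟩ := Finset.exists_max_image Finset.univ
    (fun r => L.nm (c r - (c r + α * v r))) ⟨0, Finset.mem_univ _⟩
  have hG' : L.nm (pe (fun r => c r + α * v r) w₀ ψ.G) < 1 := by
    have l1 := pe_close hψ.iG (fun r => (hc r).2) hw1 (fun r => (hcv r).2) hw1 (L.nonneg _)
      (fun r => hi₀ r (Finset.mem_univ r)) (by rw [sub_self, L.zero]; exact L.nonneg _)
    have l2 := L.sub (pe c w₀ ψ.G) (pe c w₀ ψ.G - pe (fun r => c r + α * v r) w₀ ψ.G)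
    rw [sub_sub_cancel] at l2
    exact l2.trans_lt (max_lt hG (l1.trans_lt (hcv1 i₀)))
  have k2 := ln_two hπ hψ hM hcv hsub hw hw1 hD' hG' hs (a := α) (b := 0) (a' := α / 2)
    (b' := α / 2) (h₁.of fun r => by
      have e1 : c r + α * u r - (c r + α * v r + α * (u r - v r)) = 0 := by ring
      rw [e1, L.zero]
      exact pow_nonneg (L.nonneg _) s) (h₂.of fun r => by
      rw [zero_mul, add_zero, sub_self, L.zero]
      exact pow_nonneg (L.nonneg _) s) ((h₄ s).of fun r => by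
      have e1 : c r + α / 2 * (u r + v r) - (c r + α * v r + α / 2 * (u r - v r)) = 0 := by
        field_simp
        ring
      rw [e1, L.zero]
      exact pow_nonneg (L.nonneg _) s) ((h₄ s).of fun r => by
      have e1 : c r + α / 2 * (u r + v r) - (c r + α * v r + α / 2 * (u r - v r)) = 0 := by
        field_simp
        ring
      rw [e1, L.zero]
      exact pow_nonneg (L.nonneg _) s) ⟨hα, hα1⟩ hz hhalf hhalf
    (by rw [add_zero, hh2]) (by rw [mul_zero, zero_sub, L.neg]; exact hmid)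
  have e2 : (Finsupp.single P₁ 1 + Finsupp.single P₂ 1 -
      (Finsupp.single P₀ 1 + Finsupp.single P₃ 1) : (Xf f).pt Ω →₀ ℤ) =
      (Finsupp.single P₁ 1 + Finsupp.single P₂ 1 -
        (Finsupp.single P₄ 1 + Finsupp.single P₄ 1)) -
      (Finsupp.single P₀ 1 + Finsupp.single P₃ 1 -
        (Finsupp.single P₄ 1 + Finsupp.single P₄ 1)) := by abel
  rw [e2]
  exact sub_mem k2 k1

/-- **Four points on a line** (PAR). -/
theorem x_par (hπ : Uf L π) (hψ : Pj f L ψ) (hM : Um L M) {c h : Fin (d + 1) → Ω}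
    (hc : Iv L M c) (hh : Iv L M h) {w₀ : Ω} (hw : w₀ ∈ M) (hw1 : L.nm w₀ ≤ 1)
    (hD : L.nm (MvPolynomial.aeval c ψ.D) = 1) (hG : L.nm (pe c w₀ ψ.G) < 1)
    {x₀ x₁ x₂ x₃ : Fin N → Ω} {P₀ P₁ P₂ P₃ : (Xf f).pt Ω} {α β : Ω} {s : ℕ} (hs : s ≠ 0)
    (hα : α ∈ M ∧ L.nm α < 1) (hβ : β ∈ M ∧ L.nm β < 1) (hs' : L.nm (α * β) ≤ L.nm π ^ s)
    (h₀ : Nb f L ψ π M w₀ s c x₀ P₀)
    (h₁ : Nb f L ψ π M w₀ s (fun r => c r + α * h r) x₁ P₁)
    (h₂ : Nb f L ψ π M w₀ s (fun r => c r + β * h r) x₂ P₂)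
    (h₃ : Nb f L ψ π M w₀ s (fun r => c r + (α + β) * h r) x₃ P₃) :
    (Finsupp.single P₁ 1 + Finsupp.single P₂ 1 - (Finsupp.single P₀ 1 + Finsupp.single P₃ 1) :
      (Xf f).pt Ω →₀ ℤ) ∈ Dr f L π s M ⊔ (Xf f).ratEq M Ω := by
  have hz : (0 : Ω) ∈ M ∧ L.nm (0 : Ω) < 1 := ⟨zero_mem M, by rw [L.zero]; exact zero_lt_one⟩
  exact ln_two hπ hψ hM hc hh hw hw1 hD hG hs (a := α) (b := β) (a' := 0) (b' := α + β) h₁ h₂
    (h₀.of fun r => by
      rw [zero_mul, add_zero, sub_self, L.zero]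
      exact pow_nonneg (L.nonneg _) s) h₃ hα hβ hz
    ⟨add_mem hα.1 hβ.1, (L.add _ _).trans_lt (max_lt hα.2 hβ.2)⟩ (zero_add _).symm
    (by rw [zero_mul, sub_zero]; exact hs')

/-- **The multiplication by `p`**: `p` times the displacement by `α h` is the displacement by `p α h`. -/
theorem x_mul (hπ : Uf L π) (hψ : Pj f L ψ) (hM : Um L M) {c h : Fin (d + 1) → Ω}
    (hc : Iv L M c) (hh : Iv L M h) {w₀ : Ω} (hw : w₀ ∈ M) (hw1 : L.nm w₀ ≤ 1)
    (hD : L.nm (MvPolynomial.aeval c ψ.D) = 1) (hG : L.nm (pe c w₀ ψ.G) < 1)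
    {x₀ x₁ x₂ : Fin N → Ω} {P₀ P₁ P₂ : (Xf f).pt Ω} {α : Ω} {s : ℕ} (hs : s ≠ 0)
    (hα : α ∈ M ∧ L.nm α < 1) (hs1 : L.nm (L.p : Ω) * L.nm α ^ 2 ≤ L.nm π ^ s)
    (hs2 : L.nm α ^ L.p ≤ L.nm π ^ s)
    (h₀ : Nb f L ψ π M w₀ s c x₀ P₀)
    (h₁ : Nb f L ψ π M w₀ s (fun r => c r + α * h r) x₁ P₁)
    (h₂ : Nb f L ψ π M w₀ s (fun r => c r + (L.p : Ω) * α * h r) x₂ P₂) :
    (L.p • (Finsupp.single P₁ 1 - Finsupp.single P₀ 1) -
      (Finsupp.single P₂ 1 - Finsupp.single P₀ 1) : (Xf f).pt Ω →₀ ℤ) ∈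
        Dr f L π s M ⊔ (Xf f).ratEq M Ω := by
  have hz : (0 : Ω) ∈ M ∧ L.nm (0 : Ω) < 1 := ⟨zero_mem M, by rw [L.zero]; exact zero_lt_one⟩
  have hpM : (L.p : Ω) ∈ M := IntermediateField.natCast_mem M L.p
  have hpα : (L.p : Ω) * α ∈ M ∧ L.nm ((L.p : Ω) * α) < 1 := by
    refine ⟨mul_mem hpM hα.1, ?_⟩
    rw [L.mul]
    exact mul_lt_one_of_nonneg_of_lt_one_left (L.nonneg _) L.lt hα.2.le
  have hpp := L.pp
  obtain ⟨m, hm⟩ : ∃ m, L.p = m + 1 := ⟨L.p - 1, by have := hpp.two_le; omega⟩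
  have h := ln hπ hψ hM hc hh hw hw1 hD hG (n := m + 1) (x := fun _ => x₁)
    (x' := Fin.cons x₂ fun _ => x₀) (P := fun _ => P₁) (P' := Fin.cons P₂ fun _ => P₀)
    (α := fun _ => α) (α' := Fin.cons ((L.p : Ω) * α) fun _ => 0) hs (fun _ => h₁)
    (fun i => by
      refine Fin.cases ?_ (fun i => ?_) i
      · exact h₂
      · simp only [Fin.cons_succ]
        exact h₀.of fun r => by
          rw [zero_mul, add_zero, sub_self, L.zero]
          exact pow_nonneg (L.nonneg _) s)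
    (fun _ => hα)
    (fun i => by
      refine Fin.cases ?_ (fun i => ?_) i
      · exact hpα
      · exact hz)
    (fun k => by
      have e1 : (∏ _i : Fin (m + 1), (X - C α) : Polynomial Ω) = (X - C α) ^ L.p := by
        rw [Finset.prod_const, Finset.card_univ, Fintype.card_fin, hm]
      have e2 : (∏ i : Fin (m + 1), (X - C (Fin.cons (α := fun _ => Ω) ((L.p : Ω) * α)
          (fun _ => 0) i)) : Polynomial Ω) = (X - C ((L.p : Ω) * α)) * X ^ (L.p - 1) := by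
        rw [Fin.prod_univ_succ, Fin.cons_zero]
        simp only [Fin.cons_succ, C_0, sub_zero]
        rw [Finset.prod_const, Finset.card_univ, Fintype.card_fin, hm, Nat.add_sub_cancel]
      rw [e1, e2]
      exact pow_coeff L hpp hα.2.le hs1 hs2 k)
  rw [Finset.sum_const, Finset.card_univ, Fintype.card_fin, Fin.sum_univ_succ, Fin.cons_zero] at h
  simp only [Fin.cons_succ] at h
  rw [Finset.sum_const, Finset.card_univ, Fintype.card_fin] at h
  have e3 : (L.p • (Finsupp.single P₁ 1 - Finsupp.single P₀ 1) -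
      (Finsupp.single P₂ 1 - Finsupp.single P₀ 1) : (Xf f).pt Ω →₀ ℤ) =
      (m + 1) • Finsupp.single P₁ 1 - (Finsupp.single P₂ 1 + m • Finsupp.single P₀ 1) := by
    rw [hm, smul_sub, succ_nsmul (Finsupp.single P₀ (1 : ℤ)) m]
    abel
  rw [e3]
  exact h

end GX
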