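import Pool.Agent.Lib.MP_f80667_ag.Lv.Je
import Pool.Agent.Lib.MP_f80667_ag.Gy.TA

/-!
The branch over a line; the trace relation at level `s`.
-/

open ZC BE PE CV IntermediateField Polynomial

namespace GX

section nm

variable {K Ω : Type} [Field K] [CharZero K] [Field Ω] [Algebra K Ω] [IsAlgClosure K Ω]
  {L : Ld K Ω} {M M' : IntermediateField K Ω}

omit [CharZero K] [IsAlgClosure K Ω] in
theorem em_of (h : M ≤ M') (hM' : Um L M') : Em L M M' := by
  obtain ⟨N', hN', h'⟩ := hM'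
  exact ⟨h, N', hN', h'.trans (Ld.ur_mono bot_le N')⟩

variable {A : Type} [AddCommGroup A] [DistribMulAction (Ω ≃ₐ[K] Ω) A]

theorem nm_sub' [FiniteDimensional K M'] (h : M ≤ M') (P Q : A) :
    Nm M M' (P - Q) = Nm M M' P - Nm M M' Q := by
  have h1 := nm_add h (P - Q) Q
  rw [sub_add_cancel] at h1
  rw [h1, add_sub_cancel_right]

theorem nm_zero' [FiniteDimensional K M'] (h : M ≤ M') : Nm M M' (0 : A) = 0 := by
  have h1 := nm_sub' h (0 : A) 0
  rwa [sub_self, sub_self] at h1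

theorem nm_neg' [FiniteDimensional K M'] (h : M ≤ M') (P : A) : Nm M M' (-P) = -Nm M M' P := by
  have h1 := nm_sub' h (0 : A) P
  rwa [zero_sub, nm_zero' h, zero_sub] at h1

theorem nm_sum' [FiniteDimensional K M'] (h : M ≤ M') {κ : Type} (s : Finset κ) (P : κ → A) :
    Nm M M' (∑ i ∈ s, P i) = ∑ i ∈ s, Nm M M' (P i) := by
  classical
  induction s using Finset.induction_on with
  | empty => rw [Finset.sum_empty, Finset.sum_empty, nm_zero' h]
  | insert a s ha ih => rw [Finset.sum_insert ha, Finset.sum_insert ha, nm_add h, ih]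

end nm

variable {F : Type} [Field F] {N d : ℕ} {ι : Type} {f : ι → MvPolynomial (Fin N) F} {K Ω : Type}
  [Field K] [CharZero K] [Field Ω] [Algebra K Ω] [Algebra F K] [Algebra F Ω]
  [IsScalarTower F K Ω] [IsAlgClosure K Ω] {L : Ld K Ω} {ψ : Prj K N d} {π : Ω}
  {M M' : IntermediateField K Ω}

/-- The norms of displacements over an unramified extension. -/
theorem dr_nm' [FiniteDimensional K M] (h : Em L M M') {s : ℕ} {z : (Xf f).pt Ω →₀ ℤ}
    (hz : z ∈ Dr f L π s M') : Nm M M' z ∈ Dr f L π s M := by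
  have hfd : FiniteDimensional K M' := h.fd
  rw [dr_gen] at hz
  induction hz using AddSubgroup.closure_induction with
  | mem z hz =>
    obtain ⟨M₁, y, y', he, h4, h5, h6, rfl⟩ := hz
    have hfd₁ : FiniteDimensional K M₁ := he.fd
    rw [← nm_tr h.1 he.1 ((fx_single h4 1).sub (fx_single h5 1)), dr_gen]
    exact AddSubgroup.subset_closure ⟨M₁, y, y', h.trans he, h4, h5, h6, rfl⟩
  | zero =>
    rw [nm_zero' h.1]
    exact zero_mem _
  | add a b _ _ ha hb =>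
    rw [nm_add h.1]
    exact add_mem ha hb
  | neg a _ ha =>
    rw [nm_neg' h.1]
    exact neg_mem ha

/-- **The branch over a line.** -/
theorem exists_ln (hπ : Uf L π) (hψ : Pj f L ψ) (hM : Um L M) {c h : Fin (d + 1) → Ω}
    (hc : Iv L M c) (hh : Iv L M h) {w₀ : Ω} (hw : w₀ ∈ M) (hw1 : L.nm w₀ ≤ 1)
    (hD : L.nm (MvPolynomial.aeval c ψ.D) = 1) (hG : L.nm (pe c w₀ ψ.G) < 1) :
    ∃ B : Ω → (Xf f).pt Ω,
      (∀ γ ∈ M.fixingSubgroup, ∀ a, L.nm a < 1 → (Xf f).act γ (B a) = B (γ a)) ∧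
      (∀ M' : IntermediateField K Ω, M ≤ M' → ∀ a ∈ M', L.nm a < 1 → Fp (Xf f) M' (B a)) ∧
      (∀ M' : IntermediateField K Ω, FiniteDimensional K M' → M ≤ M' → ∀ a ∈ M', L.nm a < 1 →
        ∀ (x : Fin N → Ω) (P : (Xf f).pt Ω) (s : ℕ), s ≠ 0 →
          Nb f L ψ π M' w₀ s (fun r => c r + a * h r) x P →
            (Finsupp.single P 1 - Finsupp.single (B a) 1 : (Xf f).pt Ω →₀ ℤ) ∈ Dr f L π s M') ∧
      ∀ q q' : Polynomial Ω, Dpo L M q → Dpo L M q' → q.natDegree = q'.natDegree → ∀ s ≠ 0,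
        (∀ i, L.nm (q.coeff i - q'.coeff i) ≤ L.nm π ^ s) →
          rcy B q - rcy B q' ∈ Dr f L π s M ⊔ (Xf f).ratEq M Ω := by
  have hfd : FiniteDimensional K M := hM.fd
  obtain ⟨a, ha⟩ : ∃ a : Fin (d + 1) → Polynomial Ω, a = fun r => C (h r) * X + C (c r) :=
    ⟨_, rfl⟩
  have hev : ∀ r z, (a r).eval z = c r + z * h r := fun r z => by
    rw [ha]
    simp only [eval_add, eval_mul, eval_C, eval_X]
    ring
  have hArc : Arc L M a := by
    intro i j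
    rw [ha]
    simp only [coeff_add, coeff_C_mul, coeff_X, coeff_C]
    rcases j with _ | _ | j
    · simp only [if_neg (show ¬ (1 = 0) by omega), if_true, mul_zero, zero_add]
      exact hc i
    · simp only [zero_add, if_true, if_neg (show ¬ (1 = 0) by omega), mul_one, add_zero]
      exact hh i
    · rw [if_neg (by omega), if_neg (by omega), mul_zero, add_zero]
      exact ⟨zero_mem M, by rw [L.zero]; exact zero_le_one⟩
  have ha0 : (fun r => (a r).eval 0) = c := funext fun r => by rw [hev, zero_mul, add_zero]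
  have hD0 : L.nm (MvPolynomial.aeval (fun r => (a r).eval 0) ψ.D) = 1 := by
    rw [ha0]
    exact hD
  have hG0 : L.nm (pe (fun r => (a r).eval 0) w₀ ψ.G) < 1 := by
    rw [ha0]
    exact hG
  obtain ⟨B, hBa, hBb, hBc, hBd⟩ := exists_br hψ hArc hw hw1 hD0 hG0
  have hfp : ∀ M' : IntermediateField K Ω, M ≤ M' → ∀ a ∈ M', L.nm a < 1 →
      Fp (Xf f) M' (B a) := by
    intro M' h1 a ha ha1 γ hγ
    rw [hBb γ (fix_le h1 hγ) _ ha1]
    congr 1
    exact (IntermediateField.mem_fixingSubgroup_iff M' γ).1 hγ _ ha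
  refine ⟨B, hBb, hfp, ?_, ?_⟩
  · intro M' hfd' h1 a ha ha1 x P s hs hN
    obtain ⟨y, l1, l2, l3, l4, l5⟩ := hBd a ha1
    refine br_near hπ hψ hD (fun r => (hc r).2) hs hN.iv hN.co l1 (hfp M' h1 a ha ha1) l2 l3
      hN.sh l5 (fun r => ?_) fun r => ?_
    · rw [l4, hev, add_sub_cancel_left, L.mul]
      exact mul_lt_one_of_nonneg_of_lt_one_left (L.nonneg _) ha1 (hh r).2
    · rw [l4, hev]
      exact hN.nr r
  · intro q q' hq hq' hd s hs hqq
    obtain ⟨z, hz, hz'⟩ := la_ch hψ (hπ.mem M) hπ.pos hπ.lt (hπ.um_val hM) hArc hw hw1 hD0 hG0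
      hBa hq hq' hd (l := 1) (u := 0) (s := s) (Or.inl ⟨rfl, rfl, hs⟩)
      (fun i => by rw [add_zero]; exact hqq i)
    rw [one_smul] at hz'
    have e1 : rcy B q - rcy B q' = z + (rcy B q - rcy B q' - z) := by abel
    rw [e1]
    exact AddSubgroup.add_mem_sup hz hz'

/-- **The trace relation** (TR). -/
theorem x_tr (hπ : Uf L π) (hψ : Pj f L ψ) (hM : Um L M) (hM' : Um L M') (hMM : M ≤ M')
    {c u : Fin (d + 1) → Ω} (hc : Iv L M c) (hu : Iv L M u) {w₀ : Ω} (hw : w₀ ∈ M)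
    (hw1 : L.nm w₀ ≤ 1) (hD : L.nm (MvPolynomial.aeval c ψ.D) = 1)
    (hG : L.nm (pe c w₀ ψ.G) < 1) {b : Ω} (hb : b ∈ M') (hb1 : L.nm b < 1) {s : ℕ} (hs : s ≠ 0)
    (hbs : L.nm b ^ 2 ≤ L.nm π ^ s) {x₀ x₁ x₂ : Fin N → Ω} {P₀ P₁ P₂ : (Xf f).pt Ω}
    (h₀ : Nb f L ψ π M w₀ s c x₀ P₀)
    (h₁ : Nb f L ψ π M' w₀ s (fun r => c r + b * u r) x₁ P₁)
    (h₂ : Nb f L ψ π M w₀ s (fun r => c r + Nm M M' b * u r) x₂ P₂) :
    Nm M M' (Finsupp.single P₁ 1 - Finsupp.single P₀ 1 : (Xf f).pt Ω →₀ ℤ) -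
      (Finsupp.single P₂ 1 - Finsupp.single P₀ 1) ∈ Dr f L π s M ⊔ (Xf f).ratEq M Ω := by
  have hfd : FiniteDimensional K M := hM.fd
  have hfd' : FiniteDimensional K M' := hM'.fd
  have h00 : L.nm (0 : Ω) < 1 := by rw [L.zero]; exact zero_lt_one
  obtain ⟨B, hB1, hB2, hB3, hB4⟩ := exists_ln hπ hψ hM hc hu hw hw1 hD hG
  obtain ⟨q, q', hq, hq', hqd, hqq, hr⟩ := exists_cj (L := L) hMM hb le_rfl hb1
  obtain ⟨hr1, hr2⟩ := hr B hB1
  have hNbM : Nm M M' b ∈ M := fx_mem.1 (nm_fx hMM (fx_mem.2 hb))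
  have hNb1 : L.nm (Nm M M' b) < 1 := by
    obtain ⟨s', -, -, -, h₃⟩ := nm_rep hMM
    rw [h₃ Ω b]
    refine lt_of_le_of_lt (L.sum_le _ _ (L.nonneg b) fun γ _ => ?_) hb1
    change L.nm (γ b) ≤ _
    rw [L.act]
  have hla := hB4 q q' hq hq' hqd s hs fun i => (hqq i).trans hbs
  rw [hr1, hr2] at hla
  have k0 := hB3 M hfd le_rfl 0 (zero_mem M) h00 x₀ P₀ s hs (h₀.of fun r => by
    rw [zero_mul, add_zero, sub_self, L.zero]
    exact pow_nonneg (L.nonneg _) s)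
  have k1 := hB3 M' hfd' hMM b hb hb1 x₁ P₁ s hs h₁
  have k2 := hB3 M hfd le_rfl _ hNbM hNb1 x₂ P₂ s hs h₂
  have k1' := dr_nm' (em_of hMM hM') k1
  have k0' : Nm M M' (Finsupp.single P₀ 1 - Finsupp.single (B 0) 1 : (Xf f).pt Ω →₀ ℤ) ∈
      Dr f L π s M := dr_nm' (em_of hMM hM') (dr_up (em_of hMM hM') k0)
  rw [nm_sub' hMM] at k1' k0'
  have e1 : Nm M M' (Finsupp.single P₁ 1 - Finsupp.single P₀ 1 : (Xf f).pt Ω →₀ ℤ) -
      (Finsupp.single P₂ 1 - Finsupp.single P₀ 1) =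
      (Nm M M' (Finsupp.single P₁ 1) - Nm M M' (Finsupp.single (B b) 1)) -
      (Nm M M' (Finsupp.single P₀ 1) - Nm M M' (Finsupp.single (B 0) 1)) -
      (Finsupp.single P₂ 1 - Finsupp.single (B (Nm M M' b)) 1) +
      (Finsupp.single P₀ 1 - Finsupp.single (B 0) 1) +
      (Nm M M' (Finsupp.single (B b) 1) - (Nm M M' (Finsupp.single (B 0) 1) +
        (Finsupp.single (B (Nm M M' b)) 1 - Finsupp.single (B 0) 1))) := by
    rw [nm_sub' hMM]
    abel
  rw [e1]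
  exact add_mem (AddSubgroup.mem_sup_left (add_mem (sub_mem (sub_mem k1' k0') k2) k0)) hla

end GX
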