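import Pool.Agent.Lib.MP_f80667_ag.Lv.Zr

/-!
The filtration by the levels.

`Vl f L π n`: the cycles which are displacements of level `n` modulo rational equivalence.
-/

open ZC BE PE CV IntermediateField Polynomial

namespace GX

variable {F : Type} [Field F] {N d m : ℕ} {ι : Type} {K Ω : Type}
  [Field K] [CharZero K] [Field Ω] [Algebra K Ω] [Algebra F K] [Algebra F Ω]
  [IsScalarTower F K Ω] [IsAlgClosure K Ω]

/-- The cycles which are displacements of level `n` modulo rational equivalence. -/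
noncomputable def Vl (f : ι → MvPolynomial (Fin N) F) (L : Ld K Ω) (π : Ω) (n : ℕ) :
    AddSubgroup ((Xf f).pt Ω →₀ ℤ) := Dr f L π n ⊥ ⊔ (Xf f).ratEq K Ω

variable {f : ι → MvPolynomial (Fin N) F} {L : Ld K Ω} {π : Ω}

theorem vl_rat (n : ℕ) : (Xf f).ratEq K Ω ≤ Vl f L π n := le_sup_right

theorem vl_dr (n : ℕ) : Dr f L π n ⊥ ≤ Vl f L π n := le_sup_left

theorem vl_anti (hπ : Uf L π) : Antitone (Vl f L π) := fun _ _ h =>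
  sup_le_sup_right (dr_mono hπ h) _

omit [IsAlgClosure K Ω] in
/-- The ramification index. -/
theorem exists_e (hπ : Uf L π) : ∃ e, e ≠ 0 ∧ L.nm (L.p : Ω) = L.nm π ^ e := by
  have hp0 : (L.p : K) ≠ 0 := Nat.cast_ne_zero.2 L.pp.ne_zero
  obtain ⟨n, hn⟩ := hπ.val (L.p : K) hp0
  rw [map_natCast] at hn
  have h1 := L.lt
  rw [hn] at h1
  have h2 : (0 : ℤ) < n := by
    rw [← zpow_zero (L.nm π)] at h1
    exact (zpow_lt_zpow_iff_right_of_lt_one₀ hπ.pos hπ.lt).1 h1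
  obtain ⟨e, rfl⟩ := Int.eq_ofNat_of_zero_le h2.le
  refine ⟨e, ?_, ?_⟩
  · rintro rfl
    exact lt_irrefl _ h2
  · rw [hn]
    exact zpow_natCast _ _

/-- `V (n + e) ≤ p V n` for `e < (p - 1) n`. -/
theorem vl_div_p (hπ : Uf L π) (hf : Hm f) {ψ : Fin m → Prj K N d} (hψ : ∀ i, Pj f L (ψ i))
    (hc : Cvr f L ψ) {e : ℕ} (he : L.nm (L.p : Ω) = L.nm π ^ e) {n : ℕ}
    (hn : e < (L.p - 1) * n) {z : (Xf f).pt Ω →₀ ℤ} (hz : z ∈ Vl f L π (n + e)) :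
    ∃ w ∈ Vl f L π n, z - L.p • w ∈ (Xf f).ratEq K Ω := by
  obtain ⟨a, ha, b, hb, rfl⟩ := AddSubgroup.mem_sup.1 hz
  obtain ⟨w, hw, h⟩ := hπ.x_d1 hf hψ hc L.pp he hn a ha
  refine ⟨w, vl_dr n hw, ?_⟩
  have e1 : a + b - L.p • w = (a - L.p • w) + b := by abel
  rw [e1]
  exact add_mem h hb

/-- `V n ≤ l V n` for a prime `l` which is not `p`. -/
theorem vl_div_l (hπ : Uf L π) (hf : Hm f) {ψ : Fin m → Prj K N d} (hψ : ∀ i, Pj f L (ψ i))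
    (hc : Cvr f L ψ) {l : ℕ} (hl : l.Prime) (hlp : l ≠ L.p) {n : ℕ} (hn : n ≠ 0)
    {z : (Xf f).pt Ω →₀ ℤ} (hz : z ∈ Vl f L π n) :
    ∃ w ∈ Vl f L π n, z - l • w ∈ (Xf f).ratEq K Ω := by
  obtain ⟨a, ha, b, hb, rfl⟩ := AddSubgroup.mem_sup.1 hz
  have h1 : ¬ L.p ∣ l := fun h => hlp ((Nat.prime_dvd_prime_iff_eq L.pp hl).1 h).symm
  obtain ⟨w, hw, h⟩ := hπ.x_d1 hf hψ hc hl (u := 0) (s := n)
    (by rw [pow_zero]; exact L.nat_unit h1)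
    (Nat.mul_pos (Nat.sub_pos_of_lt hl.one_lt) (Nat.pos_of_ne_zero hn)) a ha
  refine ⟨w, vl_dr n hw, ?_⟩
  have e1 : a + b - l • w = (a - l • w) + b := by abel
  rw [e1]
  exact add_mem h hb

/-- `p V n ≤ V t` for `t ≤ n + e`, `t ≤ p n`. -/
theorem vl_mul (hπ : Uf L π) (hf : Hm f) {ψ : Fin m → Prj K N d} (hψ : ∀ i, Pj f L (ψ i))
    (hc : Cvr f L ψ) {e : ℕ} (he : L.nm (L.p : Ω) = L.nm π ^ e) {n t : ℕ} (hn : n ≠ 0)
    (h1 : t ≤ n + e) (h2 : t ≤ L.p * n) {z : (Xf f).pt Ω →₀ ℤ} (hz : z ∈ Vl f L π n) :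
    L.p • z ∈ Vl f L π t := by
  obtain ⟨a, ha, b, hb, rfl⟩ := AddSubgroup.mem_sup.1 hz
  rw [smul_add]
  exact add_mem (hπ.x_pm hf hψ hc he hn h1 h2 a ha) (vl_rat t (nsmul_mem hb _))

/-- `p V n ≤ V (n + e)` for `e ≤ (p - 1) n`. -/
theorem vl_mul_e (hπ : Uf L π) (hf : Hm f) {ψ : Fin m → Prj K N d} (hψ : ∀ i, Pj f L (ψ i))
    (hc : Cvr f L ψ) {e : ℕ} (he : L.nm (L.p : Ω) = L.nm π ^ e) {n : ℕ} (hn : n ≠ 0)
    (h : e ≤ (L.p - 1) * n) {z : (Xf f).pt Ω →₀ ℤ} (hz : z ∈ Vl f L π n) :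
    L.p • z ∈ Vl f L π (n + e) := by
  refine vl_mul hπ hf hψ hc he hn le_rfl ?_ hz
  obtain ⟨k, hk⟩ : ∃ k, L.p = k + 1 := ⟨L.p - 1, by have := L.pp.two_le; omega⟩
  rw [hk, Nat.add_sub_cancel] at h
  rw [hk, Nat.succ_mul]
  omega

/-- `p V n ≤ V (n + 1)`. -/
theorem vl_mul_one (hπ : Uf L π) (hf : Hm f) {ψ : Fin m → Prj K N d} (hψ : ∀ i, Pj f L (ψ i))
    (hc : Cvr f L ψ) {n : ℕ} (hn : n ≠ 0) {z : (Xf f).pt Ω →₀ ℤ} (hz : z ∈ Vl f L π n) :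
    L.p • z ∈ Vl f L π (n + 1) := by
  obtain ⟨e, he0, he⟩ := exists_e hπ
  have h2 := L.pp.two_le
  refine vl_mul hπ hf hψ hc he hn (by omega) ?_ hz
  calc n + 1 ≤ n + n := by omega
    _ = 2 * n := (two_mul n).symm
    _ ≤ L.p * n := Nat.mul_le_mul_right n h2

/-- The cycles with reduction `0` are the cycles of level `1`. -/
theorem vl_zr (hπ : Uf L π) (hf : Hm f) {ψ : Fin m → Prj K N d} (hψ : ∀ i, Pj f L (ψ i))
    (hc : Cvr f L ψ) {z : (Xf f).pt Ω →₀ ℤ} (hz : z ∈ (Xf f).cyc K Ω) (h : Zr f L z) :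
    z ∈ Vl f L π 1 := hπ.x_zr hf hψ hc hz h

end GX
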