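import Pool.Agent.Lib.MP_f80667_ag.Lv.Ga
import Pool.Agent.Lib.MP_f80667_ag.Sb.L

/-!
The group variety over a ramified field: the levels.

* `dr_rep`: a displacement as a finite sum.
* `nc_dr`: the sum of a displacement of level `s` is congruent to `0` modulo `π ^ s`.
* `dr_sum_zero`: the sum of a cycle which is a displacement of every level modulo rational equivalence is `0`.
-/

open ZC BE PE CV IntermediateField MvPolynomial

namespace GX

section rep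

variable {F : Type} [Field F] {N : ℕ} {ι : Type} {f : ι → MvPolynomial (Fin N) F}
  {K Ω : Type} [Field K] [CharZero K] [Field Ω] [Algebra K Ω] [Algebra F K] [Algebra F Ω]
  [IsScalarTower F K Ω] [IsAlgClosure K Ω] {L : Ld K Ω} {π : Ω}

/-- A displacement as a finite sum. -/
theorem dr_rep {s : ℕ} {z : (Xf f).pt Ω →₀ ℤ} (hz : z ∈ Dr f L π s (⊥ : IntermediateField K Ω)) :
    ∃ (I : Type) (S : Finset I) (e : I → ℤ) (E : I → IntermediateField K Ω)
      (P P' : I → (Xf f).pt Ω),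
      (∀ i, Em L ⊥ (E i) ∧ Fp (Xf f) (E i) (P i) ∧ Fp (Xf f) (E i) (P' i) ∧
        Nrh f L (L.nm π ^ s) (P' i) (P i)) ∧
      z = ∑ i ∈ S, e i • Nm (K := K) ⊥ (E i)
        (Finsupp.single (P' i) 1 - Finsupp.single (P i) 1 : (Xf f).pt Ω →₀ ℤ) := by
  classical
  rw [dr_gen] at hz
  induction hz using AddSubgroup.closure_induction with
  | mem z hz =>
    obtain ⟨M', y, y', h1, h2, h3, h4, rfl⟩ := hz
    refine ⟨Unit, {()}, fun _ => 1, fun _ => M', fun _ => y', fun _ => y,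
      fun _ => ⟨h1, h3, h2, h4⟩, ?_⟩
    rw [Finset.sum_singleton, one_smul]
  | zero =>
    refine ⟨Empty, ∅, fun _ => 1, fun _ => ⊥, fun i => i.elim, fun i => i.elim,
      fun i => i.elim, ?_⟩
    rw [Finset.sum_empty]
  | add z z' _ _ h h' =>
    obtain ⟨I, S, e, E, P, P', h1, rfl⟩ := h
    obtain ⟨I', S', e', E', Q, Q', h1', rfl⟩ := h'
    refine ⟨I ⊕ I', S.disjSum S', Sum.elim e e', Sum.elim E E', Sum.elim P Q, Sum.elim P' Q',
      ?_, ?_⟩
    · rintro (i | i)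
      · exact h1 i
      · exact h1' i
    · rw [Finset.sum_disjSum]
      rfl
  | neg z _ h =>
    obtain ⟨I, S, e, E, P, P', h1, rfl⟩ := h
    refine ⟨I, S, fun i => - e i, E, P, P', h1, ?_⟩
    rw [← Finset.sum_neg_distrib]
    exact Finset.sum_congr rfl fun i _ => by rw [neg_smul]

end rep

section sum

variable {F : Type} [Field F] {N N' k k' : ℕ} {ι ι' : Type} {f : ι → MvPolynomial (Fin N) F}
  {A : Gv F N' k' ι'} {M : Mf f A k}
  {K Ω : Type} [Field K] [CharZero K] [Field Ω] [Algebra K Ω] [Algebra F K] [Algebra F Ω]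
  [IsScalarTower F K Ω] [IsAlgClosure K Ω] {L : Ld K Ω} {π : Ω}

/-- The sum of a displacement. -/
theorem lt_dr (hπ : Uf L π) (hA : A.Ok) (hM : M.Ok) (hL : Lga L A) (hLm : Lmf L M)
    {s : ℕ} (hs : s ≠ 0) {z : (Xf f).pt Ω →₀ ℤ}
    (hz : z ∈ Dr f L π s (⊥ : IntermediateField K Ω)) :
    letI := A.G.grp Ω; ∃ b, Lt L A (L.nm π ^ s) (M.S Ω z) b := by
  let _ : AddCommGroup ((Xf A.a).pt Ω) := A.G.grp Ω
  change ∃ b, Lt L A (L.nm π ^ s) (M.S Ω z) b
  obtain ⟨I, S, e, E, P, P', h1, rfl⟩ := dr_rep hz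
  have ht1 : L.nm π ^ s < 1 := hπ.pow_lt hs
  have ht : 0 ≤ L.nm π ^ s := pow_nonneg hπ.pos.le _
  have h2 : ∀ i, ∃ (x x' : Fin N → Ω) (j : Fin (k * N' * k')), Pco L f (P i) x ∧ Co (P' i) x' ∧
      (∀ n, L.nm (x' n - x n) ≤ L.nm π ^ s) ∧ L.nm (aeval x (M.om.c j)) = 1 := by
    intro i
    obtain ⟨-, -, -, x', x, a1, a2, a3, a4, a5, a6, a7⟩ := h1 i
    have hx : Pco L f (P i) x := ⟨a2, a4, a6⟩
    obtain ⟨j, hj⟩ := exists_part hA hM hL hLm hx
    exact ⟨x, x', j, hx, a1, a7, hj⟩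
  choose x x' j hx hx' hd hj using h2
  refine ⟨_, sum_lt hA hM hL hLm ht1 ht S e E (fun i _ => (h1 i).1.fd) P P' x x'
    (fun i n => x' i n - x i n) (fun i _ => hx i) (fun i _ => hx' i) (fun i _ => hd i)
    (fun i _ n => ?_) j (fun i _ => hj i)
    (fun i l => (∑ n, aeval (x i) (M.om.q (j i) l n) * (x' i n - x i n)) /
      aeval (x i) (M.om.c (j i))) (fun i _ l => ?_)⟩
  · rw [sub_self, L.zero]
    exact mul_nonneg ht ht
  · exact mul_div_cancel₀ _ (L.ne_zero (by rw [hj i]; exact zero_lt_one))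

/-- The sum of a cycle which is a displacement of every level modulo rational equivalence. -/
theorem dr_sum_zero (hπ : Uf L π) (hf : Hm f) (hA : A.Ok) (hM : M.Ok) (hL : Lga L A)
    (hLm : Lmf L M) {z : (Xf f).pt Ω →₀ ℤ}
    (hz : ∀ s : ℕ, z ∈ Dr f L π s (⊥ : IntermediateField K Ω) ⊔ (Xf f).ratEq K Ω) :
    letI := A.G.grp Ω; M.S Ω z = 0 := by
  let _ : AddCommGroup ((Xf A.a).pt Ω) := A.G.grp Ω
  change M.S Ω z = 0
  have h1 : ∀ s : ℕ, s ≠ 0 → ∃ y, Nc L A (L.nm π ^ s) (M.S Ω z) y := by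
    intro s hs
    obtain ⟨d, hd, r, hr, e⟩ := AddSubgroup.mem_sup.1 (hz s)
    obtain ⟨b, y, hy, -⟩ := lt_dr hπ hA hM hL hLm hs hd
    refine ⟨y, ?_⟩
    rw [← e, map_add, RS.rs (K := K) hf hA hM hr, add_zero]
    exact hy
  obtain ⟨y, hy⟩ := h1 1 one_ne_zero
  refine nc_eq (z := y) (L := L) hA ⟨hy.1, hy.2.1, fun j => ?_⟩
  refine le_of_forall_pos_le_add fun ε hε => ?_
  obtain ⟨n, hn⟩ := exists_pow_lt_of_lt_one hε hπ.lt
  obtain ⟨y', hy'⟩ := h1 (n + 1) (Nat.succ_ne_zero n)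
  obtain rfl := hy.uniq hy'
  refine (hy'.2.2 j).trans (le_trans ?_ (le_add_of_nonneg_left le_rfl))
  exact (pow_le_pow_of_le_one hπ.pos.le hπ.lt.le (Nat.le_succ n)).trans hn.le

end sum

end GX
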