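import Pool.Agent.Lib.MP_f80667_ag.Sb.F
import Pool.Agent.Lib.MP_f80667_ag.Lv.D

/-!
The group variety over a ramified field: the coordinates of the sum of a cycle up to second order.

* `Lt L A t R b`: in normalized coordinates the point `R` is `o + b` up to numbers of norm `≤ t ^ 2`, and `b` is of norm `≤ t`.
* `lt_zero`, `lt_sub`, `lt_sum`, `lt_act`, `lt_uniq`.
* `mf_lt`: the difference of the images of two points of distance `≤ t`: `b` are the values of the forms.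
* `sum_lt`: the sum of a cycle `∑ e_i Nm (P_i' - P_i)`.
* `sum_small`: if the sum is `0` the sum of the traces of the values of the forms has norm `≤ t ^ 2`.
-/

open ZC BE PE CV IntermediateField MvPolynomial

namespace GX

section lt

variable {F : Type} [Field F] {N' k' : ℕ} {ι' : Type} {A : Gv F N' k' ι'}
  {K Ω : Type} [Field K] [Field Ω] [Algebra K Ω] [Algebra F Ω] {L : Ld K Ω}

/-- The point `R` is `o + b` up to second order. -/
def Lt (L : Ld K Ω) (A : Gv F N' k' ι') (t : ℝ) (R : (Xf A.a).pt Ω) (b : Fin N' → Ω) : Prop :=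
  ∃ z : Fin N' → Ω, Nc L A t R z ∧ ∀ j, L.nm (z j - algebraMap F Ω (A.o j) - b j) ≤ t * t

theorem lt_zero (hA : A.Ok) {t : ℝ} (ht : 0 ≤ t) : Lt L A t (A.G.grp Ω).zero 0 := by
  refine ⟨_, nc_zero hA ht, fun j => ?_⟩
  rw [sub_self, Pi.zero_apply, sub_zero, L.zero]
  exact mul_nonneg ht ht

theorem lt_uniq {t : ℝ} {R : (Xf A.a).pt Ω} {b b' : Fin N' → Ω} (h : Lt L A t R b)
    (h' : Lt L A t R b') (j : Fin N') : L.nm (b j - b' j) ≤ t * t := by
  obtain ⟨z, hz, hb⟩ := h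
  obtain ⟨z', hz', hb'⟩ := h'
  obtain rfl := hz.uniq hz'
  have e : b j - b' j = (z j - algebraMap F Ω (A.o j) - b' j) -
      (z j - algebraMap F Ω (A.o j) - b j) := by ring
  rw [e]
  exact (L.sub _ _).trans (max_le (hb' j) (hb j))

theorem Lt.congr {t : ℝ} {R : (Xf A.a).pt Ω} {b b' : Fin N' → Ω} (h : Lt L A t R b)
    (h' : ∀ j, L.nm (b j - b' j) ≤ t * t) : Lt L A t R b' := by
  obtain ⟨z, hz, hb⟩ := h
  refine ⟨z, hz, fun j => ?_⟩
  have e : z j - algebraMap F Ω (A.o j) - b' j =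
      (z j - algebraMap F Ω (A.o j) - b j) + (b j - b' j) := by ring
  rw [e]
  exact (L.add _ _).trans (max_le (hb j) (h' j))

theorem lt_sub (hA : A.Ok) (hL : Lga L A) {t : ℝ} (ht1 : t < 1) (ht : 0 ≤ t)
    {R R' : (Xf A.a).pt Ω} {b b' : Fin N' → Ω} (h : Lt L A t R b) (h' : Lt L A t R' b') :
    letI := A.G.grp Ω; Lt L A t (R - R') (b - b') := by
  let _ : AddCommGroup ((Xf A.a).pt Ω) := A.G.grp Ω
  change Lt L A t (R - R') (b - b')
  obtain ⟨z, hz, hb⟩ := h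
  obtain ⟨z', hz', hb'⟩ := h'
  obtain ⟨z'', hz'', h3⟩ := nc_sub hA hL ht1 ht hz hz' (R'' := R - R') (sub_add_cancel _ _)
  refine ⟨z'', hz'', fun j => ?_⟩
  have e : z'' j - algebraMap F Ω (A.o j) - (b - b') j =
      ((z'' j - algebraMap F Ω (A.o j) - (z j - z' j)) +
        (z j - algebraMap F Ω (A.o j) - b j)) - (z' j - algebraMap F Ω (A.o j) - b' j) := by
    rw [Pi.sub_apply]
    ring
  rw [e]
  exact (L.sub _ _).trans (max_le ((L.add _ _).trans (max_le (h3 j) (hb j))) (hb' j))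

theorem lt_neg (hA : A.Ok) (hL : Lga L A) {t : ℝ} (ht1 : t < 1) (ht : 0 ≤ t)
    {R : (Xf A.a).pt Ω} {b : Fin N' → Ω} (h : Lt L A t R b) :
    letI := A.G.grp Ω; Lt L A t (-R) (-b) := by
  let _ : AddCommGroup ((Xf A.a).pt Ω) := A.G.grp Ω
  change Lt L A t (-R) (-b)
  have h1 : Lt L A t ((0 : (Xf A.a).pt Ω) - R) (0 - b) := lt_sub hA hL ht1 ht (lt_zero hA ht) h
  rwa [zero_sub, zero_sub] at h1

theorem lt_add (hA : A.Ok) (hL : Lga L A) {t : ℝ} (ht1 : t < 1) (ht : 0 ≤ t)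
    {R R' : (Xf A.a).pt Ω} {b b' : Fin N' → Ω} (h : Lt L A t R b) (h' : Lt L A t R' b') :
    letI := A.G.grp Ω; Lt L A t (R + R') (b + b') := by
  let _ : AddCommGroup ((Xf A.a).pt Ω) := A.G.grp Ω
  change Lt L A t (R + R') (b + b')
  have h1 : Lt L A t (R - -R') (b - -b') := lt_sub hA hL ht1 ht h (lt_neg hA hL ht1 ht h')
  rwa [sub_neg_eq_add, sub_neg_eq_add] at h1

theorem lt_sum (hA : A.Ok) (hL : Lga L A) {t : ℝ} (ht1 : t < 1) (ht : 0 ≤ t) {I : Type}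
    (s : Finset I) (R : I → (Xf A.a).pt Ω) (b : I → Fin N' → Ω)
    (h : ∀ i ∈ s, Lt L A t (R i) (b i)) :
    letI := A.G.grp Ω; Lt L A t (∑ i ∈ s, R i) (∑ i ∈ s, b i) := by
  classical
  let _ : AddCommGroup ((Xf A.a).pt Ω) := A.G.grp Ω
  change Lt L A t (∑ i ∈ s, R i) (∑ i ∈ s, b i)
  induction s using Finset.induction_on with
  | empty =>
    rw [Finset.sum_empty, Finset.sum_empty]
    exact lt_zero hA ht
  | insert i s hi ih =>
    rw [Finset.sum_insert hi, Finset.sum_insert hi]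
    exact lt_add hA hL ht1 ht (h i (Finset.mem_insert_self _ _))
      (ih fun i' hi' => h i' (Finset.mem_insert_of_mem hi'))

theorem lt_zsmul (hA : A.Ok) (hL : Lga L A) {t : ℝ} (ht1 : t < 1) (ht : 0 ≤ t)
    {R : (Xf A.a).pt Ω} {b : Fin N' → Ω} (h : Lt L A t R b) (n : ℤ) :
    letI := A.G.grp Ω; Lt L A t (n • R) (n • b) := by
  let _ : AddCommGroup ((Xf A.a).pt Ω) := A.G.grp Ω
  change Lt L A t (n • R) (n • b)
  induction n using Int.induction_on with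
  | zero =>
    rw [zero_smul, zero_smul]
    exact lt_zero hA ht
  | succ n ih =>
    rw [add_smul, add_smul, one_smul, one_smul]
    exact lt_add hA hL ht1 ht ih h
  | pred n ih =>
    rw [sub_smul, sub_smul, one_smul, one_smul]
    exact lt_sub hA hL ht1 ht ih h

end lt

section mf

variable {F : Type} [Field F] {N N' k k' : ℕ} {ι ι' : Type} {f : ι → MvPolynomial (Fin N) F}
  {A : Gv F N' k' ι'} {M : Mf f A k}
  {K Ω : Type} [Field K] [CharZero K] [Field Ω] [Algebra K Ω] [Algebra F K] [Algebra F Ω]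
  [IsScalarTower F K Ω] [IsAlgClosure K Ω] {L : Ld K Ω}

/-- Automorphisms. -/
theorem lt_act {t : ℝ} {R : (Xf A.a).pt Ω} {b : Fin N' → Ω} (h : Lt L A t R b)
    (γ : Ω ≃ₐ[K] Ω) : Lt L A t ((Xf A.a).act γ R) fun j => γ (b j) := by
  obtain ⟨z, ⟨h1, h2, h3⟩, hb⟩ := h
  have ho : ∀ j, γ (algebraMap F Ω (A.o j)) = algebraMap F Ω (A.o j) := by
    intro j
    rw [IsScalarTower.algebraMap_apply F K Ω, AlgEquiv.commutes]
  refine ⟨fun j => γ (z j), ⟨co_act γ h1, ?_, fun j => ?_⟩, fun j => ?_⟩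
  · change γ (z A.j₀) = 1
    rw [h2, map_one]
  · have e : γ (z j) - algebraMap F Ω (A.o j) = γ (z j - algebraMap F Ω (A.o j)) := by
      rw [map_sub, ho]
    rw [e, L.act]
    exact h3 j
  · have e : γ (z j) - algebraMap F Ω (A.o j) - γ (b j) =
        γ (z j - algebraMap F Ω (A.o j) - b j) := by
      rw [map_sub, map_sub, ho]
    rw [e, L.act]
    exact hb j

omit [CharZero K] [IsAlgClosure K Ω] in
/-- The sum of the image of a cycle and automorphisms. -/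
theorem mfS_act (hM : M.Ok) (γ : Ω ≃ₐ[K] Ω) (z : (Xf f).pt Ω →₀ ℤ) :
    letI := A.G.grp Ω
    M.S Ω (Finsupp.mapDomain ((Xf f).act γ) z) = (Xf A.a).act γ (M.S Ω z) := by
  let _ : AddCommGroup ((Xf A.a).pt Ω) := A.G.grp Ω
  change M.S Ω (Finsupp.mapDomain ((Xf f).act γ) z) = (Xf A.a).act γ (M.S Ω z)
  have h1 : Finsupp.mapDomain (M.φ Ω) (Finsupp.mapDomain ((Xf f).act γ) z) =
      Finsupp.mapDomain ((Xf A.a).act γ) (Finsupp.mapDomain (M.φ Ω) z) := by
    rw [← Finsupp.mapDomain_comp, ← Finsupp.mapDomain_comp]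
    congr 1
    funext P
    exact mf_nat hM (γ.restrictScalars F : Ω →ₐ[F] Ω) P
  change A.G.sum Ω (Finsupp.mapDomain (M.φ Ω) (Finsupp.mapDomain ((Xf f).act γ) z)) = _
  rw [h1]
  exact AV.sum_map A.G A.G ((Xf A.a).act γ)
    (fun x y => A.G.map_add Ω Ω (γ.restrictScalars F : Ω →ₐ[F] Ω) x y) _

omit [CharZero K] [Algebra F K] [IsScalarTower F K Ω] [IsAlgClosure K Ω] in
/-- The coefficients of the forms are integral at integral points. -/
theorem om_q_le (hL : Lga L A) (hLm : Lmf L M) {x : Fin N → Ω} (hx : ∀ n, L.nm (x n) ≤ 1)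
    (j : Fin (k * N' * k')) (l : Fin N') (n : Fin N) :
    L.nm (aeval x (M.om.q j l n)) ≤ 1 := by
  have hnat : ∀ m : ℕ, L.nm ((m : Ω) + 1) ≤ 1 := by
    intro m
    have h1 : (m : Ω) + 1 = ((m + 1 : ℕ) : Ω) := by push_cast; ring
    rw [h1]
    exact L.nat_le _
  have h := om_q_eq (M := M) j l x (Pi.single n 1)
  have e1 : ∑ n', aeval x (M.om.q j l n') * (Pi.single n 1 : Fin N → Ω) n' =
      aeval x (M.om.q j l n) := by
    rw [Finset.sum_eq_single n]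
    · rw [Pi.single_eq_same, mul_one]
    · intro n' _ hn
      rw [Pi.single_eq_of_ne hn, mul_zero]
    · intro hn
      exact absurd (Finset.mem_univ n) hn
  rw [e1] at h
  set i := (dec3 j).1
  set y : Fin N' → Ω := M.pv i x with hy
  have hiy : ∀ s, L.nm (y s) ≤ 1 := fun s => sb_le (hLm.iΦ i s) hx
  have hdv : ∀ s, L.nm (M.dv i x (Pi.single n 1) s) ≤ 1 := by
    intro s
    refine L.sum_le _ _ zero_le_one fun n' _ => ?_
    rw [L.mul]
    refine mul_le_one₀ (sb_le (fun e => ?_) hx) (L.nonneg _) ?_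
    · rw [coeff_pderiv, map_mul, map_add, map_natCast, map_one, L.mul]
      exact mul_le_one₀ (hLm.iΦ i s _) (L.nonneg _) (hnat _)
    · by_cases hn : n' = n
      · rw [hn, Pi.single_eq_same, L.one]
      · rw [Pi.single_eq_of_ne hn, L.zero]
        exact zero_le_one
  have hdm : ∀ i' l', L.nm (A.dm i' y (M.dv i x (Pi.single n 1)) l') ≤ 1 := by
    intro i' l'
    refine L.sum_le _ _ zero_le_one fun s _ => ?_
    rw [L.mul]
    refine mul_le_one₀ (sb_le (fun e => ?_) fun s' => ?_) (L.nonneg _) (hdv s)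
    · rw [coeff_pderiv, map_mul, map_add, map_natCast, map_one, L.mul]
      exact mul_le_one₀ (hL.im i' l' _) (L.nonneg _) (hnat _)
    · rcases s' with s' | s'
      · exact hiy s'
      · exact hiy s'
  rw [h, L.mul]
  refine mul_le_one₀ (hiy _) (L.nonneg _) ((L.sub _ _).trans (max_le (hdm _ _) ?_))
  rw [L.mul]
  exact mul_le_one₀ (hL.io l) (L.nonneg _) (hdm _ _)

omit [CharZero K] [Algebra F K] [IsScalarTower F K Ω] [IsAlgClosure K Ω] in
/-- The difference of the images of two points. `b` are the values of the forms at the approximate tangent vector `τ`. -/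
theorem mf_lt (hA : A.Ok) (hM : M.Ok) (hL : Lga L A) (hLm : Lmf L M) {t : ℝ} (ht1 : t < 1)
    (ht : 0 ≤ t) {P P' : (Xf f).pt Ω} {x x' τ : Fin N → Ω} (hx : Pco L f P x) (hx' : Co P' x')
    (hτ : ∀ n, L.nm (τ n) ≤ t) (h : ∀ n, L.nm (x' n - x n - τ n) ≤ t * t)
    {j : Fin (k * N' * k')} (hj : L.nm (aeval x (M.om.c j)) = 1) {b : Fin N' → Ω}
    (hb : ∀ l, aeval x (M.om.c j) * b l = ∑ n, aeval x (M.om.q j l n) * τ n) :
    letI := A.G.grp Ω
    Lt L A t (M.S Ω (Finsupp.single P' 1 - Finsupp.single P 1)) b := by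
  let _ : AddCommGroup ((Xf A.a).pt Ω) := A.G.grp Ω
  change Lt L A t (M.S Ω (Finsupp.single P' 1 - Finsupp.single P 1)) b
  have htt : t * t ≤ t := mul_le_of_le_one_right ht ht1.le
  have hd : ∀ n, L.nm (x' n - x n) ≤ t := by
    intro n
    have e : x' n - x n = (x' n - x n - τ n) + τ n := by ring
    rw [e]
    exact (L.add _ _).trans (max_le ((h n).trans htt) (hτ n))
  obtain ⟨z, hz, hzl⟩ := mf_sub hA hM hL hLm ht1 ht hx hx' hd hj
    (R := M.φ Ω P' - M.φ Ω P) (sub_add_cancel _ _)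
  rw [mfS_dif]
  refine ⟨z, hz, fun l => ?_⟩
  have hc0 : aeval x (M.om.c j) ≠ 0 := L.ne_zero (by rw [hj]; exact zero_lt_one)
  have hq : ∀ n, L.nm (aeval x (M.om.q j l n)) ≤ 1 := om_q_le hL hLm hx.le j l
  have e : z l - algebraMap F Ω (A.o l) - b l =
      ((aeval x (M.om.c j) * (z l - algebraMap F Ω (A.o l)) -
        ∑ n, aeval x (M.om.q j l n) * (x' n - x n)) +
          ∑ n, aeval x (M.om.q j l n) * (x' n - x n - τ n)) / aeval x (M.om.c j) := by
    rw [eq_div_iff hc0]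
    have h1 : ∑ n, aeval x (M.om.q j l n) * (x' n - x n - τ n) =
        ∑ n, aeval x (M.om.q j l n) * (x' n - x n) - ∑ n, aeval x (M.om.q j l n) * τ n := by
      rw [← Finset.sum_sub_distrib]
      exact Finset.sum_congr rfl fun n _ => by ring
    rw [h1, ← hb l]
    ring
  rw [e, L.div, hj, div_one]
  refine (L.add _ _).trans (max_le (hzl l) ?_)
  refine L.sum_le _ _ (mul_nonneg ht ht) fun n _ => ?_
  rw [L.mul]
  exact (mul_le_of_le_one_left (L.nonneg _) (hq n)).trans (h n)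

/-- The norm of a cycle. -/
theorem lt_nm (hA : A.Ok) (hM : M.Ok) (hL : Lga L A) {t : ℝ} (ht1 : t < 1) (ht : 0 ≤ t)
    {E : IntermediateField K Ω} [FiniteDimensional K E] {z : (Xf f).pt Ω →₀ ℤ}
    {b : Fin N' → Ω} (h : letI := A.G.grp Ω; Lt L A t (M.S Ω z) b) :
    letI := A.G.grp Ω
    Lt L A t (M.S Ω (Nm (K := K) ⊥ E z)) fun l => Nm (K := K) ⊥ E (b l) := by
  let _ : AddCommGroup ((Xf A.a).pt Ω) := A.G.grp Ω
  change Lt L A t (M.S Ω (Nm (K := K) ⊥ E z)) fun l => Nm (K := K) ⊥ E (b l)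
  obtain ⟨s, -, -, -, h₃⟩ := nm_rep (K := K) (Ω := Ω) (bot_le : (⊥ : IntermediateField K Ω) ≤ E)
  rw [h₃ _ z]
  have e : (fun l => Nm (K := K) ⊥ E (b l)) = ∑ γ ∈ s, fun l => γ (b l) := by
    funext l
    rw [h₃ _ (b l), Finset.sum_apply]
    rfl
  rw [e, map_sum]
  refine lt_sum hA hL ht1 ht s _ _ fun γ _ => ?_
  have e2 : M.S Ω (γ • z) = (Xf A.a).act γ (M.S Ω z) := mfS_act hM γ z
  rw [e2]
  exact lt_act h γ

/-- **The sum of a cycle.** -/
theorem sum_lt (hA : A.Ok) (hM : M.Ok) (hL : Lga L A) (hLm : Lmf L M) {t : ℝ} (ht1 : t < 1)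
    (ht : 0 ≤ t) {I : Type} (s : Finset I) (e : I → ℤ) (E : I → IntermediateField K Ω)
    (hE : ∀ i ∈ s, FiniteDimensional K (E i)) (P P' : I → (Xf f).pt Ω)
    (x x' τ : I → Fin N → Ω) (hx : ∀ i ∈ s, Pco L f (P i) (x i))
    (hx' : ∀ i ∈ s, Co (P' i) (x' i)) (hτ : ∀ i ∈ s, ∀ n, L.nm (τ i n) ≤ t)
    (h : ∀ i ∈ s, ∀ n, L.nm (x' i n - x i n - τ i n) ≤ t * t) (j : I → Fin (k * N' * k'))
    (hj : ∀ i ∈ s, L.nm (aeval (x i) (M.om.c (j i))) = 1) (b : I → Fin N' → Ω)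
    (hb : ∀ i ∈ s, ∀ l, aeval (x i) (M.om.c (j i)) * b i l =
      ∑ n, aeval (x i) (M.om.q (j i) l n) * τ i n) :
    letI := A.G.grp Ω
    Lt L A t (M.S Ω (∑ i ∈ s, e i • Nm (K := K) ⊥ (E i)
      (Finsupp.single (P' i) 1 - Finsupp.single (P i) 1 : (Xf f).pt Ω →₀ ℤ)))
      (∑ i ∈ s, e i • fun l => Nm (K := K) ⊥ (E i) (b i l)) := by
  let _ : AddCommGroup ((Xf A.a).pt Ω) := A.G.grp Ω
  change Lt L A t (M.S Ω (∑ i ∈ s, e i • Nm (K := K) ⊥ (E i)
      (Finsupp.single (P' i) 1 - Finsupp.single (P i) 1 : (Xf f).pt Ω →₀ ℤ)))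
      (∑ i ∈ s, e i • fun l => Nm (K := K) ⊥ (E i) (b i l))
  rw [map_sum]
  refine lt_sum hA hL ht1 ht s _ _ fun i hi => ?_
  rw [map_zsmul]
  refine lt_zsmul hA hL ht1 ht ?_ _
  have := hE i hi
  exact lt_nm hA hM hL ht1 ht (mf_lt hA hM hL hLm ht1 ht (hx i hi) (hx' i hi) (hτ i hi)
    (h i hi) (hj i hi) (hb i hi))

/-- **If the sum is `0` the traces of the values of the forms are small.** -/
theorem sum_small (hA : A.Ok) (hM : M.Ok) (hL : Lga L A) (hLm : Lmf L M) {t : ℝ} (ht1 : t < 1)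
    (ht : 0 ≤ t) {I : Type} (s : Finset I) (e : I → ℤ) (E : I → IntermediateField K Ω)
    (hE : ∀ i ∈ s, FiniteDimensional K (E i)) (P P' : I → (Xf f).pt Ω)
    (x x' τ : I → Fin N → Ω) (hx : ∀ i ∈ s, Pco L f (P i) (x i))
    (hx' : ∀ i ∈ s, Co (P' i) (x' i)) (hτ : ∀ i ∈ s, ∀ n, L.nm (τ i n) ≤ t)
    (h : ∀ i ∈ s, ∀ n, L.nm (x' i n - x i n - τ i n) ≤ t * t) (j : I → Fin (k * N' * k'))
    (hj : ∀ i ∈ s, L.nm (aeval (x i) (M.om.c (j i))) = 1) (b : I → Fin N' → Ω)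
    (hb : ∀ i ∈ s, ∀ l, aeval (x i) (M.om.c (j i)) * b i l =
      ∑ n, aeval (x i) (M.om.q (j i) l n) * τ i n)
    (h0 : letI := A.G.grp Ω; M.S Ω (∑ i ∈ s, e i • Nm (K := K) ⊥ (E i)
      (Finsupp.single (P' i) 1 - Finsupp.single (P i) 1 : (Xf f).pt Ω →₀ ℤ)) = 0)
    (l : Fin N') : L.nm (∑ i ∈ s, e i • Nm (K := K) ⊥ (E i) (b i l)) ≤ t * t := by
  let _ : AddCommGroup ((Xf A.a).pt Ω) := A.G.grp Ω
  have h1 : Lt L A t (M.S Ω (∑ i ∈ s, e i • Nm (K := K) ⊥ (E i)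
      (Finsupp.single (P' i) 1 - Finsupp.single (P i) 1 : (Xf f).pt Ω →₀ ℤ)))
      (∑ i ∈ s, e i • fun l => Nm (K := K) ⊥ (E i) (b i l)) :=
    sum_lt hA hM hL hLm ht1 ht s e E hE P P' x x' τ hx hx' hτ h j hj b hb
  rw [h0] at h1
  have h2 := lt_uniq h1 (lt_zero hA ht) l
  rw [Pi.zero_apply, sub_zero, Finset.sum_apply] at h2
  exact h2

end mf

end GX
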