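import Mathlib

/-! The algebra of the differences of a character. -/

namespace GX

variable {O V A : Type} [CommRing O] [AddCommGroup V] [Module O V] [AddCommGroup A]

/-- `T (w; ·)` is additive and does not change along parallel displacements. -/
structure Dfc (O : Type) {V A : Type} [CommRing O] [AddCommGroup V] [Module O V]
    [AddCommGroup A] (T : V → V → A) : Prop where
  add : ∀ w g g', T w (g + g') = T w g + T w g'
  par : ∀ w g (σ : O), T (w + σ • g) g = T w g

variable {T : V → V → A}

private theorem kf_par_one (h : Dfc O T) (w g : V) : T (w + g) g = T w g := by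
  have := h.par w g 1
  rwa [one_smul] at this

/-- Proof: `T (w + η; g) = T (w + η; g + η) - T (w + η; η) = T (w - g; g + η) - T (w; η) = T (w; g) + T (w - g; η) - T (w; η)`. -/
theorem Dfc.swap (h : Dfc O T) (w η g : V) : T (w + η) g - T w g = T (w - g) η - T w η := by
  have h1 : T (w + η) (g + η) = T (w - g) (g + η) := by
    have h2 := kf_par_one h (w - g) (g + η)
    have h3 : w - g + (g + η) = w + η := by abel
    rwa [h3] at h2
  have h2 : T (w - g) g = T w g := by
    have h3 := kf_par_one h (w - g) g
    rw [sub_add_cancel] at h3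
    exact h3.symm
  rw [h.add, h.add, h2, kf_par_one h w η] at h1
  rw [sub_eq_sub_iff_add_eq_add, h1]
  abel

/-- Proof: `swap` and `add`. -/
theorem Dfc.add_left (h : Dfc O T) (w η η' g : V) :
    T (w + (η + η')) g + T w g = T (w + η) g + T (w + η') g := by
  have h1 := h.swap w (η + η') g
  have h2 := h.swap w η g
  have h3 := h.swap w η' g
  rw [h.add, h.add] at h1
  have e1 : T (w + (η + η')) g = (T (w + (η + η')) g - T w g) + T w g := by abel
  have e2 : T (w + η) g = (T (w + η) g - T w g) + T w g := by abel
  have e3 : T (w + η') g = (T (w + η') g - T w g) + T w g := by abel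
  rw [e1, e2, e3, h1, h2, h3]
  abel

/-- Proof: the difference `G (η, g) = T (w + η; g) - T (w; g)` is biadditive (`add_left`, `add`), `G (σ v, v) = 0` (`par`), `G (η, g) = - G (g, η)` (`swap`); polarize `G (σ (v + v'), v + v') = 0`: `G (σ v, v') = - G (σ v', v) = G (v, σ v')`. -/
theorem Dfc.bal (h : Dfc O T) (w η g : V) (σ : O) :
    T (w + σ • η) g - T w g = T (w + η) (σ • g) - T w (σ • g) := by
  obtain ⟨G, hG⟩ : ∃ G : V → V → A, ∀ a b, G a b = T (w + a) b - T w b := ⟨_, fun _ _ => rfl⟩
  have hr : ∀ a b c, G a (b + c) = G a b + G a c := by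
    intro a b c
    rw [hG, hG, hG, h.add, h.add]
    abel
  have hl : ∀ a b c, G (a + b) c = G a c + G b c := by
    intro a b c
    have h1 := h.add_left w a b c
    have e1 : T (w + (a + b)) c = (T (w + a) c + T (w + b) c) - T w c := by
      rw [← h1]
      abel
    rw [hG, hG, hG, e1]
    abel
  have h0 : ∀ a (s : O), G (s • a) a = 0 := by
    intro a s
    rw [hG, h.par, sub_self]
  have hz : ∀ a, G 0 a = 0 := by
    intro a
    rw [hG, add_zero, sub_self]
  have hs : ∀ a b, G a b = - G b a := by
    intro a b
    have h1 : G a b = G (-b) a := by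
      rw [hG, hG, h.swap w a b, ← sub_eq_add_neg]
    have h2 : G b a + G (-b) a = 0 := by
      rw [← hl, add_neg_cancel, hz]
    rw [h1]
    exact eq_neg_of_add_eq_zero_right h2
  have h1 : G (σ • η) g + G (σ • g) η = 0 := by
    have h2 := h0 (η + g) σ
    rw [smul_add, hl, hr, hr, h0 η σ, h0 g σ, zero_add, add_zero] at h2
    exact h2
  have h2 : G (σ • η) g = G η (σ • g) := by
    rw [hs η (σ • g)]
    exact eq_neg_of_add_eq_zero_left h1
  rw [hG, hG] at h2
  exact h2

end GX
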