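import Mathlib

/-!
CTX, section 4: the stable range of a filtration, pure algebra.
`st_pad`: p-adic coordinates of a separated group without p-torsion with finite reduction
modulo p. `st_div`, `st_lam`, `st_fin`: the intersection of the filtration is divisible
modulo `R`, the p-adic functionals, and the splitting divisible + finite.
-/

namespace GX

/-- An additive map into a divisible group extends from a subgroup. -/
theorem st_ext {A Q : Type*} [AddCommGroup A] [AddCommGroup Q] [DivisibleBy Q ℤ]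
    (H : AddSubgroup A) (g : H →+ Q) : ∃ h : A →+ Q, ∀ x : H, h x = g x := by
  obtain ⟨h, hh⟩ := Module.Baer.extension_property_addMonoidHom (Module.Baer.of_divisible Q)
    H.subtype H.subtype_injective g
  exact ⟨h, fun x => DFunLike.congr_fun hh x⟩

/-- Divisibility by all powers of `p` in `ℤ_[p]`. -/
theorem st_zero {p : ℕ} [Fact p.Prime] {x : ℤ_[p]} (h : ∀ n : ℕ, (p : ℤ_[p]) ^ n ∣ x) :
    x = 0 := by
  have hh := (inferInstance : IsHausdorff (IsLocalRing.maximalIdeal ℤ_[p]) ℤ_[p])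
  refine hh.haus x fun n => ?_
  rw [SModEq.zero, PadicInt.maximalIdeal_eq_span_p, Ideal.span_singleton_pow, smul_eq_mul,
    Ideal.mul_top, Ideal.mem_span_singleton]
  exact h n

/-- Completeness of `ℤ_[p]` for sequences of integers. -/
theorem st_lim {p : ℕ} [Fact p.Prime] (a : ℕ → ℤ)
    (h : ∀ m n, m ≤ n → (p : ℤ) ^ m ∣ a n - a m) :
    ∃ L : ℤ_[p], ∀ n : ℕ, (p : ℤ_[p]) ^ n ∣ (a n : ℤ_[p]) - L := by
  have hh := (inferInstance : IsPrecomplete (IsLocalRing.maximalIdeal ℤ_[p]) ℤ_[p])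
  obtain ⟨L, hL⟩ := hh.prec (f := fun n => (a n : ℤ_[p])) (by
    intro m n hmn
    rw [SModEq.sub_mem, PadicInt.maximalIdeal_eq_span_p, Ideal.span_singleton_pow, smul_eq_mul,
      Ideal.mul_top, Ideal.mem_span_singleton]
    have h2 := (PadicInt.pow_p_dvd_int_iff m (a m - a n)).2 (by
      rw [← neg_sub, dvd_neg]; exact h m n hmn)
    push_cast at h2
    exact h2)
  refine ⟨L, fun n => ?_⟩
  have h3 := hL n
  rwa [SModEq.sub_mem, PadicInt.maximalIdeal_eq_span_p, Ideal.span_singleton_pow, smul_eq_mul,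
    Ideal.mul_top, Ideal.mem_span_singleton] at h3

/-- A finite vector space over `ZMod p` has a finite basis. -/
theorem st_bas (p : ℕ) [Fact p.Prime] (V : Type*) [AddCommGroup V] [Finite V]
    [Module (ZMod p) V] : ∃ d : ℕ, Nonempty (Module.Basis (Fin d) (ZMod p) V) :=
  ⟨_, ⟨Module.finBasis (ZMod p) V⟩⟩

/-- p-adic coordinates, with the reduction modulo `p` as a vector space. -/
theorem st_pad0 {Q V : Type*} [AddCommGroup Q] [AddCommGroup V] (p : ℕ) [hp : Fact p.Prime]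
    [Module (ZMod p) V] [Finite V] (π : Q →+ V) (hπ : Function.Surjective π)
    (hPm : ∀ x : Q, π x = 0 ↔ ∃ w, x = p • w)
    (h1 : ∀ z : Q, p • z = 0 → z = 0) (h2 : ∀ z : Q, (∀ k : ℕ, ∃ w, z = p ^ k • w) → z = 0)
    {z : Q} (hz : z ≠ 0) :
    ∃ lam : Q →+ ℤ_[p], lam z ≠ 0 := by
  classical
  obtain ⟨d, ⟨b⟩⟩ := st_bas p V
  choose x hx using fun i : Fin d => hπ (b i)
  have hcast : ∀ (n : ℤ) (y : V), ((n : ZMod p)) • y = n • y := by
    intro n y
    exact Int.cast_smul_eq_zsmul (ZMod p) n y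
  -- reduction of sums
  have hred : ∀ a : Fin d → ℤ, π (∑ i, a i • x i) = ∑ i, (a i : ZMod p) • b i := by
    intro a
    rw [map_sum]
    refine Finset.sum_congr rfl fun i _ => ?_
    rw [map_zsmul, hx, hcast]
  have hU : ∀ (k : ℕ) (a : Fin d → ℤ) (w : Q), ∑ i, a i • x i = p ^ k • w →
      ∀ i, (p : ℤ) ^ k ∣ a i := by
    intro k
    induction k with
    | zero => intro a w _ i; simp
    | succ k ih =>
      intro a w haw
      have h0 : π (∑ i, a i • x i) = 0 := by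
        rw [hPm]
        exact ⟨p ^ k • w, by rw [haw, pow_succ', mul_smul]⟩
      rw [hred] at h0
      have h4 := Fintype.linearIndependent_iff.1 b.linearIndependent _ h0
      have h5 : ∀ i, (p : ℤ) ∣ a i := fun i => (ZMod.intCast_zmod_eq_zero_iff_dvd _ _).1 (h4 i)
      choose c hc using h5
      have h6 : ∑ i, c i • x i = p ^ k • w := by
        have h7 : p • (∑ i, c i • x i - p ^ k • w) = 0 := by
          rw [smul_sub, ← mul_smul, ← pow_succ', ← haw, Finset.smul_sum, ← Finset.sum_sub_distrib]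
          refine Finset.sum_eq_zero fun i _ => ?_
          rw [hc i, mul_smul, natCast_zsmul, sub_self]
        exact sub_eq_zero.1 (h1 _ h7)
      intro i
      rw [hc i, pow_succ']
      exact mul_dvd_mul_left _ (ih c w h6 i)
  have hS : ∀ (k : ℕ) (z : Q), ∃ (a : Fin d → ℤ) (w : Q), z = ∑ i, a i • x i + p ^ k • w := by
    intro k
    induction k with
    | zero => intro z; exact ⟨0, z, by simp⟩
    | succ k ih =>
      intro z
      obtain ⟨a, w, haw⟩ := ih z
      choose c hc using fun i : Fin d => ZMod.intCast_surjective (b.repr (π w) i)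
      have h4 : π (w - ∑ i, c i • x i) = 0 := by
        rw [map_sub, hred, sub_eq_zero]
        conv_lhs => rw [← b.sum_repr (π w)]
        exact Finset.sum_congr rfl fun i _ => by rw [hc i]
      rw [hPm] at h4
      obtain ⟨w', hw'⟩ := h4
      refine ⟨fun i => a i + p ^ k * c i, w', ?_⟩
      have h8 : w = ∑ i, c i • x i + p • w' := by rw [← hw']; abel
      rw [haw, pow_succ, mul_smul, Finset.sum_congr rfl fun i _ => add_smul _ _ (x i),
        Finset.sum_add_distrib, add_assoc]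
      congr 1
      conv_lhs => rw [h8]
      rw [smul_add, Finset.smul_sum]
      congr 1
      refine Finset.sum_congr rfl fun i _ => ?_
      rw [mul_smul, ← natCast_zsmul, Nat.cast_pow]
  choose a w haw using hS
  have hD : ∀ z i m n, m ≤ n → (p : ℤ) ^ m ∣ a n z i - a m z i := by
    intro z i m n hmn
    have h4 : ∑ j, (a n z j - a m z j) • x j = p ^ m • (w m z - p ^ (n - m) • w n z) := by
      have h5 := haw n z
      have h6 := haw m z
      rw [Finset.sum_congr rfl fun j _ => sub_smul _ _ (x j), Finset.sum_sub_distrib, smul_sub,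
        ← mul_smul, ← pow_add, Nat.add_sub_cancel' hmn, sub_eq_sub_iff_add_eq_add, ← h5,
        add_comm, ← h6]
    exact hU m _ _ h4 i
  choose L hL using fun z i => st_lim (fun n => a n z i) (hD z i)
  have hC : ∀ z (n : ℕ) (c : Fin d → ℤ) (w' : Q), z = ∑ i, c i • x i + p ^ n • w' → ∀ i,
      (p : ℤ_[p]) ^ n ∣ (c i : ℤ_[p]) - L z i := by
    intro z n c w' h i
    have h4 : ∑ j, (c j - a n z j) • x j = p ^ n • (w n z - w') := by
      have h6 := haw n z
      rw [Finset.sum_congr rfl fun j _ => sub_smul _ _ (x j), Finset.sum_sub_distrib, smul_sub,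
        sub_eq_sub_iff_add_eq_add, ← h, add_comm, ← h6]
    have h5 := (PadicInt.pow_p_dvd_int_iff (p := p) n _).2 (hU n _ _ h4 i)
    have h7 := dvd_add h5 (hL z i n)
    push_cast at h7
    rwa [sub_add_sub_cancel] at h7
  have hA : ∀ z z' i, L (z + z') i = L z i + L z' i := by
    intro z z' i
    rw [← sub_eq_zero]
    refine st_zero fun n => ?_
    have h4 := hC (z + z') n (fun i => a n z i + a n z' i) (w n z + w n z') (by
      rw [Finset.sum_congr rfl fun j _ => add_smul _ _ (x j), Finset.sum_add_distrib, smul_add]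
      conv_lhs => rw [haw n z, haw n z']
      abel) i
    have h5 := dvd_sub (dvd_add (hL z i n) (hL z' i n)) h4
    push_cast at h5
    convert h5 using 1
    ring
  have hN : ∃ i, L z i ≠ 0 := by
    by_contra hcon
    push Not at hcon
    refine hz (h2 z fun k => ?_)
    have h4 : ∀ i, (p : ℤ) ^ k ∣ a k z i := fun i => by
      have h5 := hL z i k
      rw [hcon i, sub_zero] at h5
      exact (PadicInt.pow_p_dvd_int_iff k _).1 h5
    choose c hc using h4
    refine ⟨∑ i, c i • x i + w k z, ?_⟩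
    rw [smul_add, Finset.smul_sum]
    conv_lhs => rw [haw k z]
    congr 1
    refine Finset.sum_congr rfl fun i _ => ?_
    rw [hc i, mul_smul, ← Nat.cast_pow, natCast_zsmul]
  obtain ⟨i, hi⟩ := hN
  exact ⟨AddMonoidHom.mk' (fun z => L z i) (fun z z' => hA z z' i), hi⟩

/-- p-adic coordinates: `Q` without `p`-torsion, `⋂ p ^ k Q = 0`, `Q / p Q` finite. -/
theorem st_pad {Q : Type*} [AddCommGroup Q] (p : ℕ) [hp : Fact p.Prime]
    (h1 : ∀ z : Q, p • z = 0 → z = 0) (h2 : ∀ z : Q, (∀ k : ℕ, ∃ w, z = p ^ k • w) → z = 0)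
    (h3 : Finite (Q ⧸ (nsmulAddMonoidHom p : Q →+ Q).range)) {z : Q} (hz : z ≠ 0) :
    ∃ lam : Q →+ ℤ_[p], lam z ≠ 0 := by
  have hPm : ∀ x : Q, x ∈ (nsmulAddMonoidHom p : Q →+ Q).range ↔ ∃ w, x = p • w := by
    intro x
    rw [AddMonoidHom.mem_range]
    constructor
    · rintro ⟨w, hw⟩
      exact ⟨w, hw.symm⟩
    · rintro ⟨w, hw⟩
      exact ⟨w, hw.symm⟩
  let hmod : Module (ZMod p) (Q ⧸ (nsmulAddMonoidHom p : Q →+ Q).range) :=
    AddCommGroup.zmodModule (n := p) (by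
      intro x
      obtain ⟨y, rfl⟩ := QuotientAddGroup.mk_surjective x
      rw [← QuotientAddGroup.mk_nsmul, QuotientAddGroup.eq_zero_iff, hPm]
      exact ⟨y, rfl⟩)
  refine st_pad0 p (QuotientAddGroup.mk' (nsmulAddMonoidHom p : Q →+ Q).range)
    (QuotientAddGroup.mk'_surjective _) (fun x => ?_) h1 h2 hz
  rw [QuotientAddGroup.coe_mk', QuotientAddGroup.eq_zero_iff, hPm]

/-- The levels of a filtration in the stable range: `R` the relations, `p V n = V (n + e)`
modulo `R` for `n ≥ s0`. -/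
structure Stb {A : Type*} [AddCommGroup A] (p e s0 : ℕ) (R : AddSubgroup A)
    (V : ℕ → AddSubgroup A) : Prop where
  anti : ∀ n, V (n + 1) ≤ V n
  le : ∀ n, R ≤ V n
  epos : 1 ≤ e
  dv : ∀ n, s0 ≤ n → 1 ≤ n → ∀ z ∈ V (n + e), ∃ w ∈ V n, z - p • w ∈ R
  mp : ∀ n, s0 ≤ n → 1 ≤ n → ∀ w ∈ V n, p • w ∈ V (n + e)
  dl : ∀ n, 1 ≤ n → ∀ l : ℕ, l.Prime → l ≠ p → ∀ z ∈ V n, ∃ w ∈ V n, z - l • w ∈ R
  up : ∀ n, 1 ≤ n → ∀ z ∈ V n, p • z ∈ V (n + 1)
  fin : ∀ n, 1 ≤ n → (V (n + 1)).relIndex (V n) ≠ 0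

namespace Stb

variable {A : Type*} [AddCommGroup A] {p e s0 : ℕ} {R : AddSubgroup A} {V : ℕ → AddSubgroup A}

theorem anti' (h : Stb p e s0 R V) {m n : ℕ} (hmn : m ≤ n) : V n ≤ V m := by
  induction n, hmn using Nat.le_induction with
  | base => exact le_rfl
  | succ n _ ih => exact (h.anti n).trans ih

theorem rel (h : Stb p e s0 R V) {m n : ℕ} (hm : 1 ≤ m) (hmn : m ≤ n) :
    (V n).relIndex (V m) ≠ 0 := by
  induction n, hmn using Nat.le_induction with
  | base => rw [AddSubgroup.relIndex_self]; exact one_ne_zero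
  | succ n hn ih => exact AddSubgroup.relIndex_ne_zero_trans (h.fin n (hm.trans hn)) ih

/-- The image of `V n` under `p`, together with `R`, is `V (n + e)`. -/
theorem map_sup (h : Stb p e s0 R V) {n : ℕ} (h0 : s0 ≤ n) (h1 : 1 ≤ n) :
    (V n).map (nsmulAddMonoidHom p) ⊔ R = V (n + e) := by
  refine le_antisymm (sup_le ?_ (h.le _)) fun z hz => ?_
  · rintro _ ⟨w, hw, rfl⟩
    exact h.mp n h0 h1 w hw
  · obtain ⟨w, hw, hzw⟩ := h.dv n h0 h1 z hz
    exact AddSubgroup.mem_sup.2 ⟨p • w, ⟨w, hw, rfl⟩, z - p • w, hzw, by abel⟩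

theorem rel_shift (h : Stb p e s0 R V) {n : ℕ} (h0 : s0 ≤ n) (h1 : 1 ≤ n) :
    (V (n + 1)).relIndex (V n) = (V (n + 1)).relIndex
        ((V (n + e + 1)).comap (nsmulAddMonoidHom p) ⊓ V n) *
      (V (n + e + 1)).relIndex (V (n + e)) := by
  have h2 : (V (n + e + 1)).relIndex (V (n + e)) =
      ((V (n + e + 1)).comap (nsmulAddMonoidHom p)).relIndex (V n) := by
    rw [AddSubgroup.relIndex_comap, ← h.map_sup h0 h1,
      ← AddSubgroup.relIndex_sup_right ((V n).map (nsmulAddMonoidHom p) ⊔ R) (V (n + e + 1)),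
      ← AddSubgroup.relIndex_sup_right ((V n).map (nsmulAddMonoidHom p)) (V (n + e + 1)),
      sup_assoc, sup_eq_right.2 (h.le _)]
  rw [h2, ← AddSubgroup.inf_relIndex_right ((V (n + e + 1)).comap (nsmulAddMonoidHom p)) (V n)]
  refine (AddSubgroup.relIndex_mul_relIndex _ _ _ (le_inf ?_ (h.anti n)) inf_le_right).symm
  intro w hw
  rw [AddSubgroup.mem_comap]
  have h3 := h.mp (n + 1) (h0.trans (Nat.le_succ n)) (Nat.le_add_left _ _) w hw
  rwa [show n + 1 + e = n + e + 1 by ring] at h3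

/-- From some level on, `p : V n / V (n + 1) → V (n + e) / V (n + e + 1)` is injective. -/
theorem inj (h : Stb p e s0 R V) : ∃ r : ℕ, s0 ≤ r ∧ 1 ≤ r ∧ ∀ n, r ≤ n → ∀ z ∈ V n,
    p • z ∈ V (n + e + 1) → z ∈ V (n + 1) := by
  classical
  set s := max s0 1 with hs
  set c : ℕ → ℕ := fun n => (V (n + 1)).relIndex (V n) with hc
  set F : ℕ → ℕ := fun n => ∑ i ∈ Finset.range e, c (n + i) with hF
  have hcle : ∀ n, s ≤ n → c (n + e) ≤ c n := by
    intro n hn
    have h1 : 1 ≤ n := (le_max_right _ _).trans hn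
    have h2 := h.rel_shift ((le_max_left _ _).trans hn) h1
    exact Nat.le_of_dvd (Nat.pos_of_ne_zero (h.fin n h1)) ⟨_, by rw [mul_comm]; exact h2⟩
  have hFs : ∀ n, F (n + 1) + c n = F n + c (n + e) := by
    intro n
    simp only [hF]
    have h3 := Finset.sum_range_succ' (fun i => c (n + i)) e
    have h4 := Finset.sum_range_succ (fun i => c (n + i)) e
    rw [h4] at h3
    rw [h3]
    congr 1
    exact Finset.sum_congr rfl fun i _ => by rw [show n + 1 + i = n + (i + 1) by ring]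
  obtain ⟨n0, hn0, hmin⟩ : ∃ n0, s ≤ n0 ∧ ∀ n, s ≤ n → F n0 ≤ F n := by
    have hne : (F '' {n | s ≤ n}).Nonempty := ⟨F s, s, le_refl s, rfl⟩
    obtain ⟨n0, hn0, h5⟩ := Nat.sInf_mem hne
    exact ⟨n0, hn0, fun n hn => by rw [h5]; exact Nat.sInf_le ⟨n, hn, rfl⟩⟩
  have hFc : ∀ n, n0 ≤ n → F n = F n0 := by
    intro n hn
    induction n, hn using Nat.le_induction with
    | base => rfl
    | succ n hn ih =>
      have h6 := hFs n
      have h7 := hcle n (hn0.trans hn)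
      have h8 := hmin (n + 1) (hn0.trans (hn.trans (Nat.le_succ n)))
      omega
  refine ⟨n0, (le_max_left _ _).trans hn0, (le_max_right _ _).trans hn0, fun n hn z hz hpz => ?_⟩
  have h1 : 1 ≤ n := (le_max_right _ _).trans (hn0.trans hn)
  have h6 := hFs n
  rw [hFc n hn, hFc (n + 1) (hn.trans (Nat.le_succ n))] at h6
  have h9 : c n = c (n + e) := by omega
  have h2 := h.rel_shift ((le_max_left _ _).trans (hn0.trans hn)) h1
  have h10 : (V (n + 1)).relIndex ((V (n + e + 1)).comap (nsmulAddMonoidHom p) ⊓ V n) = 1 := by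
    have h11 : c n = (V (n + 1)).relIndex ((V (n + e + 1)).comap (nsmulAddMonoidHom p) ⊓ V n) *
        c (n + e) := h2
    rw [← h9] at h11
    exact Nat.eq_of_mul_eq_mul_right (Nat.pos_of_ne_zero (h.fin n h1)) (by
      rw [one_mul]; exact h11.symm)
  exact AddSubgroup.relIndex_eq_one.1 h10 ⟨hpz, hz⟩

/-- `p` is injective on `V r` modulo the intersection. -/
theorem tf {r : ℕ} (h : Stb p e s0 R V)
    (hr : ∀ n, r ≤ n → ∀ z ∈ V n, p • z ∈ V (n + e + 1) → z ∈ V (n + 1))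
    {z : A} (hz : z ∈ V r) (hp : ∀ m, p • z ∈ V m) : ∀ m, z ∈ V m := by
  have h1 : ∀ m, r ≤ m → z ∈ V m := by
    intro m hm
    induction m, hm using Nat.le_induction with
    | base => exact hz
    | succ m hm ih => exact hr m hm z ih (hp _)
  intro m
  exact h.anti' (le_max_left m r) (h1 _ (le_max_right m r))

theorem pw (h : Stb p e s0 R V) {n : ℕ} (hn : 1 ≤ n) {z : A} (hz : z ∈ V n) (k : ℕ) :
    p ^ k • z ∈ V (n + k) := by
  induction k with
  | zero => simpa using hz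
  | succ k ih =>
    rw [pow_succ', mul_smul, ← add_assoc]
    exact h.up _ (hn.trans (Nat.le_add_right _ _)) _ ih

theorem tl (h : Stb p e s0 R V) (hp : p.Prime) {l : ℕ} (hl : l.Prime) (hlp : l ≠ p) {n : ℕ}
    (hn : 1 ≤ n) {z : A} (hz : z ∈ V n) {m : ℕ} (hm : l • z ∈ V m) : z ∈ V m := by
  rcases le_total m n with hmn | hmn
  · exact h.anti' hmn hz
  · obtain ⟨k, rfl⟩ := Nat.exists_eq_add_of_le hmn
    have h1 := h.pw hn hz k
    have hco : Nat.Coprime l (p ^ k) := Nat.Coprime.pow_right k ((Nat.coprime_primes hl hp).2 hlp)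
    have h2 := Nat.gcd_eq_gcd_ab l (p ^ k)
    rw [Nat.Coprime.gcd_eq_one hco] at h2
    have h3 : z = (Nat.gcdA l (p ^ k)) • (l • z) + (Nat.gcdB l (p ^ k)) • (p ^ k • z) := by
      conv_lhs => rw [← one_zsmul z, ← Nat.cast_one, h2]
      rw [add_smul, mul_comm (l : ℤ), mul_smul, mul_comm ((p ^ k : ℕ) : ℤ), mul_smul,
        natCast_zsmul, natCast_zsmul]
    rw [h3]
    exact (V (n + k)).add_mem ((V (n + k)).zsmul_mem hm _) ((V (n + k)).zsmul_mem h1 _)

/-- The intersection of the filtration is divisible modulo `R`. -/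
theorem div (h : Stb p e s0 R V) (hp : p.Prime) {z : A} (hz : ∀ m, z ∈ V m) {n : ℕ} (hn : n ≠ 0) :
    ∃ w : A, (∀ m, w ∈ V m) ∧ z - n • w ∈ R := by
  obtain ⟨r, hr0, hr1, hr⟩ := h.inj
  induction n using Nat.recOnMul generalizing z with
  | zero => exact absurd rfl hn
  | one => exact ⟨z, hz, by simp [R.zero_mem]⟩
  | prime l hl =>
    by_cases hlp : l = p
    · subst hlp
      obtain ⟨w, hw, hzw⟩ := h.dv r hr0 hr1 z (hz _)
      refine ⟨w, h.tf hr hw fun m => ?_, hzw⟩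
      rw [show l • w = z - (z - l • w) by abel]
      exact (V m).sub_mem (hz m) (h.le m hzw)
    · obtain ⟨w, hw, hzw⟩ := h.dl r hr1 l hl hlp z (hz _)
      refine ⟨w, fun m => h.tl hp hl hlp hr1 hw (m := m) ?_, hzw⟩
      rw [show l • w = z - (z - l • w) by abel]
      exact (V m).sub_mem (hz m) (h.le m hzw)
  | mul a b iha ihb =>
    obtain ⟨w, hw, hzw⟩ := iha hz (left_ne_zero_of_mul hn)
    obtain ⟨w', hw', hzw'⟩ := ihb hw (right_ne_zero_of_mul hn)
    refine ⟨w', hw', ?_⟩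
    rw [show z - (a * b) • w' = (z - a • w) + a • (w - b • w') by
      rw [mul_smul, smul_sub]; abel]
    exact R.add_mem hzw (R.nsmul_mem hzw' a)

theorem mps (h : Stb p e s0 R V) {r : ℕ} (hr0 : s0 ≤ r) (hr1 : 1 ≤ r) {w : A} (hw : w ∈ V r)
    (k : ℕ) : p ^ k • w ∈ V (r + k * e) := by
  induction k with
  | zero => simpa using hw
  | succ k ih =>
    rw [pow_succ', mul_smul, add_mul, one_mul, ← add_assoc]
    exact h.mp _ (hr0.trans (Nat.le_add_right _ _)) (hr1.trans (Nat.le_add_right _ _)) _ ih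

theorem dvs (h : Stb p e s0 R V) {r : ℕ} (hr0 : s0 ≤ r) (hr1 : 1 ≤ r) (k : ℕ) {z : A}
    (hz : z ∈ V (r + k * e)) : ∃ w ∈ V r, z - p ^ k • w ∈ R := by
  induction k generalizing z with
  | zero => exact ⟨z, by simpa using hz, by simp [R.zero_mem]⟩
  | succ k ih =>
    rw [add_mul, one_mul, ← add_assoc] at hz
    obtain ⟨w, hw, hzw⟩ := h.dv _ (hr0.trans (Nat.le_add_right _ _))
      (hr1.trans (Nat.le_add_right _ _)) z hz
    obtain ⟨w', hw', hzw'⟩ := ih hw
    refine ⟨w', hw', ?_⟩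
    rw [show z - p ^ (k + 1) • w' = (z - p • w) + p • (w - p ^ k • w') by
      rw [pow_succ', mul_smul, smul_sub]; abel]
    exact R.add_mem hzw (R.nsmul_mem hzw' p)

/-- The p-adic functionals of the filtration. -/
theorem lam [hp : Fact p.Prime] (h : Stb p e s0 R V) :
    ∃ r : ℕ, s0 ≤ r ∧ 1 ≤ r ∧ ∀ z ∈ V r, (∃ m, z ∉ V m) → ∃ lam : A →+ ℚ_[p],
      (∀ x ∈ R, lam x = 0) ∧ lam z ≠ 0 ∧
      ∀ k : ℕ, ∀ x ∈ V (r + k * e), ‖lam x‖ ≤ (p : ℝ) ^ (-(k : ℤ)) := by
  obtain ⟨r, hr0, hr1, hr⟩ := h.inj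
  refine ⟨r, hr0, hr1, fun z hz hzm => ?_⟩
  obtain ⟨m0, hm0⟩ := hzm
  set W : AddSubgroup A := ⨅ m, V m with hW
  have hWm : ∀ x, x ∈ W ↔ ∀ m, x ∈ V m := fun x => by rw [hW, AddSubgroup.mem_iInf]
  set N : AddSubgroup (V r) := W.addSubgroupOf (V r) with hN
  have hNm : ∀ x : V r, x ∈ N ↔ ∀ m, (x : A) ∈ V m := fun x => by
    rw [hN, AddSubgroup.mem_addSubgroupOf, hWm]
  have hq1 : ∀ q : V r ⧸ N, p • q = 0 → q = 0 := by
    intro q hq
    obtain ⟨y, rfl⟩ := QuotientAddGroup.mk_surjective q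
    rw [← QuotientAddGroup.mk_nsmul, QuotientAddGroup.eq_zero_iff, hNm] at hq
    rw [QuotientAddGroup.eq_zero_iff, hNm]
    exact h.tf hr y.2 fun m => by simpa using hq m
  have hq2 : ∀ q : V r ⧸ N, (∀ k : ℕ, ∃ w, q = p ^ k • w) → q = 0 := by
    intro q hq
    obtain ⟨y, rfl⟩ := QuotientAddGroup.mk_surjective q
    rw [QuotientAddGroup.eq_zero_iff, hNm]
    intro m
    obtain ⟨w, hw⟩ := hq m
    obtain ⟨x, rfl⟩ := QuotientAddGroup.mk_surjective w
    rw [← QuotientAddGroup.mk_nsmul, ← sub_eq_zero, ← QuotientAddGroup.mk_sub,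
      QuotientAddGroup.eq_zero_iff, hNm] at hw
    have h1 := h.mps hr0 hr1 x.2 m
    have h2 : (p ^ m • (x : A)) ∈ V m := h.anti' (by
      have := h.epos
      nlinarith [Nat.zero_le r, Nat.zero_le m]) h1
    have h3 := hw m
    rw [AddSubgroup.coe_sub, AddSubgroup.coe_nsmul] at h3
    have h4 := (V m).add_mem h3 h2
    rwa [sub_add_cancel] at h4
  have hq3 : Finite ((V r ⧸ N) ⧸ (nsmulAddMonoidHom p : (V r ⧸ N) →+ (V r ⧸ N)).range) := by
    have hfi : ((V (r + e)).addSubgroupOf (V r)).FiniteIndex :=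
      ⟨h.rel hr1 (Nat.le_add_right r e)⟩
    have hfin : Finite (V r ⧸ (V (r + e)).addSubgroupOf (V r)) := inferInstance
    let g : V r →+ (V r ⧸ N) ⧸ (nsmulAddMonoidHom p : (V r ⧸ N) →+ (V r ⧸ N)).range :=
      (QuotientAddGroup.mk' _).comp (QuotientAddGroup.mk' N)
    have hg : (V (r + e)).addSubgroupOf (V r) ≤ g.ker := by
      intro x hx
      rw [AddSubgroup.mem_addSubgroupOf] at hx
      obtain ⟨w, hw, hxw⟩ := h.dv r hr0 hr1 _ hx
      rw [AddMonoidHom.mem_ker, AddMonoidHom.comp_apply, QuotientAddGroup.coe_mk',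
        QuotientAddGroup.eq_zero_iff]
      refine ⟨QuotientAddGroup.mk' N ⟨w, hw⟩, ?_⟩
      change p • (QuotientAddGroup.mk' N ⟨w, hw⟩) = QuotientAddGroup.mk' N x
      rw [← map_nsmul, ← sub_eq_zero, ← map_sub, QuotientAddGroup.coe_mk',
        QuotientAddGroup.eq_zero_iff, hNm]
      intro m
      rw [← neg_sub, AddSubgroup.coe_neg]
      exact (V m).neg_mem (h.le m (by simpa using hxw))
    refine Finite.of_surjective (QuotientAddGroup.lift _ g hg) fun y => ?_
    obtain ⟨y1, rfl⟩ := QuotientAddGroup.mk_surjective y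
    obtain ⟨y2, rfl⟩ := QuotientAddGroup.mk_surjective y1
    exact ⟨QuotientAddGroup.mk y2, rfl⟩
  have hq4 : ((⟨z, hz⟩ : V r) : V r ⧸ N) ≠ 0 := by
    rw [Ne, QuotientAddGroup.eq_zero_iff, hNm]
    exact fun hcon => hm0 (hcon m0)
  obtain ⟨l0, hl0⟩ := st_pad p hq1 hq2 hq3 hq4
  obtain ⟨l1, hl1⟩ := st_ext (V r)
    ((((PadicInt.Coe.ringHom (p := p)).toAddMonoidHom).comp l0).comp (QuotientAddGroup.mk' N))
  have hl2 : ∀ x : V r, l1 x = ((l0 (x : V r ⧸ N) : ℤ_[p]) : ℚ_[p]) := fun x => hl1 x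
  have hlR : ∀ x ∈ R, l1 x = 0 := by
    intro x hx
    have h5 := hl2 ⟨x, h.le r hx⟩
    have h6 : ((⟨x, h.le r hx⟩ : V r) : V r ⧸ N) = 0 := by
      rw [QuotientAddGroup.eq_zero_iff, hNm]
      exact fun m => h.le m hx
    rw [h6, map_zero] at h5
    simpa using h5
  refine ⟨l1, hlR, ?_, fun k x hx => ?_⟩
  · have h5 := hl2 ⟨z, hz⟩
    rw [show l1 z = l1 ((⟨z, hz⟩ : V r) : A) from rfl, h5]
    exact fun hcon => hl0 (Subtype.ext hcon)
  · obtain ⟨w, hw, hxw⟩ := h.dvs hr0 hr1 k hx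
    have h7 : l1 x = (p : ℚ_[p]) ^ k * l1 w := by
      have h8 := hlR _ hxw
      rw [map_sub, map_nsmul, sub_eq_zero] at h8
      rw [h8, nsmul_eq_mul, Nat.cast_pow]
    have h9 : ‖l1 w‖ ≤ 1 := by
      rw [show l1 w = l1 ((⟨w, hw⟩ : V r) : A) from rfl, hl2]
      exact PadicInt.norm_le_one _
    rw [h7, norm_mul, norm_pow, Padic.norm_p, zpow_neg, zpow_natCast, inv_pow]
    exact mul_le_of_le_one_right (inv_nonneg.2 (pow_nonneg (Nat.cast_nonneg _) _)) h9

/-- Divisible + finite. -/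
theorem split (h : Stb p e s0 R V) (hp : p.Prime) {E : AddSubgroup A}
    (hWE : ⨅ m, V m ≤ E) (hE : E ≤ V 1) {r : ℕ} (hr : 1 ≤ r) (hEr : E ⊓ V r ≤ ⨅ m, V m) :
    ∃ T : AddSubgroup A, R ≤ T ∧ T ≤ E ∧ R.relIndex T ≠ 0 ∧ (⨅ m, V m) ⊔ T = E ∧
      (⨅ m, V m) ⊓ T = R := by
  set W : AddSubgroup A := ⨅ m, V m with hW
  have hWm : ∀ x, x ∈ W ↔ ∀ m, x ∈ V m := fun x => by rw [hW, AddSubgroup.mem_iInf]
  have hRW : R ≤ W := le_iInf fun m => h.le m
  set D : AddSubgroup (A ⧸ R) := W.map (QuotientAddGroup.mk' R) with hD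
  have hdiv : ∀ {n : ℤ}, n ≠ 0 → Function.Surjective fun a : D => n • a := by
    have key : ∀ {n : ℕ}, n ≠ 0 → Function.Surjective fun a : D => n • a := by
      rintro n hn ⟨_, w, hw, rfl⟩
      obtain ⟨w', hw', hww⟩ := h.div hp ((hWm w).1 hw) hn
      refine ⟨⟨QuotientAddGroup.mk' R w', w', (hWm w').2 hw', rfl⟩, Subtype.ext ?_⟩
      change n • (QuotientAddGroup.mk' R w') = QuotientAddGroup.mk' R w
      rw [← map_nsmul, ← sub_eq_zero, ← map_sub, QuotientAddGroup.coe_mk',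
        QuotientAddGroup.eq_zero_iff, ← neg_sub]
      exact R.neg_mem hww
    intro n hn b
    obtain ⟨a, ha⟩ := key (n := n.natAbs) (Int.natAbs_ne_zero.2 hn) b
    rcases Int.natAbs_eq n with h1 | h1
    · refine ⟨a, ?_⟩
      change n • a = b
      rw [h1, natCast_zsmul]
      exact ha
    · refine ⟨-a, ?_⟩
      change n • -a = b
      rw [h1, neg_smul_neg, natCast_zsmul]
      exact ha
  have : DivisibleBy D ℤ := divisibleByOfSMulRightSurj D ℤ hdiv
  obtain ⟨ρ, hρ⟩ := st_ext D (AddMonoidHom.id D)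
  have hρ' : ∀ w ∈ W, ((ρ (QuotientAddGroup.mk' R w) : D) : A ⧸ R) = QuotientAddGroup.mk' R w :=
    fun w hw => congrArg Subtype.val (hρ ⟨QuotientAddGroup.mk' R w, w, hw, rfl⟩)
  set T : AddSubgroup A := (ρ.ker).comap (QuotientAddGroup.mk' R) ⊓ E with hT
  have hTm : ∀ x, x ∈ T ↔ ρ (QuotientAddGroup.mk' R x) = 0 ∧ x ∈ E := fun x => Iff.rfl
  have hRT : R ≤ T := fun x hx => by
    refine (hTm x).2 ⟨?_, hWE (hRW hx)⟩
    have h1 : QuotientAddGroup.mk' R x = 0 := by
      rw [QuotientAddGroup.coe_mk', QuotientAddGroup.eq_zero_iff]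
      exact hx
    rw [h1, map_zero]
  have hinf : W ⊓ T = R := by
    refine le_antisymm (fun x hx => ?_) (le_inf hRW hRT)
    have h1 := hρ' x hx.1
    rw [((hTm x).1 hx.2).1] at h1
    have h2 : QuotientAddGroup.mk' R x = 0 := by rw [← h1]; rfl
    rwa [QuotientAddGroup.coe_mk', QuotientAddGroup.eq_zero_iff] at h2
  refine ⟨T, hRT, inf_le_right, ?_, le_antisymm (sup_le hWE inf_le_right) fun x hx => ?_, hinf⟩
  · have h1 : W.relIndex E ≠ 0 := by
      have h2 : (V r).relIndex E ≠ 0 := fun h3 =>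
        h.rel le_rfl hr (AddSubgroup.relIndex_eq_zero_of_le_right hE h3)
      rw [← AddSubgroup.inf_relIndex_right] at h2
      exact fun h3 => h2 (AddSubgroup.relIndex_eq_zero_of_le_left
        (fun x hx => (hWm x).1 (hEr (show x ∈ E ⊓ V r from ⟨hx.2, hx.1⟩)) |> fun h4 => (hWm x).2 h4)
        h3)
    have h4 : W.relIndex T ≠ 0 := fun h5 =>
      h1 (AddSubgroup.relIndex_eq_zero_of_le_right inf_le_right h5)
    rw [← AddSubgroup.inf_relIndex_right, hinf] at h4
    exact h4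
  · obtain ⟨w, hw, hwx⟩ := (ρ (QuotientAddGroup.mk' R x)).2
    refine AddSubgroup.mem_sup.2 ⟨w, hw, x - w, (hTm _).2 ⟨?_, E.sub_mem hx (hWE hw)⟩, by abel⟩
    rw [map_sub, map_sub, sub_eq_zero]
    refine Subtype.ext ?_
    rw [hρ' w hw, hwx]

end Stb

end GX
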