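import Pool.Agent.Lib.MP_f80667_ag.Gx.VD
import Pool.Agent.Lib.MP_f80667_ag.Gy.St
import Pool.Agent.Lib.MP_f80667_ag.Sb.C

/-!
The statements on zero-cycles at the places of good reduction. `V` is a valuation ring of `Ω`.

* `Gav V A`: the group variety `A` and its differences are integral and have good reduction.
* `Gmv V M`: the morphism `M` is integral and has good reduction.
* `Ctv M V K p`: the cycles over `K` with reduction `0` whose image has the sum `0` are, modulo rational equivalence, the sum of a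
  divisible group and of a finite group whose elements are killed by powers of `p`.
-/

open ZC BE PE CV IntermediateField

namespace GX

section defs

variable {F : Type} [Field F] {N N' k k' : ℕ} {ι ι' : Type} {f : ι → MvPolynomial (Fin N) F}
  {Ω : Type} [Field Ω] [Algebra F Ω] (V : ValuationSubring Ω)

/-- The group variety is integral and has good reduction: at primitive coordinates one of the values which compute the difference is a
unit. -/
structure Gav (A : Gv F N' k' ι') : Prop where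
  o : ∀ j, algebraMap F Ω (A.o j) ∈ V
  m : ∀ i j e, algebraMap F Ω ((A.m i j).coeff e) ∈ V
  u : ∀ (P Q : (Xf A.a).pt Ω) (x x' : Fin N' → Ω), Co P x → Co Q x' → GM.Pmv V x →
    GM.Pmv V x' → ∃ i j, A.mv i x x' j ∉ V.nonunits

/-- The morphism is integral and has good reduction: at primitive coordinates one of its values is a unit. -/
structure Gmv {A : Gv F N' k' ι'} (M : Mf f A k) : Prop where
  c : ∀ i j e, algebraMap F Ω ((M.Φ i j).coeff e) ∈ V
  u : ∀ (P : (Xf f).pt Ω) (x : Fin N → Ω), Co P x → GM.Pmv V x →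
    ∃ i j, M.pv i x j ∉ V.nonunits

/-- The cycles over `K` with reduction `0` and sum `0` are the sum of a divisible group and a finite group killed by a power of `p`. -/
def Ctv {A : Gv F N' k' ι'} (M : Mf f A k) (K : Type) [Field K] [Algebra F K] [Algebra K Ω]
    [IsScalarTower F K Ω] (p : ℕ) : Prop :=
  letI := A.G.grp Ω
  ∃ E : Finset ((Xf f).pt Ω →₀ ℤ),
    (∀ e ∈ E, e ∈ (Xf f).cyc K Ω ∧ Zrd f V e ∧ M.S Ω e = 0 ∧
      ∃ k : ℕ, p ^ k • e ∈ (Xf f).ratEq K Ω) ∧
    ∀ z ∈ (Xf f).cyc K Ω, Zrd f V z → M.S Ω z = 0 → ∃ e ∈ E, ∀ m : ℕ, m ≠ 0 →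
      ∃ z' ∈ (Xf f).cyc K Ω, Zrd f V z' ∧ M.S Ω z' = 0 ∧ z - e - m • z' ∈ (Xf f).ratEq K Ω

end defs

section loc

variable {F : Type} [Field F] {N N' k k' : ℕ} {ι ι' : Type} {f : ι → MvPolynomial (Fin N) F}
  {K Ω : Type} [Field K] [CharZero K] [Field Ω] [Algebra K Ω] [Algebra F K] [Algebra F Ω]
  [IsScalarTower F K Ω] [IsAlgClosure K Ω] {L : Ld K Ω}

omit [CharZero K] [Algebra F K] [IsScalarTower F K Ω] [IsAlgClosure K Ω] in
theorem lga_of {A : Gv F N' k' ι'} (h : Gav L.V A) : Lga L A where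
  io j := L.mem_V.1 (h.o j)
  im i j e := L.mem_V.1 (h.m i j e)
  um P Q x x' hx hx' := by
    obtain ⟨i, j, h1⟩ := h.u P Q x x' hx.co hx'.co (GM.pmv_iff.2 ⟨hx.le, hx.one⟩)
      (GM.pmv_iff.2 ⟨hx'.le, hx'.one⟩)
    refine ⟨i, j, le_antisymm ?_ (not_lt.1 fun h2 => h1 (GM.non_iff.2 h2))⟩
    exact sb_le (fun e => L.mem_V.1 (h.m i j e)) (Sum.rec hx.le hx'.le)

omit [CharZero K] [Algebra F K] [IsScalarTower F K Ω] [IsAlgClosure K Ω] in
theorem lmf_of {A : Gv F N' k' ι'} {M : Mf f A k} (h : Gmv L.V M) : Lmf L M where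
  iΦ i j e := L.mem_V.1 (h.c i j e)
  uΦ P x hx := by
    obtain ⟨i, j, h1⟩ := h.u P x hx.co (GM.pmv_iff.2 ⟨hx.le, hx.one⟩)
    refine ⟨i, j, le_antisymm ?_ (not_lt.1 fun h2 => h1 (GM.non_iff.2 h2))⟩
    exact sb_le (fun e => L.mem_V.1 (h.c i j e)) hx.le

end loc

end GX
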