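import Pool.Agent.Lib.MP_f80667_ag.Lv.Ga
import Pool.Agent.Lib.MP_f80667_ag.Lv.Fs
import Pool.Agent.Lib.MP_f80667_ag.Cv.NfD
import Pool.Agent.Lib.MP_f80667_ag.Gm.GxC
import Pool.Agent.Lib.MP_f80667_ag.St.Gl

/-!
Descent by two extensions of coprime degrees.

`M₁` and `M₂` are finite extensions of `K` of degrees `a` and `b`, `u a + v b = 1`. A cycle `z` over `K` is `u` times its trace from `M₁` plus `v` times its
trace from `M₂`; the traces of cycles with reduction `0`, with sum `0`, rationally equivalent to `0` are so over `K`. So the statements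
`Ctv`, `Cbk`, `Dva` over `M₁` and over `M₂` give those over `K` (`ctv_cop`, `cbk_cop`, `dva_cop`). The valuation ring has to be invariant
(`inv_V` for `L.V`).
-/

open ZC BE PE CV IntermediateField

namespace GX

section ab

variable {Z : Type} [AddCommGroup Z]

/-- The formal properties of the two traces. -/
private structure Dsc (T T₁ T₂ R R₁ R₂ : AddSubgroup Z) (t₁ t₂ : Z →+ Z) (u v : ℤ) : Prop where
  l₁ : T ≤ T₁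
  l₂ : T ≤ T₂
  m₁ : ∀ z ∈ T₁, t₁ z ∈ T
  m₂ : ∀ z ∈ T₂, t₂ z ∈ T
  r₁ : ∀ z ∈ T₁, z ∈ R₁ → t₁ z ∈ R
  r₂ : ∀ z ∈ T₂, z ∈ R₂ → t₂ z ∈ R
  e : ∀ z ∈ T, u • t₁ z + v • t₂ z = z

variable {T T₁ T₂ R R₁ R₂ : AddSubgroup Z} {t₁ t₂ : Z →+ Z} {u v : ℤ}

private theorem Dsc.mem (h : Dsc T T₁ T₂ R R₁ R₂ t₁ t₂ u v) {e₁ e₂ : Z} (he₁ : e₁ ∈ T₁)
    (he₂ : e₂ ∈ T₂) : u • t₁ e₁ + v • t₂ e₂ ∈ T :=
  add_mem (zsmul_mem (h.m₁ _ he₁) u) (zsmul_mem (h.m₂ _ he₂) v)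

private theorem Dsc.one (h : Dsc T T₁ T₂ R R₁ R₂ t₁ t₂ u v) {z e₁ e₂ z₁ z₂ : Z} {m : ℕ}
    (hz : z ∈ T) (he₁ : e₁ ∈ T₁) (he₂ : e₂ ∈ T₂) (hz₁ : z₁ ∈ T₁) (hz₂ : z₂ ∈ T₂)
    (h₁ : z - e₁ - m • z₁ ∈ R₁) (h₂ : z - e₂ - m • z₂ ∈ R₂) :
    ∃ z' ∈ T, z - (u • t₁ e₁ + v • t₂ e₂) - m • z' ∈ R := by
  refine ⟨u • t₁ z₁ + v • t₂ z₂, h.mem hz₁ hz₂, ?_⟩
  have h3 := h.r₁ _ (sub_mem (sub_mem (h.l₁ hz) he₁) (nsmul_mem hz₁ m)) h₁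
  have h4 := h.r₂ _ (sub_mem (sub_mem (h.l₂ hz) he₂) (nsmul_mem hz₂ m)) h₂
  rw [map_sub, map_sub, map_nsmul] at h3 h4
  have h5 := add_mem (zsmul_mem h3 u) (zsmul_mem h4 v)
  have h6 : z - (u • t₁ e₁ + v • t₂ e₂) - m • (u • t₁ z₁ + v • t₂ z₂) =
      u • (t₁ z - t₁ e₁ - m • t₁ z₁) + v • (t₂ z - t₂ e₂ - m • t₂ z₂) := by
    calc z - (u • t₁ e₁ + v • t₂ e₂) - m • (u • t₁ z₁ + v • t₂ z₂)
        = u • t₁ z + v • t₂ z - (u • t₁ e₁ + v • t₂ e₂) -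
          m • (u • t₁ z₁ + v • t₂ z₂) := by rw [h.e z hz]
      _ = _ := by module
  rw [h6]
  exact h5

end ab

section zq

variable {F : Type} [Field F] {N : ℕ} {ι : Type} {f : ι → MvPolynomial (Fin N) F} {Ω : Type}
  [Field Ω] [Algebra F Ω] {V : ValuationSubring Ω}

open Classical in
private noncomputable def dq (f : ι → MvPolynomial (Fin N) F) (V : ValuationSubring Ω)
    (Q : (Xf f).pt Ω) : ((Xf f).pt Ω →₀ ℤ) →+ ℤ :=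
  Finsupp.liftAddHom fun P => if Srd f V P Q then AddMonoidHom.id ℤ else 0

private theorem dq_single (Q P : (Xf f).pt Ω) (n : ℤ) [Decidable (Srd f V P Q)] :
    dq f V Q (Finsupp.single P n) = if Srd f V P Q then n else 0 := by
  unfold dq
  rw [Finsupp.liftAddHom_apply_single]
  by_cases h : Srd f V P Q
  · rw [if_pos h, if_pos h]
    rfl
  · rw [if_neg h, if_neg h]
    rfl

private theorem zrd_dq {z : (Xf f).pt Ω →₀ ℤ} : Zrd f V z ↔ ∀ Q, dq f V Q z = 0 := by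
  classical
  unfold Zrd
  refine forall_congr' fun Q => ?_
  have h : dq f V Q z = ∑ P ∈ z.support.filter (fun P => Srd f V P Q), z P := by
    unfold dq
    rw [Finsupp.liftAddHom_apply, Finsupp.sum, Finset.sum_filter]
    refine Finset.sum_congr rfl fun P _ => ?_
    by_cases h : Srd f V P Q
    · rw [if_pos h, if_pos h]
      rfl
    · rw [if_neg h, if_neg h]
      rfl
  rw [h]

/-- The cycles with reduction `0`. -/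
private noncomputable def zs (f : ι → MvPolynomial (Fin N) F) (V : ValuationSubring Ω) :
    AddSubgroup ((Xf f).pt Ω →₀ ℤ) := ⨅ Q, (dq f V Q).ker

private theorem mem_zs {z : (Xf f).pt Ω →₀ ℤ} : z ∈ zs f V ↔ Zrd f V z := by
  rw [zrd_dq, zs, AddSubgroup.mem_iInf]
  exact forall_congr' fun Q => AddMonoidHom.mem_ker

private theorem non_inv {x : Ω} : x ∈ V.nonunits ↔ x = 0 ∨ x⁻¹ ∉ V := by
  rw [ValuationSubring.mem_nonunits_iff, ← ValuationSubring.valuation_le_one_iff, map_inv₀]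
  by_cases hx : x = 0
  · rw [hx, map_zero]
    exact ⟨fun _ => Or.inl rfl, fun _ => zero_lt_one⟩
  · have h1 : 0 < V.valuation x := zero_lt_iff.2 ((Valuation.ne_zero_iff _).2 hx)
    rw [← not_le, or_iff_right hx, inv_le_one₀ h1]

end zq

section gal

variable {F : Type} [Field F] {N N' k k' : ℕ} {ι ι' : Type} {f : ι → MvPolynomial (Fin N) F}
  {A : Gv F N' k' ι'} {M : Mf f A k} {K Ω : Type} [Field K] [Field Ω] [Algebra K Ω]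
  [Algebra F K] [Algebra F Ω] [IsScalarTower F K Ω] {V : ValuationSubring Ω}

private theorem non_act (hV : ∀ (γ : Ω ≃ₐ[K] Ω) (x : Ω), x ∈ V → γ x ∈ V) (γ : Ω ≃ₐ[K] Ω)
    (x : Ω) : γ x ∈ V.nonunits ↔ x ∈ V.nonunits := by
  have h : ∀ y, γ y ∈ V ↔ y ∈ V := fun y => by
    refine ⟨fun h => ?_, hV γ y⟩
    have h1 := hV γ.symm _ h
    rwa [γ.symm_apply_apply] at h1
  rw [non_inv, non_inv, ← map_inv₀, h, map_eq_zero]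

private theorem srd_act (hV : ∀ (γ : Ω ≃ₐ[K] Ω) (x : Ω), x ∈ V → γ x ∈ V) (γ : Ω ≃ₐ[K] Ω)
    {P Q : (Xf f).pt Ω} (h : Srd f V P Q) : Srd f V ((Xf f).act γ P) ((Xf f).act γ Q) := by
  obtain ⟨x, x', h1, h2, ⟨h3, i, h4⟩, ⟨h5, j, h6⟩, h7⟩ := h
  refine ⟨_, _, co_act γ h1, co_act γ h2, ⟨fun i => hV γ _ (h3 i), i, ?_⟩,
    ⟨fun i => hV γ _ (h5 i), j, ?_⟩, fun i => ?_⟩
  · rw [non_act hV]
    exact h4
  · rw [non_act hV]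
    exact h6
  · rw [← map_sub, non_act hV]
    exact h7 i

private theorem act_inv (γ : Ω ≃ₐ[K] Ω) (P : (Xf f).pt Ω) :
    (Xf f).act γ⁻¹ ((Xf f).act γ P) = P := by
  have h : γ⁻¹ • (γ • (Finsupp.single P 1 : (Xf f).pt Ω →₀ ℤ)) = Finsupp.single P 1 :=
    inv_smul_smul γ _
  rw [smul_single, smul_single] at h
  exact (Finsupp.single_left_inj one_ne_zero).1 h

private theorem srd_iff_act (hV : ∀ (γ : Ω ≃ₐ[K] Ω) (x : Ω), x ∈ V → γ x ∈ V)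
    (γ : Ω ≃ₐ[K] Ω) (P Q : (Xf f).pt Ω) :
    Srd f V ((Xf f).act γ P) Q ↔ Srd f V P ((Xf f).act γ⁻¹ Q) := by
  constructor
  · intro h
    have h1 := srd_act hV γ⁻¹ h
    rwa [act_inv] at h1
  · intro h
    have h1 := srd_act hV γ h
    have h2 := act_inv (f := f) γ⁻¹ Q
    rw [inv_inv] at h2
    rwa [h2] at h1

private theorem dq_act (hV : ∀ (γ : Ω ≃ₐ[K] Ω) (x : Ω), x ∈ V → γ x ∈ V)
    (γ : Ω ≃ₐ[K] Ω) (Q : (Xf f).pt Ω) (z : (Xf f).pt Ω →₀ ℤ) :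
    dq f V Q (γ • z) = dq f V ((Xf f).act γ⁻¹ Q) z := by
  classical
  induction z using Finsupp.induction_linear with
  | zero => rw [smul_zero, map_zero, map_zero]
  | add a b ha hb => rw [smul_add, map_add, map_add, ha, hb]
  | single P n =>
    rw [smul_single, dq_single, dq_single]
    simp only [srd_iff_act hV]

private theorem zs_smul (hV : ∀ (γ : Ω ≃ₐ[K] Ω) (x : Ω), x ∈ V → γ x ∈ V)
    (γ : Ω ≃ₐ[K] Ω) {z : (Xf f).pt Ω →₀ ℤ} (hz : z ∈ zs f V) : γ • z ∈ zs f V := by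
  rw [mem_zs, zrd_dq] at hz ⊢
  intro Q
  rw [dq_act hV]
  exact hz _

private theorem s_smul (hM : M.Ok) (γ : Ω ≃ₐ[K] Ω) {z : (Xf f).pt Ω →₀ ℤ} :
    letI := A.G.grp Ω
    M.S Ω z = 0 → M.S Ω (γ • z) = 0 := by
  let _ : AddCommGroup ((Xf A.a).pt Ω) := A.G.grp Ω
  change M.S Ω z = 0 → M.S Ω (γ • z) = 0
  intro h
  have h1 : M.S Ω (γ • z) = (Xf A.a).act γ (M.S Ω z) := mfS_act hM γ z
  have h2 : M.S Ω (γ • (0 : (Xf f).pt Ω →₀ ℤ)) =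
      (Xf A.a).act γ (M.S Ω (0 : (Xf f).pt Ω →₀ ℤ)) := mfS_act hM γ 0
  rw [smul_zero, map_zero] at h2
  rw [h1, h, ← h2]

private theorem fx_cyc {M : IntermediateField K Ω} {z : (Xf f).pt Ω →₀ ℤ} :
    Fx M z ↔ z ∈ (Xf f).cyc M Ω := by
  constructor
  · intro h σ
    have hγ : σ.restrictScalars K ∈ M.fixingSubgroup := by
      rw [IntermediateField.mem_fixingSubgroup_iff]
      intro x hx
      exact σ.commutes ⟨x, hx⟩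
    exact h (σ.restrictScalars K) hγ
  · intro h γ hγ
    exact h (IntermediateField.fixingSubgroupEquiv M ⟨γ, hγ⟩)

variable [CharZero K] [IsAlgClosure K Ω]

private theorem nmh_mem (M : IntermediateField K Ω) [FiniteDimensional K M]
    {T : AddSubgroup ((Xf f).pt Ω →₀ ℤ)} (hT : ∀ (γ : Ω ≃ₐ[K] Ω), ∀ z ∈ T, γ • z ∈ T)
    {z : (Xf f).pt Ω →₀ ℤ} (hz : z ∈ T) : GM.nmh (Xf f) M z ∈ T := by
  rw [GM.nmh_apply]
  obtain ⟨s, -, -, -, h₃⟩ := nm_rep (K := K) (Ω := Ω) (M := ⊥) (N := M) bot_le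
  rw [h₃]
  exact sum_mem fun γ _ => hT γ z hz

private theorem nmh_cyc (M : IntermediateField K Ω) [FiniteDimensional K M]
    {z : (Xf f).pt Ω →₀ ℤ} (hz : z ∈ (Xf f).cyc M Ω) : GM.nmh (Xf f) M z ∈ (Xf f).cyc K Ω := by
  rw [GM.nmh_apply, GM.cyc_iff]
  exact nm_fx bot_le (fx_cyc.2 hz)

private theorem nmh_rat (M : IntermediateField K Ω) [FiniteDimensional K M]
    {z : (Xf f).pt Ω →₀ ℤ} (hz : z ∈ (Xf f).cyc M Ω) (h : z ∈ (Xf f).ratEq M Ω) :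
    GM.nmh (Xf f) M z ∈ (Xf f).ratEq K Ω := by
  rw [GM.nmh_apply]
  exact nm_ratEq h (fx_cyc.2 hz)

private theorem nmh_const (M : IntermediateField K Ω) [FiniteDimensional K M]
    {z : (Xf f).pt Ω →₀ ℤ} (hz : z ∈ (Xf f).cyc K Ω) :
    GM.nmh (Xf f) M z = Module.finrank K M • z := by
  rw [GM.nmh_apply, nm_const bot_le (GM.cyc_iff.1 hz)]
  congr 1
  have h := relIndex_fix (K := K) (Ω := Ω) (M := ⊥) (N := M) bot_le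
  rwa [IntermediateField.finrank_bot, mul_one] at h

private theorem dsc_of {U : AddSubgroup ((Xf f).pt Ω →₀ ℤ)}
    (hU : ∀ (γ : Ω ≃ₐ[K] Ω), ∀ z ∈ U, γ • z ∈ U) (M₁ M₂ : IntermediateField K Ω)
    [FiniteDimensional K M₁] [FiniteDimensional K M₂] {u v : ℤ}
    (huv : u * Module.finrank K M₁ + v * Module.finrank K M₂ = 1) :
    Dsc ((Xf f).cyc K Ω ⊓ U) ((Xf f).cyc M₁ Ω ⊓ U) ((Xf f).cyc M₂ Ω ⊓ U)
      ((Xf f).ratEq K Ω) ((Xf f).ratEq M₁ Ω) ((Xf f).ratEq M₂ Ω) (GM.nmh (Xf f) M₁)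
      (GM.nmh (Xf f) M₂) u v := by
  have hl : ∀ (M : IntermediateField K Ω), (Xf f).cyc K Ω ≤ (Xf f).cyc M Ω := fun M z hz =>
    fx_cyc.1 ((GM.cyc_iff.1 hz).mono bot_le)
  refine ⟨inf_le_inf_right _ (hl M₁), inf_le_inf_right _ (hl M₂),
    fun z hz => ⟨nmh_cyc M₁ hz.1, nmh_mem M₁ hU hz.2⟩,
    fun z hz => ⟨nmh_cyc M₂ hz.1, nmh_mem M₂ hU hz.2⟩,
    fun z hz h => nmh_rat M₁ hz.1 h, fun z hz h => nmh_rat M₂ hz.1 h, fun z hz => ?_⟩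
  rw [nmh_const M₁ hz.1, nmh_const M₂ hz.1, ← natCast_zsmul, ← natCast_zsmul, smul_smul,
    smul_smul, ← add_smul, huv, one_smul]

private theorem bez {M₁ M₂ : IntermediateField K Ω}
    (h : (Module.finrank K M₁).Coprime (Module.finrank K M₂)) :
    ∃ u v : ℤ, u * Module.finrank K M₁ + v * Module.finrank K M₂ = 1 :=
  Nat.isCoprime_iff_coprime.2 h

/-- **Descent for `Ctv`.** -/
theorem ctv_cop (hM : M.Ok) (hV : ∀ (γ : Ω ≃ₐ[K] Ω) (x : Ω), x ∈ V → γ x ∈ V)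
    {M₁ M₂ : IntermediateField K Ω} [FiniteDimensional K M₁] [FiniteDimensional K M₂]
    (h : (Module.finrank K M₁).Coprime (Module.finrank K M₂)) {p : ℕ} (h₁ : Ctv V M M₁ p)
    (h₂ : Ctv V M M₂ p) : Ctv V M K p := by
  classical
  obtain ⟨u, v, huv⟩ := bez h
  let _ : AddCommGroup ((Xf A.a).pt Ω) := A.G.grp Ω
  have hD := dsc_of (f := f) (U := zs f V ⊓ (M.S Ω).ker)
    (fun γ z hz => ⟨zs_smul hV γ hz.1, s_smul hM γ hz.2⟩) M₁ M₂ huv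
  obtain ⟨E₁, a₁, b₁⟩ := h₁
  obtain ⟨E₂, a₂, b₂⟩ := h₂
  have hT : ∀ (K' : Type) [Field K'] [Algebra F K'] [Algebra K' Ω] [IsScalarTower F K' Ω]
      {z : (Xf f).pt Ω →₀ ℤ}, z ∈ (Xf f).cyc K' Ω ⊓ (zs f V ⊓ (M.S Ω).ker) ↔
        z ∈ (Xf f).cyc K' Ω ∧ Zrd f V z ∧ M.S Ω z = 0 := fun K' _ _ _ _ z => by
    rw [AddSubgroup.mem_inf, AddSubgroup.mem_inf, mem_zs, AddMonoidHom.mem_ker]
  refine ⟨(E₁ ×ˢ E₂).image fun e => u • GM.nmh (Xf f) M₁ e.1 + v • GM.nmh (Xf f) M₂ e.2,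
    ?_, ?_⟩
  · intro e he
    obtain ⟨⟨e₁, e₂⟩, h3, rfl⟩ := Finset.mem_image.1 he
    obtain ⟨h4, h5⟩ := Finset.mem_product.1 h3
    obtain ⟨c1, c2, c3, k₁, c4⟩ := a₁ e₁ h4
    obtain ⟨d1, d2, d3, k₂, d4⟩ := a₂ e₂ h5
    have m1 := (hT M₁).2 ⟨c1, c2, c3⟩
    have m2 := (hT M₂).2 ⟨d1, d2, d3⟩
    obtain ⟨g1, g2, g3⟩ := (hT K).1 (hD.mem m1 m2)
    refine ⟨g1, g2, g3, k₁ + k₂, ?_⟩
    have n1 := hD.r₁ _ (nsmul_mem m1 (p ^ k₁)) c4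
    have n2 := hD.r₂ _ (nsmul_mem m2 (p ^ k₂)) d4
    rw [map_nsmul] at n1 n2
    have n3 := add_mem (zsmul_mem (nsmul_mem n1 (p ^ k₂)) u) (zsmul_mem (nsmul_mem n2 (p ^ k₁)) v)
    have e : p ^ (k₁ + k₂) • (u • GM.nmh (Xf f) M₁ e₁ + v • GM.nmh (Xf f) M₂ e₂) =
        u • (p ^ k₂ • (p ^ k₁ • GM.nmh (Xf f) M₁ e₁)) +
          v • (p ^ k₁ • (p ^ k₂ • GM.nmh (Xf f) M₂ e₂)) := by
      rw [pow_add]
      module
    rw [e]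
    exact n3
  · intro z hz hz1 hz2
    have hzT := (hT K).2 ⟨hz, hz1, hz2⟩
    obtain ⟨e₁, he₁, f₁⟩ := b₁ z (hD.l₁ hzT).1 hz1 hz2
    obtain ⟨e₂, he₂, f₂⟩ := b₂ z (hD.l₂ hzT).1 hz1 hz2
    refine ⟨_, Finset.mem_image.2 ⟨(e₁, e₂), Finset.mem_product.2 ⟨he₁, he₂⟩, rfl⟩,
      fun m hm => ?_⟩
    obtain ⟨z₁, c1, c2, c3, c4⟩ := f₁ m hm
    obtain ⟨z₂, d1, d2, d3, d4⟩ := f₂ m hm
    obtain ⟨o1, o2, o3, -⟩ := a₁ e₁ he₁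
    obtain ⟨q1, q2, q3, -⟩ := a₂ e₂ he₂
    obtain ⟨z', hz', h6⟩ := hD.one hzT ((hT M₁).2 ⟨o1, o2, o3⟩) ((hT M₂).2 ⟨q1, q2, q3⟩)
      ((hT M₁).2 ⟨c1, c2, c3⟩) ((hT M₂).2 ⟨d1, d2, d3⟩) c4 d4
    obtain ⟨g1, g2, g3⟩ := (hT K).1 hz'
    exact ⟨z', g1, g2, g3, h6⟩

/-- **Descent for `Dva`.** -/
theorem dva_cop (hM : M.Ok) (hV : ∀ (γ : Ω ≃ₐ[K] Ω) (x : Ω), x ∈ V → γ x ∈ V)
    {M₁ M₂ : IntermediateField K Ω} [FiniteDimensional K M₁] [FiniteDimensional K M₂]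
    (h : (Module.finrank K M₁).Coprime (Module.finrank K M₂)) (h₁ : Dva M V M₁)
    (h₂ : Dva M V M₂) : Dva M V K := by
  classical
  obtain ⟨u, v, huv⟩ := bez h
  let _ : AddCommGroup ((Xf A.a).pt Ω) := A.G.grp Ω
  have hD := dsc_of (f := f) (U := zs f V ⊓ (M.S Ω).ker)
    (fun γ z hz => ⟨zs_smul hV γ hz.1, s_smul hM γ hz.2⟩) M₁ M₂ huv
  have hT : ∀ (K' : Type) [Field K'] [Algebra F K'] [Algebra K' Ω] [IsScalarTower F K' Ω]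
      {z : (Xf f).pt Ω →₀ ℤ}, z ∈ (Xf f).cyc K' Ω ⊓ (zs f V ⊓ (M.S Ω).ker) ↔
        z ∈ (Xf f).cyc K' Ω ∧ Zrd f V z ∧ M.S Ω z = 0 := fun K' _ _ _ _ z => by
    rw [AddSubgroup.mem_inf, AddSubgroup.mem_inf, mem_zs, AddMonoidHom.mem_ker]
  intro m hm z hz hz1 hz2
  have hzT := (hT K).2 ⟨hz, hz1, hz2⟩
  obtain ⟨z₁, c1, c2, c3, c4⟩ := h₁ m hm z (hD.l₁ hzT).1 hz1 hz2
  obtain ⟨z₂, d1, d2, d3, d4⟩ := h₂ m hm z (hD.l₂ hzT).1 hz1 hz2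
  obtain ⟨z', hz', h6⟩ := hD.one hzT (zero_mem _) (zero_mem _)
    ((hT M₁).2 ⟨c1, c2, c3⟩) ((hT M₂).2 ⟨d1, d2, d3⟩) (by rwa [sub_zero]) (by rwa [sub_zero])
  rw [map_zero, map_zero, smul_zero, smul_zero, add_zero, sub_zero] at h6
  obtain ⟨g1, g2, g3⟩ := (hT K).1 hz'
  exact ⟨z', g1, g2, g3, h6⟩

/-- **Descent for `Cbk`.** -/
theorem cbk_cop (hV : ∀ (γ : Ω ≃ₐ[K] Ω) (x : Ω), x ∈ V → γ x ∈ V)
    {M₁ M₂ : IntermediateField K Ω} [FiniteDimensional K M₁] [FiniteDimensional K M₂]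
    (h : (Module.finrank K M₁).Coprime (Module.finrank K M₂)) {m b₁ b₂ : ℕ}
    (h₁ : Cbk f V M₁ m b₁) (h₂ : Cbk f V M₂ m b₂) : Cbk f V K m (b₁ * b₂) := by
  classical
  obtain ⟨u, v, huv⟩ := bez h
  have hD := dsc_of (f := f) (U := zs f V) (fun γ z hz => zs_smul hV γ hz) M₁ M₂ huv
  obtain ⟨E₁, n₁, a₁, b₁⟩ := h₁
  obtain ⟨E₂, n₂, a₂, b₂⟩ := h₂
  have hT : ∀ (K' : Type) [Field K'] [Algebra F K'] [Algebra K' Ω] [IsScalarTower F K' Ω]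
      {z : (Xf f).pt Ω →₀ ℤ}, z ∈ (Xf f).cyc K' Ω ⊓ zs f V ↔
        z ∈ (Xf f).cyc K' Ω ∧ Zrd f V z := fun K' _ _ _ _ z => by
    rw [AddSubgroup.mem_inf, mem_zs]
  refine ⟨(E₁ ×ˢ E₂).image fun e => u • GM.nmh (Xf f) M₁ e.1 + v • GM.nmh (Xf f) M₂ e.2,
    ?_, ?_, ?_⟩
  · refine Finset.card_image_le.trans ?_
    rw [Finset.card_product]
    exact Nat.mul_le_mul n₁ n₂
  · intro e he
    obtain ⟨⟨e₁, e₂⟩, h3, rfl⟩ := Finset.mem_image.1 he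
    obtain ⟨h4, h5⟩ := Finset.mem_product.1 h3
    exact (hT K).1 (hD.mem ((hT M₁).2 (a₁ e₁ h4)) ((hT M₂).2 (a₂ e₂ h5)))
  · intro z hz hz1
    have hzT := (hT K).2 ⟨hz, hz1⟩
    obtain ⟨e₁, he₁, z₁, c1, c2, c3⟩ := b₁ z (hD.l₁ hzT).1 hz1
    obtain ⟨e₂, he₂, z₂, d1, d2, d3⟩ := b₂ z (hD.l₂ hzT).1 hz1
    obtain ⟨z', hz', h6⟩ := hD.one hzT ((hT M₁).2 (a₁ e₁ he₁)) ((hT M₂).2 (a₂ e₂ he₂))
      ((hT M₁).2 ⟨c1, c2⟩) ((hT M₂).2 ⟨d1, d2⟩) c3 d3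
    obtain ⟨g1, g2⟩ := (hT K).1 hz'
    exact ⟨_, Finset.mem_image.2 ⟨(e₁, e₂), Finset.mem_product.2 ⟨he₁, he₂⟩, rfl⟩,
      z', g1, g2, h6⟩

end gal

/-- The valuation ring of `L` is invariant. -/
theorem inv_V {K Ω : Type} [Field K] [Field Ω] [Algebra K Ω] (L : Ld K Ω) (γ : Ω ≃ₐ[K] Ω)
    (x : Ω) (h : x ∈ L.V) : γ x ∈ L.V := by
  rw [L.mem_V] at h ⊢
  rw [L.act]
  exact h

end GX
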