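import Pool.Agent.Lib.MP_f80667_ag.Lv.Al

/-!
The global `1`-forms over a larger algebraically closed field.

* `Mf.Alb.up`: if every global `1`-form over `E` is a pullback of an invariant form, this holds over `Ω`. `Mf.alb_ext`: from the
  algebraic closure to every algebraically closed field.
-/

open MvPolynomial

namespace GX

section hom

variable {F : Type} [Field F] {N N' k k' : ℕ} {ι ι' : Type} {f : ι → MvPolynomial (Fin N) F}
  {A : Gv F N' k' ι'} {M : Mf f A k} {B B' : Type} [CommRing B] [CommRing B'] [Algebra F B]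
  [Algebra F B'] (φ : B →ₐ[F] B')

theorem pv_alg (i : Fin k) (x : Fin N → B) (j : Fin N') :
    M.pv i (fun j => φ (x j)) j = φ (M.pv i x j) :=
  (comp_aeval_apply x φ (M.Φ i j)).symm

private theorem alb_elim (x x' : Fin N' → B) :
    Sum.elim (fun j => φ (x j)) (fun j => φ (x' j)) = fun s => φ (Sum.elim x x' s) := by
  funext s
  rcases s with s | s
  · rfl
  · rfl

theorem mv_alg (i : Fin k') (x x' : Fin N' → B) (j : Fin N') :
    A.mv i (fun j => φ (x j)) (fun j => φ (x' j)) j = φ (A.mv i x x' j) := by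
  unfold Gv.mv
  rw [alb_elim, comp_aeval_apply]

theorem dm_alg (i : Fin k') (y t : Fin N' → B) (j : Fin N') :
    A.dm i (fun j => φ (y j)) (fun j => φ (t j)) j = φ (A.dm i y t j) := by
  unfold Gv.dm
  rw [map_sum]
  refine Finset.sum_congr rfl fun s _ => ?_
  rw [alb_elim, map_mul, comp_aeval_apply]

theorem dv_alg (i : Fin k) (x t : Fin N → B) (j : Fin N') :
    M.dv i (fun j => φ (x j)) (fun j => φ (t j)) j = φ (M.dv i x t j) := by
  unfold Mf.dv
  rw [map_sum]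
  refine Finset.sum_congr rfl fun s _ => ?_
  rw [map_mul, comp_aeval_apply]

/-- The value of the differences at the image of a point. -/
theorem ml_alg (i : Fin k) (i' : Fin k') (x : Fin N → B) :
    A.mv i' (M.pv i fun j => φ (x j)) (M.pv i fun j => φ (x j)) A.j₀ =
      φ (A.mv i' (M.pv i x) (M.pv i x) A.j₀) := by
  rw [← mv_alg]
  have h : (M.pv i fun j => φ (x j)) = fun j => φ (M.pv i x j) := funext fun j => pv_alg φ i x j
  rw [h]

theorem dl_alg (i : Fin k) (i' : Fin k') (x t : Fin N → B) (j : Fin N') :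
    A.dm i' (M.pv i fun j => φ (x j)) (M.dv i (fun j => φ (x j)) fun j => φ (t j)) j =
      φ (A.dm i' (M.pv i x) (M.dv i x t) j) := by
  rw [← dm_alg]
  have h : (M.pv i fun j => φ (x j)) = fun j => φ (M.pv i x j) := funext fun j => pv_alg φ i x j
  have h' : (M.dv i (fun j => φ (x j)) fun j => φ (t j)) = fun j => φ (M.dv i x t j) :=
    funext fun j => dv_alg φ i x t j
  rw [h, h']

end hom

section up

variable {F E Ω : Type} [Field F] [Field E] [Field Ω] [Algebra F E] [Algebra F Ω] [Algebra E Ω]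
  [IsScalarTower F E Ω] {N N' k k' : ℕ} {ι ι' : Type} {f : ι → MvPolynomial (Fin N) F}
  {A : Gv F N' k' ι'} {M : Mf f A k}

/-- The numbers of the equations for the invariant form. -/
abbrev Eqn (M : Mf f A k) (E : Type) [Field E] [Algebra F E] : Type :=
  Option {q : (Fin N → E) × (Fin N → E) × Fin k × Fin k' //
    Tg (fun i => MvPolynomial.map (algebraMap F E) (f i)) q.1 q.2.1 ∧ M.pv q.2.2.1 q.1 ≠ 0}

/-- The left side. -/
noncomputable def eqa (M : Mf f A k) (E : Type) [Field E] [Algebra F E] (s : Eqn M E)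
    (j : Fin N') : E :=
  s.elim (algebraMap F E (A.o j)) fun q =>
    A.dm q.1.2.2.2 (M.pv q.1.2.2.1 q.1.1) (M.dv q.1.2.2.1 q.1.1 q.1.2.1) j

/-- The right side. -/
noncomputable def eqb (M : Mf f A k) (ℓ : (Fin N → Ω) → (Fin N → Ω) → Ω) (s : Eqn M E) : Ω :=
  s.elim 0 fun q => algebraMap E Ω (A.mv q.1.2.2.2 (M.pv q.1.2.2.1 q.1.1)
    (M.pv q.1.2.2.1 q.1.1) A.j₀) *
      ℓ (fun j => algebraMap E Ω (q.1.1 j)) fun j => algebraMap E Ω (q.1.2.1 j)

/-- The relations of the left sides are relations of the right sides. -/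
theorem eqn_rel [IsAlgClosed E] [IsAlgClosed Ω] (h : M.Alb E)
    {ℓ : (Fin N → Ω) → (Fin N → Ω) → Ω}
    (hℓ : Frm (fun i => MvPolynomial.map (algebraMap F Ω) (f i)) ℓ) (e : Eqn M E →₀ E)
    (he : ∀ j, (e.sum fun s c => c * eqa M E s j) = 0) :
    (e.sum fun s c => algebraMap E Ω c * eqb M ℓ s) = 0 := by
  classical
  by_contra hr
  obtain ⟨S, hS⟩ := al_key (E := E) hℓ
  obtain ⟨r, hr'⟩ : ∃ r, r = e.sum fun s c => algebraMap E Ω c * eqb M ℓ s := ⟨_, rfl⟩
  rw [← hr'] at hr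
  obtain ⟨R, hR⟩ : ∃ R, R = Algebra.adjoin E ((insert r⁻¹ S : Finset Ω) : Set Ω) := ⟨_, rfl⟩
  have hth : Nonempty (R →ₐ[E] E) := by
    rw [hR]
    exact al_th _
  obtain ⟨θ⟩ := hth
  have hSR : ∀ c ∈ insert r⁻¹ S, c ∈ R := by
    intro c hc
    rw [hR]
    exact Algebra.subset_adjoin (Finset.mem_coe.2 hc)
  obtain ⟨hin, hfrm⟩ := hS R fun c hc => hSR c (Finset.mem_insert_of_mem hc)
  obtain ⟨η, h0, h1⟩ := h _ (hfrm θ)
  have hb : ∀ s : Eqn M E, ∃ hb : eqb M ℓ s ∈ R, θ ⟨_, hb⟩ = ∑ j, η j * eqa M E s j := by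
    intro s
    rcases s with _ | ⟨⟨x, t, i, i'⟩, ht, hi⟩
    · exact ⟨R.zero_mem, (map_zero θ).trans h0.symm⟩
    · have hm := hin x t ht
      refine ⟨mul_mem (R.algebraMap_mem _) hm, ?_⟩
      have h2 := h1 x t ht i i' hi
      rw [al_ex_mk θ hm] at h2
      refine Eq.trans ?_ h2
      have h3 : (⟨eqb M ℓ (some ⟨(x, t, i, i'), ht, hi⟩), mul_mem (R.algebraMap_mem _) hm⟩ : R) =
          algebraMap E R (A.mv i' (M.pv i x) (M.pv i x) A.j₀) * ⟨_, hm⟩ := Subtype.ext rfl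
      rw [h3, map_mul, AlgHom.commutes]
      rfl
  choose hb hb' using hb
  have h2 : (⟨r, by
      rw [hr']
      exact sum_mem fun s _ => mul_mem (R.algebraMap_mem _) (hb s)⟩ : R) =
      ∑ s ∈ e.support, algebraMap E R (e s) * ⟨_, hb s⟩ := by
    apply Subtype.ext
    rw [AddSubmonoidClass.coe_finsetSum]
    exact hr'
  have h3 : θ ⟨r, by
      rw [hr']
      exact sum_mem fun s _ => mul_mem (R.algebraMap_mem _) (hb s)⟩ = 0 := by
    rw [h2, map_sum]
    have h4 : ∀ s ∈ e.support, θ (algebraMap E R (e s) * ⟨_, hb s⟩) =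
        ∑ j, η j * (e s * eqa M E s j) := by
      intro s _
      rw [map_mul, AlgHom.commutes, hb', Finset.mul_sum]
      exact Finset.sum_congr rfl fun j _ => mul_left_comm _ _ _
    rw [Finset.sum_congr rfl h4, Finset.sum_comm]
    refine Finset.sum_eq_zero fun j _ => ?_
    rw [← Finset.mul_sum]
    have h5 := he j
    rw [Finsupp.sum] at h5
    rw [h5, mul_zero]
  have h4 : (⟨r, by
      rw [hr']
      exact sum_mem fun s _ => mul_mem (R.algebraMap_mem _) (hb s)⟩ : R) *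
        ⟨r⁻¹, hSR _ (Finset.mem_insert_self _ _)⟩ = 1 := Subtype.ext (mul_inv_cancel₀ hr)
  have h5 := congrArg θ h4
  rw [map_mul, h3, zero_mul, map_one] at h5
  exact zero_ne_one h5

/-- Near a point a global form is computed by polynomials, without a condition. -/
theorem al_reg {f : ι → MvPolynomial (Fin N) Ω} {ℓ : (Fin N → Ω) → (Fin N → Ω) → Ω}
    (hℓ : Frm f ℓ) {y : Fin N → Ω} (hy : Zp f y) : ∃ (Q : MvPolynomial (Fin N) Ω)
      (A : Fin N → MvPolynomial (Fin N) Ω), eval y Q ≠ 0 ∧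
        ∀ x t, Tg f x t → eval x Q * ℓ x t = ∑ s, eval x (A s) * t s := by
  obtain ⟨Q, A, h1, h2⟩ := hℓ.reg y hy
  refine ⟨Q * Q, fun s => Q * A s, ?_, fun x t ht => ?_⟩
  · rw [map_mul]
    exact mul_ne_zero h1 h1
  · rw [map_mul]
    by_cases hx : eval x Q = 0
    · rw [hx, zero_mul, zero_mul]
      symm
      refine Finset.sum_eq_zero fun s _ => ?_
      rw [map_mul, hx, zero_mul, zero_mul]
    · rw [mul_assoc, h2 x t ht hx, Finset.mul_sum]
      refine Finset.sum_congr rfl fun s _ => ?_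
      rw [map_mul, mul_assoc]

/-- **The forms over a larger algebraically closed field.** -/
theorem Mf.Alb.up [IsAlgClosed E] [IsAlgClosed Ω] (h : M.Alb E) : M.Alb Ω := by
  intro ℓ hℓ
  classical
  obtain ⟨η, hη⟩ := al_lin (fun s : Eqn M E => fun j => eqa M E s j) (eqb M ℓ)
    fun e he => eqn_rel h hℓ e he
  have h0 : ∑ j, η j * algebraMap F Ω (A.o j) = 0 := by
    have h1 := hη none
    have h2 : eqb M ℓ (none : Eqn M E) = 0 := rfl
    rw [h2] at h1
    rw [← h1]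
    refine Finset.sum_congr rfl fun j _ => ?_
    rw [mul_comm, IsScalarTower.algebraMap_apply F E Ω]
    rfl
  refine ⟨η, h0, fun x t ht i i' hi => ?_⟩
  by_contra hne
  obtain ⟨Q, P, hQ, hP⟩ := al_reg hℓ ht.1
  obtain ⟨k₀, hk₀⟩ := Function.ne_iff.1 ht.1.1
  obtain ⟨n₀, hn₀⟩ := Function.ne_iff.1 hi
  have hk₀ : x k₀ ≠ 0 := hk₀
  have hn₀ : M.pv i x n₀ ≠ 0 := hn₀
  obtain ⟨q, hq⟩ : ∃ q, q = eval x Q := ⟨_, rfl⟩
  rw [← hq] at hQ
  obtain ⟨δ, hδ⟩ : ∃ δ, δ = A.mv i' (M.pv i x) (M.pv i x) A.j₀ * ℓ x t -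
    ∑ j, η j * A.dm i' (M.pv i x) (M.dv i x t) j := ⟨_, rfl⟩
  have hδ0 : δ ≠ 0 := by
    rw [hδ]
    exact sub_ne_zero.2 hne
  obtain ⟨S, hS⟩ : ∃ S : Finset Ω, S = Q.coeffs ∪ (Finset.univ.biUnion fun s => (P s).coeffs) ∪
    Finset.univ.image x ∪ Finset.univ.image t ∪ Finset.univ.image η ∪
      {(x k₀)⁻¹, (M.pv i x n₀)⁻¹, (q * δ)⁻¹} := ⟨_, rfl⟩
  obtain ⟨R, hR⟩ : ∃ R, R = Algebra.adjoin E (S : Set Ω) := ⟨_, rfl⟩
  have hth : Nonempty (R →ₐ[E] E) := by
    rw [hR]
    exact al_th _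
  obtain ⟨θ⟩ := hth
  have hSR : ∀ c ∈ S, c ∈ R := by
    intro c hc
    rw [hR]
    exact Algebra.subset_adjoin (Finset.mem_coe.2 hc)
  have hQR : ∀ c ∈ Q.coeffs, c ∈ R := fun c hc => hSR c (by
    rw [hS]
    simp only [Finset.mem_union, hc, true_or])
  have hPR : ∀ s, ∀ c ∈ (P s).coeffs, c ∈ R := fun s c hc => hSR c (by
    have h1 : c ∈ Finset.univ.biUnion fun s => (P s).coeffs :=
      Finset.mem_biUnion.2 ⟨s, Finset.mem_univ s, hc⟩
    rw [hS]
    simp only [Finset.mem_union, h1, true_or, or_true])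
  have hxR : ∀ j, x j ∈ R := fun j => hSR _ (by
    have h1 : x j ∈ Finset.univ.image x := Finset.mem_image_of_mem x (Finset.mem_univ j)
    rw [hS]
    simp only [Finset.mem_union, h1, true_or, or_true])
  have htR : ∀ j, t j ∈ R := fun j => hSR _ (by
    have h1 : t j ∈ Finset.univ.image t := Finset.mem_image_of_mem t (Finset.mem_univ j)
    rw [hS]
    simp only [Finset.mem_union, h1, true_or, or_true])
  have hηR : ∀ j, η j ∈ R := fun j => hSR _ (by
    have h1 : η j ∈ Finset.univ.image η := Finset.mem_image_of_mem η (Finset.mem_univ j)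
    rw [hS]
    simp only [Finset.mem_union, h1, true_or, or_true])
  have hi1 : (x k₀)⁻¹ ∈ R := hSR _ (by rw [hS]; simp)
  have hi2 : (M.pv i x n₀)⁻¹ ∈ R := hSR _ (by rw [hS]; simp)
  have hi3 : (q * δ)⁻¹ ∈ R := hSR _ (by rw [hS]; simp)
  obtain ⟨Q', hQ'⟩ := al_lift hQR
  choose P' hP' using fun s => al_lift (hPR s)
  obtain ⟨x', hx'⟩ : ∃ x' : Fin N → R, x' = fun j => ⟨x j, hxR j⟩ := ⟨_, rfl⟩
  obtain ⟨t', ht'⟩ : ∃ t' : Fin N → R, t' = fun j => ⟨t j, htR j⟩ := ⟨_, rfl⟩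
  obtain ⟨η', hη'⟩ : ∃ η' : Fin N' → R, η' = fun j => ⟨η j, hηR j⟩ := ⟨_, rfl⟩
  obtain ⟨φ, hφ⟩ : ∃ φ : R →ₐ[F] Ω, ∀ a, φ a = (a : Ω) := ⟨R.val.restrictScalars F, fun _ => rfl⟩
  obtain ⟨ρ, hρ⟩ : ∃ ρ : R →ₐ[F] E, ∀ a, ρ a = θ a := ⟨θ.restrictScalars F, fun _ => rfl⟩
  have hφi : Function.Injective φ := fun a b hab => Subtype.ext (by rw [← hφ, ← hφ, hab])
  have ex : (fun j => φ (x' j)) = x := funext fun j => by rw [hφ, hx']
  have et : (fun j => φ (t' j)) = t := funext fun j => by rw [hφ, ht']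
  have eη : ∀ j, φ (η' j) = η j := fun j => by rw [hφ, hη']
  -- the point over `E`
  have hTg : Tg (fun i => MvPolynomial.map (algebraMap F E) (f i)) (fun j => ρ (x' j))
      fun j => ρ (t' j) := by
    have h1 := al_tg.1 ht
    rw [al_tg]
    refine ⟨fun hz => ?_, fun r => ?_, fun r => ?_⟩
    · have h2 : x' k₀ * ⟨(x k₀)⁻¹, hi1⟩ = 1 := by
        apply Subtype.ext
        rw [hx']
        exact mul_inv_cancel₀ hk₀
      have h3 := congrArg ρ h2
      rw [map_mul, congrFun hz k₀, Pi.zero_apply, zero_mul, map_one] at h3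
      exact zero_ne_one h3
    · rw [← comp_aeval_apply]
      have h2 : aeval x' (f r) = 0 := hφi (by
        rw [comp_aeval_apply, ex, h1.2.1 r, map_zero])
      rw [h2, map_zero]
    · have h2 : ∑ j, aeval x' (pderiv j (f r)) * t' j = 0 := hφi (by
        rw [map_sum, map_zero, ← h1.2.2 r]
        refine Finset.sum_congr rfl fun j _ => ?_
        rw [map_mul, comp_aeval_apply, ex, congrFun et j])
      have h3 := congrArg ρ h2
      rw [map_sum, map_zero] at h3
      rw [← h3]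
      refine Finset.sum_congr rfl fun j _ => ?_
      rw [map_mul, comp_aeval_apply]
  have hpv : M.pv i (fun j => ρ (x' j)) ≠ 0 := by
    intro hz
    have h2 : M.pv i x' n₀ * ⟨(M.pv i x n₀)⁻¹, hi2⟩ = 1 := hφi (by
      rw [map_mul, ← pv_alg, ex, hφ, map_one]
      exact mul_inv_cancel₀ hn₀)
    have h3 := congrArg ρ h2
    rw [map_mul, ← pv_alg, congrFun hz n₀, Pi.zero_apply, zero_mul, map_one] at h3
    exact zero_ne_one h3
  have h1 := hη (some ⟨(fun j => ρ (x' j), fun j => ρ (t' j), i, i'), hTg, hpv⟩)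
  have h2 := hP _ _ (al_tg_up (Ω := Ω) hTg)
  have eQ : eval (fun j => algebraMap E Ω (ρ (x' j))) Q =
      φ (eval (fun j => algebraMap E R (ρ (x' j))) Q') := by
    rw [← hQ', hφ]
    exact al_ev (algebraMap R Ω) (fun j => algebraMap E R (ρ (x' j))) Q'
  have eP : ∀ s, eval (fun j => algebraMap E Ω (ρ (x' j))) (P s) =
      φ (eval (fun j => algebraMap E R (ρ (x' j))) (P' s)) := by
    intro s
    rw [← hP', hφ]
    exact al_ev (algebraMap R Ω) (fun j => algebraMap E R (ρ (x' j))) (P' s)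
  have eE : ∀ a : E, algebraMap E Ω a = φ (algebraMap E R a) := fun a => by
    rw [hφ]
    rfl
  have h3 : eval (fun j => algebraMap E R (ρ (x' j))) Q' * ∑ j, algebraMap E R
      (A.dm i' (M.pv i fun j => ρ (x' j)) (M.dv i (fun j => ρ (x' j)) fun j => ρ (t' j)) j) *
        η' j = algebraMap E R (A.mv i' (M.pv i fun j => ρ (x' j)) (M.pv i fun j => ρ (x' j)) A.j₀) *
          ∑ s, eval (fun j => algebraMap E R (ρ (x' j))) (P' s) * algebraMap E R (ρ (t' s)) := by
    apply hφi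
    rw [map_mul, map_mul, map_sum, map_sum]
    simp only [map_mul, ← eQ, ← eP, ← eE, eη]
    rw [← h2, mul_left_comm]
    congr 1
  have evQ : ∀ (z : Fin N → E) (G : MvPolynomial (Fin N) R),
      ρ (eval (fun j => algebraMap E R (z j)) G) = eval z (G.map (ρ : R →+* E)) := by
    intro z G
    have h4 := al_ev (ρ : R →+* E) (fun j => algebraMap E R (z j)) G
    rw [← RingHom.coe_coe ρ, ← h4]
    congr 2
    funext j
    rw [RingHom.coe_coe, hρ, AlgHom.commutes]
    rfl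
  have evQ' : ∀ G : MvPolynomial (Fin N) R,
      ρ (eval x' G) = eval (fun j => ρ (x' j)) (G.map (ρ : R →+* E)) := fun G =>
    (al_ev (ρ : R →+* E) x' G).symm
  have hρE : ∀ a : E, ρ (algebraMap E R a) = a := fun a => by
    rw [hρ, AlgHom.commutes]
    rfl
  have h4 := congrArg ρ h3
  rw [map_mul, map_mul, map_sum, map_sum] at h4
  simp only [map_mul, evQ, hρE] at h4
  obtain ⟨W, hW⟩ : ∃ W : R, W = A.mv i' (M.pv i x') (M.pv i x') A.j₀ *
    ∑ s, eval x' (P' s) * t' s - eval x' Q' * ∑ j, A.dm i' (M.pv i x') (M.dv i x' t') j * η' j :=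
      ⟨_, rfl⟩
  have evφ : ∀ G : MvPolynomial (Fin N) R, φ (eval x' G) = eval x (G.map (algebraMap R Ω)) := by
    intro G
    have h5 := al_ev (algebraMap R Ω) x' G
    rw [hφ]
    refine Eq.trans h5.symm ?_
    congr 2
    rw [hx']
    rfl
  have h5 : φ W = q * δ := by
    rw [hW, map_sub, map_mul, map_mul, map_sum, map_sum]
    simp only [map_mul, evφ, hQ', hP', eη, ← ml_alg, ← dl_alg, ex, congrFun et]
    rw [← hP x t ht, hδ, ← hq, mul_sub, mul_left_comm]
    congr 2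
    exact Finset.sum_congr rfl fun j _ => mul_comm _ _
  have h6 : ρ W = 0 := by
    rw [hW, map_sub, map_mul, map_mul, map_sum, map_sum]
    simp only [map_mul, evQ', ← ml_alg, ← dl_alg]
    rw [h4, sub_self]
  have h7 : W * ⟨(q * δ)⁻¹, hi3⟩ = 1 := hφi (by
    rw [map_mul, h5, hφ, map_one]
    exact mul_inv_cancel₀ (mul_ne_zero hQ hδ0))
  have h8 := congrArg ρ h7
  rw [map_mul, h6, zero_mul, map_one] at h8
  exact zero_ne_one h8

/-- From the algebraic closure to any algebraically closed field. -/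
theorem Mf.alb_ext {F : Type} [Field F] {N N' k k' : ℕ} {ι ι' : Type}
    {f : ι → MvPolynomial (Fin N) F} {A : Gv F N' k' ι'} {M : Mf f A k}
    (h : M.Alb (AlgebraicClosure F)) (Ω : Type) [Field Ω] [Algebra F Ω] [IsAlgClosed Ω] :
    M.Alb Ω := by
  obtain ⟨σ⟩ : Nonempty (AlgebraicClosure F →ₐ[F] Ω) := ⟨IsAlgClosed.lift⟩
  let i1 : Algebra (AlgebraicClosure F) Ω := (σ : AlgebraicClosure F →+* Ω).toAlgebra
  have i2 : IsScalarTower F (AlgebraicClosure F) Ω :=
    IsScalarTower.of_algebraMap_eq fun a => (σ.commutes a).symm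
  exact h.up

end up

end GX
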