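import Pool.Agent.Lib.MP_f80667_ag.Lv.Sb
import Pool.Agent.Lib.MP_f80667_ag.Lv.Gb
import Pool.Agent.Lib.MP_f80667_ag.Lv.Fs

/-!
CTX: from the finiteness of the graded pieces and from the theorem on p-adic functionals to the structure of the kernel of the sum.

* `Lst M L π e`: a p-adic functional which kills the rational equivalences and is small on the small levels vanishes on the kernel of the sum.
* `Ks M L π`: the kernel of the sum in level `1`.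
* `ctx_split`: the kernel of the sum in level `1` is divisible + finite.
* `ctx_ctv`: the same for the cycles with reduction `0`.
-/

open ZC BE PE CV IntermediateField

namespace GX

variable {F : Type} [Field F] {N d m : ℕ} {ι : Type} {K Ω : Type}
  [Field K] [CharZero K] [Field Ω] [Algebra K Ω] [Algebra F K] [Algebra F Ω]
  [IsScalarTower F K Ω] [IsAlgClosure K Ω] {f : ι → MvPolynomial (Fin N) F} {L : Ld K Ω} {π : Ω}

/-- Representatives of a finite quotient. -/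
theorem exists_reps {A : Type*} [AddCommGroup A] {R T : AddSubgroup A} (h : R.relIndex T ≠ 0) :
    ∃ E : Finset A, (∀ e ∈ E, e ∈ T) ∧ ∀ t ∈ T, ∃ e ∈ E, t - e ∈ R := by
  classical
  have hfi : (R.addSubgroupOf T).FiniteIndex := ⟨h⟩
  have hfin : Finite (T ⧸ R.addSubgroupOf T) := inferInstance
  let _ : Fintype (T ⧸ R.addSubgroupOf T) := Fintype.ofFinite _
  refine ⟨Finset.univ.image fun q : T ⧸ R.addSubgroupOf T => ((q.out : T) : A), fun e he => ?_,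
    fun t ht => ?_⟩
  · obtain ⟨q, -, rfl⟩ := Finset.mem_image.1 he
    exact q.out.2
  · obtain ⟨q, hq⟩ : ∃ q : T ⧸ R.addSubgroupOf T, q = QuotientAddGroup.mk ⟨t, ht⟩ := ⟨_, rfl⟩
    refine ⟨_, Finset.mem_image.2 ⟨q, Finset.mem_univ q, rfl⟩, ?_⟩
    have h9 : (QuotientAddGroup.mk q.out : T ⧸ R.addSubgroupOf T) =
        QuotientAddGroup.mk ⟨t, ht⟩ := by rw [← hq]; exact Quotient.out_eq q
    have h10 := QuotientAddGroup.eq.1 h9
    rw [AddSubgroup.mem_addSubgroupOf] at h10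
    have h11 : (((-q.out + ⟨t, ht⟩ : T)) : A) = t - (q.out : T) := by
      push_cast
      abel
    rwa [h11] at h10

section alb

variable {N' k k' : ℕ} {ι' : Type} {A : Gv F N' k' ι'} {M : Mf f A k}

/-- A `p`-adic functional which kills the rational equivalences and is small on the small levels vanishes on the kernel of the sum. -/
def Lst (M : Mf f A k) (L : Ld K Ω) (π : Ω) (e : ℕ) : Prop :=
  letI := A.G.grp Ω
  ∀ (_ : Fact L.p.Prime) (r : ℕ), e ≤ r → 1 ≤ r →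
    ∀ lam : ((Xf f).pt Ω →₀ ℤ) →+ ℚ_[L.p], (∀ x ∈ (Xf f).ratEq K Ω, lam x = 0) →
      (∀ k : ℕ, ∀ x ∈ Vl f L π (r + k * e), ‖lam x‖ ≤ (L.p : ℝ) ^ (-(k : ℤ))) →
        ∀ z ∈ Vl f L π r, M.S Ω z = 0 → lam z = 0

/-- The kernel of the sum in level `1`. -/
noncomputable def Ks (M : Mf f A k) (L : Ld K Ω) (π : Ω) : AddSubgroup ((Xf f).pt Ω →₀ ℤ) :=
  letI := A.G.grp Ω
  Vl f L π 1 ⊓ (M.S Ω).ker

theorem ks_mem {z : (Xf f).pt Ω →₀ ℤ} : letI := A.G.grp Ω;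
    z ∈ Ks M L π ↔ z ∈ Vl f L π 1 ∧ M.S Ω z = 0 := Iff.rfl

/-- **The kernel of the sum in level `1`** is divisible + finite modulo rational equivalence. -/
theorem ctx_split (hπ : Uf L π) (hf : Hm f) (hA : A.Ok) (hM : M.Ok) (hL : Lga L A)
    (hLm : Lmf L M) {e : ℕ} (hstb : Stb L.p e e ((Xf f).ratEq K Ω) (Vl f L π))
    (hl : Lst M L π e) : ∃ W T : AddSubgroup ((Xf f).pt Ω →₀ ℤ),
      (Xf f).ratEq K Ω ≤ T ∧ W ⊔ T = Ks M L π ∧ W ⊓ T = (Xf f).ratEq K Ω ∧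
      ((Xf f).ratEq K Ω).relIndex T ≠ 0 ∧
      (∀ n : ℕ, n ≠ 0 → ∀ z ∈ W, ∃ w ∈ W, z - n • w ∈ (Xf f).ratEq K Ω) ∧
      ∃ k : ℕ, ∀ z ∈ T, L.p ^ k • z ∈ (Xf f).ratEq K Ω := by
  let _ : AddCommGroup ((Xf A.a).pt Ω) := A.G.grp Ω
  have hp : Fact L.p.Prime := ⟨L.pp⟩
  obtain ⟨r, h0, h1, h2⟩ := hstb.lam
  have hWm : ∀ x, x ∈ ⨅ m, Vl f L π m ↔ ∀ m, x ∈ Vl f L π m :=
    fun x => AddSubgroup.mem_iInf
  have k1 : ⨅ m, Vl f L π m ≤ Ks M L π := fun z hz =>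
    ks_mem.2 ⟨(hWm z).1 hz 1, dr_sum_zero hπ hf hA hM hL hLm ((hWm z).1 hz)⟩
  have k2 : Ks M L π ⊓ Vl f L π r ≤ ⨅ m, Vl f L π m := by
    intro z hz
    refine (hWm z).2 ?_
    by_contra h3
    push Not at h3
    obtain ⟨lam, l1, l2, l3⟩ := h2 z hz.2 h3
    exact l2 (hl hp r h0 h1 lam l1 l3 z hz.2 (ks_mem.1 hz.1).2)
  obtain ⟨T, t1, t2, t3, t4, t5⟩ := hstb.split L.pp k1 (fun z hz => (ks_mem.1 hz).1) h1 k2
  refine ⟨⨅ m, Vl f L π m, T, t1, t4, t5, t3, fun n hn z hz => ?_, r, fun z hz => ?_⟩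
  · obtain ⟨w, hw, hzw⟩ := hstb.div L.pp ((hWm z).1 hz) hn
    exact ⟨w, (hWm w).2 hw, hzw⟩
  · have h3 : L.p ^ r • z ∈ Vl f L π r :=
      hstb.anti' (Nat.le_add_left r 1) (hstb.pw le_rfl (ks_mem.1 (t2 hz)).1 r)
    rw [← t5]
    exact ⟨k2 ⟨AddSubgroup.nsmul_mem _ (t2 hz) _, h3⟩, AddSubgroup.nsmul_mem _ hz _⟩

/-- **The cycles with reduction `0` and sum `0`** are divisible + finite modulo rational equivalence. -/
theorem ctx_ctv (hπ : Uf L π) (hf : Hm f) {ψ : Fin m → Prj K N d} (hψ : ∀ i, Pj f L (ψ i))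
    (hc : Cvr f L ψ) (hA : A.Ok) (hM : M.Ok) (hL : Lga L A)
    (hLm : Lmf L M) {e : ℕ} (hstb : Stb L.p e e ((Xf f).ratEq K Ω) (Vl f L π))
    (hl : Lst M L π e) : Ctv L.V M K L.p := by
  classical
  let _ : AddCommGroup ((Xf A.a).pt Ω) := A.G.grp Ω
  obtain ⟨W, T, h1, h2, h3, h4, h5, k, h6⟩ := ctx_split hπ hf hA hM hL hLm hstb hl
  have hT : T ≤ Ks M L π := by rw [← h2]; exact le_sup_right
  have hW : W ≤ Ks M L π := by rw [← h2]; exact le_sup_left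
  have key : ∀ a : (Xf f).pt Ω →₀ ℤ, ∃ b, a ∈ Ks M L π → b ∈ (Xf f).cyc K Ω ∧ Zrd f L.V b ∧
      M.S Ω b = 0 ∧ a - b ∈ (Xf f).ratEq K Ω := by
    intro a
    by_cases ha : a ∈ Ks M L π
    · obtain ⟨ha1, ha2⟩ := ks_mem.1 ha
      obtain ⟨b, hb, c, hc, rfl⟩ := AddSubgroup.mem_sup.1 ha1
      obtain ⟨h7, h8⟩ := hπ.x_dr_zr hf hb
      rw [map_add, RS.rs (K := K) hf hA hM hc, add_zero] at ha2
      exact ⟨b, fun _ => ⟨h7, zrd_iff.2 h8, ha2, by rw [add_sub_cancel_left]; exact hc⟩⟩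
    · exact ⟨0, fun h => absurd h ha⟩
  choose g hg using key
  obtain ⟨E, hE1, hE2⟩ := exists_reps h4
  refine ⟨E.image g, fun e he => ?_, fun z hz h0 hS => ?_⟩
  · obtain ⟨a, ha, rfl⟩ := Finset.mem_image.1 he
    obtain ⟨a1, a2, a3, a4⟩ := hg a (hT (hE1 a ha))
    refine ⟨a1, a2, a3, k, ?_⟩
    have h7 := h6 a (hE1 a ha)
    rw [show L.p ^ k • g a = L.p ^ k • a - L.p ^ k • (a - g a) by rw [smul_sub]; abel]
    exact sub_mem h7 (AddSubgroup.nsmul_mem _ a4 _)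
  · have h7 : z ∈ Ks M L π := ks_mem.2 ⟨hπ.x_zr hf hψ hc hz (zrd_iff.1 h0), hS⟩
    rw [← h2] at h7
    obtain ⟨w, hw, t, ht, rfl⟩ := AddSubgroup.mem_sup.1 h7
    obtain ⟨a, ha, hta⟩ := hE2 t ht
    obtain ⟨a1, a2, a3, a4⟩ := hg a (hT (hE1 a ha))
    refine ⟨g a, Finset.mem_image.2 ⟨a, ha, rfl⟩, fun n hn => ?_⟩
    obtain ⟨w', hw', hww⟩ := h5 n hn w hw
    obtain ⟨b1, b2, b3, b4⟩ := hg w' (hW hw')
    refine ⟨g w', b1, b2, b3, ?_⟩
    have e1 : w + t - g a - n • g w' = (w - n • w') + (t - a) + (a - g a) + n • (w' - g w') := by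
      rw [smul_sub]
      abel
    rw [e1]
    exact add_mem (add_mem (add_mem hww hta) a4) (AddSubgroup.nsmul_mem _ b4 _)

end alb

end GX
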