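import Mathlib

/-! Filtered groups: finite quotients modulo `m`. -/

namespace GX

variable {A : Type} [AddCommGroup A] {R : AddSubgroup A} {V : ℕ → AddSubgroup A}

/-- `p ^ k`. -/
theorem fm_pow {p e s₀ : ℕ} (h1 : ∀ n, s₀ ≤ n → ∀ z ∈ V (n + e), ∃ w ∈ V n, z - p • w ∈ R)
    {n : ℕ} (hn : s₀ ≤ n) (k : ℕ) :
    ∀ z ∈ V (n + k * e), ∃ w ∈ V n, z - (p ^ k) • w ∈ R := by
  induction k with
  | zero =>
    intro z hz
    refine ⟨z, ?_, ?_⟩
    · rwa [zero_mul, add_zero] at hz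
    · rw [pow_zero, one_smul, sub_self]
      exact zero_mem R
  | succ k ih =>
    intro z hz
    have e1 : n + (k + 1) * e = (n + k * e) + e := by ring
    rw [e1] at hz
    obtain ⟨w, hw, hz'⟩ := h1 _ (hn.trans (Nat.le_add_right _ _)) z hz
    obtain ⟨w', hw', hw''⟩ := ih w hw
    refine ⟨w', hw', ?_⟩
    have e2 : z - (p ^ (k + 1)) • w' = (z - p • w) + p • (w - (p ^ k) • w') := by
      rw [smul_sub, smul_smul, ← pow_succ']
      abel
    rw [e2]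
    exact add_mem hz' (R.nsmul_mem hw'' p)

/-- Numbers prime to `p`. -/
theorem fm_co {p : ℕ} {n : ℕ}
    (h2 : ∀ l : ℕ, l.Prime → l ≠ p → ∀ z ∈ V n, ∃ w ∈ V n, z - l • w ∈ R)
    {m : ℕ} (hm : m ≠ 0) (hp : ¬ p ∣ m) : ∀ z ∈ V n, ∃ w ∈ V n, z - m • w ∈ R := by
  induction m using Nat.recOnMul with
  | zero => exact absurd rfl hm
  | one =>
    intro z hz
    refine ⟨z, hz, ?_⟩
    rw [one_smul, sub_self]
    exact zero_mem R
  | prime l hl =>
    exact h2 l hl fun h => hp (h ▸ dvd_rfl)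
  | mul a b iha ihb =>
    intro z hz
    obtain ⟨w, hw, h3⟩ := iha (left_ne_zero_of_mul hm) (fun h => hp (dvd_mul_of_dvd_left h b)) z hz
    obtain ⟨w', hw', h4⟩ := ihb (right_ne_zero_of_mul hm) (fun h => hp (dvd_mul_of_dvd_right h a))
      w hw
    refine ⟨w', hw', ?_⟩
    have e2 : z - (a * b) • w' = (z - a • w) + a • (w - b • w') := by
      rw [smul_sub, smul_smul]
      abel
    rw [e2]
    exact add_mem h3 (R.nsmul_mem h4 a)

/-- Finite quotients. -/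
theorem fm_ind (hV : Antitone V) (h4 : ∀ n, 1 ≤ n → (V (n + 1)).relIndex (V n) ≠ 0) (n : ℕ) :
    (V (n + 1)).relIndex (V 1) ≠ 0 := by
  induction n with
  | zero => rw [zero_add, AddSubgroup.relIndex_self]; exact one_ne_zero
  | succ n ih =>
    have h := h4 (n + 1) (by omega)
    have h5 := AddSubgroup.relIndex_mul_relIndex (V (n + 1 + 1)) (V (n + 1)) (V 1)
      (hV (by omega)) (hV (by omega))
    rw [← h5]
    exact mul_ne_zero h ih

/-- **The quotients modulo `m` are finite.** -/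
theorem fm_fin {p e s₀ : ℕ} (hp : p.Prime) (hV : Antitone V)
    (h1 : ∀ n, s₀ ≤ n → 1 ≤ n → ∀ z ∈ V (n + e), ∃ w ∈ V n, z - p • w ∈ R)
    (h2 : ∀ l : ℕ, l.Prime → l ≠ p → ∀ n, 1 ≤ n → ∀ z ∈ V n, ∃ w ∈ V n, z - l • w ∈ R)
    (h4 : ∀ n, 1 ≤ n → (V (n + 1)).relIndex (V n) ≠ 0) {m : ℕ} (hm : m ≠ 0) :
    ∃ E : Set A, E.Finite ∧ E ⊆ V 1 ∧ ∀ z ∈ V 1, ∃ a ∈ E, ∃ w ∈ V 1, z - a - m • w ∈ R := by
  obtain ⟨k, m', hm', rfl⟩ := Nat.exists_eq_pow_mul_and_not_dvd hm p hp.ne_one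
  have hm0 : m' ≠ 0 := right_ne_zero_of_mul hm
  obtain ⟨n, hn⟩ : ∃ n, n = s₀ + 1 := ⟨_, rfl⟩
  -- the elements of `V (n + k e)` are divisible
  have key : ∀ z ∈ V (n + k * e), ∃ w ∈ V 1, z - (p ^ k * m') • w ∈ R := by
    intro z hz
    obtain ⟨w, hw, h5⟩ := fm_pow (s₀ := n)
      (fun i hi => h1 i (by omega) (by omega)) le_rfl k z hz
    obtain ⟨w', hw', h6⟩ := fm_co (fun l hl hlp => h2 l hl hlp n (by omega)) hm0 hm' w hw
    refine ⟨w', hV (by omega) hw', ?_⟩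
    have e2 : z - (p ^ k * m') • w' = (z - (p ^ k) • w) + (p ^ k) • (w - m' • w') := by
      rw [smul_sub, smul_smul]
      abel
    rw [e2]
    exact add_mem h5 (R.nsmul_mem h6 _)
  obtain ⟨q, hq⟩ : ∃ q, n + k * e = q + 1 := ⟨s₀ + k * e, by rw [hn]; ring⟩
  have h5 := fm_ind hV h4 q
  rw [← hq] at h5
  have h6 : Finite (V 1 ⧸ (V (n + k * e)).addSubgroupOf (V 1)) := by
    have h7 : ((V (n + k * e)).addSubgroupOf (V 1)).FiniteIndex := ⟨h5⟩
    exact AddSubgroup.finite_quotient_of_finiteIndex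
  refine ⟨Set.range fun x : V 1 ⧸ (V (n + k * e)).addSubgroupOf (V 1) => (x.out : A),
    Set.finite_range _, ?_, fun z hz => ?_⟩
  · rintro _ ⟨x, rfl⟩
    exact x.out.2
  · obtain ⟨x, hx⟩ : ∃ x : V 1 ⧸ (V (n + k * e)).addSubgroupOf (V 1),
        x = QuotientAddGroup.mk ⟨z, hz⟩ := ⟨_, rfl⟩
    have h7 : (-x.out + ⟨z, hz⟩ : V 1) ∈ (V (n + k * e)).addSubgroupOf (V 1) := by
      rw [← QuotientAddGroup.eq, ← hx]
      exact Quotient.out_eq' x
    rw [AddSubgroup.mem_addSubgroupOf] at h7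
    obtain ⟨w, hw, h8⟩ := key _ h7
    refine ⟨_, ⟨x, rfl⟩, w, hw, ?_⟩
    have e3 : z - (x.out : A) - (p ^ k * m') • w = ((-x.out + ⟨z, hz⟩ : V 1) : A) -
        (p ^ k * m') • w := by
      rw [AddSubgroup.coe_add, AddSubgroup.coe_neg]
      abel
    rw [e3]
    exact h8

end GX
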