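import Pool.Agent.Lib.MP_f80667_ag.Lv.Sb
import Pool.Agent.Lib.MP_f80667_ag.Lv.Fm

/-! The cycles with reduction `0` modulo `m`. -/

open ZC BE PE CV IntermediateField

namespace GX

variable {F : Type} [Field F] {N d m : ℕ} {ι : Type} {K Ω : Type}
  [Field K] [CharZero K] [Field Ω] [Algebra K Ω] [Algebra F K] [Algebra F Ω]
  [IsScalarTower F K Ω] [IsAlgClosure K Ω] {f : ι → MvPolynomial (Fin N) F} {L : Ld K Ω} {π : Ω}

/-- **The group of the cycles with reduction `0` modulo `n`** is finite if the graded pieces are finite. -/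
theorem zr_fin (hp : 2 < L.p) (hπ : Uf L π) (hf : Hm f) {ψ : Fin m → Prj K N d}
    (hψ : ∀ i, Pj f L (ψ i)) (hc : Cvr f L ψ)
    (hfin : ∀ n, 1 ≤ n → (Vl f L π (n + 1)).relIndex (Vl f L π n) ≠ 0) {n : ℕ} (hn : n ≠ 0) :
    ∃ E : Set ((Xf f).pt Ω →₀ ℤ), E.Finite ∧ (∀ a ∈ E, a ∈ (Xf f).cyc K Ω ∧ Zr f L a) ∧
      ∀ z ∈ (Xf f).cyc K Ω, Zr f L z → ∃ a ∈ E, ∃ z' ∈ (Xf f).cyc K Ω, Zr f L z' ∧
        z - a - n • z' ∈ (Xf f).ratEq K Ω := by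
  obtain ⟨e, he0, he⟩ := exists_e (L := L) hπ
  have hS := vl_stb hp hπ hf hψ hc he0 he hfin
  obtain ⟨E, hE, hE1, hE2⟩ := fm_fin (p := L.p) (e := e) (s₀ := e) L.pp (vl_anti hπ)
    (fun n h0 h1 z hz => hS.dv n h0 h1 z hz) (fun l hl hlp n h1 z hz => hS.dl n h1 l hl hlp z hz)
    hfin hn
  have hch : ∀ a : ((Xf f).pt Ω →₀ ℤ), ∃ b, a ∈ Vl f L π 1 → b ∈ Dr f L π 1 ⊥ ∧
      a - b ∈ (Xf f).ratEq K Ω := by
    intro a
    by_cases ha : a ∈ Vl f L π 1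
    · obtain ⟨b, hb, c, hc, rfl⟩ := AddSubgroup.mem_sup.1 ha
      exact ⟨b, fun _ => ⟨hb, by rw [add_sub_cancel_left]; exact hc⟩⟩
    · exact ⟨0, fun h => absurd h ha⟩
  choose g hg using hch
  refine ⟨g '' E, hE.image g, ?_, fun z hz hz0 => ?_⟩
  · rintro _ ⟨a, ha, rfl⟩
    exact hπ.x_dr_zr hf (hg a (hE1 ha)).1
  · obtain ⟨a, ha, w, hw, h1⟩ := hE2 z (hπ.x_zr hf hψ hc hz hz0)
    obtain ⟨h2, h3⟩ := hg a (hE1 ha)
    obtain ⟨h4, h5⟩ := hg w hw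
    obtain ⟨h6, h7⟩ := hπ.x_dr_zr hf h4
    refine ⟨g a, ⟨a, ha, rfl⟩, g w, h6, h7, ?_⟩
    have e1 : z - g a - n • g w = (z - a - n • w) + (a - g a) + n • (w - g w) := by
      rw [smul_sub]
      abel
    rw [e1]
    exact add_mem (add_mem h1 h3) (AddSubgroup.nsmul_mem _ h5 n)

end GX
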