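import Pool.Agent.Lib.MP_f80667_ag.Lv.Fs
import Pool.Agent.Lib.MP_f80667_ag.Lv.Fl

/-! The classes of the cycles with reduction `0` modulo `n`. -/

open ZC BE PE CV IntermediateField

namespace GX

variable {F : Type} [Field F] {N d m : ℕ} {ι : Type} {K Ω : Type}
  [Field K] [CharZero K] [Field Ω] [Algebra K Ω] [Algebra F K] [Algebra F Ω]
  [IsScalarTower F K Ω] [IsAlgClosure K Ω] {f : ι → MvPolynomial (Fin N) F} {L : Ld K Ω} {π : Ω}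

/-- **The classes modulo `n`.** -/
theorem zr_cbk (hp : 2 < L.p) (hπ : Uf L π) (hf : Hm f) {ψ : Fin m → Prj K N d}
    (hψ : ∀ i, Pj f L (ψ i)) (hc : Cvr f L ψ)
    (hfin : ∀ n, 1 ≤ n → (Vl f L π (n + 1)).relIndex (Vl f L π n) ≠ 0) {n : ℕ} (hn : n ≠ 0) :
    ∃ b, Cbk f L.V K n b := by
  obtain ⟨E, hE, h1, h2⟩ := zr_fin hp hπ hf hψ hc hfin hn
  refine ⟨_, hE.toFinset, le_rfl, fun e he => ?_, fun z hz h0 => ?_⟩
  · obtain ⟨h3, h4⟩ := h1 e (hE.mem_toFinset.1 he)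
    exact ⟨h3, zrd_iff.2 h4⟩
  · obtain ⟨a, ha, z', hz', h5, h6⟩ := h2 z hz (zrd_iff.1 h0)
    exact ⟨a, hE.mem_toFinset.2 ha, z', hz', zrd_iff.2 h5, h6⟩

end GX
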