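import Pool.Agent.Lib.MP_f80667_ag.Lv.Tb

/-!
Values of displacements: automorphisms.
-/

open ZC BE PE CV IntermediateField

namespace GX

variable {F : Type} [Field F] {N d : ℕ} {ι : Type} {f : ι → MvPolynomial (Fin N) F} {K Ω : Type}
  [Field K] [CharZero K] [Field Ω] [Algebra K Ω] [Algebra F K] [Algebra F Ω]
  [IsScalarTower F K Ω] [IsAlgClosure K Ω] {L : Ld K Ω} {ψ : Prj K N d} {π : Ω}
  {M M' : IntermediateField K Ω} {c h : Fin (d + 1) → Ω} {w : Ω}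

omit [Algebra F Ω] [Algebra F K] [IsScalarTower F K Ω] [CharZero K] [IsAlgClosure K Ω] in
private theorem tca_map (L : Ld K Ω) (n : ℕ) (φ : Ω ≃ₐ[K] Ω) {x : Ω} (hx : x ∈ L.Ur ⊥ n) :
    φ x ∈ L.Ur ⊥ n := by
  have h1 : (L.Ur ⊥ n).map (φ : Ω →ₐ[K] Ω) ≤ L.Ur ⊥ n := by
    unfold Ld.Ur
    rw [IntermediateField.map_sup, IntermediateField.adjoin_map, IntermediateField.map_bot]
    refine sup_le_sup le_rfl (IntermediateField.adjoin.mono K _ _ ?_)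
    rintro _ ⟨x, hx, rfl⟩
    exact Ld.te_act φ hx
  exact h1 ⟨x, hx, rfl⟩

omit [Algebra F Ω] [Algebra F K] [IsScalarTower F K Ω] [CharZero K] [IsAlgClosure K Ω] in
private theorem tca_fix (L : Ld K Ω) (n : ℕ) (φ : Ω ≃ₐ[K] Ω) {γ : Ω ≃ₐ[K] Ω}
    (hγ : γ ∈ (L.Ur ⊥ n).fixingSubgroup) : φ⁻¹ * γ * φ ∈ (L.Ur ⊥ n).fixingSubgroup := by
  rw [IntermediateField.mem_fixingSubgroup_iff] at hγ ⊢
  intro x hx
  rw [AlgEquiv.mul_apply, AlgEquiv.mul_apply, hγ _ (tca_map L n φ hx), ← AlgEquiv.mul_apply,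
    inv_mul_cancel, AlgEquiv.one_apply]

omit [Algebra F Ω] [Algebra F K] [IsScalarTower F K Ω] in
private theorem tca_nm {A : Type} [AddCommGroup A] [DistribMulAction (Ω ≃ₐ[K] Ω) A]
    {N : IntermediateField K Ω} [FiniteDimensional K N] (φ : Ω ≃ₐ[K] Ω)
    (h1 : ∀ γ ∈ N.fixingSubgroup, φ⁻¹ * γ * φ ∈ N.fixingSubgroup)
    (h2 : ∀ γ ∈ N.fixingSubgroup, φ * γ * φ⁻¹ ∈ N.fixingSubgroup) {P : A} (hP : Fx N P) :
    Nm (⊥ : IntermediateField K Ω) N (φ • P) = Nm (⊥ : IntermediateField K Ω) N P := by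
  obtain ⟨s, -, -, h₂, h₃⟩ := nm_rep (M := (⊥ : IntermediateField K Ω)) (N := N) bot_le
  rw [h₃ A (φ • P), nm_eq bot_le (s.map (Equiv.mulRight φ).toEmbedding) ?_ ?_ hP, Finset.sum_map]
  · exact Finset.sum_congr rfl fun γ _ => (mul_smul γ φ P).symm
  · intro γ _
    rw [IntermediateField.fixingSubgroup_bot]
    exact Subgroup.mem_top γ
  · intro γ _
    obtain ⟨δ, ⟨hδ, hδ'⟩, hu⟩ := h₂ (γ * φ⁻¹) (by
      rw [IntermediateField.fixingSubgroup_bot]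
      exact Subgroup.mem_top _)
    refine ⟨δ * φ, ⟨?_, ?_⟩, ?_⟩
    · rw [Finset.mem_map]
      exact ⟨δ, hδ, rfl⟩
    · have h5 := h1 _ hδ'
      have e : φ⁻¹ * (δ⁻¹ * (γ * φ⁻¹)) * φ = (δ * φ)⁻¹ * γ := by group
      rwa [e] at h5
    · rintro _ ⟨hm, hm'⟩
      obtain ⟨δ', hδ1, rfl⟩ := Finset.mem_map.1 hm
      have h5 := h2 _ hm'
      have e : φ * (((Equiv.mulRight φ).toEmbedding δ')⁻¹ * γ) * φ⁻¹ = δ'⁻¹ * (γ * φ⁻¹) := by
        simp only [Equiv.coe_toEmbedding, Equiv.coe_mulRight]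
        group
      rw [e] at h5
      have h6 := hu δ' ⟨hδ1, h5⟩
      rw [h6]
      rfl

/-- **Automorphisms.** Proof: `pt_act`; `sht` at the images (`sht_eq`); the trace from the normal extension `Ur ⊥ n` of the image of a cycle is the trace of the cycle (as in `tn_frob` of `Gy/Vf.lean`). -/
theorem cyv_act (hψ : Pj f L ψ) {n : ℕ} (hn : n ≠ 0) (g : Gp L ψ (L.Ur ⊥ n) c w)
    (hh : Iv L (L.Ur ⊥ n) h) (h1 : ∀ r, L.nm (h r) < 1) (γ : Ω ≃ₐ[K] Ω) :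
    Gp L ψ (L.Ur ⊥ n) (fun r => γ (c r)) (γ w) ∧ Iv L (L.Ur ⊥ n) (fun r => γ (h r)) ∧
    cyv f L ψ (L.Ur ⊥ n) (fun r => γ (c r)) (γ w) (fun r => γ (h r)) =
      cyv f L ψ (L.Ur ⊥ n) c w h := by
  have hfU : FiniteDimensional K (L.Ur ⊥ n) := Ld.ur_fin ⊥ n hn
  have hIv : ∀ v : Fin (d + 1) → Ω, Iv L (L.Ur ⊥ n) v → Iv L (L.Ur ⊥ n) fun i => γ (v i) := by
    intro v hv i
    refine ⟨tca_map L n γ (hv i).1, ?_⟩
    rw [L.act]
    exact (hv i).2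
  have hD : ∀ v : Fin (d + 1) → Ω, L.nm (MvPolynomial.aeval (fun r => γ (v r)) ψ.D) =
      L.nm (MvPolynomial.aeval v ψ.D) := by
    intro v
    rw [← pe_C (fun r => γ (v r)) (γ w) ψ.D, ← pe_act, pe_C, L.act]
  have g' : Gp L ψ (L.Ur ⊥ n) (fun r => γ (c r)) (γ w) := by
    refine ⟨hIv c g.iv, tca_map L n γ g.mem, ?_, ?_, ?_⟩
    · rw [L.act]
      exact g.le
    · rw [← pe_act, g.G, map_zero]
    · rw [hD, g.D]
  obtain ⟨r₀, -, hr₀⟩ := Finset.exists_max_image (Finset.univ : Finset (Fin (d + 1)))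
    (fun r => L.nm (h r)) Finset.univ_nonempty
  obtain ⟨g1, hs1⟩ := g.sh hψ hh (h1 r₀) fun r => hr₀ r (Finset.mem_univ r)
  have hsum : ((fun r => γ (c r)) + fun r => γ (h r)) = fun r => γ ((c + h) r) := by
    funext r
    rw [Pi.add_apply, Pi.add_apply, map_add]
  have hsh : sht L ψ (γ w) (fun r => γ ((c + h) r)) = γ (sht L ψ w (c + h)) := by
    refine sht_eq hψ (fun r => ?_) ?_ g'.le ?_ ?_
    · rw [L.act]
      exact (g1.iv r).2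
    · rw [hD, g1.D]
    · rw [← pe_act, g1.G, map_zero]
    · rw [← map_sub, L.act]
      exact hs1.trans_lt (h1 r₀)
  have hzx : ∀ (c' : Fin (d + 1) → Ω) (w' : Ω), Gp L ψ (L.Ur ⊥ n) c' w' →
      zx f ((ψ.om Ω).pt (fun r => γ (c' r)) (γ w')) = γ • zx f ((ψ.om Ω).pt c' w') ∧
        Fx (L.Ur ⊥ n) (zx f ((ψ.om Ω).pt c' w') : (Xf f).pt Ω →₀ ℤ) := by
    intro c' w' g2
    obtain ⟨-, -, -, -, P, hP, hF, hz⟩ := g2.pt hψ
    have h3 := co_act γ hP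
    have h4 : (fun i => γ ((ψ.om Ω).pt c' w' i)) =
        (ψ.om Ω).pt (fun r => γ (c' r)) (γ w') := funext fun j => pt_act γ c' w' j
    rw [h4] at h3
    rw [zx_co h3, hz]
    exact ⟨(smul_single γ P 1).symm, fx_single hF 1⟩
  refine ⟨g', hIv h hh, ?_⟩
  unfold cyv
  rw [hsum, hsh, (hzx _ _ g1).1, (hzx _ _ g).1, ← smul_sub]
  refine tca_nm γ (fun δ hδ => tca_fix L n γ hδ) (fun δ hδ => ?_)
    ((hzx _ _ g1).2.sub (hzx _ _ g).2)
  have h4 := tca_fix L n γ⁻¹ hδ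
  rwa [inv_inv] at h4

end GX
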