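import Pool.Agent.Lib.MP_f80667_ag.Lv.Tb

/-!
Values of displacements: homogeneity, change of the projection.
-/

open ZC BE PE CV IntermediateField

namespace GX

variable {F : Type} [Field F] {N d : ℕ} {ι : Type} {f : ι → MvPolynomial (Fin N) F} {K Ω : Type}
  [Field K] [CharZero K] [Field Ω] [Algebra K Ω] [Algebra F K] [Algebra F Ω]
  [IsScalarTower F K Ω] [IsAlgClosure K Ω] {L : Ld K Ω} {ψ : Prj K N d} {π : Ω}
  {M M' : IntermediateField K Ω} {c h : Fin (d + 1) → Ω} {w : Ω}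

private theorem tcb_max {h : Fin (d + 1) → Ω} (h1 : ∀ r, L.nm (h r) < 1) :
    ∃ s : ℝ, s < 1 ∧ ∀ r, L.nm (h r) ≤ s := by
  obtain ⟨r, -, hr⟩ := Finset.exists_max_image (Finset.univ : Finset (Fin (d + 1)))
    (fun r => L.nm (h r)) ⟨0, Finset.mem_univ _⟩
  exact ⟨L.nm (h r), h1 r, fun r' => hr r' (Finset.mem_univ _)⟩

private theorem tcb_sm (hf : Hm f) (hψ : Pj f L ψ) (g : Gp L ψ M c w) {t : Ω} (ht : t ∈ M)
    (ht1 : L.nm t = 1) : Gp L ψ M (t • c) (t * w) ∧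
      (ψ.om Ω).pt (t • c) (t * w) = t • (ψ.om Ω).pt c w ∧
      zx f (t • (ψ.om Ω).pt c w) = zx f ((ψ.om Ω).pt c w) := by
  obtain ⟨-, -, hu, hy, P, hP, -, hz⟩ := g.pt hψ
  have ht0 : t ≠ 0 := L.ne_zero (by rw [ht1]; exact one_pos)
  have hP' : Co P (t • (ψ.om Ω).pt c w) := co_smul hf hP ht0
  have hD : L.nm (MvPolynomial.aeval (t • c) ψ.D) = 1 := by
    obtain ⟨e, -, he⟩ := hψ.homD
    rw [aeval_smul_hom he, L.mul, L.pow, ht1, one_pow, one_mul, g.D]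
  have hD' : MvPolynomial.aeval (ψ.uv (t • (ψ.om Ω).pt c w)) ψ.D ≠ 0 := by
    rw [uv_smul, hu]
    exact L.ne_zero (by rw [hD]; exact one_pos)
  obtain ⟨h1, h2⟩ := hψ.pt_eq (co_ne hP') (co_zero hP') hD'
  rw [uv_smul, yv_smul, hu, hy] at h1 h2
  refine ⟨⟨fun r => ⟨?_, ?_⟩, mul_mem ht g.mem, ?_, h1, hD⟩, h2, ?_⟩
  · rw [Pi.smul_apply, smul_eq_mul]
    exact mul_mem ht (g.iv r).1
  · rw [Pi.smul_apply, smul_eq_mul, L.mul, ht1, one_mul]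
    exact (g.iv r).2
  · rw [L.mul, ht1, one_mul]
    exact g.le
  · rw [zx_co hP', hz]

/-- Homogeneity. Proof: `(ψ.om Ω).pt (t c) (t w) = t (ψ.om Ω).pt c w`? No: `A` and `D` are not assumed homogeneous of the right degrees; use: `t x`, `x` the coordinates over `(c, w)`, are coordinates of the same point with `u (t x) = t c`,
`y (t x) = t w` (`Pj.pt_eq`). -/
theorem cyv_hom (hf : Hm f) (hψ : Pj f L ψ) (g : Gp L ψ M c w) (hh : Iv L M h)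
    (h1 : ∀ r, L.nm (h r) < 1) {t : Ω} (ht : t ∈ M) (ht1 : L.nm t = 1) :
    Gp L ψ M (t • c) (t * w) ∧ cyv f L ψ M (t • c) (t * w) (t • h) = cyv f L ψ M c w h := by
  obtain ⟨g1, hp1, hz1⟩ := tcb_sm hf hψ g ht ht1
  obtain ⟨s, hs, hs'⟩ := tcb_max h1
  obtain ⟨g2, hn⟩ := g.sh hψ hh hs hs'
  obtain ⟨g3, hp3, hz3⟩ := tcb_sm hf hψ g2 ht ht1
  rw [smul_add] at g3 hp3
  have h2 : sht L ψ (t * w) (t • c + t • h) = t * sht L ψ w (c + h) := by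
    refine sht_eq hψ (fun r => (g3.iv r).2) g3.D g1.le g3.G ?_
    rw [← mul_sub, L.mul, ht1, one_mul]
    exact hn.trans_lt hs
  refine ⟨g1, ?_⟩
  rw [cyv, cyv, h2, hp3, hp1, hz3, hz1]

/-- Radial displacements. Proof: `(1 + a) x` are coordinates of the same point. -/
theorem cyv_rad (hf : Hm f) (hψ : Pj f L ψ) (g : Gp L ψ M c w) {a : Ω} (ha : a ∈ M)
    (ha1 : L.nm a < 1) : cyv f L ψ M c w (a • c) = 0 := by
  have ht1 : L.nm (1 + a) = 1 := by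
    refine le_antisymm ((L.add _ _).trans (max_le L.one.le ha1.le)) ?_
    by_contra h2
    rw [not_le] at h2
    have h3 : L.nm ((1 + a) - a) < 1 := by
      rw [sub_eq_add_neg]
      refine (L.add _ _).trans_lt (max_lt h2 ?_)
      rw [L.neg]
      exact ha1
    rw [add_sub_cancel_right, L.one] at h3
    exact lt_irrefl _ h3
  obtain ⟨g1, hp1, hz1⟩ := tcb_sm hf hψ g (add_mem (one_mem M) ha) ht1
  have h2 : c + a • c = (1 + a) • c := by rw [add_smul, one_smul]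
  have h3 : sht L ψ w ((1 + a) • c) = (1 + a) * w := by
    refine sht_eq hψ (fun r => (g1.iv r).2) g1.D g.le g1.G ?_
    have h4 : (1 + a) * w - w = a * w := by ring
    rw [h4, L.mul]
    exact (mul_le_of_le_one_right (L.nonneg _) g.le).trans_lt ha1
  rw [cyv, h2, h3, hp1, hz1, sub_self, Nm]
  simp only [smul_zero, finsum_zero]

/-- Change of the projection. Proof: `Gp.eq` for `ψ'`. -/
theorem cyv_chart {ψ' : Prj K N d} (hψ : Pj f L ψ) (hψ' : Pj f L ψ') (g : Gp L ψ M c w)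
    (hD : L.nm (MvPolynomial.aeval (ψ'.uv ((ψ.om Ω).pt c w)) ψ'.D) = 1) (hh : Iv L M h)
    {t : ℝ} (ht : t < 1) (h1 : ∀ r, L.nm (h r) ≤ t) :
    Gp L ψ' M (ψ'.uv ((ψ.om Ω).pt c w)) (ψ'.yv ((ψ.om Ω).pt c w)) ∧
    ∃ h' : Fin (d + 1) → Ω, Iv L M h' ∧ (∀ r, L.nm (h' r) ≤ t) ∧
      h' = ψ'.uv ((ψ.om Ω).pt (c + h) (sht L ψ w (c + h))) - ψ'.uv ((ψ.om Ω).pt c w) ∧
      cyv f L ψ' M (ψ'.uv ((ψ.om Ω).pt c w)) (ψ'.yv ((ψ.om Ω).pt c w)) h' =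
        cyv f L ψ M c w h := by
  obtain ⟨hI, -, -, -, P, hP, -, -⟩ := g.pt hψ
  obtain ⟨g2, -⟩ := g.sh hψ hh ht h1
  obtain ⟨hI2, -, -, -, P2, hP2, -, -⟩ := g2.pt hψ
  have hn := g.near hψ hh ht h1
  have ht0 : 0 ≤ t := (L.nonneg _).trans (h1 0)
  obtain ⟨hG, hp⟩ := hψ'.pt_eq (co_ne hP) (co_zero hP) (L.ne_zero (by rw [hD]; exact one_pos))
  have g' : Gp L ψ' M (ψ'.uv ((ψ.om Ω).pt c w)) (ψ'.yv ((ψ.om Ω).pt c w)) :=
    ⟨fun r => ⟨lv_mem _ fun j => (hI j).1, lv_le (hψ'.iu r) fun j => (hI j).2⟩,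
      lv_mem _ fun j => (hI j).1, lv_le hψ'.iy fun j => (hI j).2, hG, hD⟩
  have hb : ∀ r, L.nm ((ψ'.uv ((ψ.om Ω).pt (c + h) (sht L ψ w (c + h))) -
      ψ'.uv ((ψ.om Ω).pt c w)) r) ≤ t := fun r => lv_close (hψ'.iu r) ht0 hn
  refine ⟨g', _, fun r => ⟨?_, (hb r).trans ht.le⟩, hb, rfl, ?_⟩
  · exact sub_mem (lv_mem _ fun j => (hI2 j).1) (lv_mem _ fun j => (hI j).1)
  · have h2 := Gp.eq hψ' g' (fun r => (hb r).trans_lt ht) (fun j => (hI2 j).2) (co_ne hP2)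
      (co_zero hP2) (fun j => by
        rw [hp]
        exact (hn j).trans_lt ht) (add_sub_cancel _ _).symm
    rw [cyv, cyv, h2, hp]

end GX
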