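import Pool.Agent.Lib.MP_f80667_ag.Lv.Kc

/-! The roots over a point: moments. -/

open ZC BE PE CV IntermediateField

namespace GX

variable {F : Type} [Field F] {N d : ℕ} {ι : Type} {f : ι → MvPolynomial (Fin N) F}
  {K Ω : Type} [Field K] [CharZero K] [Field Ω] [Algebra K Ω] [Algebra F K] [Algebra F Ω]
  [IsScalarTower F K Ω] [IsAlgClosure K Ω] {L : Ld K Ω} {ψ : Prj K N d}
  {c h : Fin (d + 1) → Ω} {w : Ω}

/-- The abstract form: moments against an injective function on a finite set. -/
private theorem van_aux {A k : Type} [Field k] (s : Finset A) (r : A → k) (T : A → k) (n : ℕ)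
    (hs : s.card ≤ n) (hr : ∀ a ∈ s, ∀ b ∈ s, r a = r b → a = b)
    (h : ∀ j < n, ∑ a ∈ s, r a ^ j * T a = 0) : ∀ a ∈ s, T a = 0 := by
  classical
  intro a ha
  set q : Polynomial k := ∏ b ∈ s.erase a, (Polynomial.X - Polynomial.C (r b)) with hq
  have hdeg : q.natDegree = (s.erase a).card := by
    rw [hq, Polynomial.natDegree_prod_of_monic _ _ fun b _ => Polynomial.monic_X_sub_C _]
    simp
  have hlt : q.natDegree < n := by
    rw [hdeg, Finset.card_erase_of_mem ha]
    have : 0 < s.card := Finset.card_pos.2 ⟨a, ha⟩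
    omega
  have h0 : ∑ b ∈ s, q.eval (r b) * T b = 0 := by
    have h1 : ∀ b ∈ s, q.eval (r b) * T b
        = ∑ j ∈ Finset.range n, q.coeff j * (r b ^ j * T b) := by
      intro b _
      rw [Polynomial.eval_eq_sum_range' hlt, Finset.sum_mul]
      exact Finset.sum_congr rfl fun j _ => by ring
    rw [Finset.sum_congr rfl h1, Finset.sum_comm]
    refine Finset.sum_eq_zero fun j hj => ?_
    rw [← Finset.mul_sum, h j (Finset.mem_range.1 hj), mul_zero]
  have h2 : ∀ b ∈ s, b ≠ a → q.eval (r b) * T b = 0 := by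
    intro b hb hba
    rw [hq, Polynomial.eval_prod, Finset.prod_eq_zero (Finset.mem_erase.2 ⟨hba, hb⟩) (by simp),
      zero_mul]
  rw [Finset.sum_eq_single_of_mem a ha h2] at h0
  refine (mul_eq_zero.1 h0).resolve_left ?_
  rw [hq, Polynomial.eval_prod]
  refine Finset.prod_ne_zero_iff.2 fun b hb => ?_
  have hb' := Finset.mem_erase.1 hb
  simp only [Polynomial.eval_sub, Polynomial.eval_X, Polynomial.eval_C]
  exact sub_ne_zero.2 fun e => hb'.1 (hr a ha b hb'.2 e).symm

/-- **Vandermonde.** A function on the roots whose moments `j < natDegree` are `0` is `0`. Proof: Lagrange polynomial: for `w₀` the polynomial `∏ (X - ρ (w))` over the roots `w ≠ w₀` has degree `< natDegree` (`rts_card`), so `∑ T w q (ρ w) = 0` for it: only `w₀` contributes and the factor is not `0` (`rts_inj`). -/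
theorem rts_van (hψ : Pj f L ψ) (hc : ∀ r, L.nm (c r) ≤ 1)
    (hD : L.nm (MvPolynomial.aeval c ψ.D) = 1) {T : Ω → L.κ}
    (h : ∀ j < ψ.G.natDegree, ∑ w ∈ rts ψ c, rv L w ^ j * T w = 0) : ∀ w ∈ rts ψ c, T w = 0 :=
  van_aux (rts ψ c) (rv L) T ψ.G.natDegree rts_card
    (fun _ ha _ hb e => rts_inj hψ hc hD ha hb e) h

end GX
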