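import Pool.Agent.Lib.MP_f80667_ag.Lv.Fda

/-! The algebra of the characters of a graded piece: finite dimension. -/

open MvPolynomial

namespace GX

variable {R κ : Type} [CommRing R] [Field κ] {ρ : R →+* κ} {π : R} {d : ℕ}

/-- The functions `b ↦ eval b g`, `g` homogeneous of degree `m`, are combinations of finitely many: a homogeneous polynomial is determined by its coefficients at the monomials of degree `m` (`Finset.univ.finsuppAntidiag m`, or: finitely many exponents
of degree `m`); `MvPolynomial.eval_eq'`. -/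
theorem hom_fin (κ : Type) [Field κ] (d m : ℕ) : ∃ (n : ℕ)
    (φ : Fin n → (Fin (d + 1) → κ) → κ), ∀ g : MvPolynomial (Fin (d + 1)) κ,
      g.IsHomogeneous m → ∃ a : Fin n → κ, ∀ b, eval b g = ∑ i, a i * φ i b := by
  classical
  let S : Finset (Fin (d + 1) →₀ ℕ) := Finset.univ.finsuppAntidiag m
  let E : Fin S.card ≃ S := S.equivFin.symm
  refine ⟨S.card, fun i b => ∏ r, b r ^ ((E i : Fin (d + 1) →₀ ℕ) r), fun g hg =>
    ⟨fun i => g.coeff (E i : Fin (d + 1) →₀ ℕ), fun b => ?_⟩⟩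
  rw [eval_eq', Equiv.sum_comp E (fun e : S => g.coeff (e : Fin (d + 1) →₀ ℕ) *
    ∏ r, b r ^ ((e : Fin (d + 1) →₀ ℕ) r)),
    Finset.sum_coe_sort S (fun e => g.coeff e * ∏ r, b r ^ e r)]
  refine Finset.sum_subset (fun e he => ?_) (fun e _ he => ?_)
  · rw [Finset.mem_finsuppAntidiag]
    refine ⟨?_, Finset.subset_univ _⟩
    by_contra h
    refine mem_support_iff.1 he (hg.coeff_eq_zero fun h' => h ?_)
    rw [← h', Finsupp.degree_eq_sum]
  · rw [notMem_support_iff.1 he, zero_mul]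

/-- The kernel of a linear map with image in the span of `N` vectors. -/
private theorem fdb_ker {V W X : Type} [AddCommGroup V] [Module κ V] [FiniteDimensional κ V]
    [AddCommGroup W] [Module κ W] [Fintype X] (f : V →ₗ[κ] W) (ψ : X → W)
    (h : ∀ v, f v ∈ Submodule.span κ (Set.range ψ)) :
    Module.finrank κ V ≤ Fintype.card X + Module.finrank κ (LinearMap.ker f) := by
  have h1 := f.finrank_range_add_finrank_ker
  have h2 : Module.finrank κ (LinearMap.range f) ≤
      Module.finrank κ (Submodule.span κ (Set.range ψ)) := by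
    have : FiniteDimensional κ (Submodule.span κ (Set.range ψ)) :=
      FiniteDimensional.span_of_finite κ (Set.finite_range ψ)
    refine Submodule.finrank_mono ?_
    rintro _ ⟨v, rfl⟩
    exact h v
  have h3 : Module.finrank κ (Submodule.span κ (Set.range ψ)) ≤ Fintype.card X :=
    finrank_range_le_card ψ
  omega

/-- **The class is finite dimensional.** Proof: `hom_fin` and `Pc.polyB`: the `B` are determined by vectors `b_l` of coefficients in a space of finite dimension `N₁` (for all `i`, `j < n i`, `s`, `r`, degrees `j - 2`);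
`Pc.poly`: the elements with `B = 0` are determined by vectors of coefficients in a space of finite dimension `N₂` (all `i`, `j < n i`, `r`, degrees `j - 1`); `g = N₁ + N₂`. Given `N₁ + N₂ + 1` elements the kernel of `η ↦ ∑ η_l b_l` has dimension `≥ N₂ + 1`:
choose `N₂ + 1` linearly independent vectors in it; `pc_sum`; the `N₂ + 1` vectors of coefficients of `Pc.poly` are linearly dependent. -/
theorem pc_fin [Infinite κ] (hρ : Function.Surjective ρ) (hπ : ρ π = 0)
    (hker : ∀ x, ρ x = 0 → ∃ y, x = π * y) {p : ℕ} (hp : p.Prime) [CharP κ p]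
    (hpf : ∀ x : κ, ∃ y, y ^ p = x) {m : ℕ} {Δ : Fin m → MvPolynomial (Fin (d + 1)) κ}
    {e : Fin m → ℕ} (h0 : ∀ i, Δ i ≠ 0) (hΔ : ∀ i, (Δ i).IsHomogeneous (e i))
    (n : Fin m → ℕ) : ∃ g : ℕ,
      ∀ (P : Fin (g + 1) → Fin m → ℕ → (Fin (d + 1) → R) → (Fin (d + 1) → κ) → κ)
        (B : Fin (g + 1) → Fin m → ℕ →
          (Fin (d + 1) → κ) → (Fin (d + 1) → κ) → (Fin (d + 1) → κ) → κ),
        (∀ l i, ∀ j < n i, Pc ρ π (Δ i) j (P l i j) (B l i j)) →
          ∃ η : Fin (g + 1) → κ, η ≠ 0 ∧ ∀ i, ∀ j < n i, ∀ c,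
            eval (fun r => ρ (c r)) (Δ i) ≠ 0 → ∀ u, ∑ l, η l * P l i j c u = 0 := by
  classical
  choose N φ hφ using fun k : ℕ => hom_fin κ d k
  let Q : Type := Σ i, Fin (n i)
  let X1 : Type := Σ q : Q, Fin (d + 1) × Fin (d + 1) × Fin (N (q.2 - 2))
  let X2 : Type := Σ q : Q, Fin (d + 1) × Fin (N (q.2 - 1))
  let N1 := Fintype.card X1
  let N2 := Fintype.card X2
  refine ⟨N1 + N2, fun P B h => ?_⟩
  let T1 : Type := Q × (Fin (d + 1) → κ) × (Fin (d + 1) → κ) × (Fin (d + 1) → κ)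
  let T2 : Type := Q × (Fin (d + 1) → R) × (Fin (d + 1) → κ)
  let F1 : (Fin (N1 + N2 + 1) → κ) →ₗ[κ] (T1 → κ) :=
    { toFun := fun η t => if eval t.2.1 (Δ t.1.1) ≠ 0 then
          ∑ l, η l * B l t.1.1 t.1.2 t.2.1 t.2.2.1 t.2.2.2 else 0
      map_add' := fun η η' => by
        funext t
        by_cases ht : eval t.2.1 (Δ t.1.1) ≠ 0
        · simp only [if_pos ht, Pi.add_apply, add_mul, Finset.sum_add_distrib]
        · simp only [if_neg ht, Pi.add_apply, add_zero]
      map_smul' := fun a η => by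
        funext t
        by_cases ht : eval t.2.1 (Δ t.1.1) ≠ 0
        · simp only [if_pos ht, Pi.smul_apply, smul_eq_mul, RingHom.id_apply, Finset.mul_sum,
            mul_assoc]
        · simp only [if_neg ht, Pi.smul_apply, smul_eq_mul, mul_zero] }
  let F2 : (Fin (N1 + N2 + 1) → κ) →ₗ[κ] (T2 → κ) :=
    { toFun := fun η t => if eval (fun r => ρ (t.2.1 r)) (Δ t.1.1) ≠ 0 then
          ∑ l, η l * P l t.1.1 t.1.2 t.2.1 t.2.2 else 0
      map_add' := fun η η' => by
        funext t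
        by_cases ht : eval (fun r => ρ (t.2.1 r)) (Δ t.1.1) ≠ 0
        · simp only [if_pos ht, Pi.add_apply, add_mul, Finset.sum_add_distrib]
        · simp only [if_neg ht, Pi.add_apply, add_zero]
      map_smul' := fun a η => by
        funext t
        by_cases ht : eval (fun r => ρ (t.2.1 r)) (Δ t.1.1) ≠ 0
        · simp only [if_pos ht, Pi.smul_apply, smul_eq_mul, RingHom.id_apply, Finset.mul_sum,
            mul_assoc]
        · simp only [if_neg ht, Pi.smul_apply, smul_eq_mul, mul_zero] }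
  let ψ1 : X1 → T1 → κ := fun x t => if t.1 = x.1 ∧ eval t.2.1 (Δ t.1.1) ≠ 0 then
    φ (x.1.2 - 2) x.2.2.2 t.2.1 * t.2.2.1 x.2.1 * t.2.2.2 x.2.2.1 else 0
  let ψ2 : X2 → T2 → κ := fun x t =>
    if t.1 = x.1 ∧ eval (fun r => ρ (t.2.1 r)) (Δ t.1.1) ≠ 0 then
      φ (x.1.2 - 1) x.2.2 (fun r => ρ (t.2.1 r)) * t.2.2 x.2.1 else 0
  have hPc : ∀ (η : Fin (N1 + N2 + 1) → κ) (q : Q), Pc ρ π (Δ q.1) q.2
      (fun c u => ∑ l, η l * P l q.1 q.2 c u) (fun y v u => ∑ l, η l * B l q.1 q.2 y v u) :=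
    fun η q => pc_sum (fun l => h l q.1 q.2 q.2.2) η
  have k1 := fdb_ker F1 ψ1 (fun η => by
    choose g hg1 hg2 using fun q : Q => (hPc η q).polyB hρ hπ (h0 q.1) (hΔ q.1) hp hpf
    choose a ha using fun (q : Q) (s r : Fin (d + 1)) => hφ _ (g q s r) (hg1 q s r)
    have e : F1 η = ∑ x : X1, a x.1 x.2.1 x.2.2.1 x.2.2.2 • ψ1 x := by
      funext t
      rw [Finset.sum_apply, Fintype.sum_sigma, Finset.sum_eq_single t.1]
      · simp only [Fintype.sum_prod_type, Pi.smul_apply, smul_eq_mul]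
        by_cases ht : eval t.2.1 (Δ t.1.1) ≠ 0
        · have e1 : F1 η t = ∑ l, η l * B l t.1.1 t.1.2 t.2.1 t.2.2.1 t.2.2.2 := if_pos ht
          rw [e1, hg2 t.1 t.2.1 ht t.2.2.1 t.2.2.2]
          refine Finset.sum_congr rfl fun s _ => Finset.sum_congr rfl fun r _ => ?_
          rw [ha, Finset.sum_mul, Finset.sum_mul]
          refine Finset.sum_congr rfl fun k _ => ?_
          have e2 : ψ1 ⟨t.1, s, r, k⟩ t = φ (t.1.2 - 2) k t.2.1 * t.2.2.1 s * t.2.2.2 r :=
            if_pos ⟨rfl, ht⟩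
          rw [e2]
          ring
        · have e1 : F1 η t = 0 := if_neg ht
          rw [e1]
          symm
          refine Finset.sum_eq_zero fun s _ => Finset.sum_eq_zero fun r _ =>
            Finset.sum_eq_zero fun k _ => ?_
          have e2 : ψ1 ⟨t.1, s, r, k⟩ t = 0 := if_neg fun h' => ht h'.2
          rw [e2, mul_zero]
      · intro q _ hq
        refine Finset.sum_eq_zero fun x _ => ?_
        have e2 : ψ1 ⟨q, x⟩ t = 0 := if_neg fun h' => hq h'.1.symm
        rw [Pi.smul_apply, e2, smul_zero]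
      · exact fun h' => absurd (Finset.mem_univ _) h'
    rw [e]
    exact Submodule.sum_mem _ fun x _ =>
      Submodule.smul_mem _ _ (Submodule.subset_span ⟨x, rfl⟩))
  let K := LinearMap.ker F1
  have k2 := fdb_ker (F2.domRestrict K) ψ2 (fun η => by
    have hB : ∀ q : Q, ∀ y, eval y (Δ q.1) ≠ 0 → ∀ v u,
        ∑ l, (η : Fin (N1 + N2 + 1) → κ) l * B l q.1 q.2 y v u = 0 := by
      intro q y hy v u
      have e0 : F1 (η : Fin (N1 + N2 + 1) → κ) = 0 := η.2
      have e1 := congrFun e0 (q, y, v, u)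
      have e2 : F1 (η : Fin (N1 + N2 + 1) → κ) (q, y, v, u) =
        ∑ l, (η : Fin (N1 + N2 + 1) → κ) l * B l q.1 q.2 y v u := if_pos hy
      rw [← e2, e1]
      rfl
    choose g hg1 hg2 using fun q : Q =>
      (hPc (η : Fin (N1 + N2 + 1) → κ) q).poly hρ hπ hker (h0 q.1) (hΔ q.1) hp hpf (hB q)
    choose a ha using fun (q : Q) (r : Fin (d + 1)) => hφ _ (g q r) (hg1 q r)
    have e : F2.domRestrict K η = ∑ x : X2, a x.1 x.2.1 x.2.2 • ψ2 x := by
      funext t
      rw [Finset.sum_apply, Fintype.sum_sigma, Finset.sum_eq_single t.1]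
      · simp only [Fintype.sum_prod_type, Pi.smul_apply, smul_eq_mul]
        by_cases ht : eval (fun r => ρ (t.2.1 r)) (Δ t.1.1) ≠ 0
        · have e1 : F2.domRestrict K η t =
            ∑ l, (η : Fin (N1 + N2 + 1) → κ) l * P l t.1.1 t.1.2 t.2.1 t.2.2 := if_pos ht
          rw [e1, hg2 t.1 t.2.1 ht t.2.2]
          refine Finset.sum_congr rfl fun r _ => ?_
          rw [ha, Finset.sum_mul]
          refine Finset.sum_congr rfl fun k _ => ?_
          have e2 : ψ2 ⟨t.1, r, k⟩ t = φ (t.1.2 - 1) k (fun r => ρ (t.2.1 r)) * t.2.2 r :=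
            if_pos ⟨rfl, ht⟩
          rw [e2]
          ring
        · have e1 : F2.domRestrict K η t = 0 := if_neg ht
          rw [e1]
          symm
          refine Finset.sum_eq_zero fun r _ => Finset.sum_eq_zero fun k _ => ?_
          have e2 : ψ2 ⟨t.1, r, k⟩ t = 0 := if_neg fun h' => ht h'.2
          rw [e2, mul_zero]
      · intro q _ hq
        refine Finset.sum_eq_zero fun x _ => ?_
        have e2 : ψ2 ⟨q, x⟩ t = 0 := if_neg fun h' => hq h'.1.symm
        rw [Pi.smul_apply, e2, smul_zero]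
      · exact fun h' => absurd (Finset.mem_univ _) h'
    rw [e]
    exact Submodule.sum_mem _ fun x _ =>
      Submodule.smul_mem _ _ (Submodule.subset_span ⟨x, rfl⟩))
  have k3 : Module.finrank κ (Fin (N1 + N2 + 1) → κ) = N1 + N2 + 1 := by
    rw [Module.finrank_pi, Fintype.card_fin]
  have k4 : 0 < Module.finrank κ (LinearMap.ker (F2.domRestrict K)) := by
    have k5 : Module.finrank κ (Fin (N1 + N2 + 1) → κ) ≤ N1 + Module.finrank κ K := k1
    have k6 : Module.finrank κ K ≤ N2 + Module.finrank κ (LinearMap.ker (F2.domRestrict K)) := k2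
    omega
  obtain ⟨z, hz⟩ := (Module.finrank_pos_iff_exists_ne_zero
    (R := κ) (M := LinearMap.ker (F2.domRestrict K))).1 k4
  refine ⟨((z : K) : Fin (N1 + N2 + 1) → κ), fun h' => hz ?_, fun i j hj c hc u => ?_⟩
  · exact Subtype.ext (Subtype.ext h')
  · have e0 : F2.domRestrict K (z : K) = 0 := z.2
    have e1 := congrFun e0 (⟨i, ⟨j, hj⟩⟩, c, u)
    have e2 : F2.domRestrict K (z : K) (⟨i, ⟨j, hj⟩⟩, c, u) =
      ∑ l, ((z : K) : Fin (N1 + N2 + 1) → κ) l * P l i j c u := if_pos hc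
    rw [← e2, e1]
    rfl

end GX
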