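import Pool.Agent.Lib.MP_f80667_ag.Lv.Kb

/-! The reduction of the denominator of a projection. -/

open ZC BE PE CV IntermediateField

namespace GX

variable {F : Type} [Field F] {N d : ℕ} {ι : Type} {f : ι → MvPolynomial (Fin N) F}
  {K Ω : Type} [Field K] [CharZero K] [Field Ω] [Algebra K Ω] [Algebra F K] [Algebra F Ω]
  [IsScalarTower F K Ω] [IsAlgClosure K Ω] {L : Ld K Ω} {ψ : Prj K N d}

omit [CharZero K] [IsAlgClosure K Ω] in
private theorem kb1_sum {ι : Type} (S : Finset ι) {f : ι → Ω} {r : ι → L.κ}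
    (h : ∀ i ∈ S, L.rs.Hv (f i) (r i)) : L.rs.Hv (∑ i ∈ S, f i) (∑ i ∈ S, r i) := by
  classical
  induction S using Finset.induction_on with
  | empty =>
    rw [Finset.sum_empty, Finset.sum_empty]
    exact Rs.Hv.zero
  | insert a S ha ih =>
    rw [Finset.sum_insert ha, Finset.sum_insert ha]
    exact (h a (Finset.mem_insert_self a S)).add
      (ih fun i hi => h i (Finset.mem_insert_of_mem hi))

omit [CharZero K] [IsAlgClosure K Ω] in
private theorem kb1_prod {ι : Type} (S : Finset ι) {f : ι → Ω} {r : ι → L.κ}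
    (h : ∀ i ∈ S, L.rs.Hv (f i) (r i)) : L.rs.Hv (∏ i ∈ S, f i) (∏ i ∈ S, r i) := by
  classical
  induction S using Finset.induction_on with
  | empty =>
    rw [Finset.prod_empty, Finset.prod_empty]
    exact Rs.Hv.one
  | insert a S ha ih =>
    rw [Finset.prod_insert ha, Finset.prod_insert ha]
    exact (h a (Finset.mem_insert_self a S)).mul
      (ih fun i hi => h i (Finset.mem_insert_of_mem hi))

/-- Proof: `Pj.homD`: the coefficients of `rD` at `e` are the residues of those of `ψ.D`. -/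
theorem rD_hom (hψ : Pj f L ψ) : ∃ e, (rD L ψ).IsHomogeneous e := by
  obtain ⟨e, _, he⟩ := hψ.homD
  refine ⟨e, ?_⟩
  unfold rD
  refine MvPolynomial.IsHomogeneous.sum _ _ _ fun e' he' => ?_
  apply MvPolynomial.isHomogeneous_monomial
  rw [MvPolynomial.mem_support_iff] at he'
  rw [Finsupp.degree_eq_weight_one]
  exact he he'

/-- Proof: `MvPolynomial.aeval_def`, `eval₂_eq'` (sum over the support) and the residues of sums and products (`Rs.Hv.add`, `mul`, `pow`); `Pj.iD`. -/
theorem rD_hv (hψ : Pj f L ψ) {c : Fin (d + 1) → Ω} {y : Fin (d + 1) → L.κ}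
    (h : ∀ r, L.rs.Hv (c r) (y r)) :
    L.rs.Hv (MvPolynomial.aeval c ψ.D) (MvPolynomial.eval y (rD L ψ)) := by
  rw [MvPolynomial.aeval_def, MvPolynomial.eval₂_eq']
  unfold rD
  rw [map_sum]
  refine kb1_sum _ fun e _ => ?_
  rw [MvPolynomial.eval_monomial, Finsupp.prod_fintype _ _ fun i => pow_zero _]
  exact (rv_hv L (hψ.iD e)).mul (kb1_prod _ fun i _ => (h i).pow (e i))

/-- Proof: `rD_hv`, `L.hv_ne`. -/
theorem rD_one (hψ : Pj f L ψ) (c : Fin (d + 1) → Rn L) :
    MvPolynomial.eval (fun r => rdn L (c r)) (rD L ψ) ≠ 0 ↔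
      L.nm (MvPolynomial.aeval (fun r => (c r : Ω)) ψ.D) = 1 :=
  L.hv_ne (rD_hv hψ fun r => rdn_hv L (c r))

end GX
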