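import Mathlib

/-! Functions with vanishing divided differences. -/

namespace GX

open Classical in
private theorem ki_step {R κ : Type} [CommRing R] [Field κ] {ρ : R →+* κ}
    {δ : Polynomial κ} {M : ℕ} {T : R → κ}
    (h : ∀ S : Finset R, S.card = M + 1 → (∀ x ∈ S, ∀ y ∈ S, ρ x = ρ y → x = y) →
      (∀ x ∈ S, δ.eval (ρ x) ≠ 0) →
        ∑ x ∈ S, (∏ y ∈ S.erase x, (ρ x - ρ y))⁻¹ * T x = 0)
    {g : κ → R} (hg : ∀ a, ρ (g a) = a) {A : Finset κ} (hA : A.card = M)
    (hA2 : ∀ a ∈ A, δ.eval a ≠ 0) {q : Polynomial κ} (hq : q.degree < M)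
    (hT : ∀ a ∈ A, T (g a) = q.eval a) {z : R} (hz : δ.eval (ρ z) ≠ 0) (hzA : ρ z ∉ A) :
    T z = q.eval (ρ z) := by
  have hgi : Function.Injective g := fun a b hab => by
    rw [← hg a, ← hg b, hab]
  have hzS : z ∉ A.image g := by
    intro hz2
    obtain ⟨a, ha, rfl⟩ := Finset.mem_image.1 hz2
    exact hzA (by rw [hg]; exact ha)
  have hinj : ∀ x ∈ insert z (A.image g), ∀ y ∈ insert z (A.image g), ρ x = ρ y → x = y := by
    intro x hx y hy hxy
    rw [Finset.mem_insert, Finset.mem_image] at hx hy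
    rcases hx with rfl | ⟨a, ha, rfl⟩ <;> rcases hy with rfl | ⟨b, hb, rfl⟩
    · rfl
    · exact absurd (by rw [hxy, hg]; exact hb) hzA
    · exact absurd (by rw [← hxy, hg]; exact ha) hzA
    · rw [hg, hg] at hxy
      rw [hxy]
  have hcard : (insert z (A.image g)).card = M + 1 := by
    rw [Finset.card_insert_of_notMem hzS, Finset.card_image_of_injective _ hgi, hA]
  have hgood : ∀ x ∈ insert z (A.image g), δ.eval (ρ x) ≠ 0 := by
    intro x hx
    rw [Finset.mem_insert, Finset.mem_image] at hx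
    rcases hx with rfl | ⟨a, ha, rfl⟩
    · exact hz
    · rw [hg]
      exact hA2 a ha
  have h1 := h _ hcard hinj hgood
  have hvs : Set.InjOn (fun x : R => ρ x) (insert z (A.image g) : Finset R) := by
    intro x hx y hy hxy
    exact hinj x hx y hy hxy
  have hdeg : q.degree < ((insert z (A.image g)).card : WithBot ℕ) := by
    rw [hcard]
    refine hq.trans ?_
    exact_mod_cast Nat.lt_succ_self M
  have h2 := Lagrange.coeff_eq_sum hvs hdeg
  rw [hcard, Nat.add_sub_cancel, Polynomial.coeff_eq_zero_of_degree_lt hq] at h2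
  have h3 : ∑ x ∈ insert z (A.image g),
      (∏ y ∈ (insert z (A.image g)).erase x, (ρ x - ρ y))⁻¹ * (T x - q.eval (ρ x)) = 0 := by
    have h4 : ∑ x ∈ insert z (A.image g),
        (∏ y ∈ (insert z (A.image g)).erase x, (ρ x - ρ y))⁻¹ * q.eval (ρ x) = 0 := by
      rw [h2]
      refine Finset.sum_congr rfl fun x _ => ?_
      rw [div_eq_mul_inv, mul_comm]
    calc ∑ x ∈ insert z (A.image g),
        (∏ y ∈ (insert z (A.image g)).erase x, (ρ x - ρ y))⁻¹ * (T x - q.eval (ρ x))
        = (∑ x ∈ insert z (A.image g),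
            (∏ y ∈ (insert z (A.image g)).erase x, (ρ x - ρ y))⁻¹ * T x)
          - ∑ x ∈ insert z (A.image g),
            (∏ y ∈ (insert z (A.image g)).erase x, (ρ x - ρ y))⁻¹ * q.eval (ρ x) := by
          rw [← Finset.sum_sub_distrib]
          exact Finset.sum_congr rfl fun x _ => mul_sub _ _ _
      _ = 0 := by rw [h1, h4, sub_zero]
  rw [Finset.sum_insert hzS] at h3
  have h5 : ∑ x ∈ A.image g,
      (∏ y ∈ (insert z (A.image g)).erase x, (ρ x - ρ y))⁻¹ * (T x - q.eval (ρ x)) = 0 := by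
    refine Finset.sum_eq_zero fun x hx => ?_
    obtain ⟨a, ha, rfl⟩ := Finset.mem_image.1 hx
    rw [hT a ha, hg, sub_self, mul_zero]
  rw [h5, add_zero] at h3
  have h6 : (∏ y ∈ (insert z (A.image g)).erase z, (ρ z - ρ y))⁻¹ ≠ 0 := by
    refine inv_ne_zero (Finset.prod_ne_zero_iff.2 fun y hy => ?_)
    rw [Finset.mem_erase] at hy
    intro h7
    exact hy.1 (hinj z (Finset.mem_insert_self _ _) y hy.2 (sub_eq_zero.1 h7)).symm
  exact sub_eq_zero.1 ((mul_eq_zero.1 h3).resolve_left h6)

open Classical in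
/-- **Divided differences.** Proof: if `δ = 0`: `q = 0`. Otherwise there are infinitely many good residues (`κ` infinite, `ρ` surjective). `S₀` a set of `M` good elements with different residues, `q` the Lagrange polynomial (`Lagrange.interpolate`) of `T` at the nodes `ρ (S₀)`, of degree `< M`
(`q = 0` for `M = 0`). For good `z` with `ρ z ∉ ρ (S₀)` the relation for `S₀ ∪ {z}` and the same relation for `q` (its divided difference is `0`: the leading coefficient of the Lagrange polynomial, `Lagrange`, or `Polynomial` degree; compare `GM` / `Gx` files with `divided`) give `T z = q (ρ z)`. For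
`ρ z ∈ ρ (S₀)` take `M` good elements `S₁` with residues outside `ρ (S₀)`: `T = q ∘ ρ` there, and the relation for `S₁ ∪ {z}`. -/
theorem dd_poly {R κ : Type} [CommRing R] [Field κ] [Infinite κ] {ρ : R →+* κ}
    (hρ : Function.Surjective ρ) {δ : Polynomial κ} {M : ℕ} {T : R → κ}
    (h : ∀ S : Finset R, S.card = M + 1 → (∀ x ∈ S, ∀ y ∈ S, ρ x = ρ y → x = y) →
      (∀ x ∈ S, δ.eval (ρ x) ≠ 0) →
        ∑ x ∈ S, (∏ y ∈ S.erase x, (ρ x - ρ y))⁻¹ * T x = 0) :
    ∃ q : Polynomial κ, q.natDegree ≤ M ∧ ∀ x, δ.eval (ρ x) ≠ 0 → T x = q.eval (ρ x) := by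
  rcases eq_or_ne δ 0 with hδ | hδ
  · refine ⟨0, by simp, fun x hx => absurd ?_ hx⟩
    rw [hδ, Polynomial.eval_zero]
  · obtain ⟨g, hg⟩ : ∃ g : κ → R, ∀ a, ρ (g a) = a :=
      ⟨Function.surjInv hρ, Function.surjInv_eq hρ⟩
    have hinf : {a : κ | δ.eval a ≠ 0}.Infinite := by
      have h1 : ({a : κ | δ.eval a ≠ 0}ᶜ).Finite := by
        refine (δ.roots.toFinset.finite_toSet).subset fun a ha => ?_
        have h2 : δ.eval a = 0 := by
          by_contra h3
          exact ha h3
        rw [Finset.mem_coe, Multiset.mem_toFinset, Polynomial.mem_roots hδ]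
        exact h2
      have h4 := h1.infinite_compl
      rwa [compl_compl] at h4
    obtain ⟨A, hA1, hA2⟩ := hinf.exists_subset_card_eq M
    have hAg : ∀ a ∈ A, δ.eval a ≠ 0 := fun a ha => hA1 ha
    have hvs : Set.InjOn (fun a : κ => a) A := fun a _ b _ hab => hab
    set q := Lagrange.interpolate A (fun a : κ => a) (fun a => T (g a)) with hq
    have hdeg : q.degree < M := by
      rw [hq, ← hA2]
      exact Lagrange.degree_interpolate_lt _ hvs
    have hT : ∀ a ∈ A, T (g a) = q.eval a := fun a ha => by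
      rw [hq]
      exact (Lagrange.eval_interpolate_at_node (fun a => T (g a)) hvs ha).symm
    refine ⟨q, Polynomial.natDegree_le_of_degree_le hdeg.le, fun z hz => ?_⟩
    by_cases hzA : ρ z ∈ A
    · obtain ⟨A', hA1', hA2'⟩ := (hinf.diff A.finite_toSet).exists_subset_card_eq M
      have hAg' : ∀ a ∈ A', δ.eval a ≠ 0 := fun a ha => (hA1' ha).1
      have hd : ∀ a ∈ A', a ∉ A := fun a ha => (hA1' ha).2
      refine ki_step h hg hA2' hAg' hdeg (fun a ha => ?_) hz (fun h3 => hd _ h3 hzA)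
      have h5 := ki_step h hg hA2 hAg hdeg hT (z := g a) (by rw [hg]; exact hAg' a ha)
        (by rw [hg]; exact hd a ha)
      rwa [hg] at h5
    · exact ki_step h hg hA2 hAg hdeg hT hz hzA

end GX
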