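import Pool.Agent.Lib.MP_f80667_ag.Lv.Tb
import Pool.Agent.Lib.MP_f80667_ag.Lv.Tr
import Pool.Agent.Lib.MP_f80667_ag.Gy.TN

/-!
Values of displacements: extension of the field.
-/

open ZC BE PE CV IntermediateField

namespace GX

variable {F : Type} [Field F] {N d : ℕ} {ι : Type} {f : ι → MvPolynomial (Fin N) F} {K Ω : Type}
  [Field K] [CharZero K] [Field Ω] [Algebra K Ω] [Algebra F K] [Algebra F Ω]
  [IsScalarTower F K Ω] [IsAlgClosure K Ω] {L : Ld K Ω} {ψ : Prj K N d} {π : Ω}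
  {M M' : IntermediateField K Ω} {c h : Fin (d + 1) → Ω} {w : Ω}

private theorem tc_nb (hψ : Pj f L ψ) (g : Gp L ψ M c w) {e : Fin (d + 1) → Ω} (he : Iv L M e)
    {t : ℝ} (ht : t < 1) (h1 : ∀ r, L.nm (e r) ≤ t) : ∃ (x : Fin N → Ω) (P : (Xf f).pt Ω),
      (∀ s, Nb f L ψ π M w s (c + e) x P) ∧ Fp (Xf f) M P ∧
      zx f ((ψ.om Ω).pt (c + e) (sht L ψ w (c + e))) = Finsupp.single P 1 := by
  obtain ⟨g1, hsh⟩ := g.sh hψ he ht h1
  obtain ⟨k1, -, k2, k3, P, k4, k5, k6⟩ := g1.pt (f := f) hψ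
  refine ⟨_, P, fun s => ⟨k1, k4, ?_, fun r => ?_⟩, k5, k6⟩
  · rw [k3]
    exact hsh.trans_lt ht
  · rw [k2, sub_self, L.zero]
    exact pow_nonneg (L.nonneg _) s

/-- **TR.** Proof: as `tc_norm` of `Gy/TN.lean` with `b` in place of `p c`: the polynomials `∏ (X - σ b)` and `X ^ (n - 1) (X - Nm b)` (`tr_poly`, `exists_cj` of `Gy/TA.lean`)
on the arc `c + z v` over `M`; LA (`la_ch`) with `l = 1`, `s := 2 s`; the trace from `M` to `K` (`GM.nm_sup`, `nm_tr`). -/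
theorem cyv_norm (hπ : Uf L π) (hψ : Pj f L ψ) (hM : Um L M) (hM' : Um L M') (hle : M ≤ M')
    (g : Gp L ψ M c w) {b : Ω} (hb : b ∈ M') {v : Fin (d + 1) → Ω} (hv : Iv L M v) {s : ℕ}
    (hs : s ≠ 0) (h1 : L.nm b ≤ L.nm π ^ s) :
    cyv f L ψ M' c w (b • v) - cyv f L ψ M c w (Nm M M' b • v) ∈
      Dr f L π (2 * s) ⊥ ⊔ (Xf f).ratEq K Ω := by
  have hfd : FiniteDimensional K M := hM.fd
  have hfd' : FiniteDimensional K M' := hM'.fd
  have hs1 := hπ.pow_lt hs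
  have hb1 : L.nm b < 1 := h1.trans_lt hs1
  have g' := g.mono hle
  have hNbM : Nm M M' b ∈ M := fx_mem.1 (nm_fx hle (fx_mem.2 hb))
  have hNb : L.nm (Nm M M' b) ≤ L.nm π ^ s := by
    obtain ⟨s', -, -, -, h₃⟩ := nm_rep hle
    rw [h₃ Ω b]
    refine L.sum_le _ _ (pow_nonneg (L.nonneg _) _) fun γ _ => ?_
    change L.nm (γ b) ≤ _
    rw [L.act]
    exact h1
  have hle1 : ∀ {z : Ω}, L.nm z ≤ L.nm π ^ s → ∀ r, L.nm ((z • v) r) ≤ L.nm π ^ s := by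
    intro z hz r
    rw [Pi.smul_apply, smul_eq_mul, L.mul]
    exact (mul_le_of_le_one_right (L.nonneg _) (hv r).2).trans hz
  have hbv : Iv L M' (b • v) := fun r =>
    ⟨mul_mem hb (hle (hv r).1), (hle1 h1 r).trans hs1.le⟩
  have hNv : Iv L M (Nm M M' b • v) := fun r =>
    ⟨mul_mem hNbM (hv r).1, (hle1 hNb r).trans hs1.le⟩
  have h00 : L.nm (0 : Ω) < 1 := by rw [L.zero]; exact zero_lt_one
  obtain ⟨k1, -, k2, k3, P₀, k4, k5, k6⟩ := g.pt (f := f) hψ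
  obtain ⟨x₁, P₁, l1, l2, l3⟩ := tc_nb (f := f) (π := π) hψ g' hbv hs1 (hle1 h1)
  obtain ⟨x₂, P₂, m1, m2, m3⟩ := tc_nb (f := f) (π := π) hψ g hNv hs1 (hle1 hNb)
  have h₀ : Nb f L ψ π M w (2 * s) c ((ψ.om Ω).pt c w) P₀ := ⟨k1, k4, by
    rw [k3, sub_self]
    exact h00, fun r => by
    rw [k2, sub_self, L.zero]
    exact pow_nonneg (L.nonneg _) _⟩
  have hla := x_tr hπ hψ hM hM' hle g.iv hv g.mem g.le g.D (by rw [g.G]; exact h00) hb hb1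
    (s := 2 * s) (by omega) (by
      rw [mul_comm, pow_mul]
      exact pow_le_pow_left₀ (L.nonneg _) h1 2) h₀ (l1 _) (m1 _)
  have f0 : Fx M (Finsupp.single P₀ 1 : (Xf f).pt Ω →₀ ℤ) := fx_single k5 1
  have f1 : Fx M' (Finsupp.single P₁ 1 - Finsupp.single P₀ 1 : (Xf f).pt Ω →₀ ℤ) :=
    (fx_single l2 1).sub (f0.mono hle)
  have f2 : Fx M (Finsupp.single P₂ 1 - Finsupp.single P₀ 1 : (Xf f).pt Ω →₀ ℤ) :=
    (fx_single m2 1).sub f0
  have h2 := GM.nm_sup hM hla ((nm_fx hle f1).sub f2)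
  rw [nm_sub' bot_le, ← nm_tr bot_le hle f1] at h2
  unfold cyv
  rw [l3, m3, k6]
  exact h2

end GX
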