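import Pool.Agent.Lib.MP_f80667_ag.Lv.Kd

/-! The trace functionals: existence and uniqueness. -/

open ZC BE PE CV IntermediateField

namespace GX

variable {F : Type} [Field F] {N d : ℕ} {ι : Type} {f : ι → MvPolynomial (Fin N) F}
  {K Ω : Type} [Field K] [CharZero K] [Field Ω] [Algebra K Ω] [Algebra F K] [Algebra F Ω]
  [IsScalarTower F K Ω] [IsAlgClosure K Ω] {L : Ld K Ω} {ψ : Prj K N d} {π : Ω} {k s : ℕ}
  {χ : ((Xf f).pt Ω →₀ ℤ) → ZMod L.p} {c : Fin (d + 1) → Ω} {w : Ω}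

omit [CharZero K] [IsAlgClosure K Ω] in
private theorem ke_single {n : ℕ} {z : Ω} {τ : L.κ} (hz : z ∈ L.Ur ⊥ n) (hv : L.rs.Hv z τ)
    (r : Fin (d + 1)) :
    Iv L (L.Ur ⊥ n) (z • (Pi.single r 1 : Fin (d + 1) → Ω)) ∧
      (∀ i, L.rs.Hv ((z • (Pi.single r 1 : Fin (d + 1) → Ω)) i)
        ((τ • (Pi.single r 1 : Fin (d + 1) → L.κ)) i)) ∧
      ∀ a : Fin (d + 1) → L.κ,
        ∑ i, (τ • (Pi.single r 1 : Fin (d + 1) → L.κ)) i * a i = τ * a r := by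
  have e1 : ∀ i, i ≠ r → (z • (Pi.single r 1 : Fin (d + 1) → Ω)) i = 0 := fun i hi => by
    rw [Pi.smul_apply, Pi.single_eq_of_ne hi, smul_zero]
  have e2 : (z • (Pi.single r 1 : Fin (d + 1) → Ω)) r = z := by
    rw [Pi.smul_apply, Pi.single_eq_same, smul_eq_mul, mul_one]
  have e3 : ∀ i, i ≠ r → (τ • (Pi.single r 1 : Fin (d + 1) → L.κ)) i = 0 := fun i hi => by
    rw [Pi.smul_apply, Pi.single_eq_of_ne hi, smul_zero]
  have e4 : (τ • (Pi.single r 1 : Fin (d + 1) → L.κ)) r = τ := by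
    rw [Pi.smul_apply, Pi.single_eq_same, smul_eq_mul, mul_one]
  refine ⟨fun i => ?_, fun i => ?_, fun a => ?_⟩
  · by_cases hi : i = r
    · rw [hi, e2]
      exact ⟨hz, L.hv_int hv⟩
    · rw [e1 i hi]
      exact ⟨zero_mem _, by rw [L.zero]; exact zero_le_one⟩
  · by_cases hi : i = r
    · rw [hi, e2, e4]
      exact hv
    · rw [e1 i hi, e3 i hi]
      exact L.hv_zero.2 (by rw [L.zero]; exact zero_lt_one)
  · rw [Finset.sum_eq_single r]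
    · rw [e4]
    · intro i _ hi
      rw [e3 i hi, zero_mul]
    · intro hr
      exact absurd (Finset.mem_univ r) hr

/-- Proof: for every `r` and `τ` with `τ ^ p ^ n = τ` the lift `z τ • Pi.single r 1` (`kf_ur`): `trn (τ a_r) = trn (τ a'_r)`; `fp_uniq`. -/
theorem lw_uniq₁ {n : ℕ} (hn : n ≠ 0) {a a' : Fin (d + 1) → L.κ}
    (h : Lw₁ f L ψ π s χ n c w a) (h' : Lw₁ f L ψ π s χ n c w a') : a = a' := by
  have : Fact L.p.Prime := ⟨L.pp⟩
  have : CharP L.κ L.p := L.char_κ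
  have : IsAlgClosed Ω := IsAlgClosure.isAlgClosed K
  have : IsAlgClosed L.κ := L.κ_closed
  funext r
  refine fp_uniq hn (h.1 r) (h'.1 r) fun τ hτ => ?_
  obtain ⟨z, hz, hv⟩ := kf_ur (L := L) hn hτ
  obtain ⟨h1, h2, h3⟩ := ke_single (d := d) hz hv r
  have h4 := h.2 _ _ h1 h2
  have h5 := h'.2 _ _ h1 h2
  rw [h3] at h4 h5
  exact h4.symm.trans h5

/-- A test for an equation of the components. Proof: `kf_ur`, `fp_uniq`, `Lw₁` for `g = z • Pi.single r 1`. -/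
theorem lw_test {n : ℕ} (hn : n ≠ 0) {a : Fin (d + 1) → L.κ} (h : Lw₁ f L ψ π s χ n c w a)
    {b : L.κ} (hb : b ^ L.p ^ n = b) {r : Fin (d + 1)}
    (h1 : ∀ (z : Ω) (τ : L.κ), z ∈ L.Ur ⊥ n → L.nm z ≤ 1 → L.rs.Hv z τ →
      ((χ (cyv f L ψ (L.Ur ⊥ n) c w (π ^ s • (z • Pi.single r 1)))).val : L.κ) =
        trn L.p n (τ * b)) : a r = b := by
  have : Fact L.p.Prime := ⟨L.pp⟩
  have : CharP L.κ L.p := L.char_κ
  have : IsAlgClosed Ω := IsAlgClosure.isAlgClosed K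
  have : IsAlgClosed L.κ := L.κ_closed
  refine fp_uniq hn (h.1 r) hb fun τ hτ => ?_
  obtain ⟨z, hz, hv⟩ := kf_ur (L := L) hn hτ
  obtain ⟨h2, h3, h4⟩ := ke_single (d := d) hz hv r
  have h5 := h.2 _ _ h2 h3
  rw [h4] at h5
  exact h5.symm.trans (h1 z τ hz (L.hv_int hv) hv)

end GX
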