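import Pool.Agent.Lib.MP_f80667_ag.Lv.T

/-! The sheets of a projection. -/

open ZC BE PE CV IntermediateField

namespace GX

variable {F : Type} [Field F] {N d : ℕ} {ι : Type} {f : ι → MvPolynomial (Fin N) F} {K Ω : Type}
  [Field K] [CharZero K] [Field Ω] [Algebra K Ω] [Algebra F K] [Algebra F Ω]
  [IsScalarTower F K Ω] [IsAlgClosure K Ω] {L : Ld K Ω} {ψ : Prj K N d}
  {M M' : IntermediateField K Ω} {c h h' : Fin (d + 1) → Ω} {w : Ω}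

theorem Gp.mono (g : Gp L ψ M c w) (hM : M ≤ M') : Gp L ψ M' c w :=
  ⟨fun i => ⟨hM (g.iv i).1, (g.iv i).2⟩, hM g.mem, g.le, g.G, g.D⟩

/-- Proof: `Pj.pt_iv`. -/
theorem Gp.pt (hψ : Pj f L ψ) (g : Gp L ψ M c w) : Iv L M ((ψ.om Ω).pt c w) ∧
    (∃ j, L.nm ((ψ.om Ω).pt c w j) = 1) ∧ ψ.uv ((ψ.om Ω).pt c w) = c ∧
    ψ.yv ((ψ.om Ω).pt c w) = w ∧ ∃ P : (Xf f).pt Ω, Co P ((ψ.om Ω).pt c w) ∧ Fp (Xf f) M P ∧
      zx f ((ψ.om Ω).pt c w) = Finsupp.single P 1 := by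
  obtain ⟨k1, k2, k3, k4, k5, k6⟩ := hψ.pt_iv g.iv g.mem g.le g.G g.D
  obtain ⟨P, hP⟩ := co_mk k3 k4
  exact ⟨k1, k2, k5, k6, P, hP, fp_co hP fun j => (k1 j).1, zx_co hP⟩

/-- The root near `w` is unique. Proof: `Pj.root_uniq`; every root is integral (`G` is monic and integral). -/
theorem sht_eq (hψ : Pj f L ψ) (hc : ∀ r, L.nm (c r) ≤ 1)
    (hD : L.nm (MvPolynomial.aeval c ψ.D) = 1) {w' : Ω} (hw : L.nm w ≤ 1)
    (hG : pe c w' ψ.G = 0) (hww : L.nm (w' - w) < 1) : sht L ψ w c = w' := by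
  have h : ∃ w', L.nm (w' - w) < 1 ∧ pe c w' ψ.G = 0 := ⟨w', hww, hG⟩
  have hle : ∀ v, L.nm (v - w) < 1 → L.nm v ≤ 1 := fun v hv => by
    have h2 := L.add (v - w) w
    rw [sub_add_cancel] at h2
    exact h2.trans (max_le hv.le hw)
  have key : ∀ v, L.nm (v - w) < 1 ∧ pe c v ψ.G = 0 → v = w' := fun v hv => by
    refine hψ.root_uniq hc hD (hle v hv.1) (hle w' hww) hv.2 hG ?_
    have e1 : v - w' = (v - w) - (w' - w) := by ring
    rw [e1]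
    exact (L.sub _ _).trans_lt (max_lt hv.1 hww)
  unfold sht
  rw [dif_pos h]
  exact key _ h.choose_spec

theorem sht_self (hψ : Pj f L ψ) (g : Gp L ψ M c w) : sht L ψ w c = w :=
  sht_eq hψ (fun r => (g.iv r).2) g.D g.le g.G (by rw [sub_self, L.zero]; exact zero_lt_one)

omit [CharZero K] [IsAlgClosure K Ω] in
private theorem ta_iv (g : Gp L ψ M c w) (hh : Iv L M h) : Iv L M (c + h) := fun i =>
  ⟨add_mem (g.iv i).1 (hh i).1, (L.add _ _).trans (max_le (g.iv i).2 (hh i).2)⟩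

omit [CharZero K] [IsAlgClosure K Ω] in
private theorem ta_D (hψ : Pj f L ψ) (g : Gp L ψ M c w) (h1 : ∀ r, L.nm (h r) < 1) :
    L.nm (MvPolynomial.aeval (c + h) ψ.D) = 1 := by
  refine hψ.D_close (fun r => (g.iv r).2)
    (fun r => (L.add _ _).trans (max_le (g.iv r).2 (h1 r).le)) (fun r => ?_) g.D
  have e1 : c r - (c + h) r = -h r := by
    rw [Pi.add_apply]
    ring
  rw [e1, L.neg]
  exact h1 r

omit [CharZero K] [IsAlgClosure K Ω] [IsScalarTower F K Ω] [Algebra F K] [Algebra F Ω] [Field F] in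
private theorem ta_max (h1 : ∀ r, L.nm (h r) < 1) :
    ∃ t : ℝ, t < 1 ∧ ∀ r, L.nm (h r) ≤ t := by
  obtain ⟨r, -, hr⟩ := Finset.exists_max_image Finset.univ (fun r => L.nm (h r))
    ⟨0, Finset.mem_univ _⟩
  exact ⟨L.nm (h r), h1 r, fun i => hr i (Finset.mem_univ _)⟩

/-- **The sheet.** Proof: `Pj.root` for `c + h` and `w` (`pe_close`), `Pj.D_close`, `sht_eq`. -/
theorem Gp.sh (hψ : Pj f L ψ) (g : Gp L ψ M c w) (hh : Iv L M h) {t : ℝ} (ht : t < 1)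
    (h1 : ∀ r, L.nm (h r) ≤ t) : Gp L ψ M (c + h) (sht L ψ w (c + h)) ∧
      L.nm (GX.sht L ψ w (c + h) - w) ≤ t := by
  have ht0 : 0 ≤ t := (L.nonneg _).trans (h1 0)
  have h1' : ∀ r, L.nm (h r) < 1 := fun r => (h1 r).trans_lt ht
  have hI := ta_iv g hh
  have hD := ta_D hψ g h1'
  have hcl : L.nm (pe (c + h) w ψ.G) ≤ t := by
    have h2 := pe_close hψ.iG (c := c + h) (c' := c) (w := w) (w' := w) (fun r => (hI r).2) g.le
      (fun r => (g.iv r).2) g.le ht0 (fun r => by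
        rw [Pi.add_apply, add_sub_cancel_left]
        exact h1 r) (by rw [sub_self, L.zero]; exact ht0)
    rwa [g.G, sub_zero] at h2
  obtain ⟨w', k1, k2, k3, k4⟩ := hψ.root hI hD g.mem g.le (hcl.trans_lt ht)
  have k5 : L.nm (w' - w) ≤ t := k4.trans hcl
  rw [sht_eq hψ (fun r => (hI r).2) hD g.le k3 (k5.trans_lt ht)]
  exact ⟨⟨hI, k1, k2, k3, hD⟩, k5⟩

/-- Proof: `sht_eq`. -/
theorem sht_sht (hψ : Pj f L ψ) (g : Gp L ψ M c w) (hh : Iv L M h) (hh' : Iv L M h')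
    (h1 : ∀ r, L.nm (h r) < 1) (h1' : ∀ r, L.nm (h' r) < 1) :
    sht L ψ (sht L ψ w (c + h)) (c + h') = sht L ψ w (c + h') := by
  obtain ⟨t, ht, h2⟩ := ta_max h1
  obtain ⟨t', ht', h2'⟩ := ta_max h1'
  obtain ⟨g1, g2⟩ := g.sh hψ hh ht h2
  obtain ⟨g1', g2'⟩ := g.sh hψ hh' ht' h2'
  refine sht_eq hψ (fun r => (g1'.iv r).2) g1'.D g1.le g1'.G ?_
  have e1 : sht L ψ w (c + h') - sht L ψ w (c + h) =
      (sht L ψ w (c + h') - w) - (sht L ψ w (c + h) - w) := by ring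
  rw [e1]
  exact (L.sub _ _).trans_lt (max_lt (g2'.trans_lt ht') (g2.trans_lt ht))

/-- The points over `c` and `c + h` on one sheet are congruent. Proof: `Pj.pt_close`. -/
theorem Gp.near (hψ : Pj f L ψ) (g : Gp L ψ M c w) (hh : Iv L M h) {t : ℝ} (ht : t < 1)
    (h1 : ∀ r, L.nm (h r) ≤ t) (j : Fin N) :
    L.nm ((ψ.om Ω).pt (c + h) (GX.sht L ψ w (c + h)) j - (ψ.om Ω).pt c w j) ≤ t := by
  obtain ⟨g1, g2⟩ := g.sh hψ hh ht h1
  refine hψ.pt_close (fun r => (g1.iv r).2) g1.le (fun r => (g.iv r).2) g.le g1.D g.D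
    ((L.nonneg _).trans (h1 0)) (fun r => ?_) g2 j
  rw [Pi.add_apply, add_sub_cancel_left]
  exact h1 r

/-- A point near `(c, w)` with the projection `c + h`. Proof: `Pj.pt_eq` for `x`, `sht_eq`. -/
theorem Gp.eq (hψ : Pj f L ψ) (g : Gp L ψ M c w) (h1 : ∀ r, L.nm (h r) < 1)
    {x : Fin N → Ω} (hx : ∀ j, L.nm (x j) ≤ 1) (hx0 : x ≠ 0)
    (h0 : ∀ i, MvPolynomial.aeval x (f i) = 0) (hn : ∀ j, L.nm (x j - (ψ.om Ω).pt c w j) < 1)
    (hu : ψ.uv x = c + h) : (ψ.om Ω).pt (c + h) (GX.sht L ψ w (c + h)) = x := by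
  have hD := ta_D hψ g h1
  obtain ⟨k1, k2⟩ := hψ.pt_eq hx0 h0 (by
    rw [hu]
    exact L.ne_zero (by rw [hD]; exact zero_lt_one))
  rw [hu] at k1 k2
  have hy : ψ.yv ((ψ.om Ω).pt c w) = w := (g.pt hψ).2.2.2.1
  have h3 : L.nm (ψ.yv x - w) < 1 := by
    rw [← hy]
    exact lv_lt hψ.iy hn
  rw [sht_eq (c := c + h) hψ (fun r => (L.add _ _).trans (max_le (g.iv r).2 (h1 r).le)) hD g.le
    k1 h3]
  exact k2

end GX
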