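import Pool.Agent.Lib.MP_f80667_ag.Lv.Kc
import Pool.Agent.Lib.MP_f80667_ag.Lv.Ta

/-! The roots over a point: the field of the roots, congruent points. -/

open ZC BE PE CV IntermediateField

namespace GX

variable {F : Type} [Field F] {N d : ℕ} {ι : Type} {f : ι → MvPolynomial (Fin N) F}
  {K Ω : Type} [Field K] [CharZero K] [Field Ω] [Algebra K Ω] [Algebra F K] [Algebra F Ω]
  [IsScalarTower F K Ω] [IsAlgClosure K Ω] {L : Ld K Ω} {ψ : Prj K N d}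
  {c h : Fin (d + 1) → Ω} {w : Ω}

private theorem rt_one (hψ : Pj f L ψ) {n : ℕ} (hc : Iv L (L.Ur ⊥ n) c)
    (hD : L.nm (MvPolynomial.aeval c ψ.D) = 1) (hw : L.nm w ≤ 1) (hG : pe c w ψ.G = 0) :
    ∃ t, t ≠ 0 ∧ w ∈ L.Ur ⊥ (n * t) := by
  obtain ⟨N', hN', z, hz, hlt⟩ := Ld.te_rep hw
  have hz1 : L.nm z ≤ 1 := Ld.te_int hN' hz
  have hzM : z ∈ L.Ur ⊥ (n * N') := Ld.ur_dvd ⊥ (dvd_mul_left _ _) (Ld.te_ur hz)
  have hcM : Iv L (L.Ur ⊥ (n * N')) c := fun r =>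
    ⟨Ld.ur_dvd ⊥ (dvd_mul_right _ _) (hc r).1, (hc r).2⟩
  have hc1 : ∀ r, L.nm (c r) ≤ 1 := fun r => (hc r).2
  have h1 : L.nm (pe c z ψ.G) < 1 := by
    have h2 := pe_close (L := L) hψ.iG hc1 hz1 hc1 hw (L.nonneg (z - w))
      (fun r => by rw [sub_self, L.zero]; exact L.nonneg _) le_rfl
    rw [hG, sub_zero, L.sub_comm] at h2
    exact h2.trans_lt hlt
  obtain ⟨w', hw', hw'1, hG', hww⟩ := hψ.root hcM hD hzM hz1 h1
  have h3 : w = w' := by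
    refine hψ.root_uniq hc1 hD hw hw'1 hG hG' ?_
    have e : w - w' = (w - z) - (w' - z) := by ring
    rw [e]
    exact (L.sub _ _).trans_lt (max_lt hlt (hww.trans_lt h1))
  exact ⟨N', hN', h3 ▸ hw'⟩

private theorem rts_fin (hψ : Pj f L ψ) {n : ℕ} (hc : Iv L (L.Ur ⊥ n) c)
    (hD : L.nm (MvPolynomial.aeval c ψ.D) = 1) (S : Finset Ω) (hS : S ⊆ rts ψ c) :
    ∃ t, t ≠ 0 ∧ ∀ w ∈ S, w ∈ L.Ur ⊥ (n * t) := by
  classical
  induction S using Finset.induction_on with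
  | empty => exact ⟨1, one_ne_zero, fun w hw => absurd hw (Finset.notMem_empty w)⟩
  | insert a S ha ih =>
    obtain ⟨t, ht, h1⟩ := ih ((Finset.subset_insert a S).trans hS)
    have ha' : a ∈ rts ψ c := hS (Finset.mem_insert_self a S)
    obtain ⟨t', ht', h2⟩ := rt_one hψ hc hD (rts_le hψ (fun r => (hc r).2) ha')
      ((mem_rts hψ).1 ha')
    refine ⟨t * t', mul_ne_zero ht ht', fun w hw => ?_⟩
    rcases Finset.mem_insert.1 hw with rfl | hw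
    · exact Ld.ur_dvd ⊥ (mul_dvd_mul_left n (dvd_mul_left _ _)) h2
    · exact Ld.ur_dvd ⊥ (mul_dvd_mul_left n (dvd_mul_right _ _)) (h1 w hw)

private theorem sh_gp (hψ : Pj f L ψ) {n : ℕ} (hn : n ≠ 0) (hc : Iv L (L.Ur ⊥ n) c)
    (hD : L.nm (MvPolynomial.aeval c ψ.D) = 1) (hh : Iv L (L.Ur ⊥ n) h)
    (h1 : ∀ r, L.nm (h r) < 1)
    (hur : ∃ t, t ≠ 0 ∧ ∀ w ∈ rts ψ c, Gp L ψ (L.Ur ⊥ (n * t)) c w) (w : Ω) (hw : w ∈ rts ψ c) :
    L.nm w ≤ 1 ∧ pe (c + h) (sht L ψ w (c + h)) ψ.G = 0 ∧ L.nm (sht L ψ w (c + h)) ≤ 1 ∧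
      L.nm (sht L ψ w (c + h) - w) < 1 := by
  obtain ⟨t, ht, hg⟩ := hur
  obtain ⟨r₀, -, hr₀⟩ := Finset.exists_max_image Finset.univ (fun r => L.nm (h r))
    Finset.univ_nonempty
  have h2 := (hg w hw).sh hψ (h := h) (t := L.nm (h r₀))
    (fun r => ⟨Ld.ur_dvd ⊥ (dvd_mul_right _ _) (hh r).1, (hh r).2⟩) (h1 r₀)
    (fun r => hr₀ r (Finset.mem_univ r))
  exact ⟨(hg w hw).le, h2.1.G, h2.1.le, h2.2.trans_lt (h1 r₀)⟩

/-- **The roots are unramified.** Proof: one root `w`: `Ld.te_rep`: `z ∈ Te N'` with `nm (w - z) < 1`; over `Ur ⊥ (n N')`: `nm (pe c z ψ.G) < 1` (`pe_close`), `Pj.root`: a root near `z`, equal to `w` (`Pj.root_uniq`). Induction on subsets of `rts ψ c` (products of the `t`; `Ld.ur_dvd`). -/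
theorem rts_ur (hψ : Pj f L ψ) {n : ℕ} (hn : n ≠ 0) (hc : Iv L (L.Ur ⊥ n) c)
    (hD : L.nm (MvPolynomial.aeval c ψ.D) = 1) :
    ∃ t, t ≠ 0 ∧ ∀ w ∈ rts ψ c, Gp L ψ (L.Ur ⊥ (n * t)) c w := by
  have _ := hn
  obtain ⟨t, ht, h1⟩ := rts_fin hψ hc hD (rts ψ c) (Finset.Subset.refl _)
  exact ⟨t, ht, fun w hw =>
    ⟨fun r => ⟨Ld.ur_dvd ⊥ (dvd_mul_right _ _) (hc r).1, (hc r).2⟩, h1 w hw,
      rts_le hψ (fun r => (hc r).2) hw, (mem_rts hψ).1 hw, hD⟩⟩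

/-- The roots over a congruent point. Proof: `Finset.sum_bij'` or `Finset.sum_nbij'` with `w ↦ sht L ψ w (c + h)` and `w' ↦ sht L ψ w' c` (both by the definition of `sht` and `sht_eq`: existence of a root near `w` by `Pj.root` over a field `Ur ⊥ (n t)`, `rts_ur`, or `Gp.sh`; `sht_eq` for the uniqueness). -/
theorem rts_sht (hψ : Pj f L ψ) {n : ℕ} (hn : n ≠ 0) (hc : Iv L (L.Ur ⊥ n) c)
    (hD : L.nm (MvPolynomial.aeval c ψ.D) = 1) (hh : Iv L (L.Ur ⊥ n) h)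
    (h1 : ∀ r, L.nm (h r) < 1) {A : Type} [AddCommMonoid A] (T : Ω → A) :
    ∑ w ∈ rts ψ (c + h), T w = ∑ w ∈ rts ψ c, T (sht L ψ w (c + h)) := by
  have hch : Iv L (L.Ur ⊥ n) (c + h) := fun r =>
    ⟨add_mem (hc r).1 (hh r).1, (L.add _ _).trans (max_le (hc r).2 (hh r).2)⟩
  have hc1 : ∀ r, L.nm (c r) ≤ 1 := fun r => (hc r).2
  have hch1 : ∀ r, L.nm ((c + h) r) ≤ 1 := fun r => (hch r).2
  have hD' : L.nm (MvPolynomial.aeval (c + h) ψ.D) = 1 :=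
    hψ.D_close hc1 hch1 (fun r => by
      rw [Pi.add_apply, sub_add_cancel_left, L.neg]
      exact h1 r) hD
  have hh' : Iv L (L.Ur ⊥ n) (-h) := fun r =>
    ⟨neg_mem (hh r).1, by rw [Pi.neg_apply, L.neg]; exact (hh r).2⟩
  have h1' : ∀ r, L.nm ((-h) r) < 1 := fun r => by
    rw [Pi.neg_apply, L.neg]
    exact h1 r
  have k1 := sh_gp hψ hn hc hD hh h1 (rts_ur hψ hn hc hD)
  have k2 := sh_gp hψ hn hch hD' hh' h1' (rts_ur hψ hn hch hD')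
  rw [add_neg_cancel_right] at k2
  have l1 : ∀ w' ∈ rts ψ (c + h), sht L ψ (sht L ψ w' c) (c + h) = w' := by
    intro w' hw'
    obtain ⟨-, -, a3, a4⟩ := k2 w' hw'
    exact sht_eq hψ hch1 hD' a3 ((mem_rts hψ).1 hw') (by rw [L.sub_comm]; exact a4)
  have l2 : ∀ w ∈ rts ψ c, sht L ψ (sht L ψ w (c + h)) c = w := by
    intro w hw
    obtain ⟨-, -, a3, a4⟩ := k1 w hw
    exact sht_eq hψ hc1 hD a3 ((mem_rts hψ).1 hw) (by rw [L.sub_comm]; exact a4)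
  refine Finset.sum_nbij' (fun w' => sht L ψ w' c) (fun w => sht L ψ w (c + h))
    (fun w' hw' => ?_) (fun w hw => ?_) l1 l2 (fun w' hw' => by rw [l1 w' hw'])
  · exact (mem_rts hψ).2 (k2 w' hw').2.1
  · exact (mem_rts hψ).2 (k1 w hw).2.1

end GX
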