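import Pool.Agent.Lib.MP_f80667_ag.Lv.Tb
import Pool.Agent.Lib.MP_f80667_ag.Lv.D1

/-!
The displacements are generated by values.
-/

open ZC BE PE CV IntermediateField

namespace GX

variable {F : Type} [Field F] {N d m : ℕ} {ι : Type} {f : ι → MvPolynomial (Fin N) F} {K Ω : Type}
  [Field K] [CharZero K] [Field Ω] [Algebra K Ω] [Algebra F K] [Algebra F Ω]
  [IsScalarTower F K Ω] [IsAlgClosure K Ω] {L : Ld K Ω} {ψ : Fin m → Prj K N d} {π : Ω}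

omit [CharZero K] [IsAlgClosure K Ω] in
private theorem te_ra_pw {φ φ' : Ω ≃ₐ[K] Ω} {S : Set Ω} (h : ∀ z ∈ S, φ z = φ' z)
    (hS : ∀ z ∈ S, φ' z ∈ S) : ∀ i : ℕ, ∀ z ∈ S, (φ ^ i) z = (φ' ^ i) z := by
  intro i
  induction i with
  | zero =>
    intro z _
    rfl
  | succ i ih =>
    intro z hz
    rw [pow_succ, pow_succ, AlgEquiv.mul_apply, AlgEquiv.mul_apply, h z hz, ih _ (hS z hz)]

private theorem te_ra_dvd {p r R : ℕ} (hp : 1 < p) (h : p ^ r - 1 ∣ p ^ R - 1) : r ∣ R := by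
  have h1 := Nat.pow_sub_one_gcd_pow_sub_one p r R
  rw [Nat.gcd_eq_left h] at h1
  have h2 : 0 < p ^ r := pow_pos (by omega) r
  have h3 : 0 < p ^ Nat.gcd r R := pow_pos (by omega) _
  have h4 : p ^ r = p ^ Nat.gcd r R := by omega
  rw [Nat.pow_right_injective hp h4]
  exact Nat.gcd_dvd_right r R

/-- `Te r` is contained in `Te R` only if `r ∣ R`. -/
private theorem te_ra_te {r : ℕ} (hr : r ≠ 0) {R : ℕ} (hR : R ≠ 0)
    (h : ∀ z ∈ L.Te r, z ∈ L.Te R) : r ∣ R := by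
  have ha : IsAlgClosed Ω := IsAlgClosure.isAlgClosed K
  have hc : CharZero Ω := charZero_of_injective_algebraMap (algebraMap K Ω).injective
  have h1 : 1 < L.p ^ r := Nat.one_lt_pow hr L.pp.one_lt
  have h2 : 1 < L.p ^ R := Nat.one_lt_pow hR L.pp.one_lt
  have hne : NeZero ((L.p ^ r - 1 : ℕ) : Ω) := ⟨Nat.cast_ne_zero.2 (by omega)⟩
  obtain ⟨z, hz⟩ := HasEnoughRootsOfUnity.exists_primitiveRoot Ω (L.p ^ r - 1)
  have hz1 : z ∈ L.Te r := by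
    change z ^ L.p ^ r = z
    have h3 : L.p ^ r = (L.p ^ r - 1) + 1 := by omega
    rw [h3, pow_succ, hz.pow_eq_one, one_mul]
  have hz2 : z ^ L.p ^ R = z := h z hz1
  have hz0 : z ≠ 0 := hz.ne_zero (by omega)
  have h3 : z ^ (L.p ^ R - 1) = 1 := by
    have h4 : L.p ^ R = (L.p ^ R - 1) + 1 := by omega
    rw [h4, pow_succ] at hz2
    exact mul_right_cancel₀ hz0 (by rw [hz2, one_mul])
  exact te_ra_dvd L.pp.one_lt (hz.dvd_of_pow_eq_one _ h3)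

/-- The unramified extensions of `K` are the fields `Ur ⊥ n` (as `um_eq`, for every `K`). -/
private theorem te_um {r : ℕ} (hr : L.Rf ⊥ r) {M : IntermediateField K Ω} (hM : Um L M) :
    ∃ n, n ≠ 0 ∧ r ∣ n ∧ M = L.Ur ⊥ n := by
  have hfM : FiniteDimensional K M := hM.fd
  obtain ⟨n₀, hn₀, hMn⟩ := hM
  obtain ⟨R, hR, hRf⟩ := exists_ur (L := L) M
  obtain ⟨φ, q, hφ⟩ := exists_frob L.toLf M
  rw [Ld.rf_frob hRf hφ] at hφ
  obtain ⟨-, -, -, hq⟩ := Ld.frob_q hφ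
  have hfix := (IntermediateField.mem_fixingSubgroup_iff M φ).1 hφ.mem
  have hrR : r ∣ R := by
    refine te_ra_te (L := L) hr.ne hR fun z hz => ?_
    have h1 : z ∈ M := (hr.le.trans bot_le) (Ld.te_ur hz)
    have h2 := hq r hr.ne z hz
    rw [hfix z h1] at h2
    exact h2.symm
  refine ⟨R, hR, hrR, le_antisymm ?_ hRf.le⟩
  have hfU : FiniteDimensional K (L.Ur ⊥ R) := Ld.ur_fin ⊥ R hR
  obtain ⟨ψ, q', hψ⟩ := exists_frob L.toLf (L.Ur ⊥ R)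
  have hRR : L.Rf (L.Ur ⊥ R) R := by
    obtain ⟨e, rfl⟩ := hrR
    exact Ld.rf_ur hr (right_ne_zero_of_mul hR)
  rw [Ld.rf_frob hRR hψ] at hψ
  obtain ⟨-, -, -, hq'⟩ := Ld.frob_q hψ
  have hN : R * n₀ ≠ 0 := mul_ne_zero hR hn₀
  have hpw := te_ra_pw (S := L.Te (R * n₀)) (fun z hz => by rw [hq _ hN z hz, hq' _ hN z hz])
    (fun z hz => Ld.te_act ψ hz)
  intro x hx
  refine mem_of_fix _ fun γ hγ => ?_
  obtain ⟨i, -, hi⟩ := (Ld.ur_cyc hψ hR hn₀).2 γ hγ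
  have hγb : ∀ δ : Ω ≃ₐ[K] Ω, δ ∈ (⊥ : IntermediateField K Ω).fixingSubgroup := fun δ => by
    rw [IntermediateField.fixingSubgroup_bot]
    trivial
  have h1 : (φ ^ i)⁻¹ * γ ∈ (L.Ur ⊥ (R * n₀)).fixingSubgroup := by
    rw [Ld.ur_fix (hγb _)]
    intro z hz
    have h2 := (IntermediateField.mem_fixingSubgroup_iff _ _).1 hi z (Ld.te_ur hz)
    have h3 : γ z = (ψ ^ i) z := by
      have h4 : γ = ψ ^ i * ((ψ ^ i)⁻¹ * γ) := by rw [mul_inv_cancel_left]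
      rw [h4, AlgEquiv.mul_apply, h2]
    rw [AlgEquiv.mul_apply, h3, ← hpw i z hz, ← AlgEquiv.mul_apply, inv_mul_cancel,
      AlgEquiv.one_apply]
  have h5 := (IntermediateField.mem_fixingSubgroup_iff _ _).1 h1 x
    ((hMn.trans (Ld.ur_dvd ⊥ (Nat.dvd_mul_left n₀ R))) hx)
  have h6 : (φ ^ i) x = x := (IntermediateField.mem_fixingSubgroup_iff M _).1
    (Subgroup.pow_mem _ hφ.mem i) x hx
  have h7 : γ = φ ^ i * ((φ ^ i)⁻¹ * γ) := by rw [mul_inv_cancel_left]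
  rw [h7, AlgEquiv.mul_apply, h5, h6]

/-- **Generators.** Proof: a generator of `Dr` is the trace of `[P'] - [P]`, `P`, `P'` over `M` unramified, with coordinates `x`, `x'` in `M`, one of them `1`, congruent modulo `π ^ s` (`nrh_nco`, `fp_mem`); `i` with `D_i (u_i (x))` a unit (`Cvr`);
`c = u_i (x)`, `w = y_i (x)`, `h = u_i (x') - c` (`Pj.pt_eq`, `Gp.eq`); `M ≤ Ur ⊥ n` with `r ∣ n`, and `M = Ur ⊥ n` for one `n` (`um_eq` of `Gy/Ra0.lean`). -/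
theorem dr_cyv (hf : Hm f) (hψ : ∀ i, Pj f L (ψ i)) (hc : Cvr f L ψ) (hπ : Uf L π) {s : ℕ}
    (hs : s ≠ 0) {k : ℕ} (hk : L.Rf ⊥ k) :
    Dr f L π s (⊥ : IntermediateField K Ω) ≤ AddSubgroup.closure
      {z | ∃ (i : Fin m) (n : ℕ) (c : Fin (d + 1) → Ω) (w : Ω) (h : Fin (d + 1) → Ω), n ≠ 0 ∧
        k ∣ n ∧ Gp L (ψ i) (L.Ur ⊥ n) c w ∧ Iv L (L.Ur ⊥ n) h ∧ (∀ r, L.nm (h r) ≤ L.nm π ^ s) ∧
          z = cyv f L (ψ i) (L.Ur ⊥ n) c w h} := by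
  refine dr_ind hf hc hπ hs fun M i x x' P P' hM hx hx' hD hP hP' h => ?_
  obtain ⟨n, hn, hkn, rfl⟩ := te_um hk hM
  obtain ⟨hux, hyx, hyx'⟩ := (hψ i).uv_iv hx
  obtain ⟨hux', -, -⟩ := (hψ i).uv_iv hx'
  have hDne : MvPolynomial.aeval ((ψ i).uv x) (ψ i).D ≠ 0 :=
    L.ne_zero (by rw [hD]; exact zero_lt_one)
  obtain ⟨hG, hpt⟩ := (hψ i).pt_eq (co_ne hP) (co_zero hP) hDne
  have g : Gp L (ψ i) (L.Ur ⊥ n) ((ψ i).uv x) ((ψ i).yv x) := ⟨hux, hyx, hyx', hG, hD⟩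
  have huu : ∀ r, L.nm (((ψ i).uv x' - (ψ i).uv x) r) ≤ L.nm π ^ s := fun r =>
    lv_close ((hψ i).iu r) (pow_nonneg hπ.pos.le s) h
  have hs1 : L.nm π ^ s < 1 := hπ.pow_lt hs
  have hiv : Iv L (L.Ur ⊥ n) ((ψ i).uv x' - (ψ i).uv x) := fun r =>
    ⟨sub_mem (hux' r).1 (hux r).1, (huu r).trans hs1.le⟩
  have hsum : (ψ i).uv x + ((ψ i).uv x' - (ψ i).uv x) = (ψ i).uv x' := add_sub_cancel _ _
  have he := Gp.eq (hψ i) g (fun r => (huu r).trans_lt hs1) (fun j => (hx' j).2) (co_ne hP')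
    (co_zero hP') (fun j => by
      rw [hpt]
      exact (h j).trans_lt hs1) hsum.symm
  refine AddSubgroup.subset_closure ⟨i, n, (ψ i).uv x, (ψ i).yv x, (ψ i).uv x' - (ψ i).uv x, hn,
    hkn, g, hiv, huu, ?_⟩
  unfold cyv
  rw [he, hpt, zx_co hP', zx_co hP]

end GX
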