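import Pool.Agent.Lib.MP_f80667_ag.Sb.K
import Pool.Agent.Lib.MP_f80667_ag.Cpe.Ext

/-!
The global `1`-forms over a larger algebraically closed field: tools.

* `al_th`: the homomorphisms of a finitely generated algebra over an algebraically closed field `E`.
* `al_lin`: linear systems whose left side has coefficients in a subfield.
* `al_ex`: the extension by zero of a homomorphism of a subalgebra of `Ω`. `al_key`: the image of a global form over `Ω` is a
  global form over `E`.
-/

open MvPolynomial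

namespace GX

section alg

variable {E Ω : Type} [Field E] [Field Ω] [Algebra E Ω]

theorem al_th [IsAlgClosed E] (S : Finset Ω) :
    Nonempty (Algebra.adjoin E (S : Set Ω) →ₐ[E] E) := by
  have h : Algebra.FiniteType E (Algebra.adjoin E (S : Set Ω)) :=
    (Subalgebra.fg_iff_finiteType _).1 (Subalgebra.fg_adjoin_finset S)
  exact CV.exists_point E _

theorem al_lin {σ : Type} {n : ℕ} (a : σ → Fin n → E) (b : σ → Ω)
    (h : ∀ e : σ →₀ E, (∀ j, (e.sum fun s c => c * a s j) = 0) →
      (e.sum fun s c => algebraMap E Ω c * b s) = 0) :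
    ∃ η : Fin n → Ω, ∀ s, ∑ j, algebraMap E Ω (a s j) * η j = b s := by
  obtain ⟨T, hT⟩ : ∃ T : (σ →₀ E) →ₗ[E] (Fin n → E), T = Finsupp.linearCombination E a :=
    ⟨_, rfl⟩
  obtain ⟨B, hB⟩ : ∃ B : (σ →₀ E) →ₗ[E] Ω, B = Finsupp.linearCombination E b := ⟨_, rfl⟩
  have hk : LinearMap.ker T ≤ LinearMap.ker B := by
    intro e he
    rw [LinearMap.mem_ker] at he ⊢
    have h1 := h e fun j => by
      have h2 := congrFun he j
      rw [hT, Finsupp.linearCombination_apply, Finsupp.sum_apply'] at h2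
      exact h2
    rw [hB, Finsupp.linearCombination_apply]
    refine Eq.trans (Finsupp.sum_congr fun s _ => ?_) h1
    rw [Algebra.smul_def]
  obtain ⟨g, hg⟩ := LinearMap.exists_extend (((LinearMap.ker T).liftQ B hk).comp
    T.quotKerEquivRange.symm.toLinearMap)
  have hgT : ∀ e, g (T e) = B e := by
    intro e
    have h1 := LinearMap.congr_fun hg ⟨T e, e, rfl⟩
    rw [LinearMap.comp_apply] at h1
    refine h1.trans ?_
    rw [LinearMap.comp_apply]
    have h2 : T.quotKerEquivRange.symm ⟨T e, e, rfl⟩ = (LinearMap.ker T).mkQ e := by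
      rw [LinearEquiv.symm_apply_eq]
      rfl
    erw [h2]
    rfl
  refine ⟨fun j => g (Pi.single j 1), fun s => ?_⟩
  have h1 : g (a s) = b s := by
    have h2 := hgT (Finsupp.single s 1)
    rw [hT, hB, Finsupp.linearCombination_single, Finsupp.linearCombination_single, one_smul,
      one_smul] at h2
    exact h2
  rw [← h1]
  conv_rhs => rw [← Finset.univ_sum_single (a s)]
  rw [map_sum]
  refine Finset.sum_congr rfl fun j _ => ?_
  rw [← Algebra.smul_def, ← map_smul]
  congr 1
  rw [← Pi.single_smul, smul_eq_mul, mul_one]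

/-- The extension by zero. -/
noncomputable def al_ex {R : Subalgebra E Ω} (θ : R →ₐ[E] E) (a : Ω) : E :=
  open Classical in if h : a ∈ R then θ ⟨a, h⟩ else 0

theorem al_ex_eq {R : Subalgebra E Ω} (θ : R →ₐ[E] E) (a : R) : al_ex θ (a : Ω) = θ a := by
  unfold al_ex
  rw [dif_pos a.2]

theorem al_ex_mk {R : Subalgebra E Ω} (θ : R →ₐ[E] E) {a : Ω} (h : a ∈ R) :
    al_ex θ a = θ ⟨a, h⟩ := al_ex_eq θ ⟨a, h⟩

/-- Polynomials whose coefficients are in a subalgebra. -/
theorem al_lift {R : Subalgebra E Ω} {N : ℕ} {p : MvPolynomial (Fin N) Ω}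
    (h : ∀ c ∈ p.coeffs, c ∈ R) : ∃ q : MvPolynomial (Fin N) R, q.map (algebraMap R Ω) = p := by
  have h1 : p ∈ Set.range (MvPolynomial.map (σ := Fin N) (algebraMap R Ω)) := by
    rw [mem_range_map_iff_coeffs_subset]
    intro c hc
    exact ⟨⟨c, h c hc⟩, rfl⟩
  exact h1

theorem al_ev {R S : Type} [CommRing R] [CommRing S] (φ : R →+* S) {N : ℕ} (x : Fin N → R)
    (q : MvPolynomial (Fin N) R) : eval (fun j => φ (x j)) (q.map φ) = φ (eval x q) := by
  rw [eval_map]
  exact (eval₂_comp_left φ (RingHom.id R) x q).symm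

end alg

section frm

variable {F E Ω : Type} [Field F] [Field E] [Field Ω] [Algebra F E] [Algebra F Ω] [Algebra E Ω]
  [IsScalarTower F E Ω] {N : ℕ} {ι : Type} {f : ι → MvPolynomial (Fin N) F}

theorem al_tg {x t : Fin N → E} : Tg (fun i => MvPolynomial.map (algebraMap F E) (f i)) x t ↔
    x ≠ 0 ∧ (∀ i, aeval x (f i) = 0) ∧ ∀ i, ∑ j, aeval x (pderiv j (f i)) * t j = 0 := by
  unfold Tg Zp
  have h1 : ∀ i, eval x (MvPolynomial.map (algebraMap F E) (f i)) = aeval x (f i) := fun i => by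
    rw [eval_map, aeval_def]
  have h2 : ∀ i j, eval x (pderiv j (MvPolynomial.map (algebraMap F E) (f i))) =
      aeval x (pderiv j (f i)) := fun i j => by
    rw [pderiv_map, eval_map, aeval_def]
  simp only [h1, h2, and_assoc]

theorem al_tg_up {x t : Fin N → E}
    (h : Tg (fun i => MvPolynomial.map (algebraMap F E) (f i)) x t) :
    Tg (fun i => MvPolynomial.map (algebraMap F Ω) (f i)) (fun j => algebraMap E Ω (x j))
      fun j => algebraMap E Ω (t j) := by
  rw [al_tg] at h ⊢
  have h1 : ∀ p : MvPolynomial (Fin N) F, aeval (fun j => algebraMap E Ω (x j)) p =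
      algebraMap E Ω (aeval x p) := fun p => (comp_aeval_apply x (IsScalarTower.toAlgHom F E Ω) p).symm
  refine ⟨fun h0 => h.1 ?_, fun i => ?_, fun i => ?_⟩
  · funext j
    exact (algebraMap E Ω).injective ((congrFun h0 j).trans (map_zero _).symm)
  · rw [h1, h.2.1, map_zero]
  · have h2 := congrArg (algebraMap E Ω) (h.2.2 i)
    rw [map_zero, map_sum] at h2
    rw [← h2]
    refine Finset.sum_congr rfl fun j _ => ?_
    rw [h1, map_mul]

/-- The polynomials which compute a global form, and a partition of the powers of the coordinates. -/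
theorem al_cov [IsAlgClosed Ω] {f : ι → MvPolynomial (Fin N) Ω}
    {ℓ : (Fin N → Ω) → (Fin N → Ω) → Ω} (hℓ : Frm f ℓ) :
    ∃ (n : ℕ) (Q : Fin n → MvPolynomial (Fin N) Ω) (A : Fin n → Fin N → MvPolynomial (Fin N) Ω)
      (g : Fin N → Fin n → MvPolynomial (Fin N) Ω) (e : Fin N → ℕ),
      (∀ r x t, Tg f x t → eval x (Q r) * ℓ x t = ∑ s, eval x (A r s) * t s) ∧
        ∀ k x, Zp f x → x k ^ e k = ∑ r, eval x (g k r) * eval x (Q r) := by
  classical
  have h0 : ∀ y : {y // Zp f y}, ∃ (Q : MvPolynomial (Fin N) Ω)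
      (A : Fin N → MvPolynomial (Fin N) Ω), eval y.1 Q ≠ 0 ∧
        ∀ x t, Tg f x t → eval x Q * ℓ x t = ∑ s, eval x (A s) * t s := by
    intro y
    obtain ⟨Q, A, h1, h2⟩ := hℓ.reg y.1 y.2
    refine ⟨Q * Q, fun s => Q * A s, ?_, fun x t ht => ?_⟩
    · rw [map_mul]
      exact mul_ne_zero h1 h1
    · rw [map_mul]
      by_cases hx : eval x Q = 0
      · rw [hx, zero_mul, zero_mul]
        symm
        refine Finset.sum_eq_zero fun s _ => ?_
        rw [map_mul, hx, zero_mul, zero_mul]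
      · rw [mul_assoc, h2 x t ht hx, Finset.mul_sum]
        refine Finset.sum_congr rfl fun s _ => ?_
        rw [map_mul, mul_assoc]
  choose Q A hQ hA using h0
  obtain ⟨I, hI⟩ : ∃ I : Ideal (MvPolynomial (Fin N) Ω),
      I = Ideal.span (Set.range f) ⊔ Ideal.span (Set.range Q) := ⟨_, rfl⟩
  have h1 : ∀ x ∈ zeroLocus Ω I, x = 0 := by
    intro x hx
    by_contra h0
    rw [mem_zeroLocus_iff, hI] at hx
    have hz : Zp f x := by
      refine ⟨h0, fun i => ?_⟩
      exact (DFunLike.congr_fun (coe_aeval_eq_eval x) (f i)).symm.trans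
        (hx _ (Ideal.mem_sup_left (Ideal.subset_span ⟨i, rfl⟩)))
    exact hQ ⟨x, hz⟩ ((DFunLike.congr_fun (coe_aeval_eq_eval x) (Q ⟨x, hz⟩)).symm.trans
      (hx (Q ⟨x, hz⟩) (Ideal.mem_sup_right (Ideal.subset_span ⟨_, rfl⟩))))
  have h2 : ∀ k, ∃ n : ℕ, (X k : MvPolynomial (Fin N) Ω) ^ n ∈ I := by
    intro k
    have h3 : (X k : MvPolynomial (Fin N) Ω) ∈ vanishingIdeal Ω (zeroLocus Ω I) := by
      intro x hx
      rw [h1 x hx, aeval_X]
      rfl
    rw [vanishingIdeal_zeroLocus_eq_radical] at h3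
    exact h3
  have h3 : ∀ k : Fin N, ∃ (e : ℕ) (c : {y // Zp f y} →₀ MvPolynomial (Fin N) Ω),
      ∀ x, Zp f x → x k ^ e = c.sum fun y p => eval x p * eval x (Q y) := by
    intro k
    obtain ⟨e, he⟩ := h2 k
    rw [hI] at he
    obtain ⟨a, ha, b, hb, hab⟩ := Submodule.mem_sup.1 he
    obtain ⟨c, hc⟩ := Finsupp.mem_ideal_span_range_iff_exists_finsupp.1 hb
    refine ⟨e, c, fun x hx => ?_⟩
    have ha0 : eval x a = 0 := by
      have h4 : Ideal.span (Set.range f) ≤ RingHom.ker (eval x) := by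
        rw [Ideal.span_le]
        rintro _ ⟨i, rfl⟩
        exact hx.2 i
      exact h4 ha
    have h5 := congrArg (eval x) hab
    rw [map_add, ha0, zero_add, ← hc, map_pow, eval_X] at h5
    rw [← h5, Finsupp.sum, map_sum]
    refine Finset.sum_congr rfl fun y _ => ?_
    rw [map_mul]
  choose e c hc using h3
  obtain ⟨T, hT⟩ : ∃ T : Finset {y // Zp f y}, T = Finset.univ.biUnion fun k => (c k).support :=
    ⟨_, rfl⟩
  refine ⟨T.card, fun r => Q (T.equivFin.symm r), fun r => A (T.equivFin.symm r),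
    fun k r => c k (T.equivFin.symm r), e, fun r x t ht => hA _ x t ht, fun k x hx => ?_⟩
  rw [hc k x hx]
  rw [Equiv.sum_comp T.equivFin.symm fun y => eval x (c k y) * eval x (Q y)]
  rw [Finset.sum_coe_sort T fun y => eval x (c k y) * eval x (Q y)]
  refine Finset.sum_subset ?_ fun y _ hy => ?_
  · rw [hT]
    exact Finset.subset_biUnion_of_mem (fun k => (c k).support) (Finset.mem_univ k)
  · change eval x (c k y) * _ = 0
    rw [Finsupp.notMem_support_iff.1 hy, map_zero, zero_mul]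

omit [Algebra F E] [Algebra F Ω] [IsScalarTower F E Ω] in
/-- Polynomials over a subalgebra and their images. -/
theorem al_im {R : Subalgebra E Ω} (θ : R →ₐ[E] E) {p : MvPolynomial (Fin N) Ω}
    (h : ∀ c ∈ p.coeffs, c ∈ R) : ∃ q : MvPolynomial (Fin N) E, ∀ x : Fin N → E,
      ∃ h : eval (fun j => algebraMap E Ω (x j)) p ∈ R, θ ⟨_, h⟩ = eval x q := by
  obtain ⟨q, hq⟩ := al_lift h
  refine ⟨q.map (θ : R →+* E), fun x => ?_⟩
  have h1 : eval (fun j => algebraMap E Ω (x j)) p =
      algebraMap R Ω (eval (fun j => algebraMap E R (x j)) q) := by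
    rw [← hq, ← al_ev]
    rfl
  have hm : eval (fun j => algebraMap E Ω (x j)) p ∈ R := by
    rw [h1]
    exact Subtype.coe_prop _
  refine ⟨hm, ?_⟩
  have h2 : (⟨_, hm⟩ : R) = eval (fun j => algebraMap E R (x j)) q := Subtype.ext h1
  rw [h2]
  have h3 := al_ev (θ : R →+* E) (fun j => algebraMap E R (x j)) q
  rw [← RingHom.coe_coe θ, ← h3]
  congr 2
  funext j
  exact θ.commutes (x j)

open Classical in
/-- **The image of a global form is a global form.** -/
theorem al_key [IsAlgClosed Ω] {ℓ : (Fin N → Ω) → (Fin N → Ω) → Ω}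
    (hℓ : Frm (fun i => MvPolynomial.map (algebraMap F Ω) (f i)) ℓ) :
    ∃ S : Finset Ω, ∀ (R : Subalgebra E Ω), (∀ c ∈ S, c ∈ R) →
      (∀ x t : Fin N → E, Tg (fun i => MvPolynomial.map (algebraMap F E) (f i)) x t →
        ℓ (fun j => algebraMap E Ω (x j)) (fun j => algebraMap E Ω (t j)) ∈ R) ∧
      ∀ θ : R →ₐ[E] E, Frm (fun i => MvPolynomial.map (algebraMap F E) (f i)) fun x t =>
        al_ex θ (ℓ (fun j => algebraMap E Ω (x j)) (fun j => algebraMap E Ω (t j))) := by
  obtain ⟨n, Q, A, g, e, hA, hg⟩ := al_cov hℓ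
  refine ⟨Finset.univ.biUnion fun r => (Q r).coeffs ∪ ((Finset.univ.biUnion fun s =>
    (A r s).coeffs) ∪ Finset.univ.biUnion fun k => (g k r).coeffs), fun R hR => ?_⟩
  have hQc : ∀ r, ∀ c ∈ (Q r).coeffs, c ∈ R := fun r c hc => hR c (Finset.mem_biUnion.2
    ⟨r, Finset.mem_univ r, Finset.mem_union_left _ hc⟩)
  have hAc : ∀ r s, ∀ c ∈ (A r s).coeffs, c ∈ R := fun r s c hc => hR c (Finset.mem_biUnion.2
    ⟨r, Finset.mem_univ r, Finset.mem_union_right _ (Finset.mem_union_left _
      (Finset.mem_biUnion.2 ⟨s, Finset.mem_univ s, hc⟩))⟩)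
  have hgc : ∀ k r, ∀ c ∈ (g k r).coeffs, c ∈ R := fun k r c hc => hR c (Finset.mem_biUnion.2
    ⟨r, Finset.mem_univ r, Finset.mem_union_right _ (Finset.mem_union_right _
      (Finset.mem_biUnion.2 ⟨k, Finset.mem_univ k, hc⟩))⟩)
  have hmem : ∀ (x : Fin N → E) (p : MvPolynomial (Fin N) Ω), (∀ c ∈ p.coeffs, c ∈ R) →
      eval (fun j => algebraMap E Ω (x j)) p ∈ R := by
    intro x p hp
    obtain ⟨q, hq⟩ := al_lift hp
    have h1 : eval (fun j => algebraMap E Ω (x j)) p =
        algebraMap R Ω (eval (fun j => algebraMap E R (x j)) q) := by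
      rw [← hq, ← al_ev]
      rfl
    rw [h1]
    exact Subtype.coe_prop _
  have hin : ∀ x t : Fin N → E, Tg (fun i => MvPolynomial.map (algebraMap F E) (f i)) x t →
      ℓ (fun j => algebraMap E Ω (x j)) (fun j => algebraMap E Ω (t j)) ∈ R := by
    intro x t ht
    have ht' := al_tg_up (Ω := Ω) ht
    obtain ⟨k, hk⟩ := Function.ne_iff.1 ht.1.1
    have h1 := hg k _ ht'.1
    have h2 : algebraMap E Ω (x k ^ e k) *
        ℓ (fun j => algebraMap E Ω (x j)) (fun j => algebraMap E Ω (t j)) ∈ R := by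
      rw [map_pow, h1, Finset.sum_mul]
      refine sum_mem fun r _ => ?_
      rw [mul_assoc, hA r _ _ ht']
      refine mul_mem (hmem _ _ (hgc k r)) (sum_mem fun s _ => mul_mem (hmem _ _ (hAc r s)) ?_)
      exact R.algebraMap_mem _
    have h3 : ℓ (fun j => algebraMap E Ω (x j)) (fun j => algebraMap E Ω (t j)) =
        algebraMap E Ω (x k ^ e k)⁻¹ * (algebraMap E Ω (x k ^ e k) *
          ℓ (fun j => algebraMap E Ω (x j)) (fun j => algebraMap E Ω (t j))) := by
      rw [← mul_assoc, ← map_mul, inv_mul_cancel₀ (pow_ne_zero _ hk), map_one, one_mul]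
    rw [h3]
    exact mul_mem (R.algebraMap_mem _) h2
  refine ⟨hin, fun θ => ⟨fun x t c hc ht => ?_, fun x c hx => ?_, fun y hy => ?_⟩⟩
  · congr 1
    have h1 := hℓ.hom (fun j => algebraMap E Ω (x j)) (fun j => algebraMap E Ω (t j))
      (algebraMap E Ω c) ((map_ne_zero _).2 hc) (al_tg_up ht)
    rw [← h1]
    congr 1
    · funext j
      exact map_mul _ _ _
    · funext j
      exact map_mul _ _ _
  · have hx' : Zp (fun i => MvPolynomial.map (algebraMap F Ω) (f i))
        fun j => algebraMap E Ω (x j) := by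
      have h0 : Tg (fun i => MvPolynomial.map (algebraMap F E) (f i)) x 0 :=
        ⟨hx, fun i => Finset.sum_eq_zero fun j _ => by rw [Pi.zero_apply, mul_zero]⟩
      exact (al_tg_up h0).1
    have h1 := hℓ.rad _ (algebraMap E Ω c) hx'
    have h2 : (fun j => algebraMap E Ω ((c • x) j)) =
        algebraMap E Ω c • fun j => algebraMap E Ω (x j) := by
      funext j
      exact map_mul _ _ _
    rw [h2, h1]
    have h3 := al_ex_eq θ 0
    rw [map_zero] at h3
    exact h3
  · have hy' : Tg (fun i => MvPolynomial.map (algebraMap F E) (f i)) y 0 :=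
      ⟨hy, fun i => Finset.sum_eq_zero fun j _ => by rw [Pi.zero_apply, mul_zero]⟩
    choose Q' hQ' using fun r => al_im θ (hQc r)
    choose A' hA' using fun r s => al_im θ (hAc r s)
    choose g' hg' using fun k r => al_im θ (hgc k r)
    obtain ⟨k, hk⟩ := Function.ne_iff.1 hy.1
    have h1 := hg k _ (al_tg_up (Ω := Ω) hy').1
    have h2 : y k ^ e k = ∑ r, eval y (g' k r) * eval y (Q' r) := by
      have h3 : (⟨algebraMap E Ω (y k) ^ e k, pow_mem (R.algebraMap_mem _) _⟩ : R) =
          ∑ r, ⟨_, (hg' k r y).1⟩ * ⟨_, (hQ' r y).1⟩ := by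
        apply Subtype.ext
        rw [AddSubmonoidClass.coe_finsetSum]
        exact h1
      have h4 := congrArg θ h3
      rw [map_sum] at h4
      have h5 : θ ⟨algebraMap E Ω (y k) ^ e k, pow_mem (R.algebraMap_mem _) _⟩ = y k ^ e k := by
        have h6 := θ.commutes (y k ^ e k)
        rw [← show algebraMap E E (y k ^ e k) = y k ^ e k from rfl, ← h6]
        congr 1
        exact Subtype.ext (map_pow _ _ _).symm
      rw [h5] at h4
      rw [h4]
      refine Finset.sum_congr rfl fun r _ => ?_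
      rw [map_mul, (hg' k r y).2, (hQ' r y).2]
    obtain ⟨r, hr⟩ : ∃ r, eval y (Q' r) ≠ 0 := by
      by_contra hcon
      push Not at hcon
      apply pow_ne_zero (e k) hk
      rw [h2]
      exact Finset.sum_eq_zero fun r _ => by rw [hcon r, mul_zero]
    refine ⟨Q' r, A' r, hr, fun x t ht _ => ?_⟩
    have h3 := hA r _ _ (al_tg_up (Ω := Ω) ht)
    have h4 : (⟨_, (hQ' r x).1⟩ * ⟨_, hin x t ht⟩ : R) =
        ∑ s, ⟨_, (hA' r s x).1⟩ * algebraMap E R (t s) := by
      apply Subtype.ext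
      rw [AddSubmonoidClass.coe_finsetSum]
      exact h3
    have h5 := congrArg θ h4
    rw [map_mul, map_sum, (hQ' r x).2, ← al_ex_mk θ (hin x t ht)] at h5
    rw [h5]
    refine Finset.sum_congr rfl fun s _ => ?_
    rw [map_mul, (hA' r s x).2, AlgHom.commutes]
    rfl

end frm

end GX
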