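import Pool.Agent.Lib.MP_f80667_ag.Gm.PlC

/-!
The algebra of the characters of a graded piece.

* `Pc ρ π Δ j P B`: `P c` is linear for the good `c` over `R` (`Δ (ρ c) ≠ 0`), homogeneous, polynomial along the arcs over `R`, and
  `P (c + π h) = P c + B (ρ c) (ρ h)`.
-/

open MvPolynomial

namespace GX

/-- The functions of a character of a graded piece. -/
structure Pc {R κ : Type} [CommRing R] [Field κ] (ρ : R →+* κ) (π : R) {d : ℕ}
    (Δ : MvPolynomial (Fin (d + 1)) κ) (j : ℕ)
    (P : (Fin (d + 1) → R) → (Fin (d + 1) → κ) → κ)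
    (B : (Fin (d + 1) → κ) → (Fin (d + 1) → κ) → (Fin (d + 1) → κ) → κ) : Prop where
  add : ∀ c, eval (fun r => ρ (c r)) Δ ≠ 0 → ∀ u u', P c (u + u') = P c u + P c u'
  smul : ∀ c, eval (fun r => ρ (c r)) Δ ≠ 0 → ∀ (t : κ) u, P c (t • u) = t * P c u
  hom : ∀ c, eval (fun r => ρ (c r)) Δ ≠ 0 → ∀ t : R, ρ t ≠ 0 → ∀ u,
    ρ t * P (t • c) u = ρ t ^ j * P c u
  arc : ∀ (n : ℕ) (a : Fin (d + 1) → Polynomial R), (∀ i, (a i).natDegree ≤ n) →
    ∃ q : Polynomial κ, q.natDegree ≤ j * n ∧ ∀ z : R,
      eval (fun i => ρ ((a i).eval z)) Δ ≠ 0 →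
        P (fun i => (a i).eval z) (fun i => ρ ((Polynomial.derivative (a i)).eval z)) =
          q.eval (ρ z)
  addB : ∀ y, eval y Δ ≠ 0 → ∀ η η' u, B y (η + η') u = B y η u + B y η' u
  smulB : ∀ y, eval y Δ ≠ 0 → ∀ (t : κ) η u, B y (t • η) u = t * B y η u
  two : ∀ c, eval (fun r => ρ (c r)) Δ ≠ 0 → ∀ (h : Fin (d + 1) → R) u,
    P (c + π • h) u = P c u + B (fun r => ρ (c r)) (fun r => ρ (h r)) u

private theorem fd_hom_eval {κ σ : Type} [Field κ] {φ : MvPolynomial σ κ} {n : ℕ}
    (h : φ.IsHomogeneous n) (t : κ) (b : σ → κ) : eval (t • b) φ = t ^ n * eval b φ := by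
  rw [eval_eq, eval_eq, Finset.mul_sum]
  refine Finset.sum_congr rfl fun d hd => ?_
  have hdeg : ∑ i ∈ d.support, d i = n := by
    have h1 : d.degree = n := by
      by_contra h2
      exact mem_support_iff.1 hd (h.coeff_eq_zero h2)
    rwa [Finsupp.degree_apply] at h1
  rw [← hdeg, ← Finset.prod_pow_eq_pow_sum]
  simp only [Pi.smul_apply, smul_eq_mul, mul_pow, Finset.prod_mul_distrib]
  ring

/-- A homogeneous function with `Ar` is a homogeneous polynomial. Proof: `Ar.planar` gives a polynomial `g` for every `r`; its homogeneous component of degree `j - k` (`0` if `j < k`), exactly as in the proof of `Fv.poly` in `Gx/Ec.lean` (there `k = 1`):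
for `b` with `Δ (b) ≠ 0` and all `t`: `t ^ k g (t b) = t ^ j g (b)` (both sides are polynomials in `t`, equal for `t ≠ 0`); compare the coefficients. Linearity in `u`: `u = ∑ u_r e_r` (`LinearMap.pi_apply_eq_sum_univ`). -/
theorem ar_hpoly {κ : Type} [Field κ] [Infinite κ] {d e j k C : ℕ}
    {Δ : MvPolynomial (Fin (d + 1)) κ} (h0 : Δ ≠ 0) (hΔ : Δ.IsHomogeneous e) {p : ℕ}
    (hp : p.Prime) [CharP κ p] (hpf : ∀ x : κ, ∃ y, y ^ p = x)
    {P : (Fin (d + 1) → κ) → (Fin (d + 1) → κ) → κ} (h : GM.Ar Δ C P)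
    (hh : ∀ b, eval b Δ ≠ 0 → ∀ t : κ, t ≠ 0 → ∀ u, t ^ k * P (t • b) u = t ^ j * P b u) :
    ∃ g : Fin (d + 1) → MvPolynomial (Fin (d + 1)) κ, (∀ r, (g r).IsHomogeneous (j - k)) ∧
      ∀ b, eval b Δ ≠ 0 → ∀ u, P b u = ∑ r, eval b (g r) * u r := by
  have key : ∀ r : Fin (d + 1), ∃ g : MvPolynomial (Fin (d + 1)) κ, g.IsHomogeneous (j - k) ∧
      ∀ b, eval b Δ ≠ 0 → P b (Pi.single r 1) = eval b g := by
    intro r
    obtain ⟨g, hgb⟩ := h.planar h0 hΔ hp hpf r
    have hmain : ∀ b, eval b Δ ≠ 0 →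
        eval b g = ∑ i ∈ Finset.range (g.totalDegree + 1),
          if j + 1 = i + k + 1 then eval b (homogeneousComponent i g) else 0 := by
      intro b hbD
      have hpt : ∀ t : κ, t * (t ^ k * eval (t • b) g) = t * (t ^ j * eval b g) := by
        intro t
        by_cases ht : t = 0
        · rw [ht, zero_mul, zero_mul]
        · have h2 : eval (t • b) Δ ≠ 0 := by
            rw [fd_hom_eval hΔ]
            exact mul_ne_zero (pow_ne_zero _ ht) hbD
          rw [← hgb _ h2, ← hgb b hbD, hh b hbD t ht]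
      obtain ⟨c, hc⟩ : ∃ c : ℕ → κ, c = fun r => eval b (homogeneousComponent r g) := ⟨_, rfl⟩
      have hexp : ∀ t : κ, eval (t • b) g =
          ∑ r ∈ Finset.range (g.totalDegree + 1), t ^ r * c r := by
        intro t
        conv_lhs => rw [← sum_homogeneousComponent g]
        rw [map_sum]
        refine Finset.sum_congr rfl fun r _ => ?_
        rw [fd_hom_eval (homogeneousComponent_isHomogeneous r g), hc]
      have hpol : (∑ r ∈ Finset.range (g.totalDegree + 1),
          Polynomial.C (c r) * Polynomial.X ^ (r + k + 1)) =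
            Polynomial.C (eval b g) * (Polynomial.X ^ (j + 1) : Polynomial κ) := by
        apply Polynomial.funext
        intro t
        have h3 := hpt t
        rw [hexp, Finset.mul_sum, Finset.mul_sum] at h3
        simp only [Polynomial.eval_finsetSum, Polynomial.eval_mul, Polynomial.eval_C,
          Polynomial.eval_pow, Polynomial.eval_X]
        have h4 : eval b g * t ^ (j + 1) = t * (t ^ j * eval b g) := by ring
        rw [h4, ← h3]
        refine Finset.sum_congr rfl fun r _ => ?_
        ring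
      have hco := congrArg (fun q => q.coeff (j + 1)) hpol
      simp only [Polynomial.finsetSum_coeff, Polynomial.coeff_C_mul, Polynomial.coeff_X_pow,
        if_true, mul_one] at hco
      rw [← hco]
      refine Finset.sum_congr rfl fun i _ => ?_
      rw [hc, mul_ite, mul_one, mul_zero]
    by_cases hkj : k ≤ j
    · refine ⟨homogeneousComponent (j - k) g, homogeneousComponent_isHomogeneous _ _,
        fun b hbD => ?_⟩
      rw [hgb b hbD, hmain b hbD]
      by_cases hr : j - k ∈ Finset.range (g.totalDegree + 1)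
      · rw [Finset.sum_eq_single_of_mem (j - k) hr]
        · rw [if_pos (by omega)]
        · intro r _ hr'
          rw [if_neg (by omega)]
      · have hr2 : g.totalDegree < j - k := by
          rw [Finset.mem_range] at hr
          omega
        rw [homogeneousComponent_eq_zero _ _ hr2, map_zero]
        refine Finset.sum_eq_zero fun r hr' => ?_
        rw [if_neg]
        intro h
        apply hr
        have h7 : j - k = r := by omega
        rwa [h7]
    · refine ⟨0, isHomogeneous_zero _ _ _, fun b hbD => ?_⟩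
      rw [hgb b hbD, hmain b hbD, map_zero]
      refine Finset.sum_eq_zero fun r _ => ?_
      rw [if_neg (by omega)]
  choose g hg1 hg2 using key
  refine ⟨g, hg1, fun b hb u => ?_⟩
  obtain ⟨L, hL⟩ : ∃ L : (Fin (d + 1) → κ) →ₗ[κ] κ, ∀ u, L u = P b u :=
    ⟨{ toFun := fun u => P b u
       map_add' := h.add _ hb
       map_smul' := fun t u => h.smul _ hb u t }, fun _ => rfl⟩
  rw [← hL, LinearMap.pi_apply_eq_sum_univ L]
  refine Finset.sum_congr rfl fun r _ => ?_
  have h5 : (fun r' : Fin (d + 1) => if r = r' then (1 : κ) else 0) = Pi.single r 1 := by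
    funext r'
    rw [Pi.single_apply]
    by_cases h : r = r'
    · rw [if_pos h, if_pos h.symm]
    · rw [if_neg h, if_neg (Ne.symm h)]
  rw [h5, hL, hg2 r b hb, smul_eq_mul, mul_comm]

end GX
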