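import Pool.Agent.Lib.MP_f80667_ag.Lv.Fd

/-! The algebra of the characters of a graded piece: the second function. -/

open MvPolynomial

namespace GX

variable {R κ : Type} [CommRing R] [Field κ] {ρ : R →+* κ} {π : R} {d j : ℕ}
  {Δ : MvPolynomial (Fin (d + 1)) κ}

private theorem fda_lift1 (hρ : Function.Surjective ρ) (p : Polynomial κ) :
    ∃ A : Polynomial R, A.natDegree = p.natDegree ∧ A.map ρ = p := by
  obtain ⟨A, h1, h2⟩ := Polynomial.exists_natDegree_eq_of_mem_lifts
    (Polynomial.mem_lifts_of_surjective hρ p)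
  exact ⟨A, h2, h1⟩

private theorem fda_lift (hρ : Function.Surjective ρ) {n : ℕ} (a : Fin (d + 1) → Polynomial κ)
    (ha : ∀ i, (a i).natDegree ≤ n) :
    ∃ A : Fin (d + 1) → Polynomial R, (∀ i, (A i).natDegree ≤ n) ∧ ∀ i, (A i).map ρ = a i := by
  choose A hA hA' using fun i => fda_lift1 hρ (a i)
  exact ⟨A, fun i => (hA i).le.trans (ha i), hA'⟩

private theorem fda_vec (hρ : Function.Surjective ρ) (y : Fin (d + 1) → κ) :
    ∃ c : Fin (d + 1) → R, (fun r => ρ (c r)) = y := by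
  choose c hc using fun r => hρ (y r)
  exact ⟨c, funext hc⟩

private theorem fda_ev (A : Polynomial R) (z : R) : ρ (A.eval z) = (A.map ρ).eval (ρ z) := by
  rw [Polynomial.eval_map, Polynomial.eval₂_at_apply]

private theorem fda_shift (hπ : ρ π = 0) (c h : Fin (d + 1) → R) :
    (fun r => ρ ((c + π • h) r)) = fun r => ρ (c r) := by
  funext r
  simp [hπ]

private theorem fda_hom_eval {σ : Type} {φ : MvPolynomial σ κ} {n : ℕ} (h : φ.IsHomogeneous n)
    (t : κ) (b : σ → κ) : eval (t • b) φ = t ^ n * eval b φ := by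
  rw [eval_eq, eval_eq, Finset.mul_sum]
  refine Finset.sum_congr rfl fun d hd => ?_
  have hdeg : ∑ i ∈ d.support, d i = n := by
    have h1 : d.degree = n := by
      by_contra h2
      exact mem_support_iff.1 hd (h.coeff_eq_zero h2)
    rwa [Finsupp.degree_apply] at h1
  rw [← hdeg, ← Finset.prod_pow_eq_pow_sum]
  simp only [Pi.smul_apply, smul_eq_mul, mul_pow, Finset.prod_mul_distrib]
  ring

/-- Proof: `add`, `smul` in `u` from `two` (lift `y` and `η` by the surjectivity of `ρ`; `ρ π = 0` so that `c + π h` is good). `arc`: lift the coefficients of an arc over `κ` to an arc `a` over `R` with the same bound of the degrees, `η = ρ h`;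
`Pc.arc` for `a` and for `a + C (π h)` (the same derivative), subtract: `two`. -/
theorem Pc.arB {P : (Fin (d + 1) → R) → (Fin (d + 1) → κ) → κ}
    {B : (Fin (d + 1) → κ) → (Fin (d + 1) → κ) → (Fin (d + 1) → κ) → κ}
    (h : Pc ρ π Δ j P B) (hρ : Function.Surjective ρ) (hπ : ρ π = 0) (η : Fin (d + 1) → κ) :
    GM.Ar Δ j (fun y u => B y η u) := by
  obtain ⟨w, hw⟩ := fda_vec hρ η
  refine ⟨?_, ?_, ?_⟩
  · intro y hy u u'
    obtain ⟨c, hc⟩ := fda_vec hρ y
    have hg : eval (fun r => ρ (c r)) Δ ≠ 0 := by rwa [hc]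
    have hg' : eval (fun r => ρ ((c + π • w) r)) Δ ≠ 0 := by rwa [fda_shift hπ]
    have h1 := h.two c hg w u
    have h2 := h.two c hg w u'
    have h3 := h.two c hg w (u + u')
    rw [h.add _ hg, h.add _ hg', h1, h2, hc, hw] at h3
    linear_combination -h3
  · intro y hy u t
    obtain ⟨c, hc⟩ := fda_vec hρ y
    have hg : eval (fun r => ρ (c r)) Δ ≠ 0 := by rwa [hc]
    have hg' : eval (fun r => ρ ((c + π • w) r)) Δ ≠ 0 := by rwa [fda_shift hπ]
    have h1 := h.two c hg w u
    have h3 := h.two c hg w (t • u)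
    rw [h.smul _ hg, h.smul _ hg', h1, hc, hw] at h3
    linear_combination -h3
  · intro n a ha
    obtain ⟨A, hA, hA'⟩ := fda_lift hρ a ha
    obtain ⟨q₁, hq₁, hq₁'⟩ := h.arc n A hA
    obtain ⟨q₂, hq₂, hq₂'⟩ := h.arc n (fun i => A i + Polynomial.C (π * w i)) (by
      intro i
      refine (Polynomial.natDegree_add_le _ _).trans (max_le (hA i) ?_)
      rw [Polynomial.natDegree_C]
      exact Nat.zero_le _)
    refine ⟨q₂ - q₁, (Polynomial.natDegree_sub_le _ _).trans (max_le hq₂ hq₁), ?_⟩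
    intro c hc
    obtain ⟨z, rfl⟩ := hρ c
    have hev : ∀ i, ρ ((A i).eval z) = (a i).eval (ρ z) := fun i => by
      rw [fda_ev, hA']
    have hdev : ∀ i, ρ ((Polynomial.derivative (A i)).eval z) =
        (Polynomial.derivative (a i)).eval (ρ z) := fun i => by
      rw [fda_ev, ← Polynomial.derivative_map, hA']
    have hg : eval (fun i => ρ ((A i).eval z)) Δ ≠ 0 := by
      rw [funext hev]
      exact hc
    have hs : (fun i => (A i + Polynomial.C (π * w i)).eval z) =
        (fun i => (A i).eval z) + π • w := by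
      funext i
      simp
    have hs' : (fun i => ρ ((A i + Polynomial.C (π * w i)).eval z)) =
        fun i => ρ ((A i).eval z) := by
      funext i
      simp [hπ]
    have hd : ∀ i, Polynomial.derivative (A i + Polynomial.C (π * w i)) =
        Polynomial.derivative (A i) := fun i => by simp
    have h1 := hq₁' z hg
    have h2 := hq₂' z (by rw [hs']; exact hg)
    have h3 := h.two _ hg w (fun i => ρ ((Polynomial.derivative (A i)).eval z))
    rw [hs] at h2
    simp only [hd] at h2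
    rw [h2, h1, hw, funext hev, funext hdev] at h3
    rw [Polynomial.eval_sub]
    linear_combination -h3

/-- Proof: `two` and `hom` for `c` and `c + π h`, `smulB`. -/
theorem Pc.homB {P : (Fin (d + 1) → R) → (Fin (d + 1) → κ) → κ}
    {B : (Fin (d + 1) → κ) → (Fin (d + 1) → κ) → (Fin (d + 1) → κ) → κ}
    (h : Pc ρ π Δ j P B) (hρ : Function.Surjective ρ) (hπ : ρ π = 0) {e : ℕ}
    (hΔ : Δ.IsHomogeneous e) {y : Fin (d + 1) → κ} (hy : eval y Δ ≠ 0) {t : κ} (ht : t ≠ 0)
    (η u : Fin (d + 1) → κ) : t ^ 2 * B (t • y) η u = t ^ j * B y η u := by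
  obtain ⟨w, hw⟩ := fda_vec hρ η
  obtain ⟨c, hc⟩ := fda_vec hρ y
  obtain ⟨τ, rfl⟩ := hρ t
  have hg : eval (fun r => ρ (c r)) Δ ≠ 0 := by rwa [hc]
  have hg' : eval (fun r => ρ ((c + π • w) r)) Δ ≠ 0 := by rwa [fda_shift hπ]
  have hsc : (fun r => ρ ((τ • c) r)) = ρ τ • y := by
    funext r
    rw [← hc]
    simp
  have hsw : (fun r => ρ ((τ • w) r)) = ρ τ • η := by
    funext r
    rw [← hw]
    simp
  have hgt : eval (fun r => ρ ((τ • c) r)) Δ ≠ 0 := by
    rw [hsc, fda_hom_eval hΔ]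
    exact mul_ne_zero (pow_ne_zero _ ht) hy
  have h1 := h.hom c hg τ ht u
  have h2 := h.hom _ hg' τ ht u
  have h3 := h.two _ hgt (τ • w) u
  have h4 := h.two _ hg w u
  have h5 : τ • (c + π • w) = τ • c + π • (τ • w) := by
    rw [smul_add, smul_comm]
  rw [hsc, hsw, h.smulB _ (by rw [← hsc]; exact hgt)] at h3
  rw [h5, h3, h4, hc, hw] at h2
  linear_combination h2 - h1

/-- Linear combinations. -/
theorem pc_sum {n : ℕ} {P : Fin n → (Fin (d + 1) → R) → (Fin (d + 1) → κ) → κ}
    {B : Fin n → (Fin (d + 1) → κ) → (Fin (d + 1) → κ) → (Fin (d + 1) → κ) → κ}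
    (h : ∀ i, Pc ρ π Δ j (P i) (B i)) (η : Fin n → κ) :
    Pc ρ π Δ j (fun c u => ∑ i, η i * P i c u) (fun y v u => ∑ i, η i * B i y v u) := by
  refine ⟨?_, ?_, ?_, ?_, ?_, ?_, ?_⟩
  · intro c hc u u'
    rw [← Finset.sum_add_distrib]
    refine Finset.sum_congr rfl fun i _ => ?_
    rw [(h i).add c hc]
    ring
  · intro c hc t u
    rw [Finset.mul_sum]
    refine Finset.sum_congr rfl fun i _ => ?_
    rw [(h i).smul c hc]
    ring
  · intro c hc t ht u
    rw [Finset.mul_sum, Finset.mul_sum]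
    refine Finset.sum_congr rfl fun i _ => ?_
    have h1 := (h i).hom c hc t ht u
    linear_combination η i * h1
  · intro m a ha
    choose q hq hq' using fun i => (h i).arc m a ha
    refine ⟨∑ i, Polynomial.C (η i) * q i, ?_, ?_⟩
    · refine Polynomial.natDegree_sum_le_of_forall_le _ _ fun i _ => ?_
      exact (Polynomial.natDegree_C_mul_le _ _).trans (hq i)
    · intro z hz
      rw [Polynomial.eval_finsetSum]
      refine Finset.sum_congr rfl fun i _ => ?_
      rw [hq' i z hz, Polynomial.eval_mul, Polynomial.eval_C]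
  · intro y hy v v' u
    rw [← Finset.sum_add_distrib]
    refine Finset.sum_congr rfl fun i _ => ?_
    rw [(h i).addB y hy]
    ring
  · intro y hy t v u
    rw [Finset.mul_sum]
    refine Finset.sum_congr rfl fun i _ => ?_
    rw [(h i).smulB y hy]
    ring
  · intro c hc v u
    rw [← Finset.sum_add_distrib]
    refine Finset.sum_congr rfl fun i _ => ?_
    rw [(h i).two c hc]
    ring

/-- If `B = 0`: a polynomial. Proof: `P c u` depends only on `ρ c` (`two`, `hker`); `P' y u = P c u` for a lift `c` of `y`; `GM.Ar Δ j P'` (lift arcs), `hom`; `ar_hpoly` with `k = 1`. -/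
theorem Pc.poly [Infinite κ] {P : (Fin (d + 1) → R) → (Fin (d + 1) → κ) → κ}
    {B : (Fin (d + 1) → κ) → (Fin (d + 1) → κ) → (Fin (d + 1) → κ) → κ}
    (h : Pc ρ π Δ j P B) (hρ : Function.Surjective ρ) (hπ : ρ π = 0)
    (hker : ∀ x, ρ x = 0 → ∃ y, x = π * y) {e : ℕ} (h0 : Δ ≠ 0) (hΔ : Δ.IsHomogeneous e)
    {p : ℕ} (hp : p.Prime) [CharP κ p] (hpf : ∀ x : κ, ∃ y, y ^ p = x)
    (hB : ∀ y, eval y Δ ≠ 0 → ∀ η u, B y η u = 0) :
    ∃ g : Fin (d + 1) → MvPolynomial (Fin (d + 1)) κ, (∀ r, (g r).IsHomogeneous (j - 1)) ∧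
      ∀ c, eval (fun r => ρ (c r)) Δ ≠ 0 → ∀ u,
        P c u = ∑ r, eval (fun r => ρ (c r)) (g r) * u r := by
  choose l hl using fun y : Fin (d + 1) → κ => fda_vec (ρ := ρ) hρ y
  have key : ∀ c, eval (fun r => ρ (c r)) Δ ≠ 0 → ∀ u, P c u = P (l fun r => ρ (c r)) u := by
    intro c hc u
    obtain ⟨c', hc'⟩ : ∃ c' : Fin (d + 1) → R, c' = l fun r => ρ (c r) := ⟨_, rfl⟩
    have h1 : (fun r => ρ (c' r)) = fun r => ρ (c r) := by
      rw [hc']
      exact hl _
    choose w hw using fun r => hker (c r - c' r) (by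
      rw [map_sub, congrFun h1 r, sub_self])
    have h2 : c = c' + π • w := by
      funext r
      have := hw r
      rw [Pi.add_apply, Pi.smul_apply, smul_eq_mul]
      linear_combination this
    have h3 : eval (fun r => ρ (c' r)) Δ ≠ 0 := by rwa [h1]
    have h4 := h.two c' h3 w u
    rw [← h2, hB _ h3, add_zero] at h4
    rw [h4, hc']
  have har : GM.Ar Δ j (fun y u => P (l y) u) := by
    refine ⟨?_, ?_, ?_⟩
    · intro y hy u u'
      exact h.add _ (by rwa [hl]) u u'
    · intro y hy u t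
      exact h.smul _ (by rwa [hl]) t u
    · intro n a ha
      obtain ⟨A, hA, hA'⟩ := fda_lift hρ a ha
      obtain ⟨q, hq, hq'⟩ := h.arc n A hA
      refine ⟨q, hq, ?_⟩
      intro c hc
      obtain ⟨z, rfl⟩ := hρ c
      have hev : ∀ i, ρ ((A i).eval z) = (a i).eval (ρ z) := fun i => by
        rw [fda_ev, hA']
      have hdev : ∀ i, ρ ((Polynomial.derivative (A i)).eval z) =
          (Polynomial.derivative (a i)).eval (ρ z) := fun i => by
        rw [fda_ev, ← Polynomial.derivative_map, hA']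
      have hg : eval (fun i => ρ ((A i).eval z)) Δ ≠ 0 := by
        rw [funext hev]
        exact hc
      have h1 := hq' z hg
      have h2 := key (fun i => (A i).eval z) hg
        (fun i => ρ ((Polynomial.derivative (A i)).eval z))
      rw [h1] at h2
      simp only [hev, hdev] at h2
      exact h2.symm
  obtain ⟨g, hg, hg'⟩ := ar_hpoly (k := 1) (j := j) h0 hΔ hp hpf har (by
    intro b hb t ht u
    obtain ⟨τ, rfl⟩ := hρ t
    have hgb : eval (fun r => ρ (l b r)) Δ ≠ 0 := by rwa [hl]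
    have hsc : (fun r => ρ ((τ • l b) r)) = ρ τ • b := by
      funext r
      have := congrFun (hl b) r
      simp [← this]
    have hgt : eval (fun r => ρ ((τ • l b) r)) Δ ≠ 0 := by
      rw [hsc, fda_hom_eval hΔ]
      exact mul_ne_zero (pow_ne_zero _ ht) hb
    have h1 := h.hom (l b) hgb τ ht u
    have h2 := key (τ • l b) hgt u
    rw [hsc] at h2
    show ρ τ ^ 1 * P (l (ρ τ • b)) u = ρ τ ^ j * P (l b) u
    rw [← h2, pow_one]
    exact h1)
  refine ⟨g, hg, fun c hc u => ?_⟩
  rw [key c hc u]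
  exact hg' _ hc u

/-- Proof: `arB`, `homB`, `ar_hpoly` with `k = 2` for `η = e_s`; `η = ∑ η_s e_s` (`addB`, `smulB`). -/
theorem Pc.polyB [Infinite κ] {P : (Fin (d + 1) → R) → (Fin (d + 1) → κ) → κ}
    {B : (Fin (d + 1) → κ) → (Fin (d + 1) → κ) → (Fin (d + 1) → κ) → κ}
    (h : Pc ρ π Δ j P B) (hρ : Function.Surjective ρ) (hπ : ρ π = 0) {e : ℕ} (h0 : Δ ≠ 0)
    (hΔ : Δ.IsHomogeneous e) {p : ℕ} (hp : p.Prime) [CharP κ p]
    (hpf : ∀ x : κ, ∃ y, y ^ p = x) :
    ∃ g : Fin (d + 1) → Fin (d + 1) → MvPolynomial (Fin (d + 1)) κ,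
      (∀ s r, (g s r).IsHomogeneous (j - 2)) ∧
      ∀ y, eval y Δ ≠ 0 → ∀ η u, B y η u = ∑ s, ∑ r, eval y (g s r) * η s * u r := by
  choose g hg hg' using fun s : Fin (d + 1) => ar_hpoly (k := 2) (j := j) h0 hΔ hp hpf
    (h.arB hρ hπ (Pi.single s 1)) (fun b hb t ht u =>
      h.homB hρ hπ hΔ hb ht (Pi.single s 1) u)
  refine ⟨g, hg, fun y hy η u => ?_⟩
  obtain ⟨f, hf⟩ : ∃ f : (Fin (d + 1) → κ) →ₗ[κ] κ, ∀ v, f v = B y v u :=
    ⟨{ toFun := fun v => B y v u
       map_add' := fun v v' => h.addB y hy v v' u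
       map_smul' := fun t v => h.smulB y hy t v u }, fun _ => rfl⟩
  rw [← hf, LinearMap.pi_apply_eq_sum_univ]
  refine Finset.sum_congr rfl fun s _ => ?_
  have h1 : (fun r => if s = r then (1 : κ) else 0) = Pi.single s 1 := by
    funext r
    rw [Pi.single_apply]
    simp [eq_comm]
  rw [h1, hf, hg' s y hy u, smul_eq_mul, Finset.mul_sum]
  refine Finset.sum_congr rfl fun r _ => ?_
  ring

end GX
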