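import Pool.Agent.Lib.MP_f80667_ag.Lv.T
import Pool.Agent.Lib.MP_f80667_ag.Lv.Vn
import Pool.Agent.Lib.MP_f80667_ag.Gy.Fp
import Pool.Agent.Lib.MP_f80667_ag.Gy.Tc
import Pool.Agent.Lib.MP_f80667_ag.Gy.Vp

/-!
The characters of the graded pieces: definitions.

* `Rn L`: the integers of the maximal unramified extension of `K`. `rdn L`: the reduction `Rn L → L.κ`. `rv L x`: the residue of `x` (`0` if `x` is
  not integral). `rD L ψ`: the reduction of `ψ.D`.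
* `rts ψ c`: the roots of `G (c, Y)`.
* `Hyt f L π k`: the hypotheses; `k` is the degree of the residue field of `K`.
* `Ch f L π s χ`: `χ` is a character of `Vl s` and `0` on `Vl (s + 1)`.
* `Lw₁ .. n c w a`: `χ` of the value at `(c, w)`, `π ^ s g`, over `Ur ⊥ n` is the trace of `∑ ρ (g_r) a_r`. `lw .. c w`: this vector `a`.
* `Pw .. j c u`: the sum of `ρ (w) ^ j ∑ a_r u_r` over the roots `w`. `Bw`: the second difference.
-/

open ZC BE PE CV IntermediateField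

namespace GX

section fld

variable {K Ω : Type} [Field K] [Field Ω] [Algebra K Ω] (L : Ld K Ω)

/-- The integers of the maximal unramified extension of `K`. -/
def Rn : Subring Ω where
  carrier := {x | L.nm x ≤ 1 ∧ ∃ n, n ≠ 0 ∧ x ∈ L.Ur ⊥ n}
  mul_mem' := by
    rintro x y ⟨h1, n, hn, h2⟩ ⟨h3, n', hn', h4⟩
    refine ⟨?_, n * n', mul_ne_zero hn hn', ?_⟩
    · rw [L.mul]
      exact mul_le_one₀ h1 (L.nonneg _) h3
    · exact mul_mem (Ld.ur_dvd ⊥ (dvd_mul_right _ _) h2) (Ld.ur_dvd ⊥ (dvd_mul_left _ _) h4)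
  one_mem' := ⟨L.one.le, 1, one_ne_zero, one_mem _⟩
  add_mem' := by
    rintro x y ⟨h1, n, hn, h2⟩ ⟨h3, n', hn', h4⟩
    refine ⟨(L.add _ _).trans (max_le h1 h3), n * n', mul_ne_zero hn hn', ?_⟩
    exact add_mem (Ld.ur_dvd ⊥ (dvd_mul_right _ _) h2) (Ld.ur_dvd ⊥ (dvd_mul_left _ _) h4)
  zero_mem' := ⟨by rw [L.zero]; exact zero_le_one, 1, one_ne_zero, zero_mem _⟩
  neg_mem' := by
    rintro x ⟨h1, n, hn, h2⟩
    exact ⟨by rw [L.neg]; exact h1, n, hn, neg_mem h2⟩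

theorem rn_le (x : Rn L) : L.nm (x : Ω) ≤ 1 := x.2.1

theorem mem_rn {x : Ω} {n : ℕ} (hn : n ≠ 0) (hx : x ∈ L.Ur ⊥ n) (h1 : L.nm x ≤ 1) : x ∈ Rn L :=
  ⟨h1, n, hn, hx⟩

/-- The reduction. -/
noncomputable def rdn : Rn L →+* L.κ where
  toFun x := IsLocalRing.residue L.V ⟨x, x.2.1⟩
  map_one' := map_one (IsLocalRing.residue L.V)
  map_mul' x y := map_mul (IsLocalRing.residue L.V) ⟨x, x.2.1⟩ ⟨y, y.2.1⟩
  map_zero' := map_zero (IsLocalRing.residue L.V)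
  map_add' x y := map_add (IsLocalRing.residue L.V) ⟨x, x.2.1⟩ ⟨y, y.2.1⟩

theorem rdn_hv (x : Rn L) : L.rs.Hv (x : Ω) (rdn L x) := ⟨x.2.1, rfl⟩

open Classical in
/-- The residue (`0` if `x` is not integral). -/
noncomputable def rv (x : Ω) : L.κ :=
  if h : L.nm x ≤ 1 then IsLocalRing.residue L.V ⟨x, h⟩ else 0

theorem rv_hv {x : Ω} (h : L.nm x ≤ 1) : L.rs.Hv x (rv L x) := by
  unfold rv
  rw [dif_pos h]
  exact ⟨h, rfl⟩

theorem rv_rdn (x : Rn L) : rv L (x : Ω) = rdn L x := (rv_hv L x.2.1).uniq (rdn_hv L x)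

variable {L} {π : Ω}

/-- The uniformizer as an element of `Rn L`. -/
def Uf.rn (hπ : Uf L π) : Rn L := ⟨π, hπ.lt.le, 1, one_ne_zero, hπ.mem _⟩

theorem Uf.coe_rn (hπ : Uf L π) : ((hπ.rn : Rn L) : Ω) = π := rfl

theorem Uf.rdn_rn (hπ : Uf L π) : rdn L hπ.rn = 0 :=
  (rdn_hv L hπ.rn).uniq (L.hv_zero.2 hπ.lt)

end fld

section loc

variable {F : Type} [Field F] {N d m : ℕ} {ι : Type} (f : ι → MvPolynomial (Fin N) F)
  {K Ω : Type} [Field K] [CharZero K] [Field Ω] [Algebra K Ω] [Algebra F K] [Algebra F Ω]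
  [IsScalarTower F K Ω] [IsAlgClosure K Ω] (L : Ld K Ω) (ψ : Prj K N d) (π : Ω)

open Classical in
/-- The roots of `G (c, Y)`. -/
noncomputable def rts (ψ : Prj K N d) (c : Fin (d + 1) → Ω) : Finset Ω :=
  ((ψ.om Ω).gc c).roots.toFinset

/-- The reduction of `ψ.D`. -/
noncomputable def rD : MvPolynomial (Fin (d + 1)) L.κ :=
  ∑ e ∈ ψ.D.support, MvPolynomial.monomial e (rv L (algebraMap K Ω (ψ.D.coeff e)))

/-- The hypotheses. -/
structure Hyt (k : ℕ) : Prop where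
  hm : Hm f
  uf : Uf L π
  h2 : 2 < L.p
  rf : L.Rf ⊥ k

/-- `χ` is a character of the graded piece of level `s`. -/
structure Ch (s : ℕ) (χ : ((Xf f).pt Ω →₀ ℤ) → ZMod L.p) : Prop where
  add : ∀ z ∈ Vl f L π s, ∀ z' ∈ Vl f L π s, χ (z + z') = χ z + χ z'
  zero : ∀ z ∈ Vl f L π (s + 1), χ z = 0

variable (s : ℕ) (χ : ((Xf f).pt Ω →₀ ℤ) → ZMod L.p)

/-- `χ` of the value at `(c, w)`, `π ^ s g`, over `Ur ⊥ n` is the trace of `∑ ρ (g_r) a_r`. -/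
def Lw₁ (n : ℕ) (c : Fin (d + 1) → Ω) (w : Ω) (a : Fin (d + 1) → L.κ) : Prop :=
  (∀ r, a r ^ L.p ^ n = a r) ∧ ∀ (g : Fin (d + 1) → Ω) (y : Fin (d + 1) → L.κ),
    Iv L (L.Ur ⊥ n) g → (∀ r, L.rs.Hv (g r) (y r)) →
      ((χ (cyv f L ψ (L.Ur ⊥ n) c w (π ^ s • g))).val : L.κ) = trn L.p n (∑ r, y r * a r)

variable (k : ℕ)

open Classical in
/-- The trace functional at `(c, w)`. -/
noncomputable def lw (c : Fin (d + 1) → Ω) (w : Ω) : Fin (d + 1) → L.κ :=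
  if h : ∃ a, ∀ n, n ≠ 0 → k ∣ n → Gp L ψ (L.Ur ⊥ n) c w → Lw₁ f L ψ π s χ n c w a then
    h.choose else 0

/-- The sum over the roots. -/
noncomputable def Pw (j : ℕ) (c : Fin (d + 1) → Rn L) (u : Fin (d + 1) → L.κ) : L.κ :=
  ∑ w ∈ rts ψ fun r => (c r : Ω), rv L w ^ j *
    ∑ r, lw f L ψ π s χ k (fun r => (c r : Ω)) w r * u r

open Classical in
/-- A lift of a vector. -/
noncomputable def lft (y : Fin (d + 1) → L.κ) : Fin (d + 1) → Rn L :=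
  if h : ∃ c : Fin (d + 1) → Rn L, ∀ r, rdn L (c r) = y r then h.choose else 0

/-- The second difference. -/
noncomputable def Bw (hπ : Uf L π) (j : ℕ) (y η u : Fin (d + 1) → L.κ) : L.κ :=
  Pw f L ψ π s χ k j (lft L y + hπ.rn • lft L η) u - Pw f L ψ π s χ k j (lft L y) u

end loc

end GX
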