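import Pool.Agent.Lib.MP_f80667_ag.Lv.Ka

/-! The integers of the maximal unramified extension and their residues. -/

open ZC BE PE CV IntermediateField

namespace GX

section fld

variable {K Ω : Type} [Field K] [CharZero K] [Field Ω] [Algebra K Ω] [IsAlgClosure K Ω]
  {L : Ld K Ω} {π : Ω} {k : ℕ}

private theorem kb_iter {κ : Type} [Monoid κ] {p n : ℕ} {a : κ} (h : a ^ p ^ n = a) (e : ℕ) :
    a ^ p ^ (n * e) = a := by
  rw [pow_mul]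
  induction e with
  | zero => rw [pow_zero, pow_one]
  | succ e ih => rw [pow_succ, pow_mul, ih, h]

private theorem kb_te (a : L.κ) : ∃ N' ≠ 0, ∃ z ∈ L.Te N', L.rs.Hv z a := by
  obtain ⟨y, hy⟩ := L.hv_surj a
  obtain ⟨N', hN', z, hz, hyz⟩ := Ld.te_rep (L.hv_int hy)
  obtain ⟨t, ht⟩ := L.hv_of (Ld.te_int hN' hz)
  have h3 : a = t := (L.hv_sub hy ht).2 hyz
  rw [← h3] at ht
  exact ⟨N', hN', z, hz, ht⟩

private theorem kb_kf (hk : k ≠ 0) (t : Finset L.κ) :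
    ∃ n, n ≠ 0 ∧ k ∣ n ∧ ∀ a ∈ t, a ^ L.p ^ n = a := by
  classical
  induction t using Finset.induction_on with
  | empty => exact ⟨k, hk, dvd_rfl, fun a ha => absurd ha (Finset.notMem_empty a)⟩
  | insert b s _ ih =>
    obtain ⟨n, hn, hrn, h⟩ := ih
    obtain ⟨N', hN', z, hz, ht⟩ := kb_te (K := K) b
    have h4 : b ^ L.p ^ N' = b := by
      have h5 := ht.pow (L.p ^ N')
      rw [show z ^ L.p ^ N' = z from hz] at h5
      exact h5.uniq ht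
    refine ⟨n * N', mul_ne_zero hn hN', hrn.mul_right N', fun a ha => ?_⟩
    rcases Finset.mem_insert.1 ha with rfl | ha
    · rw [mul_comm n N']
      exact kb_iter h4 n
    · exact kb_iter (h a ha) N'

omit [CharZero K] [IsAlgClosure K Ω] in
private theorem kb_ur (s : Finset Ω) (hs : ∀ x ∈ s, x ∈ Rn L) :
    ∃ n, n ≠ 0 ∧ ∀ x ∈ s, x ∈ L.Ur ⊥ n := by
  classical
  induction s using Finset.induction_on with
  | empty => exact ⟨1, one_ne_zero, fun a ha => absurd ha (Finset.notMem_empty a)⟩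
  | insert b s _ ih =>
    obtain ⟨n, hn, h⟩ := ih fun x hx => hs x (Finset.mem_insert_of_mem hx)
    obtain ⟨-, n', hn', hb⟩ := hs b (Finset.mem_insert_self _ _)
    refine ⟨n * n', mul_ne_zero hn hn', fun x hx => ?_⟩
    rcases Finset.mem_insert.1 hx with rfl | hx
    · exact Ld.ur_dvd ⊥ (dvd_mul_left _ _) hb
    · exact Ld.ur_dvd ⊥ (dvd_mul_right _ _) (h x hx)

private theorem kb_div (hπ : Uf L π) {n : ℕ} (hn : n ≠ 0) {x : Ω} (hx : x ∈ L.Ur ⊥ n)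
    (h : L.nm x < 1) : x / π ∈ L.Ur ⊥ n ∧ L.nm (x / π) ≤ 1 ∧ x = π * (x / π) := by
  have h1 : L.nm x ≤ L.nm π := hπ.um_lt ⟨n, hn, le_rfl⟩ hx h
  have e : x = π * (x / π) := by
    rw [mul_div_cancel₀]
    exact hπ.ne
  refine ⟨div_mem hx (hπ.mem _), ?_, e⟩
  rw [e, L.mul] at h1
  have h2 : L.nm π * L.nm (x / π) ≤ L.nm π * 1 := by rw [mul_one]; exact h1
  exact le_of_mul_le_mul_left h2 hπ.pos

/-- Finitely many elements of `Rn L` and of `L.κ` are over one field `Ur ⊥ n`. Proof: induction on the finsets (`Finset.induction_on`); `Ld.ur_dvd`; for `L.κ` as in `exists_kf` of `Gy/Vp.lean` (`[L.Unr]` is not used there). -/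
theorem rn_fin (hk : k ≠ 0) (s : Finset Ω) (hs : ∀ x ∈ s, x ∈ Rn L) (t : Finset L.κ) :
    ∃ n, n ≠ 0 ∧ k ∣ n ∧ (∀ x ∈ s, x ∈ L.Ur ⊥ n) ∧ ∀ a ∈ t, a ^ L.p ^ n = a := by
  obtain ⟨n, hn, hkn, h⟩ := kb_kf (K := K) hk t
  obtain ⟨n', hn', h'⟩ := kb_ur (K := K) s hs
  refine ⟨n * n', mul_ne_zero hn hn', hkn.mul_right _, fun x hx => ?_, fun a ha => ?_⟩
  · exact Ld.ur_dvd ⊥ (dvd_mul_left _ _) (h' x hx)
  · exact kb_iter (h a ha) n'

/-- Proof: `L.hv_surj`, `Ld.te_rep`, `L.hv_sub`: a Teichmüller representative. -/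
theorem rdn_surj : Function.Surjective (rdn L) := by
  intro a
  obtain ⟨N', hN', z, hz, ht⟩ := kb_te (K := K) a
  refine ⟨⟨z, mem_rn L hN' (Ld.te_ur hz) (Ld.te_int hN' hz)⟩, ?_⟩
  exact (rdn_hv L _).uniq ht

/-- Proof: `nm x < 1` (`L.hv_zero`), `Uf.um_lt`: `nm x ≤ nm π`, so `x / π ∈ Rn L`. -/
theorem Uf.rdn_ker (hπ : Uf L π) (x : Rn L) (h : rdn L x = 0) : ∃ y, x = hπ.rn * y := by
  have h0 := rdn_hv L x
  rw [h] at h0
  obtain ⟨-, n, hn, hx⟩ := x.2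
  obtain ⟨h1, h2, h3⟩ := kb_div hπ hn hx (L.hv_zero.1 h0)
  exact ⟨⟨(x : Ω) / π, mem_rn L hn h1 h2⟩, Subtype.ext h3⟩

/-- Two elements with the same residue. Proof: as `rdn_ker`. -/
theorem Uf.rv_eq (hπ : Uf L π) {n : ℕ} (hn : n ≠ 0) {x y : Ω} (hx : x ∈ L.Ur ⊥ n)
    (hy : y ∈ L.Ur ⊥ n) {a : L.κ} (h : L.rs.Hv x a) (h' : L.rs.Hv y a) :
    ∃ z ∈ L.Ur ⊥ n, L.nm z ≤ 1 ∧ y = x + π * z := by
  obtain ⟨h1, h2, h3⟩ := kb_div hπ hn (sub_mem hy hx) ((L.hv_sub h' h).1 rfl)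
  refine ⟨(y - x) / π, h1, h2, ?_⟩
  rw [← h3]
  ring

/-- Lifts to `Ur ⊥ n`. Proof: as `tcr_lift` in `Gy/Tc.lean` (or `kf_te` of `Gy/Va.lean`), `Ld.te_ur`. -/
theorem kf_ur {n : ℕ} (hn : n ≠ 0) {a : L.κ} (ha : a ^ L.p ^ n = a) :
    ∃ z ∈ L.Ur ⊥ n, L.rs.Hv z a := by
  obtain ⟨N', hN', z, hz, hr⟩ := kb_te (K := K) a
  refine ⟨z, Ld.te_ur ?_, hr⟩
  have h4 : L.rs.Hv (z ^ L.p ^ n) a := by
    have h5 := hr.pow (L.p ^ n)
    rwa [ha] at h5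
  have h6 := (L.hv_sub h4 hr).1 rfl
  refine Ld.te_inj hN' ?_ hz h6
  change (z ^ L.p ^ n) ^ L.p ^ N' = z ^ L.p ^ n
  rw [← pow_mul, mul_comm, pow_mul, show z ^ L.p ^ N' = z from hz]

omit [CharZero K] [IsAlgClosure K Ω] in
/-- Proof: `choose`: every `y r` has a lift (`rdn_surj`). -/
theorem lft_eq {d : ℕ} (h : Function.Surjective (rdn L)) (y : Fin (d + 1) → L.κ)
    (r : Fin (d + 1)) : rdn L (lft L y r) = y r := by
  have h1 : ∃ c : Fin (d + 1) → Rn L, ∀ r, rdn L (c r) = y r := by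
    choose c hc using fun r => h (y r)
    exact ⟨c, hc⟩
  unfold lft
  rw [dif_pos h1]
  exact h1.choose_spec r

end fld

end GX
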