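import Pool.Agent.Lib.MP_f80667_ag.Lv.Kb

/-! The roots over a point. -/

open ZC BE PE CV IntermediateField

namespace GX

variable {F : Type} [Field F] {N d : ℕ} {ι : Type} {f : ι → MvPolynomial (Fin N) F}
  {K Ω : Type} [Field K] [CharZero K] [Field Ω] [Algebra K Ω] [Algebra F K] [Algebra F Ω]
  [IsScalarTower F K Ω] [IsAlgClosure K Ω] {L : Ld K Ω} {ψ : Prj K N d}
  {c h : Fin (d + 1) → Ω} {w : Ω}

/-- Proof: `Prj.Ok.mem_gc` for `hψ.ok`, `om_G`. -/
theorem mem_rts (hψ : Pj f L ψ) : w ∈ rts ψ c ↔ pe c w ψ.G = 0 := by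
  classical
  rw [rts, Multiset.mem_toFinset, hψ.ok.mem_gc, om_G]

/-- Proof: `G (c, Y)` is monic with integral coefficients: `L.root_le` as in `Pj.root` of `Gx/ChC.lean`. -/
theorem rts_le (hψ : Pj f L ψ) (hc : ∀ r, L.nm (c r) ≤ 1) (hw : w ∈ rts ψ c) : L.nm w ≤ 1 := by
  have hm : ((ψ.om Ω).gc c).Monic := (hψ.ok.gc_mon c).1
  refine L.root_le hm (fun i => ?_) (x := w) ?_
  · have h1 : ((ψ.om Ω).gc c).coeff i = MvPolynomial.aeval c (ψ.G.coeff i) := by
      have h2 : ((ψ.om Ω).gc c).coeff i =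
          MvPolynomial.eval c (MvPolynomial.map (algebraMap K Ω) (ψ.G.coeff i)) := by
        rw [Prj.gc, Polynomial.coeff_map]
        change MvPolynomial.eval c ((ψ.G.map (MvPolynomial.map (algebraMap K Ω))).coeff i) = _
        rw [Polynomial.coeff_map]
      rw [h2, MvPolynomial.eval_map, MvPolynomial.aeval_def]
    rw [h1]
    exact GM.ae_le (hψ.iG i) hc
  · rw [Prj.gc_eval, om_G]
    exact (mem_rts hψ).1 hw

/-- Proof: `Multiset.toFinset_card_le`, `Polynomial.card_roots'`, the degree of `G (c, Y)`. -/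
theorem rts_card : (rts ψ c).card ≤ ψ.G.natDegree := by
  classical
  refine (Multiset.toFinset_card_le _).trans ((Polynomial.card_roots' _).trans ?_)
  rw [Prj.gc]
  refine Polynomial.natDegree_map_le.trans ?_
  change (ψ.G.map (MvPolynomial.map (algebraMap K Ω))).natDegree ≤ _
  exact Polynomial.natDegree_map_le

/-- Proof: `L.hv_sub`, `Pj.root_uniq`. -/
theorem rts_inj (hψ : Pj f L ψ) (hc : ∀ r, L.nm (c r) ≤ 1)
    (hD : L.nm (MvPolynomial.aeval c ψ.D) = 1) {w' : Ω} (hw : w ∈ rts ψ c) (hw' : w' ∈ rts ψ c)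
    (h : rv L w = rv L w') : w = w' := by
  have h1 := rts_le hψ hc hw
  have h2 := rts_le hψ hc hw'
  exact hψ.root_uniq hc hD h1 h2 ((mem_rts hψ).1 hw) ((mem_rts hψ).1 hw')
    ((L.hv_sub (rv_hv L h1) (rv_hv L h2)).1 h)

/-- Homogeneity. Proof: `Pj.homG`: `pe (t • c) (t * w) ψ.G = t ^ natDegree * pe c w ψ.G` (compare `Gx/Ec.lean`, `pe_sum`); `Finset.sum_nbij'` with `w ↦ t⁻¹ w`. -/
theorem rts_smul (hψ : Pj f L ψ) {t : Ω} (ht : t ≠ 0) {A : Type} [AddCommMonoid A]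
    (T : Ω → A) : ∑ w ∈ rts ψ (t • c), T w = ∑ w ∈ rts ψ c, T (t * w) := by
  have key : ∀ w : Ω, pe (t • c) (t * w) ψ.G = 0 ↔ pe c w ψ.G = 0 := by
    intro w
    rw [pe_smul hψ.homG le_rfl c w t]
    constructor
    · intro h1
      exact (mul_eq_zero.1 h1).resolve_left (pow_ne_zero _ ht)
    · intro h1
      rw [h1, mul_zero]
  refine Finset.sum_nbij' (fun w => t⁻¹ * w) (fun w => t * w) (fun w hw => ?_) (fun w hw => ?_)
    (fun w _ => mul_inv_cancel_left₀ ht w) (fun w _ => inv_mul_cancel_left₀ ht w)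
    (fun w _ => by rw [mul_inv_cancel_left₀ ht w])
  · rw [mem_rts hψ, ← key, mul_inv_cancel_left₀ ht w]
    exact (mem_rts hψ).1 hw
  · rw [mem_rts hψ, key]
    exact (mem_rts hψ).1 hw

end GX
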