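import Pool.Agent.Lib.MP_f80667_ag.Lv.Ta
import Pool.Agent.Lib.MP_f80667_ag.Lv.Je

/-!
Values of displacements: level, additivity, parallel displacements, multiplication by `p`.
-/

open ZC BE PE CV IntermediateField

namespace GX

variable {F : Type} [Field F] {N d : ℕ} {ι : Type} {f : ι → MvPolynomial (Fin N) F} {K Ω : Type}
  [Field K] [CharZero K] [Field Ω] [Algebra K Ω] [Algebra F K] [Algebra F Ω]
  [IsScalarTower F K Ω] [IsAlgClosure K Ω] {L : Ld K Ω} {ψ : Prj K N d} {π : Ω}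
  {M : IntermediateField K Ω} {c h h' : Fin (d + 1) → Ω} {w : Ω}

private theorem tb_t {L : Ld K Ω} {h : Fin (d + 1) → Ω} (h1 : ∀ r, L.nm (h r) < 1) :
    ∃ t : ℝ, t < 1 ∧ ∀ r, L.nm (h r) ≤ t := by
  obtain ⟨i₀, -, hi₀⟩ := Finset.exists_max_image Finset.univ (fun r => L.nm (h r))
    ⟨0, Finset.mem_univ _⟩
  exact ⟨L.nm (h i₀), h1 i₀, fun r => hi₀ r (Finset.mem_univ r)⟩

private theorem tb_nb0 (hψ : Pj f L ψ) (g : Gp L ψ M c w) : ∃ P : (Xf f).pt Ω,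
    Fp (Xf f) M P ∧ zx f ((ψ.om Ω).pt c w) = Finsupp.single P 1 ∧
      ∀ s, Nb f L ψ π M w s c ((ψ.om Ω).pt c w) P := by
  obtain ⟨k1, -, k2, k3, P, hP, hFp, hz⟩ := g.pt hψ
  refine ⟨P, hFp, hz, fun s => ⟨k1, hP, ?_, fun r => ?_⟩⟩
  · rw [k3, sub_self, L.zero]
    exact zero_lt_one
  · rw [k2, sub_self, L.zero]
    exact pow_nonneg (L.nonneg _) s

private theorem tb_nb (hψ : Pj f L ψ) (g : Gp L ψ M c w) (hh : Iv L M h)
    (h1 : ∀ r, L.nm (h r) < 1) : ∃ P : (Xf f).pt Ω, Fp (Xf f) M P ∧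
      zx f ((ψ.om Ω).pt (c + h) (sht L ψ w (c + h))) = Finsupp.single P 1 ∧
        ∀ s, ∀ c' : Fin (d + 1) → Ω, (∀ r, c' r = c r + h r) →
          Nb f L ψ π M w s c' ((ψ.om Ω).pt (c + h) (sht L ψ w (c + h))) P := by
  obtain ⟨t, ht, h2⟩ := tb_t h1
  obtain ⟨g', hg'⟩ := g.sh hψ hh ht h2
  obtain ⟨k1, -, k2, k3, P, hP, hFp, hz⟩ := g'.pt hψ
  refine ⟨P, hFp, hz, fun s c' hc' => ⟨k1, hP, ?_, fun r => ?_⟩⟩
  · rw [k3]
    exact hg'.trans_lt ht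
  · rw [k2, hc' r, Pi.add_apply, sub_self, L.zero]
    exact pow_nonneg (L.nonneg _) s

private theorem tb_sup [FiniteDimensional K M] (hM : Um L M) {z : (Xf f).pt Ω →₀ ℤ} {s : ℕ}
    (hz : z ∈ Dr f L π s M ⊔ (Xf f).ratEq M Ω) (hf : Fx M z) :
    Nm (K := K) ⊥ M z ∈ Dr f L π s ⊥ ⊔ (Xf f).ratEq K Ω := GM.nm_sup hM hz hf

private theorem tb_nsub [FiniteDimensional K M] (P Q : (Xf f).pt Ω →₀ ℤ) :
    Nm (K := K) ⊥ M (P - Q) = Nm (K := K) ⊥ M P - Nm (K := K) ⊥ M Q :=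
  (GM.nmh (Xf f) M).map_sub P Q

private theorem tb_div (hπ : Uf L π) {s : ℕ} (hh : Iv L M h)
    (h1 : ∀ r, L.nm (h r) ≤ L.nm π ^ s) :
    Iv L M (fun r => (π ^ s)⁻¹ * h r) ∧ ∀ r, π ^ s * ((π ^ s)⁻¹ * h r) = h r := by
  have h0 : π ^ s ≠ 0 := pow_ne_zero s hπ.ne
  have h2 : 0 < L.nm π ^ s := pow_pos hπ.pos s
  refine ⟨fun r => ⟨mul_mem (inv_mem (pow_mem (hπ.mem M) s)) (hh r).1, ?_⟩, fun r => ?_⟩
  · rw [L.mul, L.inv, L.pow, inv_mul_le_iff₀ h2, mul_one]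
    exact h1 r
  · rw [← mul_assoc, mul_inv_cancel₀ h0, one_mul]

theorem cyv_zero (hψ : Pj f L ψ) (g : Gp L ψ M c w) : cyv f L ψ M c w 0 = 0 := by
  unfold cyv
  rw [add_zero, sht_self hψ g, sub_self]
  unfold Nm
  simp only [smul_zero, finsum_zero]

/-- Proof: `sht_sht`. -/
theorem cyv_add (hψ : Pj f L ψ) [FiniteDimensional K M] (g : Gp L ψ M c w) (hh : Iv L M h)
    (hh' : Iv L M h') (h1 : ∀ r, L.nm (h r) < 1) (h1' : ∀ r, L.nm (h' r) < 1) :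
    cyv f L ψ M c w (h + h') =
      cyv f L ψ M c w h + cyv f L ψ M (c + h) (sht L ψ w (c + h)) h' := by
  have h2 : Iv L M (h + h') := fun r =>
    ⟨add_mem (hh r).1 (hh' r).1, (L.add _ _).trans (max_le (hh r).2 (hh' r).2)⟩
  have h3 : ∀ r, L.nm ((h + h') r) < 1 := fun r =>
    (L.add _ _).trans_lt (max_lt (h1 r) (h1' r))
  have h4 := sht_sht hψ g hh h2 h1 h3
  unfold cyv
  rw [← nm_add bot_le, add_assoc c h h', h4]
  congr 1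
  abel

/-- Proof: `Gp.near`, `nrh_mk`, `dr_pt`, `GM.nm_sup` (the trace of a displacement is one). -/
theorem cyv_dr (hπ : Uf L π) (hψ : Pj f L ψ) (hM : Um L M) (g : Gp L ψ M c w)
    (hh : Iv L M h) {s : ℕ} (hs : s ≠ 0) (h1 : ∀ r, L.nm (h r) ≤ L.nm π ^ s) :
    cyv f L ψ M c w h ∈ Dr f L π s ⊥ := by
  have hfd : FiniteDimensional K M := hM.fd
  have ht := hπ.pow_lt hs
  have h2 : ∀ r, L.nm (h r) < 1 := fun r => (h1 r).trans_lt ht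
  obtain ⟨k1, k2, -, -, P, hP, hFp, hz⟩ := g.pt hψ
  obtain ⟨g', -⟩ := g.sh hψ hh ht h1
  obtain ⟨l1, l2, -, -, P', hP', hFp', hz'⟩ := g'.pt hψ
  unfold cyv
  rw [hz, hz']
  refine dr_nm hM (dr_pt hFp' hFp ?_)
  exact nrh_mk ht hP' hP (fun j => (l1 j).2) (fun j => (k1 j).2) l2 (g.near hψ hh ht h1)

/-- **ADD.** Proof: `x_jen'` twice (for `h`, `h'` and for `h + h'`, `0` with the midpoint `(h + h') / 2`), `GM.nm_sup`. -/
theorem cyv_four (hπ : Uf L π) (hψ : Pj f L ψ) (h2 : 2 < L.p) (hM : Um L M)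
    (g : Gp L ψ M c w) (hh : Iv L M h) (hh' : Iv L M h') {s : ℕ} (hs : s ≠ 0)
    (h1 : ∀ r, L.nm (h r) ≤ L.nm π ^ s) (h1' : ∀ r, L.nm (h' r) ≤ L.nm π ^ s) :
    cyv f L ψ M c w (h + h') - cyv f L ψ M c w h - cyv f L ψ M c w h' ∈
      Dr f L π (2 * s) ⊥ ⊔ (Xf f).ratEq K Ω := by
  have hfd : FiniteDimensional K M := hM.fd
  have ht := hπ.pow_lt hs
  have hs2 : 2 * s ≠ 0 := by omega
  have h3 : Iv L M (h + h') := fun r =>
    ⟨add_mem (hh r).1 (hh' r).1, (L.add _ _).trans (max_le (hh r).2 (hh' r).2)⟩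
  have h4 : ∀ r, L.nm (h r) < 1 := fun r => (h1 r).trans_lt ht
  have h4' : ∀ r, L.nm (h' r) < 1 := fun r => (h1' r).trans_lt ht
  have h5 : ∀ r, L.nm ((h + h') r) < 1 := fun r =>
    (L.add _ _).trans_lt (max_lt (h4 r) (h4' r))
  obtain ⟨P₀, f₀, z₀, n₀⟩ := tb_nb0 (π := π) hψ g
  obtain ⟨P₁, f₁, z₁, n₁⟩ := tb_nb (π := π) hψ g hh h4
  obtain ⟨P₂, f₂, z₂, n₂⟩ := tb_nb (π := π) hψ g hh' h4'
  obtain ⟨P₃, f₃, z₃, n₃⟩ := tb_nb (π := π) hψ g h3 h5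
  obtain ⟨u1, u2⟩ := tb_div hπ hh h1
  obtain ⟨v1, v2⟩ := tb_div hπ hh' h1'
  have hα1 : L.nm (π ^ s) < 1 := by
    rw [L.pow]
    exact ht
  have hz := x_add hπ hψ h2 hM g.iv u1 v1 g.mem g.le g.D
    (by rw [g.G, L.zero]; exact zero_lt_one) (pow_mem (hπ.mem M) s) hα1 hs2
    (by rw [L.pow, ← pow_mul, mul_comm]) (n₀ (2 * s))
    (n₁ (2 * s) _ fun r => by rw [u2 r]) (n₂ (2 * s) _ fun r => by rw [v2 r])
    (n₃ (2 * s) _ fun r => by rw [mul_add, u2 r, v2 r, Pi.add_apply])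
  have hf : Fx M (Finsupp.single P₁ 1 + Finsupp.single P₂ 1 -
      (Finsupp.single P₀ 1 + Finsupp.single P₃ 1) : (Xf f).pt Ω →₀ ℤ) :=
    ((fx_single f₁ 1).add (fx_single f₂ 1)).sub ((fx_single f₀ 1).add (fx_single f₃ 1))
  have hk := neg_mem (tb_sup hM hz hf)
  unfold cyv
  rw [z₀, z₁, z₂, z₃, ← tb_nsub, ← tb_nsub]
  have e1 : (Finsupp.single P₃ 1 - Finsupp.single P₀ 1 - (Finsupp.single P₁ 1 -
      Finsupp.single P₀ 1) - (Finsupp.single P₂ 1 - Finsupp.single P₀ 1) : (Xf f).pt Ω →₀ ℤ) =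
      0 - (Finsupp.single P₁ 1 + Finsupp.single P₂ 1 -
      (Finsupp.single P₀ 1 + Finsupp.single P₃ 1)) := by abel
  rw [e1, tb_nsub]
  have e2 : Nm (K := K) ⊥ M (0 : (Xf f).pt Ω →₀ ℤ) = 0 := (GM.nmh (Xf f) M).map_zero
  rw [e2, zero_sub]
  exact hk

/-- **PAR.** Proof: `x_par'`: the points over `c`, `c + a v`, `c + b v`, `c + (a + b) v`; `GM.nm_sup`. -/
theorem cyv_par (hπ : Uf L π) (hψ : Pj f L ψ) (hM : Um L M) (g : Gp L ψ M c w)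
    {a b : Ω} (ha : a ∈ M) (hb : b ∈ M) {v : Fin (d + 1) → Ω} (hv : Iv L M v) {s t : ℕ}
    (hs : s ≠ 0) (ht : t ≠ 0) (h1 : L.nm a ≤ L.nm π ^ s) (h1' : L.nm b ≤ L.nm π ^ t) :
    cyv f L ψ M (c + a • v) (sht L ψ w (c + a • v)) (b • v) - cyv f L ψ M c w (b • v) ∈
      Dr f L π (s + t) ⊥ ⊔ (Xf f).ratEq K Ω := by
  have hfd : FiniteDimensional K M := hM.fd
  have hta := hπ.pow_lt hs
  have htb := hπ.pow_lt ht
  have ha1 : L.nm a < 1 := h1.trans_lt hta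
  have hb1 : L.nm b < 1 := h1'.trans_lt htb
  have hst : s + t ≠ 0 := by omega
  have hsm : ∀ {a : Ω}, a ∈ M → L.nm a < 1 → Iv L M (a • v) ∧ ∀ r, L.nm ((a • v) r) < 1 := by
    intro a ha ha1
    have h2 : ∀ r, L.nm ((a • v) r) < 1 := fun r => by
      rw [Pi.smul_apply, smul_eq_mul, L.mul]
      exact mul_lt_one_of_nonneg_of_lt_one_left (L.nonneg _) ha1 (hv r).2
    exact ⟨fun r => ⟨mul_mem ha (hv r).1, (h2 r).le⟩, h2⟩
  obtain ⟨ka, ka'⟩ := hsm ha ha1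
  obtain ⟨kb, kb'⟩ := hsm hb hb1
  have h3 : Iv L M (a • v + b • v) := fun r =>
    ⟨add_mem (ka r).1 (kb r).1, (L.add _ _).trans (max_le (ka r).2 (kb r).2)⟩
  have h5 : ∀ r, L.nm ((a • v + b • v) r) < 1 := fun r =>
    (L.add _ _).trans_lt (max_lt (ka' r) (kb' r))
  obtain ⟨P₀, f₀, z₀, n₀⟩ := tb_nb0 (π := π) hψ g
  obtain ⟨P₁, f₁, z₁, n₁⟩ := tb_nb (π := π) hψ g ka ka'
  obtain ⟨P₂, f₂, z₂, n₂⟩ := tb_nb (π := π) hψ g kb kb'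
  obtain ⟨P₃, f₃, z₃, n₃⟩ := tb_nb (π := π) hψ g h3 h5
  have hz := x_par hπ hψ hM g.iv hv g.mem g.le g.D
    (by rw [g.G, L.zero]; exact zero_lt_one) hst ⟨ha, ha1⟩ ⟨hb, hb1⟩
    (by
      rw [L.mul, pow_add]
      exact mul_le_mul h1 h1' (L.nonneg _) (pow_nonneg (L.nonneg _) _)) (n₀ (s + t))
    (n₁ (s + t) _ fun r => rfl) (n₂ (s + t) _ fun r => rfl)
    (n₃ (s + t) _ fun r => by
      rw [Pi.add_apply, Pi.smul_apply, Pi.smul_apply, smul_eq_mul, smul_eq_mul]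
      ring)
  have hf : Fx M (Finsupp.single P₁ 1 + Finsupp.single P₂ 1 -
      (Finsupp.single P₀ 1 + Finsupp.single P₃ 1) : (Xf f).pt Ω →₀ ℤ) :=
    ((fx_single f₁ 1).add (fx_single f₂ 1)).sub ((fx_single f₀ 1).add (fx_single f₃ 1))
  have hk := neg_mem (tb_sup hM hz hf)
  have h4 := sht_sht hψ g ka h3 ka' h5
  unfold cyv
  rw [add_assoc c (a • v) (b • v), h4, z₀, z₁, z₂, z₃, ← tb_nsub]
  have e1 : (Finsupp.single P₃ 1 - Finsupp.single P₁ 1 - (Finsupp.single P₂ 1 -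
      Finsupp.single P₀ 1) : (Xf f).pt Ω →₀ ℤ) =
      0 - (Finsupp.single P₁ 1 + Finsupp.single P₂ 1 -
      (Finsupp.single P₀ 1 + Finsupp.single P₃ 1)) := by abel
  rw [e1, tb_nsub]
  have e2 : Nm (K := K) ⊥ M (0 : (Xf f).pt Ω →₀ ℤ) = 0 := (GM.nmh (Xf f) M).map_zero
  rw [e2, zero_sub]
  exact hk

/-- **MUL.** Proof: `x_pm'`, `GM.nm_sup`. -/
theorem cyv_mul (hπ : Uf L π) (hψ : Pj f L ψ) (hM : Um L M) (g : Gp L ψ M c w)
    (hh : Iv L M h) {e s : ℕ} (he : L.nm (L.p : Ω) = L.nm π ^ e) (hs : s ≠ 0)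
    (h1 : ∀ r, L.nm (h r) ≤ L.nm π ^ s) :
    L.p • cyv f L ψ M c w h - cyv f L ψ M c w ((L.p : Ω) • h) ∈
      Dr f L π (min (e + 2 * s) (L.p * s)) ⊥ ⊔ (Xf f).ratEq K Ω := by
  have hfd : FiniteDimensional K M := hM.fd
  have ht := hπ.pow_lt hs
  have hpp := L.pp.two_le
  have hs2 : min (e + 2 * s) (L.p * s) ≠ 0 := by
    have h3 : 0 < L.p * s := Nat.mul_pos (by omega) (by omega)
    omega
  have h4 : ∀ r, L.nm (h r) < 1 := fun r => (h1 r).trans_lt ht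
  have hpM : (L.p : Ω) ∈ M := IntermediateField.natCast_mem M L.p
  have h5 : ∀ r, L.nm (((L.p : Ω) • h) r) < 1 := fun r => by
    rw [Pi.smul_apply, smul_eq_mul, L.mul]
    exact mul_lt_one_of_nonneg_of_lt_one_left (L.nonneg _) L.lt (hh r).2
  have h3 : Iv L M ((L.p : Ω) • h) := fun r => ⟨mul_mem hpM (hh r).1, (h5 r).le⟩
  obtain ⟨P₀, f₀, z₀, n₀⟩ := tb_nb0 (π := π) hψ g
  obtain ⟨P₁, f₁, z₁, n₁⟩ := tb_nb (π := π) hψ g hh h4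
  obtain ⟨P₂, f₂, z₂, n₂⟩ := tb_nb (π := π) hψ g h3 h5
  obtain ⟨u1, u2⟩ := tb_div hπ hh h1
  have hα1 : L.nm (π ^ s) < 1 := by
    rw [L.pow]
    exact ht
  have hz := x_mul hπ hψ hM g.iv u1 g.mem g.le g.D
    (by rw [g.G, L.zero]; exact zero_lt_one) hs2 ⟨pow_mem (hπ.mem M) s, hα1⟩
    (by
      rw [he, L.pow, ← pow_mul, ← pow_add, mul_comm s 2]
      exact hπ.pow_le (min_le_left _ _))
    (by
      rw [L.pow, ← pow_mul, mul_comm s L.p]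
      exact hπ.pow_le (min_le_right _ _)) (n₀ _)
    (n₁ _ _ fun r => by rw [u2 r])
    (n₂ _ _ fun r => by rw [mul_assoc, u2 r, Pi.smul_apply, smul_eq_mul])
  have hf : Fx M (L.p • (Finsupp.single P₁ 1 - Finsupp.single P₀ 1) -
      (Finsupp.single P₂ 1 - Finsupp.single P₀ 1) : (Xf f).pt Ω →₀ ℤ) :=
    (((fx_single f₁ 1).sub (fx_single f₀ 1)).nsmul _).sub ((fx_single f₂ 1).sub (fx_single f₀ 1))
  have hk := tb_sup hM hz hf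
  rw [tb_nsub, nm_nsmul bot_le] at hk
  unfold cyv
  rw [z₀, z₁, z₂]
  exact hk

/-- Values at congruent displacements. Proof: `cyv_add` for `h` and `h' - h`, `cyv_dr`. -/
theorem cyv_close (hπ : Uf L π) (hψ : Pj f L ψ) (hM : Um L M) (g : Gp L ψ M c w)
    (hh : Iv L M h) (hh' : Iv L M h') {s : ℕ} (hs : s ≠ 0) (h1 : ∀ r, L.nm (h r) < 1)
    (h2 : ∀ r, L.nm (h' r - h r) ≤ L.nm π ^ s) :
    cyv f L ψ M c w h' - cyv f L ψ M c w h ∈ Dr f L π s ⊥ := by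
  have hfd : FiniteDimensional K M := hM.fd
  have h3 : Iv L M (h' - h) := fun r =>
    ⟨sub_mem (hh' r).1 (hh r).1, (L.sub _ _).trans (max_le (hh' r).2 (hh r).2)⟩
  have ht := hπ.pow_lt hs
  have h4 : ∀ r, L.nm ((h' - h) r) < 1 := fun r => (h2 r).trans_lt ht
  obtain ⟨t, ht', h5⟩ := tb_t h1
  obtain ⟨g', -⟩ := g.sh hψ hh ht' h5
  have h6 := cyv_add hψ g hh h3 h1 h4
  rw [add_sub_cancel] at h6
  rw [h6, add_sub_cancel_left]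
  exact cyv_dr hπ hψ hM g' h3 hs h2

end GX
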