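import Pool.Agent.Lib.MP_f80667_ag.Lv.Kb
import Pool.Agent.Lib.MP_f80667_ag.Lv.Tb

/-! The characters on the values of displacements. -/

open ZC BE PE CV IntermediateField

namespace GX

variable {F : Type} [Field F] {N d : ℕ} {ι : Type} {f : ι → MvPolynomial (Fin N) F}
  {K Ω : Type} [Field K] [CharZero K] [Field Ω] [Algebra K Ω] [Algebra F K] [Algebra F Ω]
  [IsScalarTower F K Ω] [IsAlgClosure K Ω] {L : Ld K Ω} {ψ : Prj K N d} {π : Ω} {k s : ℕ}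
  {χ : ((Xf f).pt Ω →₀ ℤ) → ZMod L.p} {M M' : IntermediateField K Ω}
  {c g g' : Fin (d + 1) → Ω} {w : Ω}

theorem Ch.map_zero (hχ : Ch f L π s χ) : χ 0 = 0 := by
  exact hχ.zero 0 (zero_mem _)

theorem Ch.map_neg (hχ : Ch f L π s χ) {z : (Xf f).pt Ω →₀ ℤ} (hz : z ∈ Vl f L π s) :
    χ (-z) = -χ z := by
  have h := hχ.add z hz (-z) (neg_mem hz)
  rw [add_neg_cancel, hχ.map_zero] at h
  exact eq_neg_of_add_eq_zero_right h.symm

theorem Ch.map_sum (hχ : Ch f L π s χ) {α : Type} (S : Finset α)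
    {T : α → (Xf f).pt Ω →₀ ℤ} (h : ∀ i ∈ S, T i ∈ Vl f L π s) :
    χ (∑ i ∈ S, T i) = ∑ i ∈ S, χ (T i) := by
  classical
  induction S using Finset.induction_on with
  | empty => rw [Finset.sum_empty, Finset.sum_empty, hχ.map_zero]
  | insert i S hi ih =>
    have h1 : ∀ j ∈ S, T j ∈ Vl f L π s := fun j hj => h j (Finset.mem_insert_of_mem hj)
    rw [Finset.sum_insert hi, Finset.sum_insert hi,
      hχ.add _ (h i (Finset.mem_insert_self i S)) _ (sum_mem h1), ih h1]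

/-- Proof: `z = z' + (z - z')`; `Vl (s + 1) ≤ Vl s` (`vl_anti`). -/
theorem Ch.congr (hπ : Uf L π) (hχ : Ch f L π s χ) {z z' : (Xf f).pt Ω →₀ ℤ}
    (hz' : z' ∈ Vl f L π s) (h : z - z' ∈ Vl f L π (s + 1)) : χ z = χ z' := by
  have h1 : z - z' ∈ Vl f L π s := vl_anti hπ (Nat.le_succ s) h
  have h2 := hχ.add z' hz' (z - z') h1
  rw [add_sub_cancel, hχ.zero _ h, add_zero] at h2
  exact h2

private theorem kd_iv {L : Ld K Ω} (hπ : Uf L π) (hg : Iv L M g) (s : ℕ) :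
    Iv L M (π ^ s • g) ∧ ∀ r, L.nm ((π ^ s • g) r) ≤ L.nm π ^ s := by
  have h2 : ∀ r, L.nm ((π ^ s • g) r) ≤ L.nm π ^ s := fun r => by
    rw [Pi.smul_apply, smul_eq_mul, L.mul, L.pow]
    exact mul_le_of_le_one_right (pow_nonneg (L.nonneg _) s) (hg r).2
  exact ⟨fun r => ⟨mul_mem (pow_mem (hπ.mem M) s) (hg r).1,
    (h2 r).trans (pow_le_one₀ (L.nonneg _) hπ.lt.le)⟩, h2⟩

/-- Proof: `cyv_dr`, `vl_dr`. -/
theorem cyv_vl (hy : Hyt f L π k) (hψ : Pj f L ψ) (hM : Um L M) (hG : Gp L ψ M c w)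
    (hg : Iv L M g) (hs : s ≠ 0) : cyv f L ψ M c w (π ^ s • g) ∈ Vl f L π s := by
  obtain ⟨h1, h2⟩ := kd_iv hy.uf hg s
  exact vl_dr s (cyv_dr hy.uf hψ hM hG h1 hs h2)

/-- Proof: `cyv_dr` with `s + 1`: the character is `0` on the displacements `π ^ s π g`. -/
theorem ch_pi (hy : Hyt f L π k) (hψ : Pj f L ψ) (hM : Um L M) (hG : Gp L ψ M c w)
    (hg : Iv L M g) (hχ : Ch f L π s χ) : χ (cyv f L ψ M c w (π ^ s • (π • g))) = 0 := by
  have h1 := cyv_vl hy hψ hM hG hg (Nat.succ_ne_zero s)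
  rw [smul_smul, ← pow_succ]
  exact hχ.zero _ h1

/-- Proof: `cyv_four`, `Ch.congr` (`s + 1 ≤ 2 s`). -/
theorem ch_add (hy : Hyt f L π k) (hψ : Pj f L ψ) (hM : Um L M) (hG : Gp L ψ M c w)
    (hg : Iv L M g) (hg' : Iv L M g') (hs : s ≠ 0) (hχ : Ch f L π s χ) :
    χ (cyv f L ψ M c w (π ^ s • (g + g'))) =
      χ (cyv f L ψ M c w (π ^ s • g)) + χ (cyv f L ψ M c w (π ^ s • g')) := by
  obtain ⟨h1, h2⟩ := kd_iv hy.uf hg s
  obtain ⟨h1', h2'⟩ := kd_iv hy.uf hg' s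
  have h3 := cyv_four hy.uf hψ hy.h2 hM hG h1 h1' hs h2 h2'
  have h4 := cyv_vl hy hψ hM hG hg hs
  have h5 := cyv_vl hy hψ hM hG hg' hs
  have h6 : cyv f L ψ M c w (π ^ s • g + π ^ s • g') - (cyv f L ψ M c w (π ^ s • g) +
      cyv f L ψ M c w (π ^ s • g')) ∈ Vl f L π (s + 1) := by
    rw [← sub_sub]
    exact vl_anti hy.uf (by omega : s + 1 ≤ 2 * s) h3
  rw [smul_add, hχ.congr hy.uf (add_mem h4 h5) h6, hχ.add _ h4 _ h5]

/-- Proof: `ch_add`, `ch_pi`: congruent displacements. -/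
theorem ch_close (hy : Hyt f L π k) (hψ : Pj f L ψ) (hM : Um L M) (hG : Gp L ψ M c w)
    (hg : Iv L M g) (hg' : Iv L M g') (hs : s ≠ 0) (hχ : Ch f L π s χ) :
    χ (cyv f L ψ M c w (π ^ s • (g + π • g'))) = χ (cyv f L ψ M c w (π ^ s • g)) := by
  have h1 : Iv L M (π • g') := by
    have h2 := (kd_iv hy.uf hg' 1).1
    rwa [pow_one] at h2
  rw [ch_add hy hψ hM hG hg h1 hs hχ, ch_pi hy hψ hM hG hg' hχ, add_zero]

/-- Parallel displacements. Proof: `cyv_par` with `a = π b`, `π ^ s` in place of `b`, `v = g`; `Ch.congr`; the point over `c + π b g` is in `Gp` (`Gp.sh`). -/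
theorem ch_par (hy : Hyt f L π k) (hψ : Pj f L ψ) (hM : Um L M) (hG : Gp L ψ M c w)
    (hg : Iv L M g) {b : Ω} (hb : b ∈ M) (hb1 : L.nm b ≤ 1) (hs : s ≠ 0)
    (hχ : Ch f L π s χ) :
    χ (cyv f L ψ M (c + π • (b • g)) (sht L ψ w (c + π • (b • g))) (π ^ s • g)) =
      χ (cyv f L ψ M c w (π ^ s • g)) := by
  have h1 : L.nm (π * b) ≤ L.nm π ^ 1 := by
    rw [L.mul, pow_one]
    exact mul_le_of_le_one_right (L.nonneg _) hb1
  have h2 := cyv_par hy.uf hψ hM hG (mul_mem (hy.uf.mem M) hb) (pow_mem (hy.uf.mem M) s) hg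
    one_ne_zero hs h1 (L.pow π s).le
  rw [mul_smul, add_comm 1 s] at h2
  exact hχ.congr hy.uf (cyv_vl hy hψ hM hG hg hs) h2

end GX
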