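import Pool.Agent.Lib.MP_f80667_ag.Lv.Ke

/-! The trace functionals: existence over one field. -/

open ZC BE PE CV IntermediateField

namespace GX

variable {F : Type} [Field F] {N d : ℕ} {ι : Type} {f : ι → MvPolynomial (Fin N) F}
  {K Ω : Type} [Field K] [CharZero K] [Field Ω] [Algebra K Ω] [Algebra F K] [Algebra F Ω]
  [IsScalarTower F K Ω] [IsAlgClosure K Ω] {L : Ld K Ω} {ψ : Prj K N d} {π : Ω} {k s : ℕ}
  {χ : ((Xf f).pt Ω →₀ ℤ) → ZMod L.p} {c : Fin (d + 1) → Ω} {w : Ω}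

omit [CharZero K] [IsAlgClosure K Ω] in
private theorem ke0_iv {M : IntermediateField K Ω} {x : Ω} (hx : x ∈ M) (h1 : L.nm x ≤ 1)
    (r : Fin (d + 1)) : Iv L M (x • (Pi.single r 1 : Fin (d + 1) → Ω)) := by
  intro i
  rw [Pi.smul_apply, smul_eq_mul]
  by_cases hi : i = r
  · subst hi
    rw [Pi.single_eq_same, mul_one]
    exact ⟨hx, h1⟩
  · rw [Pi.single_eq_of_ne hi, mul_zero, L.zero]
    exact ⟨zero_mem _, zero_le_one⟩

omit [CharZero K] [IsAlgClosure K Ω] in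
private theorem ke0_ivadd {M : IntermediateField K Ω} {g g' : Fin (d + 1) → Ω}
    (h : Iv L M g) (h' : Iv L M g') : Iv L M (g + g') := fun i =>
  ⟨add_mem (h i).1 (h' i).1, (L.add _ _).trans (max_le (h i).2 (h' i).2)⟩

omit [CharZero K] [IsAlgClosure K Ω] in
private theorem ke0_ivsum {M : IntermediateField K Ω} {α : Type} (S : Finset α)
    {x : α → Fin (d + 1) → Ω} (h : ∀ i ∈ S, Iv L M (x i)) : Iv L M (∑ i ∈ S, x i) := by
  classical
  induction S using Finset.induction_on with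
  | empty =>
    intro i
    rw [Finset.sum_empty, Pi.zero_apply, L.zero]
    exact ⟨zero_mem _, zero_le_one⟩
  | insert a S ha ih =>
    rw [Finset.sum_insert ha]
    exact ke0_ivadd (h a (Finset.mem_insert_self a S))
      (ih fun i hi => h i (Finset.mem_insert_of_mem hi))

private theorem ke0_sum (hy : Hyt f L π k) (hψ : Pj f L ψ) (hχ : Ch f L π s χ) (hs : s ≠ 0)
    {M : IntermediateField K Ω} (hM : Um L M) (hG : Gp L ψ M c w) {α : Type} (S : Finset α)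
    {x : α → Fin (d + 1) → Ω} (h : ∀ i ∈ S, Iv L M (x i)) :
    χ (cyv f L ψ M c w (π ^ s • ∑ i ∈ S, x i)) =
      ∑ i ∈ S, χ (cyv f L ψ M c w (π ^ s • x i)) := by
  classical
  induction S using Finset.induction_on with
  | empty =>
    have h0 : Iv L M (0 : Fin (d + 1) → Ω) := by
      intro i
      rw [Pi.zero_apply, L.zero]
      exact ⟨zero_mem _, zero_le_one⟩
    have h1 := ch_add hy hψ hM hG h0 h0 hs hχ
    rw [add_zero] at h1
    rw [Finset.sum_empty, Finset.sum_empty]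
    exact left_eq_add.1 h1
  | insert a S ha ih =>
    have hS : ∀ i ∈ S, Iv L M (x i) := fun i hi => h i (Finset.mem_insert_of_mem hi)
    rw [Finset.sum_insert ha, Finset.sum_insert ha,
      ch_add hy hψ hM hG (h a (Finset.mem_insert_self a S)) (ke0_ivsum S hS) hs hχ, ih hS]

/-- **Existence over one field.** Proof: `z τ ∈ Ur ⊥ n` a lift of `τ` for `τ ^ p ^ n = τ` (`kf_ur`); for every `r` the function `Θ τ = χ (cyv .. (π ^ s • (z τ • Pi.single r 1)))` is additive (`z (τ + τ')` and `z τ + z τ'` are congruent: `Uf.rv_eq`, `ch_close`, `ch_add`): `fp_ex`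
gives `a_r`. For `g` with residues `y` (`kf_res`: `y r ^ p ^ n = y r`): `g` is congruent to `∑ z (y_r) e_r` (`ch_close`), `ch_add` for the sum (induction on a finset of indices), `trn_add`. -/
theorem lw_ex₁ (hy : Hyt f L π k) (hψ : Pj f L ψ) (hχ : Ch f L π s χ) (hs : s ≠ 0) {n : ℕ}
    (hn : n ≠ 0) (hkn : k ∣ n) (hG : Gp L ψ (L.Ur ⊥ n) c w) :
    ∃ a, Lw₁ f L ψ π s χ n c w a := by
  classical
  have hF : Fact L.p.Prime := ⟨L.pp⟩
  have hch : CharP L.κ L.p := L.char_κ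
  have hΩ : IsAlgClosed Ω := IsAlgClosure.isAlgClosed K
  have hcl : IsAlgClosed L.κ := L.κ_closed
  have hM : Um L (L.Ur ⊥ n) := ⟨n, hn, le_rfl⟩
  obtain ⟨z, hz⟩ : ∃ z : L.κ → Ω, ∀ τ, τ ^ L.p ^ n = τ →
      z τ ∈ L.Ur ⊥ n ∧ L.rs.Hv (z τ) τ := by
    refine ⟨fun τ => if h : τ ^ L.p ^ n = τ then (kf_ur (L := L) hn h).choose else 0,
      fun τ hτ => ?_⟩
    show (if h : τ ^ L.p ^ n = τ then (kf_ur (L := L) hn h).choose else 0) ∈ L.Ur ⊥ n ∧
      L.rs.Hv (if h : τ ^ L.p ^ n = τ then (kf_ur (L := L) hn h).choose else 0) τ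
    rw [dif_pos hτ]
    exact (kf_ur (L := L) hn hτ).choose_spec
  have hadd : ∀ τ τ' : L.κ, τ ^ L.p ^ n = τ → τ' ^ L.p ^ n = τ' →
      (τ + τ') ^ L.p ^ n = τ + τ' := by
    intro τ τ' h h'
    rw [add_pow_char_pow, h, h']
  have key : ∀ r : Fin (d + 1), ∃ a : L.κ, a ^ L.p ^ n = a ∧ ∀ τ, τ ^ L.p ^ n = τ →
      ((χ (cyv f L ψ (L.Ur ⊥ n) c w
        (π ^ s • (z τ • (Pi.single r 1 : Fin (d + 1) → Ω))))).val : L.κ) =
          trn L.p n (τ * a) := by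
    intro r
    refine fp_ex (Θ := fun τ => χ (cyv f L ψ (L.Ur ⊥ n) c w
      (π ^ s • (z τ • (Pi.single r 1 : Fin (d + 1) → Ω))))) hn fun τ τ' h h' => ?_
    obtain ⟨h1, h2⟩ := hz τ h
    obtain ⟨h1', h2'⟩ := hz τ' h'
    obtain ⟨h3, h4⟩ := hz _ (hadd τ τ' h h')
    obtain ⟨v, hv, hv1, hv2⟩ := hy.uf.rv_eq hn (add_mem h1 h1') h3 (h2.add h2') h4
    have e : z (τ + τ') • (Pi.single r 1 : Fin (d + 1) → Ω) =
        (z τ • (Pi.single r 1 : Fin (d + 1) → Ω) + z τ' • (Pi.single r 1 : Fin (d + 1) → Ω)) +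
          π • (v • (Pi.single r 1 : Fin (d + 1) → Ω)) := by
      rw [hv2, add_smul, add_smul, mul_smul]
    have i1 := ke0_iv (d := d) h1 (L.hv_int h2) r
    have i2 := ke0_iv (d := d) h1' (L.hv_int h2') r
    show χ (cyv f L ψ (L.Ur ⊥ n) c w
        (π ^ s • (z (τ + τ') • (Pi.single r 1 : Fin (d + 1) → Ω)))) =
      χ (cyv f L ψ (L.Ur ⊥ n) c w (π ^ s • (z τ • (Pi.single r 1 : Fin (d + 1) → Ω)))) +
      χ (cyv f L ψ (L.Ur ⊥ n) c w (π ^ s • (z τ' • (Pi.single r 1 : Fin (d + 1) → Ω))))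
    rw [e, ch_close hy hψ hM hG (ke0_ivadd i1 i2) (ke0_iv hv hv1 r) hs hχ,
      ch_add hy hψ hM hG i1 i2 hs hχ]
  choose a ha ha' using key
  refine ⟨a, ha, fun g y hg hgy => ?_⟩
  have hyn : ∀ r, y r ^ L.p ^ n = y r := fun r => kf_res hy.rf hn hkn (hg r).1 (hgy r)
  have hv : ∀ r, ∃ v ∈ L.Ur ⊥ n, L.nm v ≤ 1 ∧ g r = z (y r) + π * v := fun r =>
    hy.uf.rv_eq hn (hz _ (hyn r)).1 (hg r).1 (hz _ (hyn r)).2 (hgy r)
  choose v hv0 hv1 hv2 using hv
  have e : g = (∑ r, z (y r) • (Pi.single r 1 : Fin (d + 1) → Ω)) + π • v := by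
    funext r
    rw [Pi.add_apply, Pi.smul_apply, smul_eq_mul, hv2 r, Finset.sum_apply]
    congr 1
    rw [Finset.sum_eq_single r]
    · rw [Pi.smul_apply, Pi.single_eq_same, smul_eq_mul, mul_one]
    · intro j _ hj
      rw [Pi.smul_apply, Pi.single_eq_of_ne (Ne.symm hj), smul_zero]
    · intro h
      exact absurd (Finset.mem_univ r) h
  have hi : ∀ r ∈ (Finset.univ : Finset (Fin (d + 1))),
      Iv L (L.Ur ⊥ n) (z (y r) • (Pi.single r 1 : Fin (d + 1) → Ω)) := fun r _ =>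
    ke0_iv (hz _ (hyn r)).1 (L.hv_int (hz _ (hyn r)).2) r
  rw [e, ch_close hy hψ hM hG (ke0_ivsum _ hi) (fun r => ⟨hv0 r, hv1 r⟩) hs hχ,
    ke0_sum hy hψ hχ hs hM hG _ hi]
  obtain ⟨φ, hφ⟩ : ∃ φ : ZMod L.p →+* L.κ, ∀ x : ZMod L.p, (x.val : L.κ) = φ x :=
    ⟨ZMod.castHom (dvd_refl L.p) L.κ, fun x => by
      rw [ZMod.castHom_apply, ZMod.natCast_val]⟩
  obtain ⟨T, hT⟩ : ∃ T : L.κ →+ L.κ, ∀ x, T x = trn L.p n x :=
    ⟨AddMonoidHom.mk' (fun x => trn L.p n x) fun x x' => trn_add x x', fun _ => rfl⟩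
  rw [hφ, map_sum, ← hT, map_sum]
  refine Finset.sum_congr rfl fun r _ => ?_
  rw [← hφ, ha' r _ (hyn r), hT]

end GX
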