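import Pool.Agent.Lib.MP_f80667_ag.Lv.Ke0
import Pool.Agent.Lib.MP_f80667_ag.Lv.Kd1

/-! The trace functionals: extension of the field. -/

open ZC BE PE CV IntermediateField

namespace GX

variable {F : Type} [Field F] {N d : ℕ} {ι : Type} {f : ι → MvPolynomial (Fin N) F}
  {K Ω : Type} [Field K] [CharZero K] [Field Ω] [Algebra K Ω] [Algebra F K] [Algebra F Ω]
  [IsScalarTower F K Ω] [IsAlgClosure K Ω] {L : Ld K Ω} {ψ : Prj K N d} {π : Ω} {k s : ℕ}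
  {χ : ((Xf f).pt Ω →₀ ℤ) → ZMod L.p} {c : Fin (d + 1) → Ω} {w : Ω}

/-- **Extension of the field.** Proof: let `a'` be the vector over `Ur ⊥ (n t)` (`lw_ex₁`, `Gp.mono`); for every `r` and `τ` with `τ ^ p ^ (n t) = τ`, `z` a lift of `τ` in `Ur ⊥ (n t)`: `χ (cyv .. (π ^ s • (z • e_r)))` over `Ur ⊥ (n t)` is `trn p (n t) (τ a'_r)` and by `ch_norm` and `nm_hv` (`Gy/Tc.lean`) it is
`trn p n ((∑ τ ^ p ^ (n j)) a_r) = trn p (n t) (τ a_r)` (`trn_rel`); `fp_uniq`: `a' = a`. -/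
theorem lw_up₁ (hy : Hyt f L π k) (hψ : Pj f L ψ) (hχ : Ch f L π s χ) (hs : s ≠ 0) {n t : ℕ}
    (hn : n ≠ 0) (ht : t ≠ 0) (hkn : k ∣ n) (hG : Gp L ψ (L.Ur ⊥ n) c w)
    {a : Fin (d + 1) → L.κ} (h : Lw₁ f L ψ π s χ n c w a) :
    Lw₁ f L ψ π s χ (n * t) c w a := by
  have hpf : Fact L.p.Prime := ⟨L.pp⟩
  have hcp : CharP L.κ L.p := L.char_κ
  have hnt : n * t ≠ 0 := mul_ne_zero hn ht
  have hle : L.Ur ⊥ n ≤ L.Ur ⊥ (n * t) := Ld.ur_dvd ⊥ (dvd_mul_right n t)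
  have hfd : FiniteDimensional K (L.Ur ⊥ (n * t)) := Ld.ur_fin ⊥ _ hnt
  obtain ⟨a', ha'⟩ := lw_ex₁ hy hψ hχ hs hnt (hkn.mul_right t) (hG.mono hle)
  have haa : a' = a := by
    funext r
    have hb : a r ^ L.p ^ (n * t) = a r := by
      have h0 := h.1 r
      clear hnt hle hfd ha' ht
      induction t with
      | zero => rw [mul_zero, pow_zero, pow_one]
      | succ t ih => rw [mul_add, mul_one, pow_add, pow_mul, ih, h0]
    refine lw_test hnt ha' hb fun z τ hz hz1 hv => ?_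
    have he : Iv L (L.Ur ⊥ n) (Pi.single r 1 : Fin (d + 1) → Ω) := by
      intro i
      by_cases hi : i = r
      · subst hi
        rw [Pi.single_eq_same]
        exact ⟨one_mem _, L.one.le⟩
      · rw [Pi.single_eq_of_ne hi]
        exact ⟨zero_mem _, by rw [L.zero]; exact zero_le_one⟩
    rw [ch_norm hy hψ ⟨n, hn, le_rfl⟩ ⟨n * t, hnt, le_rfl⟩ hle hG he hz hz1 hs hχ]
    obtain ⟨e, rfl⟩ := hkn
    have hN := nm_hv (K := K) hy.rf (right_ne_zero_of_mul hn) ht hz hv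
    have hNm : Nm (L.Ur ⊥ (k * e)) (L.Ur ⊥ (k * e * t)) z ∈ L.Ur ⊥ (k * e) :=
      fx_mem.1 (nm_fx hle (fx_mem.2 hz))
    have h2 := h.2 (Nm (L.Ur ⊥ (k * e)) (L.Ur ⊥ (k * e * t)) z • (Pi.single r 1))
      (Pi.single r (∑ i ∈ Finset.range t, τ ^ L.p ^ (k * e * i))) ?_ ?_
    · rw [h2, trn_rel (h.1 r)]
      congr 1
      rw [Finset.sum_eq_single r]
      · rw [Pi.single_eq_same]
      · intro i _ hi
        rw [Pi.single_eq_of_ne hi, zero_mul]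
      · intro hr
        exact absurd (Finset.mem_univ r) hr
    · intro i
      rw [Pi.smul_apply, smul_eq_mul]
      refine ⟨mul_mem hNm (he i).1, ?_⟩
      rw [L.mul]
      exact mul_le_one₀ (L.hv_int hN) (L.nonneg _) (he i).2
    · intro i
      rw [Pi.smul_apply, smul_eq_mul]
      by_cases hi : i = r
      · subst hi
        rw [Pi.single_eq_same, Pi.single_eq_same, mul_one]
        exact hN
      · rw [Pi.single_eq_of_ne hi, Pi.single_eq_of_ne hi, mul_zero]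
        exact Rs.Hv.zero
  rw [← haa]
  exact ha'

/-- **The trace functional.** Proof: some `n₀` (the given `n`): `a` (`lw_ex₁`); for every other `n'`: `a'`; `lw_up₁` to `n₀ n'` and `lw_uniq₁`: `a = a'`; so the condition in the definition of `lw` has a solution (`Exists.choose_spec`). -/
theorem lw_spec (hy : Hyt f L π k) (hψ : Pj f L ψ) (hχ : Ch f L π s χ) (hs : s ≠ 0) {n : ℕ}
    (hn : n ≠ 0) (hkn : k ∣ n) (hG : Gp L ψ (L.Ur ⊥ n) c w) :
    Lw₁ f L ψ π s χ n c w (lw f L ψ π s χ k c w) := by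
  have hex : ∃ a, ∀ n, n ≠ 0 → k ∣ n → Gp L ψ (L.Ur ⊥ n) c w →
      Lw₁ f L ψ π s χ n c w a := by
    obtain ⟨a, ha⟩ := lw_ex₁ hy hψ hχ hs hn hkn hG
    refine ⟨a, fun n' hn' hkn' hG' => ?_⟩
    obtain ⟨a', ha'⟩ := lw_ex₁ hy hψ hχ hs hn' hkn' hG'
    have h1 := lw_up₁ hy hψ hχ hs hn hn' hkn hG ha
    have h2 := lw_up₁ hy hψ hχ hs hn' hn hkn' hG' ha'
    rw [mul_comm n' n] at h2
    rw [lw_uniq₁ (mul_ne_zero hn hn') h1 h2]
    exact ha'
  unfold lw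
  rw [dif_pos hex]
  exact hex.choose_spec n hn hkn hG

/-- Proof: `lw_spec`, `lw_uniq₁`. -/
theorem lw_eq (hy : Hyt f L π k) (hψ : Pj f L ψ) (hχ : Ch f L π s χ) (hs : s ≠ 0) {n : ℕ}
    (hn : n ≠ 0) (hkn : k ∣ n) (hG : Gp L ψ (L.Ur ⊥ n) c w) {a : Fin (d + 1) → L.κ}
    (h : Lw₁ f L ψ π s χ n c w a) : lw f L ψ π s χ k c w = a :=
  lw_uniq₁ hn (lw_spec hy hψ hχ hs hn hkn hG) h

end GX
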