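import Pool.Agent.Lib.MP_f80667_ag.Lv.Kd
import Pool.Agent.Lib.MP_f80667_ag.Lv.Kf

/-! The trace functionals in a residue disc. -/

open ZC BE PE CV IntermediateField

namespace GX

variable {F : Type} [Field F] {N d : ℕ} {ι : Type} {f : ι → MvPolynomial (Fin N) F}
  {K Ω : Type} [Field K] [CharZero K] [Field Ω] [Algebra K Ω] [Algebra F K] [Algebra F Ω]
  [IsScalarTower F K Ω] [IsAlgClosure K Ω] {L : Ld K Ω} {ψ : Prj K N d} {π : Ω} {k s : ℕ}
  {χ : ((Xf f).pt Ω →₀ ℤ) → ZMod L.p} {c η η' : Fin (d + 1) → Ω} {w : Ω}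

/-- The integers of `M`. -/
def Oi (L : Ld K Ω) (M : IntermediateField K Ω) : Subring Ω where
  carrier := {x | x ∈ M ∧ L.nm x ≤ 1}
  mul_mem' := by
    rintro x y ⟨h1, h2⟩ ⟨h3, h4⟩
    exact ⟨mul_mem h1 h3, by rw [L.mul]; exact mul_le_one₀ h2 (L.nonneg _) h4⟩
  one_mem' := ⟨one_mem _, L.one.le⟩
  add_mem' := by
    rintro x y ⟨h1, h2⟩ ⟨h3, h4⟩
    exact ⟨add_mem h1 h3, (L.add _ _).trans (max_le h2 h4)⟩
  zero_mem' := ⟨zero_mem _, by rw [L.zero]; exact zero_le_one⟩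
  neg_mem' := by
    rintro x ⟨h1, h2⟩
    exact ⟨neg_mem h1, by rw [L.neg]; exact h2⟩

/-- The values of `χ` in the disc of `c`. -/
noncomputable def Td (f : ι → MvPolynomial (Fin N) F) (L : Ld K Ω) (ψ : Prj K N d) (π : Ω)
    (s : ℕ) (χ : ((Xf f).pt Ω →₀ ℤ) → ZMod L.p) (M : IntermediateField K Ω)
    (c : Fin (d + 1) → Ω) (w : Ω) (η g : Fin (d + 1) → Oi L M) : ZMod L.p :=
  χ (cyv f L ψ M (c + π • fun r => (η r : Ω)) (sht L ψ w (c + π • fun r => (η r : Ω)))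
    (π ^ s • fun r => (g r : Ω)))

private theorem kg_iv (hπ : Uf L π) {M : IntermediateField K Ω} (hη : Iv L M η) :
    Iv L M (π • η) ∧ ∀ r, L.nm ((π • η) r) ≤ L.nm π := by
  have h : ∀ r, L.nm ((π • η) r) ≤ L.nm π := by
    intro r
    rw [Pi.smul_apply, smul_eq_mul, L.mul]
    exact mul_le_of_le_one_right (L.nonneg _) (hη r).2
  exact ⟨fun r => ⟨mul_mem (hπ.mem M) (hη r).1, (h r).trans hπ.lt.le⟩, h⟩

private theorem kg_pi (hπ : Uf L π) (hψ : Pj f L ψ) {M : IntermediateField K Ω}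
    (hG : Gp L ψ M c w) (hη : Iv L M η) : Gp L ψ M (c + π • η) (sht L ψ w (c + π • η)) :=
  (hG.sh hψ (kg_iv hπ hη).1 hπ.lt (kg_iv hπ hη).2).1

private theorem kg_oi {M : IntermediateField K Ω} (g : Fin (d + 1) → Oi L M) :
    Iv L M fun r => (g r : Ω) := fun r => ⟨(g r).2.1, (g r).2.2⟩

/-- Proof: the point over `c + π η` is in `Gp` (`Gp.sh`): `ch_add`; `ch_par` at this point, `sht_sht`. -/
theorem td_dfc (hy : Hyt f L π k) (hψ : Pj f L ψ) (hχ : Ch f L π s χ) (hs : s ≠ 0)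
    {M : IntermediateField K Ω} (hM : Um L M) (hG : Gp L ψ M c w) :
    Dfc (Oi L M) (Td f L ψ π s χ M c w) := by
  refine ⟨fun η g g' => ?_, fun η g σ => ?_⟩
  · have h := ch_add hy hψ hM (kg_pi hy.uf hψ hG (kg_oi η)) (kg_oi g) (kg_oi g') hs hχ
    exact h
  · have h1 := kg_iv hy.uf (kg_oi η)
    have h2 := kg_iv hy.uf (kg_oi (η + σ • g))
    have h := ch_par hy hψ hM (kg_pi hy.uf hψ hG (kg_oi η)) (kg_oi g) (b := (σ : Ω)) σ.2.1 σ.2.2
      hs hχ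
    have e : (c + π • fun r => (η r : Ω)) + π • ((σ : Ω) • fun r => (g r : Ω)) =
        c + π • fun r => (((η + σ • g) r : Oi L M) : Ω) := by
      rw [add_assoc, ← smul_add]
      rfl
    rw [e, sht_sht hψ hG h1.1 h2.1 (fun r => (h1.2 r).trans_lt hy.uf.lt)
      (fun r => (h2.2 r).trans_lt hy.uf.lt)] at h
    exact h

/-- The point over `c + π η`. Proof: `Gp.sh`. -/
theorem Gp.pi (hπ : Uf L π) (hψ : Pj f L ψ) {M : IntermediateField K Ω} (hG : Gp L ψ M c w)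
    (hη : Iv L M η) : Gp L ψ M (c + π • η) (sht L ψ w (c + π • η)) :=
  kg_pi hπ hψ hG hη

end GX
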