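import Pool.Agent.Lib.MP_f80667_ag.Lv.Kc1
import Pool.Agent.Lib.MP_f80667_ag.Lv.Ke1
import Pool.Agent.Lib.MP_f80667_ag.Lv.Td

/-! The sums over the roots: arcs, the class `Pc`. -/

open ZC BE PE CV IntermediateField

namespace GX

variable {F : Type} [Field F] {N d : ℕ} {ι : Type} {f : ι → MvPolynomial (Fin N) F}
  {K Ω : Type} [Field K] [CharZero K] [Field Ω] [Algebra K Ω] [Algebra F K] [Algebra F Ω]
  [IsScalarTower F K Ω] [IsAlgClosure K Ω] {L : Ld K Ω} {ψ : Prj K N d} {π : Ω} {k s : ℕ}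
  {χ : ((Xf f).pt Ω →₀ ℤ) → ZMod L.p}

omit [CharZero K] [IsAlgClosure K Ω] in
private theorem kj_mem {M : IntermediateField K Ω} {p : Polynomial (Rn L)}
    (hp : ∀ j, ((p.coeff j : Rn L) : Ω) ∈ M) {z : Rn L} (hz : (z : Ω) ∈ M) :
    ((p.eval z : Rn L) : Ω) ∈ M := by
  rw [Polynomial.eval_eq_sum_range]
  push_cast
  exact sum_mem fun i _ => mul_mem (hp i) (pow_mem hz i)

omit [CharZero K] [IsAlgClosure K Ω] in
private theorem kj_ev (p : Polynomial (Rn L)) (z : Rn L) :
    (p.map (Rn L).subtype).eval (z : Ω) = ((p.eval z : Rn L) : Ω) := by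
  have h := Polynomial.eval_map_apply (Rn L).subtype (p := p) z
  exact h

omit [CharZero K] [IsAlgClosure K Ω] in
private theorem kj_der (p : Polynomial (Rn L)) (z : Rn L) :
    (Polynomial.derivative (p.map (Rn L).subtype)).eval (z : Ω) =
      (((Polynomial.derivative p).eval z : Rn L) : Ω) := by
  rw [Polynomial.derivative_map, kj_ev]

omit [CharZero K] [IsAlgClosure K Ω] in
private theorem kj_prod [DecidableEq Ω] [DecidableEq (Rn L)] (S : Finset (Rn L)) {x : Rn L}
    (hx : x ∈ S) :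
    (Polynomial.derivative (∏ c ∈ S.image (fun z : Rn L => (z : Ω)),
      (Polynomial.X - Polynomial.C c))).eval (x : Ω) =
      ((∏ y ∈ S.erase x, (x - y) : Rn L) : Ω) := by
  rw [Finset.prod_image fun a _ b _ h => Subtype.ext h]
  have h := Lagrange.eval_nodal_derivative_eval_node_eq
    (v := fun z : Rn L => (z : Ω)) hx
  rw [Lagrange.eval_nodal] at h
  unfold Lagrange.nodal at h
  rw [h]
  push_cast
  rfl

/-- A common field for an arc. Proof: `rn_fin` for the coefficients of the arc and the elements of `S`; `rts_ur` for the elements of `S` (induction on subsets; product of the `t`). -/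
theorem arc_fld (hk : L.Rf ⊥ k) (hψ : Pj f L ψ) (a : Fin (d + 1) → Polynomial (Rn L))
    (S : Finset (Rn L)) (hD : ∀ z ∈ S,
      L.nm (MvPolynomial.aeval (fun r => (((a r).eval z : Rn L) : Ω)) ψ.D) = 1) :
    ∃ n, n ≠ 0 ∧ k ∣ n ∧ Arc L (L.Ur ⊥ n) (fun r => (a r).map (Rn L).subtype) ∧
      (∀ z ∈ S, (z : Ω) ∈ L.Ur ⊥ n) ∧ ∀ z ∈ S, ∀ w ∈ rts ψ fun r => (((a r).eval z : Rn L) : Ω),
        Gp L ψ (L.Ur ⊥ n) (fun r => (((a r).eval z : Rn L) : Ω)) w := by
  classical
  obtain ⟨n₀, hn₀, hkn, h1, -⟩ := rn_fin (L := L) (k := k) hk.ne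
    ((Finset.univ.biUnion fun r => (Finset.range ((a r).natDegree + 1)).image
      fun j => (((a r).coeff j : Rn L) : Ω)) ∪ S.image fun z : Rn L => (z : Ω)) (by
      intro x hx
      rcases Finset.mem_union.1 hx with h | h
      · obtain ⟨r, -, h⟩ := Finset.mem_biUnion.1 h
        obtain ⟨j, -, rfl⟩ := Finset.mem_image.1 h
        exact ((a r).coeff j).2
      · obtain ⟨z, -, rfl⟩ := Finset.mem_image.1 h
        exact z.2) ∅
  have hco : ∀ r j, (((a r).coeff j : Rn L) : Ω) ∈ L.Ur ⊥ n₀ := by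
    intro r j
    by_cases hj : j < (a r).natDegree + 1
    · exact h1 _ (Finset.mem_union_left _ (Finset.mem_biUnion.2 ⟨r, Finset.mem_univ _,
        Finset.mem_image_of_mem _ (Finset.mem_range.2 hj)⟩))
    · rw [Polynomial.coeff_eq_zero_of_natDegree_lt (by omega)]
      exact zero_mem _
  have hz : ∀ z ∈ S, (z : Ω) ∈ L.Ur ⊥ n₀ := fun z hzS =>
    h1 _ (Finset.mem_union_right _ (Finset.mem_image_of_mem _ hzS))
  have hIv : ∀ z ∈ S, Iv L (L.Ur ⊥ n₀) (fun r => (((a r).eval z : Rn L) : Ω)) :=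
    fun z hzS r => ⟨kj_mem (hco r) (hz z hzS), rn_le L _⟩
  have ht : ∀ z ∈ S, ∃ t, t ≠ 0 ∧ ∀ w ∈ rts ψ (fun r => (((a r).eval z : Rn L) : Ω)),
      Gp L ψ (L.Ur ⊥ (n₀ * t)) (fun r => (((a r).eval z : Rn L) : Ω)) w :=
    fun z hzS => rts_ur hψ hn₀ (hIv z hzS) (hD z hzS)
  choose! t ht0 ht1 using ht
  refine ⟨n₀ * ∏ z ∈ S, t z, mul_ne_zero hn₀ (Finset.prod_ne_zero_iff.2 ht0),
    hkn.mul_right _, ?_, ?_, ?_⟩
  · intro r j
    rw [Polynomial.coeff_map]
    exact ⟨Ld.ur_dvd ⊥ (dvd_mul_right _ _) (hco r j), rn_le L _⟩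
  · exact fun z hzS => Ld.ur_dvd ⊥ (dvd_mul_right _ _) (hz z hzS)
  · exact fun z hzS w hw => (ht1 z hzS w hw).mono
      (Ld.ur_dvd ⊥ (mul_dvd_mul_left _ (Finset.dvd_prod_of_mem _ hzS)))

open Classical in
/-- **The relation of the curves for the trace functionals.** Proof: `arc_fld`: `n`; for `τ` with `τ ^ p ^ n = τ`, `z` a lift (`kf_ur`): `cyv_crv` for the arc `(a r).map subtype`, `S` (its image in `Ω`), `τ := z`, `T` the set of the pairs (root over `S`); `Ch.map_sum` (`cyv_vl`), `hχ.zero` (`s + 1 ≤ 2 s`), `lw_spec`: `trn (τ E) = 0` for the left side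
`E` of the statement (`trn_add` for sums as in `tlf_crv` of `Gy/Lc.lean`: an additive map; `Polynomial.eval_map`, `Polynomial.derivative_map`, the derivative of `∏ (X - c)` at `c` is `∏ (c - c')`); `E ^ p ^ n = E`; `fp_uniq`. -/
theorem pw_crv (hy : Hyt f L π k) (hψ : Pj f L ψ) (hχ : Ch f L π s χ) (hs : s ≠ 0)
    (a : Fin (d + 1) → Polynomial (Rn L)) {b j : ℕ} (hb : ∀ i, (a i).natDegree ≤ b)
    {S : Finset (Rn L)} (hS : ∀ x ∈ S, ∀ y ∈ S, rdn L x = rdn L y → x = y)
    (hD : ∀ z ∈ S, L.nm (MvPolynomial.aeval (fun r => (((a r).eval z : Rn L) : Ω)) ψ.D) = 1)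
    (hj : j * b < S.card) :
    ∑ x ∈ S, (∏ y ∈ S.erase x, (rdn L x - rdn L y))⁻¹ *
      Pw f L ψ π s χ k j (fun r => (a r).eval x)
        (fun r => rdn L ((Polynomial.derivative (a r)).eval x)) = 0 := by
  have hpp : Fact L.p.Prime := ⟨L.pp⟩
  have hch : CharP L.κ L.p := L.char_κ
  have hΩ : IsAlgClosed Ω := IsAlgClosure.isAlgClosed K
  have hκ : IsAlgClosed L.κ := L.κ_closed
  obtain ⟨n, hn, hkn, hA, hSM, hGp⟩ := arc_fld hy.rf hψ a S hD
  have hM : Um L (L.Ur ⊥ n) := ⟨n, hn, le_rfl⟩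
  have hp0 : L.p ^ n ≠ 0 := pow_ne_zero n L.pp.ne_zero
  obtain ⟨C, hC⟩ : ∃ C : Rn L → Fin (d + 1) → Ω,
      ∀ z, C z = fun r => (((a r).eval z : Rn L) : Ω) := ⟨_, fun _ => rfl⟩
  obtain ⟨P, hP⟩ : ∃ P : Rn L → Rn L, ∀ x, P x = ∏ y ∈ S.erase x, (x - y) := ⟨_, fun _ => rfl⟩
  have hPr : ∀ x, rdn L (P x) = ∏ y ∈ S.erase x, (rdn L x - rdn L y) := by
    intro x
    rw [hP, map_prod]
    exact Finset.prod_congr rfl fun y _ => map_sub _ _ _
  have hP0 : ∀ x ∈ S, rdn L (P x) ≠ 0 := by
    intro x hx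
    rw [hPr, Finset.prod_ne_zero_iff]
    intro y hyS h
    exact (Finset.ne_of_mem_erase hyS) (hS x hx y (Finset.mem_of_mem_erase hyS)
      (sub_eq_zero.1 h)).symm
  have hPM : ∀ x ∈ S, (P x : Ω) ∈ L.Ur ⊥ n := by
    intro x hx
    rw [hP]
    push_cast
    exact prod_mem fun y hyS => sub_mem (hSM x hx) (hSM y (Finset.mem_of_mem_erase hyS))
  have hdM : ∀ x ∈ S, ∀ r, ((((Polynomial.derivative (a r)).eval x : Rn L)) : Ω) ∈
      L.Ur ⊥ n := by
    intro x hx r
    refine kj_mem (fun j => ?_) (hSM x hx)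
    rw [Polynomial.coeff_derivative]
    push_cast
    have h1 := (hA r (j + 1)).1
    rw [Polynomial.coeff_map] at h1
    refine mul_mem h1 ?_
    have h2 : ((j : Ω) + 1) = (((j + 1 : ℕ) : Ω)) := by push_cast; rfl
    rw [h2]
    exact IntermediateField.natCast_mem _ _
  have hG : ∀ x ∈ S, ∀ w ∈ rts ψ (C x), Gp L ψ (L.Ur ⊥ n) (C x) w := by
    intro x hx w hw
    rw [hC] at hw ⊢
    exact hGp x hx w hw
  obtain ⟨b', hb'⟩ : ∃ b', b' = ∑ x ∈ S, (rdn L (P x))⁻¹ * ∑ w ∈ rts ψ (C x), rv L w ^ j *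
      ∑ r, lw f L ψ π s χ k (C x) w r * rdn L ((Polynomial.derivative (a r)).eval x) :=
    ⟨_, rfl⟩
  have hfx : ∀ {z : Ω}, z ∈ L.Ur ⊥ n → ∀ {c : L.κ}, L.rs.Hv z c → c ^ L.p ^ n = c :=
    fun hz _ hc => kf_res hy.rf hn hkn hz hc
  have hlw : ∀ x ∈ S, ∀ w ∈ rts ψ (C x),
      Lw₁ f L ψ π s χ n (C x) w (lw f L ψ π s χ k (C x) w) := fun x hx w hw =>
    lw_spec hy hψ hχ hs hn hkn (hG x hx w hw)
  have hb0 : b' = 0 := by
    refine fp_uniq hn ?_ (zero_pow hp0) fun τ hτ => ?_
    · obtain ⟨E, hE⟩ : ∃ E : Subfield L.κ, ∀ x, x ∈ E ↔ x ^ L.p ^ n = x :=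
        ⟨(iterateFrobenius L.κ L.p n).eqLocusField (RingHom.id L.κ), fun x => Iff.rfl⟩
      rw [← hE, hb']
      refine sum_mem fun x hx => mul_mem (inv_mem ((hE _).2 (hfx (hPM x hx) (rdn_hv L _))))
        (sum_mem fun w hw => mul_mem (pow_mem ((hE _).2
          (hfx (hG x hx w hw).mem (rv_hv L (hG x hx w hw).le))) j)
          (sum_mem fun r _ => mul_mem ((hE _).2 ((hlw x hx w hw).1 r))
            ((hE _).2 (hfx (hdM x hx r) (rdn_hv L _)))))
    · obtain ⟨tr, htr⟩ : ∃ tr : L.κ →+ L.κ, ∀ x, tr x = trn L.p n x :=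
        ⟨AddMonoidHom.mk' (trn L.p n) trn_add, fun x => rfl⟩
      obtain ⟨v, hv⟩ : ∃ v : ZMod L.p →+ L.κ, ∀ x, v x = (x.val : L.κ) :=
        ⟨AddMonoidHom.mk' (fun x => (x.val : L.κ)) fun x y => by
          rw [ZMod.natCast_val, ZMod.natCast_val, ZMod.natCast_val]
          exact ZMod.cast_add' x y, fun x => rfl⟩
      obtain ⟨z, hzM, hz⟩ := kf_ur (L := L) hn hτ
      obtain ⟨g, hg⟩ : ∃ g : Rn L → Ω → Fin (d + 1) → Ω, ∀ x w r, g x w r =
          z * w ^ j / (P x : Ω) * (((Polynomial.derivative (a r)).eval x : Rn L) : Ω) :=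
        ⟨_, fun _ _ _ => rfl⟩
      have hgv : ∀ x ∈ S, ∀ w ∈ rts ψ (C x), ∀ r, L.rs.Hv (g x w r)
          (τ * rv L w ^ j / rdn L (P x) * rdn L ((Polynomial.derivative (a r)).eval x)) := by
        intro x hx w hw r
        rw [hg]
        exact ((hz.mul ((rv_hv L (hG x hx w hw).le).pow j)).div (rdn_hv L _)
          (hP0 x hx)).mul (rdn_hv L _)
      have hgI : ∀ x ∈ S, ∀ w ∈ rts ψ (C x), Iv L (L.Ur ⊥ n) (g x w) := by
        intro x hx w hw r
        refine ⟨?_, L.hv_int (hgv x hx w hw r)⟩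
        rw [hg]
        exact mul_mem (div_mem (mul_mem hzM (pow_mem (hG x hx w hw).mem j)) (hPM x hx))
          (hdM x hx r)
      have hmem : ∀ x ∈ S, ∀ w ∈ rts ψ (C x),
          cyv f L ψ (L.Ur ⊥ n) (C x) w (π ^ s • g x w) ∈ Vl f L π s := fun x hx w hw =>
        cyv_vl hy hψ hM (hG x hx w hw) (hgI x hx w hw) hs
      -- the relation of the curves
      have hrel : (∑ x ∈ S, ∑ w ∈ rts ψ (C x),
          cyv f L ψ (L.Ur ⊥ n) (C x) w (π ^ s • g x w)) ∈ Vl f L π (s + 1) := by
        have hvl : Vl f L π (2 * s) ≤ Vl f L π (s + 1) := vl_anti hy.uf (by omega)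
        refine hvl ?_
        have hρ : ∀ i, ((a i).map (Rn L).subtype).natDegree ≤ b := fun i =>
          Polynomial.natDegree_map_le.trans (hb i)
        have key := cyv_crv (f := f) (T := S.biUnion fun x => (rts ψ (C x)).image
            fun w => ((x : Ω), w)) (S := S.image fun x : Rn L => (x : Ω)) (j := j) (s := s)
          (τ := z) hy.uf hψ hM hA hρ ?_ ?_ ?_ hzM (L.hv_int hz) ?_ ?_ hs
        · refine (Vl f L π (2 * s)).mem_carrier.1 ?_
          have e1 : (∑ x ∈ S, ∑ w ∈ rts ψ (C x),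
              cyv f L ψ (L.Ur ⊥ n) (C x) w (π ^ s • g x w)) =
              ∑ q ∈ S.biUnion fun x => (rts ψ (C x)).image fun w => ((x : Ω), w),
                cyv f L ψ (L.Ur ⊥ n) (fun r => ((a r).map (Rn L).subtype).eval q.1) q.2
                  (fun r => π ^ s * (z * q.2 ^ j /
                    (Polynomial.derivative (∏ c ∈ S.image (fun x : Rn L => (x : Ω)),
                      (Polynomial.X - Polynomial.C c))).eval q.1) *
                    (Polynomial.derivative ((a r).map (Rn L).subtype)).eval q.1) := by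
            rw [Finset.sum_biUnion]
            · refine Finset.sum_congr rfl fun x hx => ?_
              rw [Finset.sum_image fun w _ w' _ h => (Prod.ext_iff.1 h).2]
              refine Finset.sum_congr rfl fun w _ => ?_
              have e2 : (fun r => ((a r).map (Rn L).subtype).eval (x : Ω)) = C x := by
                rw [hC]
                exact funext fun r => kj_ev _ _
              have e3 : (fun r => π ^ s * (z * w ^ j /
                    (Polynomial.derivative (∏ c ∈ S.image (fun x : Rn L => (x : Ω)),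
                      (Polynomial.X - Polynomial.C c))).eval (x : Ω)) *
                    (Polynomial.derivative ((a r).map (Rn L).subtype)).eval (x : Ω)) =
                  π ^ s • g x w := by
                funext r
                rw [kj_prod S hx, kj_der, Pi.smul_apply, hg, smul_eq_mul, hP, mul_assoc]
              change _ = cyv f L ψ (L.Ur ⊥ n) (fun r => ((a r).map (Rn L).subtype).eval (x : Ω)) w
                (fun r => π ^ s * (z * w ^ j /
                    (Polynomial.derivative (∏ c ∈ S.image (fun x : Rn L => (x : Ω)),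
                      (Polynomial.X - Polynomial.C c))).eval (x : Ω)) *
                    (Polynomial.derivative ((a r).map (Rn L).subtype)).eval (x : Ω))
              rw [e2, e3]
            · intro x _ x' _ hne
              rw [Function.onFun, Finset.disjoint_left]
              intro q hq hq'
              obtain ⟨w, -, rfl⟩ := Finset.mem_image.1 hq
              obtain ⟨w', -, h⟩ := Finset.mem_image.1 hq'
              exact hne (Subtype.ext (Prod.ext_iff.1 h).1.symm)
          rw [e1]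
          exact key
        · intro c hc
          obtain ⟨x, hx, rfl⟩ := Finset.mem_image.1 hc
          refine ⟨hSM x hx, rn_le L x, ?_⟩
          have e2 : (fun r => ((a r).map (Rn L).subtype).eval (x : Ω)) =
              fun r => (((a r).eval x : Rn L) : Ω) := funext fun r => kj_ev _ _
          rw [e2]
          exact hD x hx
        · intro c hc c' hc' hne
          obtain ⟨x, hx, rfl⟩ := Finset.mem_image.1 hc
          obtain ⟨x', hx', rfl⟩ := Finset.mem_image.1 hc'
          refine le_antisymm (rn_le L (x - x')) (not_lt.1 fun hlt => hne ?_)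
          rw [hS x hx x' hx' ((L.hv_sub (rdn_hv L x) (rdn_hv L x')).2 hlt)]
        · rw [Finset.card_image_of_injective _ Subtype.val_injective]
          exact hj
        · rintro ⟨c, w⟩
          have e2 : ∀ x : Rn L, (fun r => ((a r).map (Rn L).subtype).eval (x : Ω)) = C x := by
            intro x
            rw [hC]
            exact funext fun r => kj_ev _ _
          constructor
          · intro h
            obtain ⟨x, hx, h⟩ := Finset.mem_biUnion.1 h
            obtain ⟨w', hw', h⟩ := Finset.mem_image.1 h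
            obtain ⟨rfl, rfl⟩ := Prod.ext_iff.1 h
            refine ⟨Finset.mem_image_of_mem _ hx, ?_⟩
            change pe (fun r => ((a r).map (Rn L).subtype).eval (x : Ω)) w' ψ.G = 0
            rw [e2]
            exact (mem_rts hψ).1 hw'
          · rintro ⟨h1, h2⟩
            obtain ⟨x, hx, h1⟩ := Finset.mem_image.1 h1
            change (x : Ω) = c at h1
            subst h1
            change pe (fun r => ((a r).map (Rn L).subtype).eval (x : Ω)) w ψ.G = 0 at h2
            rw [e2] at h2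
            exact Finset.mem_biUnion.2 ⟨x, hx, Finset.mem_image_of_mem _ ((mem_rts hψ).2 h2)⟩
        · intro q hq
          obtain ⟨x, hx, h⟩ := Finset.mem_biUnion.1 hq
          obtain ⟨w', hw', rfl⟩ := Finset.mem_image.1 h
          exact (hG x hx w' hw').mem
      have h0 := hχ.zero _ hrel
      rw [hχ.map_sum S fun x hx => sum_mem fun w hw => hmem x hx w hw] at h0
      have h1 : ∀ x ∈ S, tr (τ * ((rdn L (P x))⁻¹ * ∑ w ∈ rts ψ (C x), rv L w ^ j *
          ∑ r, lw f L ψ π s χ k (C x) w r * rdn L ((Polynomial.derivative (a r)).eval x))) =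
          v (χ (∑ w ∈ rts ψ (C x), cyv f L ψ (L.Ur ⊥ n) (C x) w (π ^ s • g x w))) := by
        intro x hx
        rw [hχ.map_sum _ fun w hw => hmem x hx w hw, map_sum, Finset.mul_sum, Finset.mul_sum,
          map_sum]
        refine Finset.sum_congr rfl fun w hw => ?_
        rw [hv, (hlw x hx w hw).2 _ _ (hgI x hx w hw) (hgv x hx w hw), htr]
        congr 1
        rw [Finset.mul_sum, Finset.mul_sum, Finset.mul_sum]
        refine Finset.sum_congr rfl fun r _ => ?_
        rw [div_eq_mul_inv]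
        ring
      rw [mul_zero, ← htr, ← htr, map_zero, hb', Finset.mul_sum, map_sum,
        Finset.sum_congr rfl h1, ← map_sum, h0, map_zero]
  rw [hb'] at hb0
  rw [← hb0]
  refine Finset.sum_congr rfl fun x _ => ?_
  rw [hPr]
  unfold Pw
  rw [hC]

end GX
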