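import Pool.Agent.Lib.MP_f80667_ag.Lv.D

/-!
The comparison of two divisors on a line in the space of a projection (the general form of JEN, PAR and of the multiplication by `p`).

`Nb f L ψ π M w₀ s c x P`: `x` are coordinates over `M` of the point `P`, which is on the sheet of `w₀`; its projection is congruent to `c` modulo `π ^ s`.
-/

open ZC BE PE CV IntermediateField Polynomial

namespace GX

section dpo

variable {K Ω : Type} [Field K] [Field Ω] [Algebra K Ω] {L : Ld K Ω} {M : IntermediateField K Ω}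

theorem lin_dpo {c : Ω} (hc : c ∈ M) (hc1 : L.nm c < 1) : Dpo L M (X - C c) where
  monic := monic_X_sub_C c
  mem i := by
    rw [coeff_sub, coeff_X, coeff_C]
    split_ifs
    · exact sub_mem (one_mem M) hc
    · exact sub_mem (one_mem M) (zero_mem M)
    · exact sub_mem (zero_mem M) hc
    · exact sub_mem (zero_mem M) (zero_mem M)
  lt i hi := by
    rw [natDegree_X_sub_C] at hi
    obtain rfl : i = 0 := by omega
    rw [coeff_sub, coeff_X_zero, coeff_C_zero, zero_sub, L.neg]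
    exact hc1

/-- The coefficients of a product. -/
theorem dpo_mul {q q' : Polynomial Ω} (hq : Dpo L M q) (hq' : Dpo L M q') :
    Dpo L M (q * q') where
  monic := hq.monic.mul hq'.monic
  mem i := by
    rw [coeff_mul]
    exact sum_mem fun x _ => mul_mem (hq.mem _) (hq'.mem _)
  lt i hi := by
    have hle : ∀ {q : Polynomial Ω}, Dpo L M q → ∀ i, L.nm (q.coeff i) ≤ 1 := by
      intro q h i
      rcases lt_trichotomy i q.natDegree with h1 | h1 | h1
      · exact (h.lt i h1).le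
      · rw [h1, h.monic.coeff_natDegree, L.one]
      · rw [coeff_eq_zero_of_natDegree_lt h1, L.zero]
        exact zero_le_one
    rw [hq.monic.natDegree_mul hq'.monic] at hi
    rw [coeff_mul]
    have key : ∀ s : Finset (ℕ × ℕ), (∀ x ∈ s, x.1 + x.2 = i) →
        L.nm (∑ x ∈ s, q.coeff x.1 * q'.coeff x.2) < 1 := by
      intro s
      induction s using Finset.induction_on with
      | empty =>
        intro _
        rw [Finset.sum_empty, L.zero]
        exact zero_lt_one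
      | insert a s ha ih =>
        intro hs
        rw [Finset.sum_insert ha]
        refine (L.add _ _).trans_lt (max_lt ?_ (ih fun x hx => hs x (Finset.mem_insert_of_mem hx)))
        have h1 := hs a (Finset.mem_insert_self a s)
        rw [L.mul]
        rcases lt_or_ge a.1 q.natDegree with h2 | h2
        · exact mul_lt_one_of_nonneg_of_lt_one_left (L.nonneg _) (hq.lt _ h2) (hle hq' _)
        · have h3 : a.2 < q'.natDegree := by omega
          exact mul_lt_one_of_nonneg_of_lt_one_right (hle hq _) (L.nonneg _) (hq'.lt _ h3)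
    exact key _ fun x hx => by simpa using hx

theorem one_dpo : Dpo L M (1 : Polynomial Ω) where
  monic := monic_one
  mem i := by
    rw [coeff_one]
    split_ifs
    · exact one_mem M
    · exact zero_mem M
  lt i hi := by
    rw [natDegree_one] at hi
    exact absurd hi (Nat.not_lt_zero i)

theorem prod_dpo {n : ℕ} {α : Fin n → Ω} (h : ∀ i, α i ∈ M) (h1 : ∀ i, L.nm (α i) < 1) :
    Dpo L M (∏ i, (X - C (α i))) := by
  classical
  have key : ∀ s : Finset (Fin n), Dpo L M (∏ i ∈ s, (X - C (α i))) := by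
    intro s
    induction s using Finset.induction_on with
    | empty =>
      rw [Finset.prod_empty]
      exact one_dpo
    | insert a s ha ih =>
      rw [Finset.prod_insert ha]
      exact dpo_mul (lin_dpo (h a) (h1 a)) ih
  exact key _

omit [Algebra K Ω] [Field K] in
theorem prod_deg {n : ℕ} (α : Fin n → Ω) :
    (∏ i, (X - C (α i)) : Polynomial Ω).natDegree = n := by
  rw [natDegree_prod_of_monic _ _ fun i _ => monic_X_sub_C _]
  simp

omit [Algebra K Ω] [Field K] in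
theorem rcy_prod {F : Type} [Field F] [Algebra F Ω] {n : ℕ} (α : Fin n → Ω)
    {W : Vr F} (P : Ω → W.pt Ω) :
    rcy P (∏ i, (X - C (α i)) : Polynomial Ω) = ∑ i, Finsupp.single (P (α i)) 1 := by
  have h : (∏ i, (X - C (α i)) : Polynomial Ω).roots = Finset.univ.val.map α := by
    have h1 : (Finset.univ.val.map fun i => (X - C (α i) : Polynomial Ω)) =
        (Finset.univ.val.map α).map fun a : Ω => (X - C a : Polynomial Ω) := by
      rw [Multiset.map_map]
      rfl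
    rw [Finset.prod_eq_multiset_prod, h1]
    exact roots_multiset_prod_X_sub_C _
  rw [rcy, h, Multiset.map_map]
  rfl

end dpo

section line

variable {F : Type} [Field F] {N d : ℕ} {ι : Type} {f : ι → MvPolynomial (Fin N) F} {K Ω : Type}
  [Field K] [CharZero K] [Field Ω] [Algebra K Ω] [Algebra F K] [Algebra F Ω]
  [IsScalarTower F K Ω] [IsAlgClosure K Ω] {L : Ld K Ω} {ψ : Prj K N d} {π : Ω}
  {M : IntermediateField K Ω}

/-- A point near the branch of an arc. -/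
theorem br_near (hπ : Uf L π) (hψ : Pj f L ψ) [FiniteDimensional K M] {c : Fin (d + 1) → Ω}
    (hD : L.nm (MvPolynomial.aeval c ψ.D) = 1) (hc : ∀ r, L.nm (c r) ≤ 1) {w₀ : Ω} {s : ℕ}
    (hs : s ≠ 0) {x y : Fin N → Ω} {P B : (Xf f).pt Ω} (hx : Iv L M x) (hP : Co P x)
    (hB : Co B y) (hBM : Fp (Xf f) M B) (hy : ∀ j, L.nm (y j) ≤ 1) (hy1 : ∃ j, L.nm (y j) = 1)
    (hxw : L.nm (ψ.yv x - w₀) < 1) (hyw : L.nm (ψ.yv y - w₀) < 1)
    (hcy : ∀ r, L.nm (ψ.uv y r - c r) < 1)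
    (h : ∀ r, L.nm (ψ.uv x r - ψ.uv y r) ≤ L.nm π ^ s) :
    (Finsupp.single P 1 - Finsupp.single B 1 : (Xf f).pt Ω →₀ ℤ) ∈ Dr f L π s M := by
  have hs1 := hπ.pow_lt hs
  have hx1 : ∀ j, L.nm (x j) ≤ 1 := fun j => (hx j).2
  obtain ⟨hu, hyv⟩ := hψ.uv_le hx1
  obtain ⟨hu', hyv'⟩ := hψ.uv_le hy
  have hDy : L.nm (MvPolynomial.aeval (ψ.uv y) ψ.D) = 1 :=
    hψ.D_close hc hu' (fun r => by rw [L.sub_comm]; exact hcy r) hD
  have hcl : ∀ j, L.nm (y j - x j) < 1 := fun j =>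
    hψ.sheet hy hx1 (co_ne hB) (co_ne hP) (co_zero hB) (co_zero hP) hDy
      (fun r => by rw [L.sub_comm]; exact (h r).trans_lt hs1) (by
        have h5 : ψ.yv y - ψ.yv x = (ψ.yv y - w₀) - (ψ.yv x - w₀) := by ring
        rw [h5]
        exact (L.sub _ _).trans_lt (max_lt hyw hxw)) j
  have hnr := hψ.near hy hx1 (co_zero hB) (co_zero hP) hDy
    (fun j => by rw [L.sub_comm]; exact hcl j) (pow_nonneg (L.nonneg π) s) h
  have hn : Nrh f L (L.nm π ^ s) P B :=
    nrh_symm (nrh_mk hs1 hB hP hy hx1 hy1 fun j => by rw [L.sub_comm]; exact hnr j)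
  exact dr_pt (fp_co hP fun j => (hx j).1) hBM hn

/-- `x` are coordinates over `M` of the point `P` on the sheet of `w₀`, the projection is congruent to `c` modulo `π ^ s`. -/
structure Nb (f : ι → MvPolynomial (Fin N) F) (L : Ld K Ω) (ψ : Prj K N d) (π : Ω)
    (M : IntermediateField K Ω) (w₀ : Ω) (s : ℕ) (c : Fin (d + 1) → Ω) (x : Fin N → Ω)
    (P : (Xf f).pt Ω) : Prop where
  iv : Iv L M x
  co : Co P x
  sh : L.nm (ψ.yv x - w₀) < 1
  nr : ∀ r, L.nm (ψ.uv x r - c r) ≤ L.nm π ^ s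

/-- **The comparison on a line.** -/
theorem ln (hπ : Uf L π) (hψ : Pj f L ψ) (hM : Um L M) {c h : Fin (d + 1) → Ω} (hc : Iv L M c)
    (hh : Iv L M h) {w₀ : Ω} (hw : w₀ ∈ M) (hw1 : L.nm w₀ ≤ 1)
    (hD : L.nm (MvPolynomial.aeval c ψ.D) = 1) (hG : L.nm (pe c w₀ ψ.G) < 1) {n : ℕ}
    {x x' : Fin n → Fin N → Ω} {P P' : Fin n → (Xf f).pt Ω} {α α' : Fin n → Ω} {s : ℕ}
    (hs : s ≠ 0)
    (h1 : ∀ i, Nb f L ψ π M w₀ s (fun r => c r + α i * h r) (x i) (P i))
    (h1' : ∀ i, Nb f L ψ π M w₀ s (fun r => c r + α' i * h r) (x' i) (P' i))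
    (h2 : ∀ i, α i ∈ M ∧ L.nm (α i) < 1) (h2' : ∀ i, α' i ∈ M ∧ L.nm (α' i) < 1)
    (hα : ∀ k, L.nm ((∏ i, (X - C (α i)) : Polynomial Ω).coeff k -
      (∏ i, (X - C (α' i)) : Polynomial Ω).coeff k) ≤ L.nm π ^ s) :
    ∑ i, Finsupp.single (P i) 1 - ∑ i, Finsupp.single (P' i) 1 ∈
      Dr f L π s M ⊔ (Xf f).ratEq M Ω := by
  have hfd : FiniteDimensional K M := hM.fd
  have h00 : L.nm (0 : Ω) < 1 := by rw [L.zero]; exact zero_lt_one
  obtain ⟨a, ha⟩ : ∃ a : Fin (d + 1) → Polynomial Ω, a = fun r => C (h r) * X + C (c r) :=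
    ⟨_, rfl⟩
  have hev : ∀ r z, (a r).eval z = c r + z * h r := fun r z => by
    rw [ha]
    simp only [eval_add, eval_mul, eval_C, eval_X]
    ring
  have hArc : Arc L M a := by
    intro i j
    rw [ha]
    simp only [coeff_add, coeff_C_mul, coeff_X, coeff_C]
    rcases j with _ | _ | j
    · simp only [if_neg (show ¬ (1 = 0) by omega), if_true, mul_zero, zero_add]
      exact hc i
    · simp only [zero_add, if_true, if_neg (show ¬ (1 = 0) by omega), mul_one, add_zero]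
      exact hh i
    · rw [if_neg (by omega), if_neg (by omega), mul_zero, add_zero]
      exact ⟨zero_mem M, by rw [L.zero]; exact zero_le_one⟩
  have ha0 : (fun r => (a r).eval 0) = c := funext fun r => by rw [hev, zero_mul, add_zero]
  have hD0 : L.nm (MvPolynomial.aeval (fun r => (a r).eval 0) ψ.D) = 1 := by
    rw [ha0]
    exact hD
  have hG0 : L.nm (pe (fun r => (a r).eval 0) w₀ ψ.G) < 1 := by
    rw [ha0]
    exact hG
  obtain ⟨B, hBa, hBb, hBc, hBd⟩ := exists_br hψ hArc hw hw1 hD0 hG0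
  have key : ∀ {x : Fin N → Ω} {P : (Xf f).pt Ω} {α : Ω},
      Nb f L ψ π M w₀ s (fun r => c r + α * h r) x P → α ∈ M ∧ L.nm α < 1 →
      (Finsupp.single P 1 - Finsupp.single (B α) 1 : (Xf f).pt Ω →₀ ℤ) ∈ Dr f L π s M := by
    rintro x P α ⟨k1, k2, k3, k6⟩ ⟨k4, k5⟩
    obtain ⟨y, l1, l2, l3, l4, l5⟩ := hBd α k5
    refine br_near hπ hψ hD (fun r => (hc r).2) hs k1 k2 l1 ?_ l2 l3 k3 l5 (fun r => ?_)
      fun r => ?_
    · intro γ hγ
      rw [hBb γ hγ _ k5]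
      congr 1
      exact (IntermediateField.mem_fixingSubgroup_iff M γ).1 hγ _ k4
    · rw [l4, hev, add_sub_cancel_left, L.mul]
      exact mul_lt_one_of_nonneg_of_lt_one_left (L.nonneg _) k5 (hh r).2
    · rw [l4, hev]
      exact k6 r
  obtain ⟨z, hz, hz'⟩ := la_ch hψ (hπ.mem M) hπ.pos hπ.lt (hπ.um_val hM) hArc hw hw1 hD0 hG0 hBa
    (prod_dpo (fun i => (h2 i).1) fun i => (h2 i).2)
    (prod_dpo (fun i => (h2' i).1) fun i => (h2' i).2)
    (by rw [prod_deg, prod_deg]) (l := 1) (u := 0) (s := s) (Or.inl ⟨rfl, rfl, hs⟩)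
    (fun i => by rw [add_zero]; exact hα i)
  rw [one_smul, rcy_prod, rcy_prod] at hz'
  have e1 : ∑ i, Finsupp.single (P i) 1 - ∑ i, Finsupp.single (P' i) (1 : ℤ) =
      (z + ∑ i, (Finsupp.single (P i) 1 - Finsupp.single (B (α i)) 1) -
        ∑ i, (Finsupp.single (P' i) 1 - Finsupp.single (B (α' i)) 1)) +
      (∑ i, Finsupp.single (B (α i)) 1 - ∑ i, Finsupp.single (B (α' i)) 1 - z) := by
    rw [Finset.sum_sub_distrib, Finset.sum_sub_distrib]
    abel
  rw [e1]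
  refine AddSubgroup.add_mem_sup (sub_mem (add_mem hz ?_) ?_) hz'
  · exact sum_mem fun i _ => key (h1 i) (h2 i)
  · exact sum_mem fun i _ => key (h1' i) (h2' i)

/-- Points over given points. -/
theorem exists_nb (hψ : Pj f L ψ) {c : Fin (d + 1) → Ω} (hc : ∀ r, L.nm (c r) ≤ 1) {w₀ : Ω}
    (hw : w₀ ∈ M) (hw1 : L.nm w₀ ≤ 1) (hD : L.nm (MvPolynomial.aeval c ψ.D) = 1)
    (hG : L.nm (pe c w₀ ψ.G) < 1) {c' : Fin (d + 1) → Ω} (hc' : Iv L M c')
    (hcc : ∀ r, L.nm (c' r - c r) < 1) :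
    ∃ (x : Fin N → Ω) (P : (Xf f).pt Ω), (∀ s, Nb f L ψ π M w₀ s c' x P) ∧ ψ.uv x = c' ∧
      ∃ j, L.nm (x j) = 1 := by
  have hc'1 : ∀ r, L.nm (c' r) ≤ 1 := fun r => (hc' r).2
  have hD' : L.nm (MvPolynomial.aeval c' ψ.D) = 1 :=
    hψ.D_close hc hc'1 (fun r => by rw [L.sub_comm]; exact hcc r) hD
  obtain ⟨i₀, -, hi₀⟩ := Finset.exists_max_image Finset.univ (fun r => L.nm (c' r - c r))
    ⟨0, Finset.mem_univ _⟩
  have h1 := pe_close hψ.iG hc'1 hw1 hc hw1 (L.nonneg _) (fun r => hi₀ r (Finset.mem_univ r))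
    (by rw [sub_self, L.zero]; exact L.nonneg _)
  have h2 : L.nm (pe c' w₀ ψ.G) < 1 := by
    have h3 := L.add (pe c' w₀ ψ.G - pe c w₀ ψ.G) (pe c w₀ ψ.G)
    rw [sub_add_cancel] at h3
    exact h3.trans_lt (max_lt (h1.trans_lt (hcc i₀)) hG)
  obtain ⟨w, h3, h4, h5, h6⟩ := hψ.root hc' hD' hw hw1 h2
  obtain ⟨k1, k2, k3, k4, k5, k6⟩ := hψ.pt_iv hc' h3 h4 h5 hD'
  obtain ⟨P, hP⟩ := co_mk k3 k4
  refine ⟨_, P, fun s => ⟨k1, hP, ?_, fun r => ?_⟩, k5, k2⟩
  · rw [k6]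
    exact h6.trans_lt h2
  · rw [k5, sub_self, L.zero]
    exact pow_nonneg (L.nonneg _) s

omit [CharZero K] [IsAlgClosure K Ω] in
theorem Nb.of {w₀ : Ω} {s : ℕ} {c c' : Fin (d + 1) → Ω} {x : Fin N → Ω} {P : (Xf f).pt Ω}
    (h : Nb f L ψ π M w₀ s c x P) (hcc : ∀ r, L.nm (c r - c' r) ≤ L.nm π ^ s) :
    Nb f L ψ π M w₀ s c' x P :=
  ⟨h.iv, h.co, h.sh, fun r => by
    have e1 : ψ.uv x r - c' r = (ψ.uv x r - c r) + (c r - c' r) := by ring
    rw [e1]
    exact (L.add _ _).trans (max_le (h.nr r) (hcc r))⟩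

/-- Two points over congruent points on one sheet. -/
theorem nb_nb (hπ : Uf L π) (hψ : Pj f L ψ) [FiniteDimensional K M] {c : Fin (d + 1) → Ω}
    (hc : ∀ r, L.nm (c r) ≤ 1) (hD : L.nm (MvPolynomial.aeval c ψ.D) = 1) {w₀ : Ω} {s : ℕ}
    (hs : s ≠ 0) {c' : Fin (d + 1) → Ω} (hcc : ∀ r, L.nm (c' r - c r) < 1)
    {x x' : Fin N → Ω} {P P' : (Xf f).pt Ω} (h : Nb f L ψ π M w₀ s c' x P)
    (h' : Nb f L ψ π M w₀ s c' x' P') :
    (Finsupp.single P' 1 - Finsupp.single P 1 : (Xf f).pt Ω →₀ ℤ) ∈ Dr f L π s M := by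
  have hs1 := hπ.pow_lt hs
  have hx1 : ∀ j, L.nm (x j) ≤ 1 := fun j => (h.iv j).2
  obtain ⟨hu, hyv⟩ := hψ.uv_le hx1
  have hcx : ∀ r, L.nm (ψ.uv x r - c r) < 1 := fun r => by
    have e1 : ψ.uv x r - c r = (ψ.uv x r - c' r) + (c' r - c r) := by ring
    rw [e1]
    exact (L.add _ _).trans_lt (max_lt ((h.nr r).trans_lt hs1) (hcc r))
  have hDx : L.nm (MvPolynomial.aeval (ψ.uv x) ψ.D) = 1 :=
    hψ.D_close hc hu (fun r => by rw [L.sub_comm]; exact hcx r) hD
  have hDne : MvPolynomial.aeval (ψ.uv x) ψ.D ≠ 0 :=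
    L.ne_zero (by rw [hDx]; exact zero_lt_one)
  obtain ⟨hG, hpt⟩ := hψ.pt_eq (co_ne h.co) (co_zero h.co) hDne
  obtain ⟨-, hpr, -⟩ := hψ.pt_iv (M := M) (c := ψ.uv x) (w := ψ.yv x)
    (hψ.uv_iv h.iv).1 (hψ.uv_iv h.iv).2.1 hyv hG hDx
  rw [hpt] at hpr
  refine br_near hπ hψ hD hc hs h'.iv h'.co h.co (fp_co h.co fun j => (h.iv j).1) hx1 hpr h'.sh
    h.sh hcx fun r => ?_
  have e1 : ψ.uv x' r - ψ.uv x r = (ψ.uv x' r - c' r) - (ψ.uv x r - c' r) := by ring
  rw [e1]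
  exact (L.sub _ _).trans (max_le (h'.nr r) (h.nr r))

end line

end GX
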