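import Pool.Agent.Lib.MP_f80667_ag.Lv.St
import Pool.Agent.Lib.MP_f80667_ag.Lv.Vn

/-! The filtration by the levels satisfies the hypotheses of the stable range if the graded pieces are finite. -/

open ZC BE PE CV IntermediateField

namespace GX

variable {F : Type} [Field F] {N d m : ℕ} {ι : Type} {K Ω : Type}
  [Field K] [CharZero K] [Field Ω] [Algebra K Ω] [Algebra F K] [Algebra F Ω]
  [IsScalarTower F K Ω] [IsAlgClosure K Ω] {f : ι → MvPolynomial (Fin N) F} {L : Ld K Ω} {π : Ω}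

/-- The levels. -/
theorem vl_stb (hp : 2 < L.p) (hπ : Uf L π) (hf : Hm f) {ψ : Fin m → Prj K N d}
    (hψ : ∀ i, Pj f L (ψ i)) (hc : Cvr f L ψ) {e : ℕ} (he0 : e ≠ 0)
    (he : L.nm (L.p : Ω) = L.nm π ^ e)
    (hfin : ∀ n, 1 ≤ n → (Vl f L π (n + 1)).relIndex (Vl f L π n) ≠ 0) :
    Stb L.p e e ((Xf f).ratEq K Ω) (Vl f L π) where
  anti n := vl_anti hπ (Nat.le_succ n)
  le n := vl_rat n
  epos := Nat.pos_of_ne_zero he0
  dv n h0 h1 z hz := by
    refine vl_div_p hπ hf hψ hc he ?_ hz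
    calc e ≤ n := h0
      _ < 2 * n := by omega
      _ ≤ (L.p - 1) * n := Nat.mul_le_mul_right n (by omega)
  mp n h0 h1 w hw := by
    refine vl_mul_e hπ hf hψ hc he (by omega) ?_ hw
    calc e ≤ n := h0
      _ ≤ 2 * n := by omega
      _ ≤ (L.p - 1) * n := Nat.mul_le_mul_right n (by omega)
  dl n h1 l hl hlp z hz := vl_div_l hπ hf hψ hc hl hlp (by omega) hz
  up n h1 z hz := vl_mul_one hπ hf hψ hc (by omega) hz
  fin := hfin

end GX
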