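import Pool.Agent.Lib.MP_f80667_ag.Lv.D
import Pool.Agent.Lib.MP_f80667_ag.Gx.ChC

/-!
Values of displacements in the coordinates of a projection.

* `zx f x`: the point with the coordinates `x` as a cycle (`0` if `x` are not coordinates of a point of the variety).
* `Gp L ψ M c w`: `c` and `w` are in the integers of `M`, `G (c, w) = 0` and `D (c)` is a unit.
* `sht L ψ w c'`: the root of the polynomial `G (c', Y)` near `w`.
* `cyv f L ψ M c w h`: the trace to `K` of `[P'] - [P]`, `P` the point over `(c, w)`, `P'` the point over `c + h` on the sheet of `w`.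
-/

open ZC BE PE CV IntermediateField

namespace GX

section zx

variable {F : Type} [Field F] {N : ℕ} {ι : Type}

open Classical in
/-- The point with the coordinates `x` as a cycle. -/
noncomputable def zx (f : ι → MvPolynomial (Fin N) F) {E : Type} [Field E] [Algebra F E]
    (x : Fin N → E) : (Xf f).pt E →₀ ℤ :=
  if h : x ≠ 0 ∧ ∀ i, MvPolynomial.aeval x (f i) = 0 then
    Finsupp.single (Quotient.mk _ ⟨x, h.1, h.2⟩) 1 else 0

theorem zx_co {f : ι → MvPolynomial (Fin N) F} {E : Type} [Field E] [Algebra F E]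
    {P : (Xf f).pt E} {x : Fin N → E} (h : Co P x) : zx f x = Finsupp.single P 1 := by
  obtain ⟨Q, rfl, rfl⟩ := h
  unfold zx
  rw [dif_pos ⟨Q.ne, Q.eq⟩]

end zx

section loc

variable {F : Type} [Field F] {N d : ℕ} {ι : Type} (f : ι → MvPolynomial (Fin N) F) {K Ω : Type}
  [Field K] [Field Ω] [Algebra K Ω] [Algebra F K] [Algebra F Ω] [IsScalarTower F K Ω]
  (L : Ld K Ω) (ψ : Prj K N d)

/-- The point `(c, w)` of the hypersurface over the integers of `M`. -/
structure Gp (M : IntermediateField K Ω) (c : Fin (d + 1) → Ω) (w : Ω) : Prop where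
  iv : Iv L M c
  mem : w ∈ M
  le : L.nm w ≤ 1
  G : pe c w ψ.G = 0
  D : L.nm (MvPolynomial.aeval c ψ.D) = 1

open Classical in
/-- The root near `w`. -/
noncomputable def sht (w : Ω) (c' : Fin (d + 1) → Ω) : Ω :=
  if h : ∃ w', L.nm (w' - w) < 1 ∧ pe c' w' ψ.G = 0 then h.choose else w

/-- The trace of `[P'] - [P]`. -/
noncomputable def cyv (M : IntermediateField K Ω) (c : Fin (d + 1) → Ω) (w : Ω)
    (h : Fin (d + 1) → Ω) : (Xf f).pt Ω →₀ ℤ :=
  Nm (⊥ : IntermediateField K Ω) M
    (zx f ((ψ.om Ω).pt (c + h) (sht L ψ w (c + h))) - zx f ((ψ.om Ω).pt c w) :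
      (Xf f).pt Ω →₀ ℤ)

end loc

end GX
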