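import Pool.Agent.Lib.MP_f80667_ag.Lv.Tb
import Pool.Agent.Lib.MP_f80667_ag.Lv.Tr

/-!
Tame levels: LA on an arc for values of displacements.
-/

open ZC BE PE CV IntermediateField Polynomial

namespace GX

variable {F : Type} [Field F] {N d : ℕ} {ι : Type} {f : ι → MvPolynomial (Fin N) F} {K Ω : Type}
  [Field K] [CharZero K] [Field Ω] [Algebra K Ω] [Algebra F K] [Algebra F Ω]
  [IsScalarTower F K Ω] [IsAlgClosure K Ω] {L : Ld K Ω} {ψ : Prj K N d} {π : Ω}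
  {M : IntermediateField K Ω}

/-- **The comparison on an arc.** -/
theorem ln_arc (hπ : Uf L π) (hψ : Pj f L ψ) (hM : Um L M) {a : Fin (d + 1) → Polynomial Ω}
    (ha : Arc L M a) {w₀ : Ω} (hw : w₀ ∈ M) (hw1 : L.nm w₀ ≤ 1)
    (hD : L.nm (MvPolynomial.aeval (fun r => (a r).eval 0) ψ.D) = 1)
    (hG : L.nm (pe (fun r => (a r).eval 0) w₀ ψ.G) < 1) {n : ℕ}
    {x x' : Fin n → Fin N → Ω} {P P' : Fin n → (Xf f).pt Ω} {α α' : Fin n → Ω} {s : ℕ}
    (hs : s ≠ 0)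
    (h1 : ∀ i, Nb f L ψ π M w₀ s (fun r => (a r).eval (α i)) (x i) (P i))
    (h1' : ∀ i, Nb f L ψ π M w₀ s (fun r => (a r).eval (α' i)) (x' i) (P' i))
    (h2 : ∀ i, α i ∈ M ∧ L.nm (α i) < 1) (h2' : ∀ i, α' i ∈ M ∧ L.nm (α' i) < 1)
    (hα : ∀ k, L.nm ((∏ i, (X - C (α i)) : Polynomial Ω).coeff k -
      (∏ i, (X - C (α' i)) : Polynomial Ω).coeff k) ≤ L.nm π ^ s) :
    ∑ i, Finsupp.single (P i) 1 - ∑ i, Finsupp.single (P' i) 1 ∈
      Dr f L π s M ⊔ (Xf f).ratEq M Ω := by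
  have hfd : FiniteDimensional K M := hM.fd
  have h00 : L.nm (0 : Ω) ≤ 1 := by rw [L.zero]; exact zero_le_one
  obtain ⟨B, hBa, hBb, hBc, hBd⟩ := exists_br hψ ha hw hw1 hD hG
  have hc0 : ∀ r, L.nm ((a r).eval 0) ≤ 1 := fun r => by
    rw [← coeff_zero_eq_eval_zero]
    exact (ha r 0).2
  have hcl : ∀ {z : Ω}, L.nm z < 1 → ∀ r, L.nm ((a r).eval z - (a r).eval 0) < 1 := by
    intro z hz r
    obtain ⟨q, hq⟩ := X_dvd_sub_C (p := a r)
    have h3 := congrArg (Polynomial.eval z) hq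
    rw [eval_sub, eval_C, eval_mul, eval_X, coeff_zero_eq_eval_zero] at h3
    rw [h3, L.mul]
    refine mul_lt_one_of_nonneg_of_lt_one_left (L.nonneg _) hz ?_
    refine L.eval_le (fun i => ?_) hz.le
    have h4 := congrArg (fun P => Polynomial.coeff P (i + 1)) hq
    simp only [coeff_sub, coeff_C_succ, sub_zero, coeff_X_mul] at h4
    rw [← h4]
    exact (ha r (i + 1)).2
  have key : ∀ {x : Fin N → Ω} {P : (Xf f).pt Ω} {α : Ω},
      Nb f L ψ π M w₀ s (fun r => (a r).eval α) x P → α ∈ M ∧ L.nm α < 1 →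
      (Finsupp.single P 1 - Finsupp.single (B α) 1 : (Xf f).pt Ω →₀ ℤ) ∈ Dr f L π s M := by
    rintro x P α ⟨k1, k2, k3, k6⟩ ⟨k4, k5⟩
    obtain ⟨y, l1, l2, l3, l4, l5⟩ := hBd α k5
    refine br_near hπ hψ hD hc0 hs k1 k2 l1 ?_ l2 l3 k3 l5 (fun r => ?_) fun r => ?_
    · intro γ hγ
      rw [hBb γ hγ _ k5]
      congr 1
      exact (IntermediateField.mem_fixingSubgroup_iff M γ).1 hγ _ k4
    · rw [l4]
      exact hcl k5 r
    · rw [l4]
      exact k6 r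
  obtain ⟨z, hz, hz'⟩ := la_ch hψ (hπ.mem M) hπ.pos hπ.lt (hπ.um_val hM) ha hw hw1 hD hG hBa
    (prod_dpo (fun i => (h2 i).1) fun i => (h2 i).2)
    (prod_dpo (fun i => (h2' i).1) fun i => (h2' i).2)
    (by rw [prod_deg, prod_deg]) (l := 1) (u := 0) (s := s) (Or.inl ⟨rfl, rfl, hs⟩)
    (fun i => by rw [add_zero]; exact hα i)
  rw [one_smul, rcy_prod, rcy_prod] at hz'
  have e1 : ∑ i, Finsupp.single (P i) 1 - ∑ i, Finsupp.single (P' i) (1 : ℤ) =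
      (z + ∑ i, (Finsupp.single (P i) 1 - Finsupp.single (B (α i)) 1) -
        ∑ i, (Finsupp.single (P' i) 1 - Finsupp.single (B (α' i)) 1)) +
      (∑ i, Finsupp.single (B (α i)) 1 - ∑ i, Finsupp.single (B (α' i)) 1 - z) := by
    rw [Finset.sum_sub_distrib, Finset.sum_sub_distrib]
    abel
  rw [e1]
  refine AddSubgroup.add_mem_sup (sub_mem (add_mem hz ?_) ?_) hz'
  · exact sum_mem fun i _ => key (h1 i) (h2 i)
  · exact sum_mem fun i _ => key (h1' i) (h2' i)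

private theorem wa_cl {a : Fin (d + 1) → Polynomial Ω} (ha : Arc L M a)
    {c : Fin (d + 1) → Ω} (hc : Iv L M c) (ha0 : ∀ r, (a r).eval 0 = c r) {z : Ω} (hzM : z ∈ M)
    (hz : L.nm z < 1) : Iv L M (fun r => (a r).eval z - c r) ∧
      ∀ r, L.nm ((a r).eval z - c r) < 1 := by
  have h5 : ∀ r, L.nm ((a r).eval z - c r) < 1 := by
    intro r
    rw [← ha0 r]
    obtain ⟨q, hq⟩ := X_dvd_sub_C (p := a r)
    have h3 := congrArg (Polynomial.eval z) hq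
    rw [eval_sub, eval_C, eval_mul, eval_X, coeff_zero_eq_eval_zero] at h3
    rw [h3, L.mul]
    refine mul_lt_one_of_nonneg_of_lt_one_left (L.nonneg _) hz ?_
    refine L.eval_le (fun i => ?_) hz.le
    have h4 := congrArg (fun P => Polynomial.coeff P (i + 1)) hq
    simp only [coeff_sub, coeff_C_succ, sub_zero, coeff_X_mul] at h4
    rw [← h4]
    exact (ha r (i + 1)).2
  refine ⟨fun r => ⟨sub_mem ?_ (hc r).1, (h5 r).le⟩, h5⟩
  rw [Polynomial.eval_eq_sum_range]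
  exact sum_mem fun i _ => mul_mem (ha r i).1 (pow_mem hzM i)

private theorem wa_nb (hψ : Pj f L ψ) {c e c' : Fin (d + 1) → Ω} {w : Ω} (g : Gp L ψ M c w)
    (he : Iv L M e) (h1 : ∀ r, L.nm (e r) < 1) (s : ℕ) (hc' : ∀ r, c' r = c r + e r) :
    ∃ (x : Fin N → Ω) (P : (Xf f).pt Ω), Fp (Xf f) M P ∧ Nb f L ψ π M w s c' x P ∧
      zx f ((ψ.om Ω).pt (c + e) (sht L ψ w (c + e))) = Finsupp.single P 1 := by
  obtain ⟨i₀, -, hi₀⟩ := Finset.exists_max_image Finset.univ (fun r => L.nm (e r))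
    ⟨0, Finset.mem_univ _⟩
  obtain ⟨g', hg'⟩ := g.sh hψ he (h1 i₀) fun r => hi₀ r (Finset.mem_univ r)
  obtain ⟨k3, -, k4, k5, P, hP, hFp, hz'⟩ := g'.pt hψ
  refine ⟨_, P, hFp, ⟨k3, hP, ?_, fun r => ?_⟩, hz'⟩
  · rw [k5]
    exact hg'.trans_lt (h1 i₀)
  · rw [k4, hc' r, Pi.add_apply, sub_self, L.zero]
    exact pow_nonneg (L.nonneg _) s

/-- **LA on an arc for values.** -/
theorem cyv_arc (hπ : Uf L π) (hψ : Pj f L ψ) (hM : Um L M) {c : Fin (d + 1) → Ω} {w : Ω}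
    (g : Gp L ψ M c w) {a : Fin (d + 1) → Polynomial Ω} (ha : Arc L M a)
    (ha0 : ∀ r, (a r).eval 0 = c r) {n : ℕ} {α α' : Fin n → Ω}
    (h2 : ∀ i, α i ∈ M ∧ L.nm (α i) < 1) (h2' : ∀ i, α' i ∈ M ∧ L.nm (α' i) < 1) {s : ℕ}
    (hs : s ≠ 0)
    (hα : ∀ k, L.nm ((∏ i, (X - C (α i)) : Polynomial Ω).coeff k -
      (∏ i, (X - C (α' i)) : Polynomial Ω).coeff k) ≤ L.nm π ^ s) :
    ∑ i, cyv f L ψ M c w (fun r => (a r).eval (α i) - c r) -
      ∑ i, cyv f L ψ M c w (fun r => (a r).eval (α' i) - c r) ∈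
        Dr f L π s ⊥ ⊔ (Xf f).ratEq K Ω := by
  have hfd : FiniteDimensional K M := hM.fd
  have key : ∀ z : Ω, z ∈ M ∧ L.nm z < 1 → ∃ (x : Fin N → Ω) (P : (Xf f).pt Ω),
      Fp (Xf f) M P ∧ Nb f L ψ π M w s (fun r => (a r).eval z) x P ∧
      zx f ((ψ.om Ω).pt (c + fun r => (a r).eval z - c r)
        (sht L ψ w (c + fun r => (a r).eval z - c r))) = Finsupp.single P 1 := by
    intro z hz
    obtain ⟨k1, k2⟩ := wa_cl ha g.iv ha0 hz.1 hz.2
    exact wa_nb hψ g k1 k2 s fun r => by ring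
  choose x P hFp hNb hzx using fun i => key (α i) (h2 i)
  choose x' P' hFp' hNb' hzx' using fun i => key (α' i) (h2' i)
  obtain ⟨-, -, -, -, P₀, -, -, hz₀⟩ := g.pt hψ
  have h00 : (fun r => (a r).eval 0) = c := funext ha0
  have hln := ln_arc hπ hψ hM ha g.mem g.le (by rw [h00]; exact g.D)
    (by rw [h00, g.G, L.zero]; exact zero_lt_one) hs hNb hNb' h2 h2' hα
  have hfx : Fx M (∑ i, Finsupp.single (P i) 1 - ∑ i, Finsupp.single (P' i) 1 :
      (Xf f).pt Ω →₀ ℤ) :=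
    (Fx.sum _ fun i _ => fx_single (hFp i) 1).sub (Fx.sum _ fun i _ => fx_single (hFp' i) 1)
  have h3 := GM.nm_sup hM hln hfx
  have h4 : ∀ i, cyv f L ψ M c w (fun r => (a r).eval (α i) - c r) =
      Nm (⊥ : IntermediateField K Ω) M (Finsupp.single (P i) 1 : (Xf f).pt Ω →₀ ℤ) -
        Nm (⊥ : IntermediateField K Ω) M (Finsupp.single P₀ 1 : (Xf f).pt Ω →₀ ℤ) := by
    intro i
    rw [cyv, hzx i, hz₀, nm_sub' bot_le]
  have h4' : ∀ i, cyv f L ψ M c w (fun r => (a r).eval (α' i) - c r) =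
      Nm (⊥ : IntermediateField K Ω) M (Finsupp.single (P' i) 1 : (Xf f).pt Ω →₀ ℤ) -
        Nm (⊥ : IntermediateField K Ω) M (Finsupp.single P₀ 1 : (Xf f).pt Ω →₀ ℤ) := by
    intro i
    rw [cyv, hzx' i, hz₀, nm_sub' bot_le]
  rw [Finset.sum_congr rfl fun i _ => h4 i, Finset.sum_congr rfl fun i _ => h4' i,
    Finset.sum_sub_distrib, Finset.sum_sub_distrib, sub_sub_sub_cancel_right,
    ← nm_sum' bot_le, ← nm_sum' bot_le, ← nm_sub' bot_le]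
  exact h3

end GX
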