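import Pool.Agent.Lib.MP_f80667_ag.Lv.Wa
import Pool.Agent.Lib.MP_f80667_ag.Lv.Kf
import Pool.Agent.Lib.MP_f80667_ag.Lv.Vn
import Pool.Agent.Lib.MP_f80667_ag.Lv.Tu

/-!
Tame levels: below the level `p - 1` the values do not change in a residue disc.

Relation on the arc `c + z v + z ^ r w` for the zeros `π ζ`, `ζ ^ (r + 1) = 1`, against `r + 1` times the zero `0`.
-/

open ZC BE PE CV IntermediateField Polynomial

namespace GX

section alg

variable {O V A : Type} [CommRing O] [AddCommGroup V] [Module O V] [AddCommGroup A]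

private theorem dfc_zero {T : V → V → A} (h : Dfc O T) (v : V) : T v 0 = 0 := by
  have h1 := h.add v 0 0
  rw [add_zero] at h1
  exact left_eq_add.mp h1

private theorem dfc_sum {T : V → V → A} (h : Dfc O T) (v : V) {α : Type} (s : Finset α)
    (g : α → V) : T v (∑ i ∈ s, g i) = ∑ i ∈ s, T v (g i) := by
  classical
  induction s using Finset.induction_on with
  | empty => rw [Finset.sum_empty, Finset.sum_empty, dfc_zero h]
  | insert a s ha ih => rw [Finset.sum_insert ha, Finset.sum_insert ha, h.add, ih]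

/-- The algebra of the tame levels. -/
theorem dfc_tame {T : V → V → A} (h : Dfc O T) {r : ℕ} {θ : Fin (r + 1) → O}
    (h1 : ∀ i, θ i ^ (r + 1) = 1) (h0 : ∑ i, θ i ^ r = 0) {v w : V}
    (hs : ∑ i, T (θ i • v) (θ i ^ r • w) = 0) : (r + 1) • (T v w - T 0 w) = 0 := by
  have h2 : ∀ i, T (θ i • v) (θ i ^ r • w) = (T v w - T 0 w) + T 0 (θ i ^ r • w) := by
    intro i
    have h3 := h.bal 0 v (θ i ^ r • w) (θ i)
    rw [zero_add, zero_add, smul_smul, ← pow_succ', h1, one_smul] at h3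
    rw [← h3]
    abel
  rw [Finset.sum_congr rfl fun i _ => h2 i, Finset.sum_add_distrib, ← dfc_sum h,
    ← Finset.sum_smul, h0, zero_smul, dfc_zero h, add_zero, Finset.sum_const,
    Finset.card_univ, Fintype.card_fin] at hs
  exact hs

end alg

section int

variable {K Ω : Type} [Field K] [Field Ω] [Algebra K Ω] (L : Ld K Ω)

/-- The integers of `M`. -/
def Ow (M : IntermediateField K Ω) : Subring Ω where
  carrier := {x | x ∈ M ∧ L.nm x ≤ 1}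
  mul_mem' := by
    rintro x y ⟨h1, h2⟩ ⟨h3, h4⟩
    exact ⟨mul_mem h1 h3, by rw [L.mul]; exact mul_le_one₀ h2 (L.nonneg _) h4⟩
  one_mem' := ⟨one_mem _, L.one.le⟩
  add_mem' := by
    rintro x y ⟨h1, h2⟩ ⟨h3, h4⟩
    exact ⟨add_mem h1 h3, (L.add _ _).trans (max_le h2 h4)⟩
  zero_mem' := ⟨zero_mem _, by rw [L.zero]; exact zero_le_one⟩
  neg_mem' := by
    rintro x ⟨h1, h2⟩
    exact ⟨neg_mem h1, by rw [L.neg]; exact h2⟩

end int

variable {F : Type} [Field F] {N d : ℕ} {ι : Type} {f : ι → MvPolynomial (Fin N) F} {K Ω : Type}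
  [Field K] [CharZero K] [Field Ω] [Algebra K Ω] [Algebra F K] [Algebra F Ω]
  [IsScalarTower F K Ω] [IsAlgClosure K Ω] {L : Ld K Ω} {ψ : Prj K N d} {π : Ω}
  {M : IntermediateField K Ω} {c v u : Fin (d + 1) → Ω} {w : Ω}

/-- The class of the value at `c + π v` modulo the level `r + 1`. -/
noncomputable def Tq (f : ι → MvPolynomial (Fin N) F) (L : Ld K Ω) (ψ : Prj K N d) (π : Ω)
    (r : ℕ) (M : IntermediateField K Ω) (c : Fin (d + 1) → Ω) (w : Ω)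
    (v u : Fin (d + 1) → Ow L M) : ((Xf f).pt Ω →₀ ℤ) ⧸ Vl f L π (r + 1) :=
  QuotientAddGroup.mk' (Vl f L π (r + 1))
    (cyv f L ψ M (c + π • fun i => (v i : Ω)) (sht L ψ w (c + π • fun i => (v i : Ω)))
      (π ^ r • fun i => (u i : Ω)))

private theorem wb_sm (hπ : Uf L π) {v : Fin (d + 1) → Ω} (hv : Iv L M v) {s : ℕ} (hs : s ≠ 0) :
    Iv L M (π ^ s • v) ∧ (∀ i, L.nm ((π ^ s • v) i) ≤ L.nm π ^ s) ∧
      ∀ i, L.nm ((π ^ s • v) i) < 1 := by
  have h1 : ∀ i, L.nm ((π ^ s • v) i) ≤ L.nm π ^ s := fun i => by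
    rw [Pi.smul_apply, smul_eq_mul, L.mul, L.pow]
    exact mul_le_of_le_one_right (pow_nonneg (L.nonneg _) s) (hv i).2
  have h2 := hπ.pow_lt hs
  exact ⟨fun i => ⟨mul_mem (pow_mem (hπ.mem M) s) (hv i).1, (h1 i).trans h2.le⟩, h1,
    fun i => (h1 i).trans_lt h2⟩

private theorem wb_sm1 (hπ : Uf L π) {v : Fin (d + 1) → Ω} (hv : Iv L M v) :
    Iv L M (π • v) ∧ (∀ i, L.nm ((π • v) i) ≤ L.nm π) ∧ ∀ i, L.nm ((π • v) i) < 1 := by
  have h := wb_sm hπ hv (s := 1) one_ne_zero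
  rwa [pow_one, pow_one] at h

private theorem wb_iv (v : Fin (d + 1) → Ow L M) : Iv L M fun i => (v i : Ω) := fun i => (v i).2

/-- The point over `c + π v`. -/
theorem Gp.piw (hπ : Uf L π) (hψ : Pj f L ψ) (g : Gp L ψ M c w) (hv : Iv L M v) :
    Gp L ψ M (c + π • v) (sht L ψ w (c + π • v)) := by
  obtain ⟨h1, h2, -⟩ := wb_sm1 hπ hv
  exact (g.sh hψ h1 hπ.lt h2).1

theorem tq_dfc (hπ : Uf L π) (hψ : Pj f L ψ) (h2 : 2 < L.p) (hM : Um L M)
    (g : Gp L ψ M c w) {r : ℕ} (hr : r ≠ 0) : Dfc (Ow L M) (Tq f L ψ π r M c w) where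
  add v u u' := by
    have g' := g.piw hπ hψ (wb_iv v)
    obtain ⟨a1, a2, -⟩ := wb_sm hπ (wb_iv u) hr
    obtain ⟨b1, b2, -⟩ := wb_sm hπ (wb_iv u') hr
    have h3 := cyv_four hπ hψ h2 hM g' a1 b1 hr a2 b2
    have h4 : Dr f L π (2 * r) ⊥ ⊔ (Xf f).ratEq K Ω ≤ Vl f L π (r + 1) :=
      sup_le_sup_right (dr_mono hπ (by omega)) _
    have h5 := h4 h3
    rw [sub_sub, ← smul_add] at h5
    have h6 : (fun i => ((u + u') i : Ω)) = (fun i => (u i : Ω)) + fun i => (u' i : Ω) := rfl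
    rw [Tq, Tq, Tq, ← map_add, h6, eq_comm, QuotientAddGroup.mk'_eq_mk']
    exact ⟨_, h5, by abel⟩
  par v u σ := by
    have g' := g.piw hπ hψ (wb_iv v)
    have ha : π * (σ : Ω) ∈ M := mul_mem (hπ.mem M) σ.2.1
    have h3 := cyv_par hπ hψ hM g' ha (pow_mem (hπ.mem M) r) (wb_iv u) one_ne_zero hr
      (by
        rw [L.mul, pow_one]
        exact mul_le_of_le_one_right (L.nonneg _) σ.2.2) (by rw [L.pow])
    obtain ⟨a1, -, a3⟩ := wb_sm1 hπ (wb_iv v)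
    obtain ⟨b1, -, b3⟩ := wb_sm1 hπ (wb_iv (v + σ • u))
    have e1 : c + π • (fun i => (v i : Ω)) + (π * (σ : Ω)) • (fun i => (u i : Ω)) =
        c + π • (fun i => ((v + σ • u) i : Ω)) := by
      funext i
      simp only [Pi.add_apply, Pi.smul_apply, smul_eq_mul, Subring.coe_add, Subring.coe_mul]
      ring
    have h4 := sht_sht hψ g a1 b1 a3 b3
    rw [e1, h4, add_comm 1 r] at h3
    rw [Tq, Tq, eq_comm, QuotientAddGroup.mk'_eq_mk']
    exact ⟨_, h3, by abel⟩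

/-- The values are killed by `p`. -/
theorem tq_p (hπ : Uf L π) (hψ : Pj f L ψ) (h2 : 2 < L.p) (hM : Um L M)
    (g : Gp L ψ M c w) {r : ℕ} (hr : r ≠ 0) (v u : Fin (d + 1) → Ow L M) :
    L.p • Tq f L ψ π r M c w v u = 0 := by
  have hd := tq_dfc hπ hψ h2 hM g hr
  have h3 : ∀ n : ℕ, n • Tq f L ψ π r M c w v u = Tq f L ψ π r M c w v (n • u) := by
    intro n
    induction n with
    | zero => rw [zero_nsmul, zero_nsmul, dfc_zero hd]
    | succ n ih => rw [succ_nsmul, succ_nsmul, hd.add, ih]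
  have g' := g.piw hπ hψ (wb_iv v)
  have hpn : L.nm (L.p : Ω) ≤ L.nm π := by
    have hpM : (L.p : Ω) ∈ M := IntermediateField.natCast_mem M L.p
    exact hπ.um_lt hM hpM L.lt
  have h4 : ∀ i, L.nm ((π ^ r • fun i => ((L.p • u) i : Ω)) i) ≤ L.nm π ^ (r + 1) := by
    intro i
    have e1 : (((L.p • u) i : Ow L M) : Ω) = (L.p : Ω) * (u i : Ω) := by
      rw [Pi.smul_apply, nsmul_eq_mul]
      push_cast
      rfl
    rw [Pi.smul_apply, smul_eq_mul, e1, L.mul, L.mul, L.pow, pow_succ]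
    exact mul_le_mul_of_nonneg_left ((mul_le_of_le_one_right (L.nonneg _) (u i).2.2).trans hpn)
      (pow_nonneg (L.nonneg _) _)
  rw [h3, Tq]
  refine (QuotientAddGroup.eq_zero_iff _).2 (vl_dr _ ?_)
  exact cyv_dr hπ hψ hM g' (wb_sm hπ (wb_iv _) hr).1 (Nat.succ_ne_zero r) h4

/-- **The relation of the roots of unity.** -/
theorem tq_root (hπ : Uf L π) (hψ : Pj f L ψ) (h2 : 2 < L.p) (hM : Um L M)
    (g : Gp L ψ M c w) {r : ℕ} (hr : r ≠ 0) {ζ : Ω} (hζM : ζ ∈ M)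
    (hζ : IsPrimitiveRoot ζ (r + 1)) (v u : Fin (d + 1) → Ow L M) :
    (r + 1) • (Tq f L ψ π r M c w v u - Tq f L ψ π r M c w 0 u) = 0 := by
  have hfd : FiniteDimensional K M := hM.fd
  have hd := tq_dfc hπ hψ h2 hM g hr
  have hζ1 : L.nm ζ = 1 := by
    have h3 := congrArg L.nm hζ.pow_eq_one
    rw [L.pow, L.one] at h3
    exact (pow_eq_one_iff_of_nonneg (L.nonneg _) (Nat.succ_ne_zero r)).1 h3
  let θ : Ow L M := ⟨ζ, hζM, hζ1.le⟩
  have hθ : ∀ i : Fin (r + 1), (θ ^ (i : ℕ)) ^ (r + 1) = 1 := by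
    intro i
    apply Subtype.ext
    change (ζ ^ (i : ℕ)) ^ (r + 1) = 1
    rw [← pow_mul, mul_comm, pow_mul, hζ.pow_eq_one, one_pow]
  have h1r : 1 < r + 1 := by omega
  have hζr : IsPrimitiveRoot (ζ ^ r) (r + 1) :=
    hζ.pow_of_coprime r (by rw [Nat.coprime_self_add_right]; exact Nat.coprime_one_right r)
  have hsum : ∑ i : Fin (r + 1), (θ ^ (i : ℕ)) ^ r = 0 := by
    apply Subtype.ext
    have h3 : ((∑ i : Fin (r + 1), (θ ^ (i : ℕ)) ^ r : Ow L M) : Ω) =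
        ∑ i : Fin (r + 1), (ζ ^ r) ^ (i : ℕ) := by
      rw [← Subring.coe_subtype, map_sum]
      refine Finset.sum_congr rfl fun i _ => ?_
      change (ζ ^ (i : ℕ)) ^ r = _
      rw [← pow_mul, ← pow_mul, mul_comm]
    rw [h3, Fin.sum_univ_eq_sum_range (fun i => (ζ ^ r) ^ i)]
    exact hζr.geom_sum_eq_zero h1r
  -- the relation of the arc
  have key : ∀ u : Fin (d + 1) → Ow L M,
      ∑ i : Fin (r + 1), QuotientAddGroup.mk' (Vl f L π (r + 1))
        (cyv f L ψ M c w (π • fun j => (((θ ^ (i : ℕ)) • v) j : Ω))) +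
      ∑ i : Fin (r + 1), Tq f L ψ π r M c w ((θ ^ (i : ℕ)) • v) ((θ ^ (i : ℕ)) ^ r • u) = 0 := by
    intro u
    obtain ⟨a, ha⟩ : ∃ a : Fin (d + 1) → Polynomial Ω, a = fun j =>
      C (c j) + (C (v j : Ω) * X + C (u j : Ω) * X ^ r) := ⟨_, rfl⟩
    have hev : ∀ j z, (a j).eval z = c j + ((v j : Ω) * z + (u j : Ω) * z ^ r) := fun j z => by
      rw [ha]
      simp only [eval_add, eval_mul, eval_C, eval_X, eval_pow]
    have hArc : Arc L M a := by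
      intro j k
      have hC : ∀ (x : Ω), x ∈ M ∧ L.nm x ≤ 1 → ∀ b : Prop, [Decidable b] →
          (if b then x else 0) ∈ M ∧ L.nm (if b then x else 0) ≤ 1 := by
        intro x hx b _
        split_ifs
        · exact hx
        · exact ⟨zero_mem M, by rw [L.zero]; exact zero_le_one⟩
      have hadd : ∀ x y : Ω, x ∈ M ∧ L.nm x ≤ 1 → y ∈ M ∧ L.nm y ≤ 1 →
          x + y ∈ M ∧ L.nm (x + y) ≤ 1 := fun x y hx hy =>
        ⟨add_mem hx.1 hy.1, (L.add _ _).trans (max_le hx.2 hy.2)⟩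
      rw [ha]
      simp only [coeff_add, coeff_C_mul, coeff_X, coeff_C, coeff_X_pow, mul_ite, mul_one,
        mul_zero]
      exact hadd _ _ (hC _ (g.iv j) _) (hadd _ _ (hC _ (v j).2 _) (hC _ (u j).2 _))
    have hα : ∀ i : Fin (r + 1), ζ ^ (i : ℕ) * π ∈ M ∧ L.nm (ζ ^ (i : ℕ) * π) < 1 := by
      intro i
      refine ⟨mul_mem (pow_mem hζM _) (hπ.mem M), ?_⟩
      rw [L.mul, L.pow, hζ1, one_pow, one_mul]
      exact hπ.lt
    have hα' : ∀ _ : Fin (r + 1), (0 : Ω) ∈ M ∧ L.nm (0 : Ω) < 1 := fun _ =>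
      ⟨zero_mem M, by rw [L.zero]; exact zero_lt_one⟩
    have hlt : (∏ i : Fin (r + 1), (X - C (ζ ^ (i : ℕ) * π)) : Polynomial Ω) =
        X ^ (r + 1) - C (π ^ (r + 1)) := by
      rw [X_pow_sub_C_eq_prod hζ (Nat.succ_pos r) rfl,
        Fin.prod_univ_eq_prod_range (fun i => (X - C (ζ ^ i * π) : Polynomial Ω))]
    have hmain := cyv_arc hπ hψ hM g hArc
      (fun j => by rw [hev, mul_zero, zero_pow hr, mul_zero, add_zero, add_zero]) hα hα'
      (Nat.succ_ne_zero r) (fun k => by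
        rw [hlt, C_0, sub_zero, Finset.prod_const, Finset.card_univ, Fintype.card_fin,
          coeff_sub, sub_sub_cancel_left, L.neg, coeff_C]
        split_ifs
        · rw [L.pow]
        · rw [L.zero]
          exact pow_nonneg (L.nonneg _) _)
    have h0 : (fun j => (a j).eval 0 - c j) = 0 := by
      funext j
      rw [hev, mul_zero, zero_pow hr, mul_zero, add_zero, add_zero, sub_self]
      rfl
    rw [h0, cyv_zero hψ g, Finset.sum_const_zero, sub_zero] at hmain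
    have hval : ∀ i : Fin (r + 1), cyv f L ψ M c w (fun j => (a j).eval (ζ ^ (i : ℕ) * π) - c j) =
        cyv f L ψ M c w (π • fun j => (((θ ^ (i : ℕ)) • v) j : Ω)) +
          cyv f L ψ M (c + π • fun j => (((θ ^ (i : ℕ)) • v) j : Ω))
            (sht L ψ w (c + π • fun j => (((θ ^ (i : ℕ)) • v) j : Ω)))
            (π ^ r • fun j => ((((θ ^ (i : ℕ)) ^ r) • u) j : Ω)) := by
      intro i
      obtain ⟨a1, -, a3⟩ := wb_sm1 hπ (wb_iv ((θ ^ (i : ℕ)) • v))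
      obtain ⟨b1, -, b3⟩ := wb_sm hπ (wb_iv (((θ ^ (i : ℕ)) ^ r) • u)) hr
      rw [← cyv_add hψ g a1 b1 a3 b3]
      congr 1
      funext j
      change (a j).eval (ζ ^ (i : ℕ) * π) - c j = π * (ζ ^ (i : ℕ) * (v j : Ω)) +
        π ^ r * ((ζ ^ (i : ℕ)) ^ r * (u j : Ω))
      rw [hev]
      ring
    rw [Finset.sum_congr rfl fun i _ => hval i] at hmain
    have h5 := (QuotientAddGroup.eq_zero_iff (N := Vl f L π (r + 1)) _).2 hmain
    rw [← QuotientAddGroup.mk'_apply, map_sum] at h5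
    simp only [map_add] at h5
    rw [Finset.sum_add_distrib] at h5
    exact h5
  have h6 := key u
  have h7 := key 0
  have h8 : ∑ i : Fin (r + 1), Tq f L ψ π r M c w ((θ ^ (i : ℕ)) • v)
      ((θ ^ (i : ℕ)) ^ r • (0 : Fin (d + 1) → Ow L M)) = 0 := by
    refine Finset.sum_eq_zero fun i _ => ?_
    rw [smul_zero, dfc_zero hd]
  rw [h8, add_zero] at h7
  rw [h7, zero_add] at h6
  exact dfc_tame hd hθ hsum h6

/-- **Tame levels.** Below the level `p - 1` the values do not change in a residue disc. -/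
theorem cyv_tw (hπ : Uf L π) (hψ : Pj f L ψ) (h2 : 2 < L.p) {k n : ℕ} (hk : L.Rf ⊥ k)
    (hn : n ≠ 0) (hkn : k ∣ n) (g : Gp L ψ (L.Ur ⊥ n) c w) (hv : Iv L (L.Ur ⊥ n) v)
    (hu : Iv L (L.Ur ⊥ n) u) {r : ℕ} (hr : r ≠ 0) (hrp : r + 1 < L.p) :
    cyv f L ψ (L.Ur ⊥ n) (c + π • v) (sht L ψ w (c + π • v)) (π ^ r • u) -
      cyv f L ψ (L.Ur ⊥ n) c w (π ^ r • u) ∈ Vl f L π (r + 1) := by
  have hΩ : IsAlgClosed Ω := IsAlgClosure.isAlgClosed K
  have hch : CharZero Ω := charZero_of_injective_algebraMap (algebraMap K Ω).injective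
  have h1r : 1 < r + 1 := by omega
  have hcop : (r + 1).Coprime L.p :=
    (Nat.Coprime.symm ((Nat.Prime.coprime_iff_not_dvd L.pp).2 fun h =>
      absurd (Nat.le_of_dvd (Nat.succ_pos r) h) (by omega)))
  obtain ⟨t, ht⟩ : ∃ t, t = Nat.totient (r + 1) := ⟨_, rfl⟩
  have ht0 : t ≠ 0 := by
    rw [ht]
    exact (Nat.totient_pos.2 (Nat.succ_pos r)).ne'
  have htp : t < L.p := by
    rw [ht]
    exact (Nat.totient_lt _ h1r).trans hrp
  -- the roots of unity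
  have hne : NeZero ((r + 1 : ℕ) : Ω) := ⟨Nat.cast_ne_zero.2 (Nat.succ_ne_zero r)⟩
  obtain ⟨ζ, hζ⟩ := HasEnoughRootsOfUnity.exists_primitiveRoot Ω (r + 1)
  have hζt : ζ ∈ L.Te t := by
    change ζ ^ L.p ^ t = ζ
    have h3 : r + 1 ∣ L.p ^ t - 1 := by
      have h4 := Nat.ModEq.pow_totient hcop.symm
      rw [← ht] at h4
      exact (Nat.modEq_iff_dvd' (Nat.one_le_pow _ _ L.pp.pos)).1 h4.symm
    have h5 : L.p ^ t = (L.p ^ t - 1) + 1 := by
      have := Nat.one_le_pow t _ L.pp.pos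
      omega
    rw [h5, pow_succ, (hζ.pow_eq_one_iff_dvd _).2 h3, one_mul]
  have hζM : ζ ∈ L.Ur ⊥ (n * t) := Ld.ur_dvd ⊥ (dvd_mul_left t n) (Ld.te_ur hζt)
  have hle : L.Ur ⊥ n ≤ L.Ur ⊥ (n * t) := Ld.ur_dvd ⊥ (dvd_mul_right n t)
  have hM : Um L (L.Ur ⊥ n) := ⟨n, hn, le_rfl⟩
  have hM' : Um L (L.Ur ⊥ (n * t)) := ⟨n * t, mul_ne_zero hn ht0, le_rfl⟩
  -- over `Ur ⊥ (n t)`
  let v' : Fin (d + 1) → Ow L (L.Ur ⊥ (n * t)) := fun i => ⟨v i, hle (hv i).1, (hv i).2⟩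
  let u' : Fin (d + 1) → Ow L (L.Ur ⊥ (n * t)) := fun i => ⟨u i, hle (hu i).1, (hu i).2⟩
  let v₀ : Fin (d + 1) → Ow L (L.Ur ⊥ n) := fun i => ⟨v i, hv i⟩
  let u₀ : Fin (d + 1) → Ow L (L.Ur ⊥ n) := fun i => ⟨u i, hu i⟩
  have hroot := tq_root hπ hψ h2 hM' (g.mono hle) hr hζM hζ v' u'
  have hp' := tq_p hπ hψ h2 hM' (g.mono hle) hr
  have hp := tq_p hπ hψ h2 hM g hr
  have hz' : Tq f L ψ π r (L.Ur ⊥ (n * t)) c w v' u' -
      Tq f L ψ π r (L.Ur ⊥ (n * t)) c w 0 u' = 0 := by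
    have h3 : L.p • (Tq f L ψ π r (L.Ur ⊥ (n * t)) c w v' u' -
        Tq f L ψ π r (L.Ur ⊥ (n * t)) c w 0 u') = 0 := by
      rw [nsmul_sub, hp', hp', sub_zero]
    have h4 := addOrderOf_dvd_iff_nsmul_eq_zero.2 h3
    have h5 := addOrderOf_dvd_iff_nsmul_eq_zero.2 hroot
    have h6 := Nat.dvd_gcd h5 h4
    rw [hcop.gcd_eq_one, Nat.dvd_one] at h6
    exact AddMonoid.addOrderOf_eq_one_iff.1 h6
  -- descent
  have hup : ∀ (b : Fin (d + 1) → Ω), Iv L (L.Ur ⊥ n) b →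
      QuotientAddGroup.mk' (Vl f L π (r + 1)) (cyv f L ψ (L.Ur ⊥ (n * t)) (c + π • b)
        (sht L ψ w (c + π • b)) (π ^ r • u)) =
      t • QuotientAddGroup.mk' (Vl f L π (r + 1)) (cyv f L ψ (L.Ur ⊥ n) (c + π • b)
        (sht L ψ w (c + π • b)) (π ^ r • u)) := by
    intro b hb
    rw [cyv_up hψ hk hn hkn ht0 (g.piw hπ hψ hb) (wb_sm hπ hu hr).1 (wb_sm hπ hu hr).2.2,
      map_nsmul]
  have h0 : Iv L (L.Ur ⊥ n) (0 : Fin (d + 1) → Ω) := fun i =>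
    ⟨zero_mem _, by rw [Pi.zero_apply, L.zero]; exact zero_le_one⟩
  have e1 := hup v hv
  have e0 := hup 0 h0
  have hdiff : t • (Tq f L ψ π r (L.Ur ⊥ n) c w v₀ u₀ - Tq f L ψ π r (L.Ur ⊥ n) c w 0 u₀) =
      0 := by
    rw [nsmul_sub]
    refine Eq.trans ?_ hz'
    exact congrArg₂ (· - ·) e1.symm e0.symm
  have hz : Tq f L ψ π r (L.Ur ⊥ n) c w v₀ u₀ - Tq f L ψ π r (L.Ur ⊥ n) c w 0 u₀ = 0 := by
    have h3 : L.p • (Tq f L ψ π r (L.Ur ⊥ n) c w v₀ u₀ -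
        Tq f L ψ π r (L.Ur ⊥ n) c w 0 u₀) = 0 := by
      rw [nsmul_sub, hp, hp, sub_zero]
    have h4 := addOrderOf_dvd_iff_nsmul_eq_zero.2 h3
    have h5 := addOrderOf_dvd_iff_nsmul_eq_zero.2 hdiff
    have h6 := Nat.dvd_gcd h5 h4
    have h8 : t.Coprime L.p :=
      (Nat.Coprime.symm ((Nat.Prime.coprime_iff_not_dvd L.pp).2 fun h =>
        absurd (Nat.le_of_dvd (Nat.pos_of_ne_zero ht0) h) (by omega)))
    rw [h8.gcd_eq_one, Nat.dvd_one] at h6
    exact AddMonoid.addOrderOf_eq_one_iff.1 h6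
  have h7 : Tq f L ψ π r (L.Ur ⊥ n) c w 0 u₀ =
      QuotientAddGroup.mk' (Vl f L π (r + 1)) (cyv f L ψ (L.Ur ⊥ n) c w (π ^ r • u)) := by
    have e2 : c + π • (fun i => (((0 : Fin (d + 1) → Ow L (L.Ur ⊥ n)) i : Ow L (L.Ur ⊥ n)) : Ω)) =
        c := by
      funext i
      change c i + π * 0 = c i
      rw [mul_zero, add_zero]
    rw [Tq, e2, sht_self hψ g]
  rw [h7] at hz
  rw [← QuotientAddGroup.eq_zero_iff]
  exact hz

end GX
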