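import Pool.Agent.Lib.MP_f80667_ag.Lv.Wb
import Pool.Agent.Lib.MP_f80667_ag.Lv.Ke2

/-!
The trace functionals of the tame levels `s + 1 < p` depend only on the residues.
-/

open ZC BE PE CV IntermediateField

namespace GX

variable {F : Type} [Field F] {N d : ℕ} {ι : Type} {f : ι → MvPolynomial (Fin N) F}
  {K Ω : Type} [Field K] [CharZero K] [Field Ω] [Algebra K Ω] [Algebra F K] [Algebra F Ω]
  [IsScalarTower F K Ω] [IsAlgClosure K Ω] {L : Ld K Ω} {ψ : Prj K N d} {π : Ω} {k s n n' : ℕ}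
  {χ : ((Xf f).pt Ω →₀ ℤ) → ZMod L.p} {c c' h : Fin (d + 1) → Ω} {w w' : Ω}

/-- **The residue disc.** Proof: `Lw₁` at the point over `c + π h` (`lw_spec`; the point is in `Gp`: `Gp.piw`), `cyv_tw` with `r = s`, `Ch.congr` (`cyv_vl`): the values of `χ` at the two points are equal, so `Lw₁` holds with `lw .. c w` too; `lw_eq`. -/
theorem lw_tw (hy : Hyt f L π k) (hψ : Pj f L ψ) (hχ : Ch f L π s χ) (hs : s ≠ 0)
    (hsp : s + 1 < L.p) (hn : n ≠ 0) (hkn : k ∣ n) (hG : Gp L ψ (L.Ur ⊥ n) c w)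
    (hh : Iv L (L.Ur ⊥ n) h) :
    lw f L ψ π s χ k (c + π • h) (sht L ψ w (c + π • h)) = lw f L ψ π s χ k c w := by
  have hM : Um L (L.Ur ⊥ n) := ⟨n, hn, le_rfl⟩
  have hG' := hG.piw hy.uf hψ hh
  have hl := lw_spec hy hψ hχ hs hn hkn hG'
  refine (lw_eq hy hψ hχ hs hn hkn hG ⟨hl.1, fun g y hg hgy => ?_⟩).symm
  rw [← hl.2 g y hg hgy, hχ.congr hy.uf (cyv_vl hy hψ hM hG hg hs)
    (cyv_tw hy.uf hψ hy.h2 hy.rf hn hkn hG hh hg hs hsp)]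

/-- **Equal residues.** Proof: a common field `Ur ⊥ (n n')` (`Gp.mono`, `Ld.ur_dvd`); `Uf.rv_eq` for the coordinates: `c' = c + π h`; `sht_eq`: `w' = sht L ψ w c'` (`nm (w' - w) < 1`); `lw_tw`. -/
theorem lw_cong (hy : Hyt f L π k) (hψ : Pj f L ψ) (hχ : Ch f L π s χ) (hs : s ≠ 0)
    (hsp : s + 1 < L.p) (hn : n ≠ 0) (hkn : k ∣ n) (hG : Gp L ψ (L.Ur ⊥ n) c w) (hn' : n' ≠ 0)
    (hkn' : k ∣ n') (hG' : Gp L ψ (L.Ur ⊥ n') c' w') {a : Fin (d + 1) → L.κ} {b : L.κ}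
    (hc : ∀ r, L.rs.Hv (c r) (a r)) (hw : L.rs.Hv w b) (hc' : ∀ r, L.rs.Hv (c' r) (a r))
    (hw' : L.rs.Hv w' b) : lw f L ψ π s χ k c' w' = lw f L ψ π s χ k c w := by
  have hle : L.Ur ⊥ n ≤ L.Ur ⊥ (n * n') := Ld.ur_dvd ⊥ (dvd_mul_right n n')
  have hle' : L.Ur ⊥ n' ≤ L.Ur ⊥ (n * n') := Ld.ur_dvd ⊥ (dvd_mul_left n' n)
  have hnn : n * n' ≠ 0 := mul_ne_zero hn hn'
  have g := hG.mono hle
  have g' := hG'.mono hle'
  choose z hz hz1 hcz using fun r => hy.uf.rv_eq hnn (g.iv r).1 (g'.iv r).1 (hc r) (hc' r)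
  have e : c' = c + π • z := funext hcz
  have h1 : L.nm (w' - w) < 1 := (L.hv_sub hw' hw).1 rfl
  have h2 := sht_eq hψ (fun r => (g'.iv r).2) g'.D g.le g'.G h1
  rw [e] at h2
  have h3 := lw_tw hy hψ hχ hs hsp hnn (hkn.mul_right n') g (fun r => ⟨hz r, hz1 r⟩ : Iv L _ z)
  rw [h2, ← e] at h3
  exact h3

/-- Radial vectors. Proof: `cyv_rad` with `a = π ^ s z`: the value of `χ` at `c`, `π ^ s (z c)`, is `χ 0 = 0` (`Ch.map_zero`): `trn (τ b) = 0` for all `τ` with `τ ^ p ^ n = τ` (`kf_ur`), `b` the sum; `fp_uniq` (with `a' = 0`). -/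
theorem lw_rad (hy : Hyt f L π k) (hψ : Pj f L ψ) (hχ : Ch f L π s χ) (hs : s ≠ 0)
    (hn : n ≠ 0) (hkn : k ∣ n) (hG : Gp L ψ (L.Ur ⊥ n) c w) {a : Fin (d + 1) → L.κ}
    (hc : ∀ r, L.rs.Hv (c r) (a r)) : ∑ r, a r * lw f L ψ π s χ k c w r = 0 := by
  have hpf : Fact L.p.Prime := ⟨L.pp⟩
  have hch : CharP L.κ L.p := L.char_κ
  have hex : ExpChar L.κ L.p := ExpChar.prime L.pp
  have hΩ : IsAlgClosed Ω := IsAlgClosure.isAlgClosed K
  have hκ : IsAlgClosed L.κ := L.κ_closed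
  have hsp := lw_spec hy hψ hχ hs hn hkn hG
  have hb : (∑ r, a r * lw f L ψ π s χ k c w r) ^ L.p ^ n =
      ∑ r, a r * lw f L ψ π s χ k c w r := by
    rw [← iterateFrobenius_def, _root_.map_sum]
    refine Finset.sum_congr rfl fun r _ => ?_
    rw [iterateFrobenius_def, mul_pow, hsp.1 r, kf_res hy.rf hn hkn (hG.iv r).1 (hc r)]
  refine fp_uniq hn hb (zero_pow (pow_ne_zero n L.pp.ne_zero)) fun τ hτ => ?_
  obtain ⟨z, hz, hzτ⟩ := kf_ur (L := L) hn hτ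
  have hz1 : L.nm z ≤ 1 := L.hv_int hzτ
  have hg : Iv L (L.Ur ⊥ n) (z • c) := fun r => by
    rw [Pi.smul_apply, smul_eq_mul]
    refine ⟨mul_mem hz (hG.iv r).1, ?_⟩
    rw [L.mul]
    exact mul_le_one₀ hz1 (L.nonneg _) (hG.iv r).2
  have h1 := hsp.2 (z • c) (fun r => τ * a r) hg fun r => by
    rw [Pi.smul_apply, smul_eq_mul]
    exact hzτ.mul (hc r)
  have ha : π ^ s * z ∈ L.Ur ⊥ n := mul_mem (pow_mem (hy.uf.mem _) s) hz
  have ha1 : L.nm (π ^ s * z) < 1 := by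
    rw [L.mul, L.pow]
    exact (mul_le_of_le_one_right (pow_nonneg (L.nonneg _) s) hz1).trans_lt
      (pow_lt_one₀ (L.nonneg _) hy.uf.lt hs)
  rw [smul_smul, cyv_rad hy.hm hψ hG ha ha1, hχ.map_zero, ZMod.val_zero, Nat.cast_zero] at h1
  have h2 : ∑ r, τ * a r * lw f L ψ π s χ k c w r = τ * ∑ r, a r * lw f L ψ π s χ k c w r := by
    rw [Finset.mul_sum]
    exact Finset.sum_congr rfl fun r _ => mul_assoc _ _ _
  rw [h2] at h1
  rw [← h1, mul_zero, trn]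
  refine (Finset.sum_eq_zero fun i _ => ?_).symm
  exact zero_pow (pow_ne_zero i L.pp.ne_zero)

end GX
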