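import Pool.Agent.Lib.MP_f80667_ag.Lv.Kc1
import Pool.Agent.Lib.MP_f80667_ag.Gy.A
import Pool.Agent.Lib.MP_f80667_ag.Gy.Vp

/-!
The residues of the values of a projection and of the coordinates of a point: comparison with the projections `ψ₂ ψ₀` over `L.κ`.
-/

open ZC BE PE CV IntermediateField

namespace GX

variable {F : Type} [Field F] {N d m : ℕ} {ι : Type} {f : ι → MvPolynomial (Fin N) F}
  {K Ω : Type} [Field K] [CharZero K] [Field Ω] [Algebra K Ω] [Algebra F K] [Algebra F Ω]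
  [IsScalarTower F K Ω] [IsAlgClosure K Ω] {L : Ld K Ω} {ψ : Fin m → Prj F N d}
  {f₀ : ι → MvPolynomial (Fin N) (L.V.comap (algebraMap F Ω))}
  {ψ₀ : Fin m → Prj (L.V.comap (algebraMap F Ω)) N d}
  {M : IntermediateField K Ω} {c ξ : Fin (d + 1) → Ω} {w : Ω} {a b : Fin (d + 1) → L.κ}
  {v : L.κ} {k n : ℕ}

section wd

variable {k κ : Type} [Field k] [Field κ] [Algebra k κ]

private theorem wd_ev (c : Fin (d + 1) → k) (P : MvPolynomial (Fin (d + 1)) k) :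
    MvPolynomial.aeval (fun s => algebraMap k κ (c s)) P =
      algebraMap k κ (MvPolynomial.eval c P) :=
  MvPolynomial.aeval_algebraMap_apply κ c P

private theorem wd_pe (c : Fin (d + 1) → k) (w : k)
    (P : Polynomial (MvPolynomial (Fin (d + 1)) k)) :
    pe (fun s => algebraMap k κ (c s)) (algebraMap k κ w) P = algebraMap k κ (pe c w P) :=
  (pe_hom (Algebra.ofId k κ) c w P).symm

private theorem wd_lv (a : Fin N → k) (x : Fin N → k) :
    lv a (fun j => algebraMap k κ (x j)) = algebraMap k κ (lv a x) := by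
  rw [lv, lv, map_sum]
  refine Finset.sum_congr rfl fun j _ => ?_
  rw [map_mul]
  rfl

private theorem wd_uv (ψ : Prj k N d) (x : Fin N → k) (r : Fin (d + 1)) :
    (ψ.map (algebraMap k κ)).uv (fun j => algebraMap k κ (x j)) r =
      algebraMap k κ (ψ.uv x r) := by
  rw [uv_map]
  exact wd_lv _ _

private theorem wd_yv (ψ : Prj k N d) (x : Fin N → k) :
    (ψ.map (algebraMap k κ)).yv (fun j => algebraMap k κ (x j)) =
      algebraMap k κ (ψ.yv x) := by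
  rw [yv_map]
  exact wd_lv _ _

private theorem wd_pt (ψ : Prj k N d) (c : Fin (d + 1) → k) (w : k) (j : Fin N) :
    (ψ.map (algebraMap k κ)).pt (fun s => algebraMap k κ (c s)) (algebraMap k κ w) j =
      algebraMap k κ (ψ.pt c w j) := by
  rw [pt_map, wd_pe, wd_ev, Prj.pt, map_div₀]

private theorem wd_sg {κ : Type} [Field κ] (ψ : Prj κ N d) (c : Fin (d + 1) → κ) (w : κ)
    (r : Fin (d + 1)) (j : Fin N) : ψ.lt c w (Pi.single r 1) j = pe c w (ψ.tp r j) /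
      (MvPolynomial.eval c ψ.D ^ 2 * pe c w (Polynomial.derivative ψ.G)) := by
  rw [Prj.lt]
  congr 1
  rw [Finset.sum_eq_single r]
  · rw [Pi.single_eq_same, one_mul]
  · intro s _ hs
    rw [Pi.single_eq_of_ne hs, zero_mul]
  · intro hr
    exact absurd (Finset.mem_univ r) hr

private theorem wd_lin {κ : Type} [Field κ] (ψ : Prj κ N d) (c : Fin (d + 1) → κ) (w : κ)
    (ξ : Fin (d + 1) → κ) (j : Fin N) :
    ψ.lt c w ξ j = ∑ r, ξ r * ψ.lt c w (Pi.single r 1) j := by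
  rw [Finset.sum_congr rfl fun r _ => congrArg (ξ r * ·) (wd_sg ψ c w r j), Prj.lt,
    Finset.sum_div]
  exact Finset.sum_congr rfl fun r _ => mul_div_assoc _ _ _

private theorem wd_lt (ψ : Prj k N d) (c : Fin (d + 1) → k) (w : k) (ξ : Fin (d + 1) → k)
    (j : Fin N) :
    (ψ.map (algebraMap k κ)).lt (fun s => algebraMap k κ (c s)) (algebraMap k κ w)
      (fun s => algebraMap k κ (ξ s)) j = algebraMap k κ (ψ.lt c w ξ j) := by
  rw [wd_lin, wd_lin ψ, map_sum]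
  refine Finset.sum_congr rfl fun r _ => ?_
  rw [lt_map, wd_sg, map_mul, map_div₀, map_mul, map_pow, wd_pe, wd_pe, wd_ev]

private theorem wd_D (ψ : Prj k N d) (c : Fin (d + 1) → k) :
    MvPolynomial.eval (fun s => algebraMap k κ (c s)) (ψ.map (algebraMap k κ)).D =
      algebraMap k κ (MvPolynomial.eval c ψ.D) := by
  change MvPolynomial.eval (fun s => algebraMap k κ (c s))
    (MvPolynomial.map (algebraMap k κ) ψ.D) = _
  rw [eval_map', wd_ev]

private theorem wd_G (ψ : Prj k N d) (c : Fin (d + 1) → k) (w : k) :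
    pe (fun s => algebraMap k κ (c s)) (algebraMap k κ w) (ψ.map (algebraMap k κ)).G =
      algebraMap k κ (pe c w ψ.G) := by
  change pe _ _ (ψ.G.map (MvPolynomial.map (algebraMap k κ))) = _
  rw [pe_map, wd_pe]

end wd

omit [CharZero K] [IsAlgClosure K Ω] in
/-- The reduction over the subfield `⊤`. -/
private theorem wd_rj (h : Dat L.V f ψ f₀ ψ₀) (i : Fin m) :
    ∃ ψ' : Prj (⊤ : Subfield L.κ) N d, Rdj L ⊤ ((ψ i).map (algebraMap F K)) ψ' ∧
      (∃ f' : ι → MvPolynomial (Fin N) (⊤ : Subfield L.κ), ψ'.Ok f') ∧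
      ψ₂ ψ₀ i = ψ'.map (algebraMap (⊤ : Subfield L.κ) L.κ) := by
  obtain ⟨φ, hφ⟩ : ∃ φ : (L.V.comap (algebraMap F Ω)) →+* (⊤ : Subfield L.κ),
      ∀ x, ((φ x : (⊤ : Subfield L.κ)) : L.κ) = rdO F L.V x :=
    ⟨(rdO F L.V).codRestrict ⊤ fun x => Subfield.mem_top _, fun x => rfl⟩
  have hvK : ∀ x : L.V.comap (algebraMap F Ω),
      L.rs.Hv (algebraMap K Ω (algebraMap F K (x : F)))
        ((φ x : (⊤ : Subfield L.κ)) : L.κ) := by
    intro x
    rw [hφ x, ← IsScalarTower.algebraMap_apply F K Ω]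
    exact rdO_hv x
  have e : (ψ i).map (algebraMap F K) =
      (ψ₀ i).map ((algebraMap F K).comp (L.V.comap (algebraMap F Ω)).subtype) := by
    rw [← h.mp i, Prj.map_map]
  refine ⟨(ψ₀ i).map φ, ?_, ⟨_, (h.ok i).map φ⟩, ?_⟩
  · rw [e]
    refine ⟨fun r j => hvK _, fun j => hvK _, fun j e => ?_, fun e => ?_, fun i' j e => ?_⟩
    · change L.rs.Hv (algebraMap K Ω ((((ψ₀ i).G.map (MvPolynomial.map ((algebraMap F K).comp
        (L.V.comap (algebraMap F Ω)).subtype))).coeff j).coeff e))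
        (((((ψ₀ i).G.map (MvPolynomial.map φ)).coeff j).coeff e : (⊤ : Subfield L.κ)) : L.κ)
      rw [Polynomial.coeff_map, MvPolynomial.coeff_map, Polynomial.coeff_map,
        MvPolynomial.coeff_map]
      exact hvK _
    · change L.rs.Hv (algebraMap K Ω ((MvPolynomial.map ((algebraMap F K).comp
        (L.V.comap (algebraMap F Ω)).subtype) (ψ₀ i).D).coeff e))
        (((MvPolynomial.map φ (ψ₀ i).D).coeff e : (⊤ : Subfield L.κ)) : L.κ)
      rw [MvPolynomial.coeff_map, MvPolynomial.coeff_map]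
      exact hvK _
    · change L.rs.Hv (algebraMap K Ω (((((ψ₀ i).A i').map (MvPolynomial.map
        ((algebraMap F K).comp (L.V.comap (algebraMap F Ω)).subtype))).coeff j).coeff e))
        ((((((ψ₀ i).A i').map (MvPolynomial.map φ)).coeff j).coeff e : (⊤ : Subfield L.κ)) :
          L.κ)
      rw [Polynomial.coeff_map, MvPolynomial.coeff_map, Polynomial.coeff_map,
        MvPolynomial.coeff_map]
      exact hvK _
  · have e2 : (algebraMap (⊤ : Subfield L.κ) L.κ).comp φ = rdO F L.V := RingHom.ext hφ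
    rw [Prj.map_map, e2]
    rfl

omit [CharZero K] [IsAlgClosure K Ω] in
private theorem wd_top {n : ℕ} {c : Fin n → Ω} {a : Fin n → L.κ}
    (hc : ∀ r, L.rs.Hv (c r) (a r)) : ∃ a' : Fin n → (⊤ : Subfield L.κ),
      a = (fun j => algebraMap (⊤ : Subfield L.κ) L.κ (a' j)) ∧ GM.Rdv L ⊤ c a' :=
  ⟨fun j => ⟨a j, Subfield.mem_top _⟩, rfl, fun j => hc j⟩

omit [CharZero K] [IsAlgClosure K Ω] in
private theorem wd_top1 {w : Ω} {v : L.κ}
    (hw : L.rs.Hv w v) : ∃ v' : (⊤ : Subfield L.κ),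
      v = algebraMap (⊤ : Subfield L.κ) L.κ v' ∧ L.rs.Hv w (v' : L.κ) :=
  ⟨⟨v, Subfield.mem_top _⟩, rfl, hw⟩

/-- Proof: `Prj.Ok.map` for the residue map. -/
theorem dat_ok (h : Dat L.V f ψ f₀ ψ₀) (i : Fin m) : (ψ₂ ψ₀ i).Ok (f₂ f₀) := by
  exact (h.ok i).map (rdO F L.V)

/-- Proof: `Cov.map`. -/
theorem dat_cov (h : Dat L.V f ψ f₀ ψ₀) : Cov (f₂ f₀) (ψ₂ ψ₀) := by
  exact h.cov.map (rdO F L.V)

theorem dat_hom (h : Dat L.V f ψ f₀ ψ₀) (i : ι) : ∃ e, (f₂ f₀ i).IsHomogeneous e := by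
  obtain ⟨e, he⟩ := h.hom i
  exact ⟨e, he.map _⟩

/-- Proof: `Dat.rdx` with `k = ⊤` and `Dat.rdx_eq`, or directly: the coefficients of `ψ i` are those of `ψ₀ i` (`Dat.mp`), their residues are the coefficients of `ψ₂ ψ₀ i` (`rdO_hv`); sums and products of residues (`Hv.add`, `Hv.mul`); compare `Rdj.uv`, `yv`, `Dv`, `rd_pe` in `Gx/Rd`. -/
theorem dat_uv (h : Dat L.V f ψ f₀ ψ₀) (i : Fin m) {x : Fin N → Ω} {y : Fin N → L.κ}
    (hx : ∀ j, L.rs.Hv (x j) (y j)) : (∀ r, L.rs.Hv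
      (((ψ i).map (algebraMap F K)).uv x r) ((ψ₂ ψ₀ i).uv y r)) ∧
        L.rs.Hv (((ψ i).map (algebraMap F K)).yv x) ((ψ₂ ψ₀ i).yv y) := by
  obtain ⟨ψ', hj, -, e⟩ := wd_rj (K := K) h i
  obtain ⟨y', rfl, hx'⟩ := wd_top (K := K) hx
  rw [e, wd_yv]
  refine ⟨fun r => ?_, hj.yv hx'⟩
  rw [wd_uv]
  exact hj.uv hx' r

theorem dat_D (h : Dat L.V f ψ f₀ ψ₀) (i : Fin m) (hc : ∀ r, L.rs.Hv (c r) (a r)) :
    L.rs.Hv (MvPolynomial.aeval c ((ψ i).map (algebraMap F K)).D)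
      (MvPolynomial.eval a (ψ₂ ψ₀ i).D) := by
  obtain ⟨ψ', hj, -, e⟩ := wd_rj (K := K) h i
  obtain ⟨a', ha, hc'⟩ := wd_top (K := K) hc
  rw [e, ha, wd_D]
  exact hj.Dv hc'

theorem dat_G (h : Dat L.V f ψ f₀ ψ₀) (i : Fin m) (hc : ∀ r, L.rs.Hv (c r) (a r))
    (hw : L.rs.Hv w v) : L.rs.Hv (pe c w ((ψ i).map (algebraMap F K)).G)
      (pe a v (ψ₂ ψ₀ i).G) := by
  obtain ⟨ψ', hj, -, e⟩ := wd_rj (K := K) h i
  obtain ⟨a', ha, hc'⟩ := wd_top (K := K) hc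
  obtain ⟨v', hv, hw'⟩ := wd_top1 (K := K) hw
  rw [e, ha, hv, wd_G]
  exact rd_pe hj.G hc' hw'

/-- The coordinates of the points. Proof: `om_pt`; compare `Rdj.pt`; copies of `vd_pt`, `vd_lt` of `Gy/Vd`. -/
theorem dat_pt (h : Dat L.V f ψ f₀ ψ₀) (i : Fin m)
    (hG : Gp L ((ψ i).map (algebraMap F K)) M c w) (hc : ∀ r, L.rs.Hv (c r) (a r))
    (hw : L.rs.Hv w v) (j : Fin N) : L.rs.Hv
      ((((ψ i).map (algebraMap F K)).om Ω).pt c w j) ((ψ₂ ψ₀ i).pt a v j) := by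
  obtain ⟨ψ', hj, -, e⟩ := wd_rj (K := K) h i
  obtain ⟨a', ha, hc'⟩ := wd_top (K := K) hc
  obtain ⟨v', hv, hw'⟩ := wd_top1 (K := K) hw
  rw [e, ha, hv, wd_pt]
  exact hj.pt hc' hw' ((hj.D_one hc').1 hG.D) j

/-- The tangent vectors. Proof: compare `Rdj.lt`. -/
theorem dat_lt (h : Dat L.V f ψ f₀ ψ₀) (i : Fin m)
    (hG : Gp L ((ψ i).map (algebraMap F K)) M c w) (hc : ∀ r, L.rs.Hv (c r) (a r))
    (hw : L.rs.Hv w v) (hξ : ∀ r, L.rs.Hv (ξ r) (b r)) (j : Fin N) : L.rs.Hv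
      ((((ψ i).map (algebraMap F K)).om Ω).lt c w ξ j) ((ψ₂ ψ₀ i).lt a v b j) := by
  obtain ⟨ψ', hj, ⟨f', hok⟩, e⟩ := wd_rj (K := K) h i
  obtain ⟨a', ha, hc'⟩ := wd_top (K := K) hc
  obtain ⟨v', hv, hw'⟩ := wd_top1 (K := K) hw
  obtain ⟨b', hb, hξ'⟩ := wd_top (K := K) hξ
  have hD := (hj.D_one hc').1 hG.D
  have h1 := rd_pe hj.G hc' hw'
  rw [hG.G] at h1
  have h2 : pe a' v' ψ'.G = 0 := Subtype.ext (h1.uniq Rs.Hv.zero)
  rw [e, ha, hv, hb, wd_lt]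
  exact hj.lt hc' hw' hD (hok.gy_ne h2 hD) hξ' j

end GX
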