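import Pool.Agent.Lib.MP_f80667_ag.Lv.Wd

/-! The roots and their residues; lifts of points of the reduction. -/

open ZC BE PE CV IntermediateField

namespace GX

variable {F : Type} [Field F] {N d m : ℕ} {ι : Type} {f : ι → MvPolynomial (Fin N) F}
  {K Ω : Type} [Field K] [CharZero K] [Field Ω] [Algebra K Ω] [Algebra F K] [Algebra F Ω]
  [IsScalarTower F K Ω] [IsAlgClosure K Ω] {L : Ld K Ω} {ψ : Fin m → Prj F N d}
  {f₀ : ι → MvPolynomial (Fin N) (L.V.comap (algebraMap F Ω))}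
  {ψ₀ : Fin m → Prj (L.V.comap (algebraMap F Ω)) N d}
  {M : IntermediateField K Ω} {c ξ : Fin (d + 1) → Ω} {w : Ω} {a b : Fin (d + 1) → L.κ}
  {v : L.κ} {k n : ℕ}

/-- **The roots.** Proof: the residue is a bijection of `rts` with the roots of `(ψ₂ ψ₀ i).gc a` (all simple as `D (a) ≠ 0`): injective by `rts_inj`, the residue of a root is a root (`dat_G`), and every root has a lift (`Pj.root`, or count: `G (c, Y)` is the product of the `Y - w`, `w` in `rts`; reduce it). -/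
theorem dat_roots (h : Dat L.V f ψ f₀ ψ₀) (i : Fin m) (hn : n ≠ 0)
    (hcM : Iv L (L.Ur ⊥ n) c)
    (hD : L.nm (MvPolynomial.aeval c ((ψ i).map (algebraMap F K)).D) = 1)
    (hc : ∀ r, L.rs.Hv (c r) (a r)) {A : Type} [AddCommMonoid A] (T : L.κ → A) :
    ∑ w ∈ rts ((ψ i).map (algebraMap F K)) c, T (rv L w) =
      (((ψ₂ ψ₀ i).gc a).roots.map T).sum := by
  classical
  have _ := hn
  have hψ := h.pj i
  have hok := dat_ok h i
  have hc1 : ∀ r, L.nm (c r) ≤ 1 := fun r => (hcM r).2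
  have hcT : Iv L (⊤ : IntermediateField K Ω) c := fun r => ⟨IntermediateField.mem_top, hc1 r⟩
  have hDa : MvPolynomial.eval a (ψ₂ ψ₀ i).D ≠ 0 := (L.hv_ne (dat_D h i hc)).2 hD
  have hnd := Polynomial.nodup_roots (hok.gc_sep hDa)
  have e1 : (((ψ₂ ψ₀ i).gc a).roots.map T).sum =
      ∑ v ∈ ((ψ₂ ψ₀ i).gc a).roots.toFinset, T v := by
    rw [Finset.sum_eq_multiset_sum, Multiset.toFinset_val, Multiset.dedup_eq_self.2 hnd]
  rw [e1]
  refine Finset.sum_bij (fun w _ => rv L w) (fun w hw => ?_) (fun w hw w' hw' he => ?_)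
    (fun v hv => ?_) (fun w _ => rfl)
  · rw [Multiset.mem_toFinset, hok.mem_gc]
    have h1 := dat_G h i hc (rv_hv L (rts_le hψ hc1 hw))
    rw [(mem_rts hψ).1 hw] at h1
    exact h1.uniq (L.hv_zero.2 (by rw [L.zero]; exact zero_lt_one))
  · exact rts_inj hψ hc1 hD hw hw' he
  · rw [Multiset.mem_toFinset, hok.mem_gc] at hv
    obtain ⟨w₀, hw₀⟩ := L.hv_surj v
    have h1 := dat_G h i hc hw₀
    rw [hv] at h1
    have h2 := L.hv_zero.1 h1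
    obtain ⟨w, -, hw1, hG, hww⟩ := hψ.root hcT hD (IntermediateField.mem_top) (L.hv_int hw₀) h2
    exact ⟨w, (mem_rts hψ).2 hG, (L.hv_sub (rv_hv L hw1) hw₀).2 (hww.trans_lt h2)⟩

/-- **Lifts.** Proof: all coordinates and the elements of `T` are over the field with `p ^ n` elements for some `n`, `k ∣ n` (`rn_fin`); `kf_ur`: lifts `c` of `u (x)`, `w₀` of `y (x)` over `Ur ⊥ n`; `dat_D`, `dat_G`: `D (c)` is a unit, `nm G (c, w₀) < 1`; `Pj.root`. -/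
theorem dat_lift (h : Dat L.V f ψ f₀ ψ₀) (hk : L.Rf ⊥ k) (i : Fin m) {x : Fin N → L.κ}
    (hx : Zp (f₂ f₀) x) (hD : MvPolynomial.eval ((ψ₂ ψ₀ i).uv x) (ψ₂ ψ₀ i).D ≠ 0)
    (T : Finset L.κ) : ∃ (n : ℕ) (c : Fin (d + 1) → Ω) (w : Ω), n ≠ 0 ∧ k ∣ n ∧
      Gp L ((ψ i).map (algebraMap F K)) (L.Ur ⊥ n) c w ∧
      (∀ r, L.rs.Hv (c r) ((ψ₂ ψ₀ i).uv x r)) ∧ L.rs.Hv w ((ψ₂ ψ₀ i).yv x) ∧
        ∀ a ∈ T, a ^ L.p ^ n = a := by
  classical
  have hψ := h.pj i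
  have hok := dat_ok h i
  obtain ⟨n, hn, hkn, -, hT⟩ := rn_fin (L := L) (K := K) hk.ne ∅
    (fun x hx => absurd hx (Finset.notMem_empty x))
    (T ∪ (Finset.univ.image ((ψ₂ ψ₀ i).uv x) ∪ {(ψ₂ ψ₀ i).yv x}))
  have h1 : ∀ r, (ψ₂ ψ₀ i).uv x r ^ L.p ^ n = (ψ₂ ψ₀ i).uv x r := fun r =>
    hT _ (Finset.mem_union_right _ (Finset.mem_union_left _
      (Finset.mem_image_of_mem _ (Finset.mem_univ r))))
  have h2 : (ψ₂ ψ₀ i).yv x ^ L.p ^ n = (ψ₂ ψ₀ i).yv x :=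
    hT _ (Finset.mem_union_right _ (Finset.mem_union_right _ (Finset.mem_singleton_self _)))
  choose c hc using fun r => kf_ur (K := K) hn (h1 r)
  obtain ⟨w₀, hw₀, hw₁⟩ := kf_ur (K := K) hn h2
  have hcM : Iv L (L.Ur ⊥ n) c := fun r => ⟨(hc r).1, L.hv_int (hc r).2⟩
  have hD1 := dat_D h i fun r => (hc r).2
  have hD2 := (L.hv_ne hD1).1 hD
  have h0 : ∀ j, MvPolynomial.aeval x (f₂ f₀ j) = 0 := fun j =>
    (DFunLike.congr_fun (MvPolynomial.coe_aeval_eq_eval x) (f₂ f₀ j)).trans (hx.2 j)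
  obtain ⟨j, hj⟩ := Function.ne_iff.1 hx.1
  have h3 := (hok.on_pt h0 (Ne.isUnit hj)).1
  have h4 := dat_G h i (fun r => (hc r).2) hw₁
  rw [h3] at h4
  have h5 := L.hv_zero.1 h4
  obtain ⟨w, hw, hw1, hG, hww⟩ := hψ.root hcM hD2 hw₀ (L.hv_int hw₁) h5
  obtain ⟨v, hv⟩ := L.hv_of hw1
  have h6 : v = (ψ₂ ψ₀ i).yv x := (L.hv_sub hv hw₁).2 (hww.trans_lt h5)
  rw [h6] at hv
  exact ⟨n, c, w, hn, hkn, ⟨hcM, hw, hw1, hG, hD2⟩, fun r => (hc r).2, hv,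
    fun a ha => hT a (Finset.mem_union_left _ ha)⟩

end GX
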