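import Pool.Agent.Lib.MP_f80667_ag.Lv.Wd2
import Pool.Agent.Lib.MP_f80667_ag.Ng.Rb

/-!
The same with projections over `K`.

* `Dak f L ψ f₀ ψ₀`: `f₀` and `ψ₀` are `f` and `ψ` over the valuation ring of `K`, the projections are good and cover over the valuation ring.
-/

open ZC BE PE CV IntermediateField

namespace GX

variable {F : Type} [Field F] {N d m : ℕ} {ι : Type} {f : ι → MvPolynomial (Fin N) F}
  {K Ω : Type} [Field K] [CharZero K] [Field Ω] [Algebra K Ω] [Algebra F K] [Algebra F Ω]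
  [IsScalarTower F K Ω] [IsAlgClosure K Ω] {L : Ld K Ω} {ψ : Fin m → Prj K N d}
  {f₀ : ι → MvPolynomial (Fin N) (L.V.comap (algebraMap K Ω))}
  {ψ₀ : Fin m → Prj (L.V.comap (algebraMap K Ω)) N d}
  {M : IntermediateField K Ω} {c ξ : Fin (d + 1) → Ω} {w : Ω} {a b : Fin (d + 1) → L.κ}
  {v : L.κ} {k n : ℕ}

/-- The data over the valuation ring of `K`. -/
def Dak (f : ι → MvPolynomial (Fin N) F) (L : Ld K Ω) (ψ : Fin m → Prj K N d)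
    (f₀ : ι → MvPolynomial (Fin N) (L.V.comap (algebraMap K Ω)))
    (ψ₀ : Fin m → Prj (L.V.comap (algebraMap K Ω)) N d) : Prop :=
  Dat L.V (fun i => MvPolynomial.map (algebraMap F K) (f i)) ψ f₀ ψ₀

omit [CharZero K] in
private theorem dak_id (ψ : Prj K N d) : ψ.map (algebraMap K K) = ψ := by
  have e : (MvPolynomial.map (algebraMap K K) : MvPolynomial (Fin (d + 1)) K →+* _) =
      RingHom.id _ := RingHom.ext fun p => MvPolynomial.map_id p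
  obtain ⟨u, y, G, D, A⟩ := ψ
  unfold Prj.map
  rw [e]
  simp only [Polynomial.map_id]
  rfl

theorem dak_pj (hf : Hm f) (h : Dak f L ψ f₀ ψ₀) (i : Fin m) : Pj f L (ψ i) :=
  (Dat.pj_of hf h L rfl).1 i

theorem dak_cvr (hf : Hm f) (h : Dak f L ψ f₀ ψ₀) : Cvr f L ψ := (Dat.pj_of hf h L rfl).2

omit [Algebra F Ω] [IsScalarTower F K Ω] in
theorem dak_ok (h : Dak f L ψ f₀ ψ₀) (i : Fin m) : (ψ₂ ψ₀ i).Ok (f₂ f₀) := dat_ok h i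

omit [Algebra F Ω] [IsScalarTower F K Ω] in
theorem dak_cov (h : Dak f L ψ f₀ ψ₀) : Cov (f₂ f₀) (ψ₂ ψ₀) := dat_cov h

omit [Algebra F Ω] [IsScalarTower F K Ω] in
theorem dak_hom (h : Dak f L ψ f₀ ψ₀) (i : ι) : ∃ e, (f₂ f₀ i).IsHomogeneous e := dat_hom h i

omit [Algebra F Ω] [IsScalarTower F K Ω] in
theorem dak_uv (h : Dak f L ψ f₀ ψ₀) (i : Fin m) {x : Fin N → Ω} {y : Fin N → L.κ}
    (hx : ∀ j, L.rs.Hv (x j) (y j)) : (∀ r, L.rs.Hv ((ψ i).uv x r) ((ψ₂ ψ₀ i).uv y r)) ∧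
      L.rs.Hv ((ψ i).yv x) ((ψ₂ ψ₀ i).yv y) := by
  have h1 := dat_uv (K := K) h i hx
  rwa [dak_id] at h1

omit [Algebra F Ω] [IsScalarTower F K Ω] in
theorem dak_D (h : Dak f L ψ f₀ ψ₀) (i : Fin m) (hc : ∀ r, L.rs.Hv (c r) (a r)) :
    L.rs.Hv (MvPolynomial.aeval c (ψ i).D) (MvPolynomial.eval a (ψ₂ ψ₀ i).D) := by
  have h1 := dat_D (K := K) h i hc
  rwa [dak_id] at h1

omit [Algebra F Ω] [IsScalarTower F K Ω] in
theorem dak_G (h : Dak f L ψ f₀ ψ₀) (i : Fin m) (hc : ∀ r, L.rs.Hv (c r) (a r))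
    (hw : L.rs.Hv w v) : L.rs.Hv (pe c w (ψ i).G) (pe a v (ψ₂ ψ₀ i).G) := by
  have h1 := dat_G (K := K) h i hc hw
  rwa [dak_id] at h1

omit [Algebra F Ω] [IsScalarTower F K Ω] in
theorem dak_pt (h : Dak f L ψ f₀ ψ₀) (i : Fin m) (hG : Gp L (ψ i) M c w)
    (hc : ∀ r, L.rs.Hv (c r) (a r)) (hw : L.rs.Hv w v) (j : Fin N) :
    L.rs.Hv (((ψ i).om Ω).pt c w j) ((ψ₂ ψ₀ i).pt a v j) := by
  have h1 := dat_pt (K := K) (M := M) (c := c) (w := w) (a := a) (v := v) h i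
  rw [dak_id] at h1
  exact h1 hG hc hw j

omit [Algebra F Ω] [IsScalarTower F K Ω] in
theorem dak_lt (h : Dak f L ψ f₀ ψ₀) (i : Fin m) (hG : Gp L (ψ i) M c w)
    (hc : ∀ r, L.rs.Hv (c r) (a r)) (hw : L.rs.Hv w v) (hξ : ∀ r, L.rs.Hv (ξ r) (b r))
    (j : Fin N) : L.rs.Hv (((ψ i).om Ω).lt c w ξ j) ((ψ₂ ψ₀ i).lt a v b j) := by
  have h1 := dat_lt (K := K) (M := M) (c := c) (w := w) (a := a) (v := v) (ξ := ξ) (b := b) h i
  rw [dak_id] at h1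
  exact h1 hG hc hw hξ j

omit [Algebra F Ω] [IsScalarTower F K Ω] in
theorem dak_roots (h : Dak f L ψ f₀ ψ₀) (i : Fin m) (hn : n ≠ 0) (hcM : Iv L (L.Ur ⊥ n) c)
    (hD : L.nm (MvPolynomial.aeval c (ψ i).D) = 1) (hc : ∀ r, L.rs.Hv (c r) (a r)) {A : Type}
    [AddCommMonoid A] (T : L.κ → A) :
    ∑ w ∈ rts (ψ i) c, T (rv L w) = (((ψ₂ ψ₀ i).gc a).roots.map T).sum := by
  have h1 := dat_roots (K := K) (n := n) (c := c) (a := a) h i hn hcM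
  rw [dak_id] at h1
  exact h1 hD hc T

omit [Algebra F Ω] [IsScalarTower F K Ω] in
theorem dak_lift (h : Dak f L ψ f₀ ψ₀) (hk : L.Rf ⊥ k) (i : Fin m) {x : Fin N → L.κ}
    (hx : Zp (f₂ f₀) x) (hD : MvPolynomial.eval ((ψ₂ ψ₀ i).uv x) (ψ₂ ψ₀ i).D ≠ 0)
    (T : Finset L.κ) : ∃ (n : ℕ) (c : Fin (d + 1) → Ω) (w : Ω), n ≠ 0 ∧ k ∣ n ∧
      Gp L (ψ i) (L.Ur ⊥ n) c w ∧ (∀ r, L.rs.Hv (c r) ((ψ₂ ψ₀ i).uv x r)) ∧
        L.rs.Hv w ((ψ₂ ψ₀ i).yv x) ∧ ∀ a ∈ T, a ^ L.p ^ n = a := by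
  have h1 := dat_lift (K := K) h hk i hx hD T
  rwa [dak_id] at h1

end GX
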