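import Pool.Agent.Lib.MP_f80667_ag.Lv.Wc
import Pool.Agent.Lib.MP_f80667_ag.Lv.Wdk
import Pool.Agent.Lib.MP_f80667_ag.Lv.Tcb
import Pool.Agent.Lib.MP_f80667_ag.Lv.Tg

/-! The trace functionals of the tame levels in different charts. -/

open ZC BE PE CV IntermediateField

namespace GX

variable {F : Type} [Field F] {N d m : ℕ} {ι : Type} {f : ι → MvPolynomial (Fin N) F}
  {K Ω : Type} [Field K] [CharZero K] [Field Ω] [Algebra K Ω] [Algebra F K] [Algebra F Ω]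
  [IsScalarTower F K Ω] [IsAlgClosure K Ω] {L : Ld K Ω} {ψ : Fin m → Prj K N d}
  {f₀ : ι → MvPolynomial (Fin N) (L.V.comap (algebraMap K Ω))}
  {ψ₀ : Fin m → Prj (L.V.comap (algebraMap K Ω)) N d} {π : Ω} {k s n n' : ℕ}
  {χ : ((Xf f).pt Ω →₀ ℤ) → ZMod L.p} {c c' : Fin (d + 1) → Ω} {w w' : Ω} {i i' : Fin m}

omit [CharZero K] [IsAlgClosure K Ω] [Algebra F K] [Algebra F Ω] [IsScalarTower F K Ω] in
private theorem we_one {x : Ω} {a : L.κ} (h : L.rs.Hv x a) (ha : a ≠ 0) : L.nm x = 1 := by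
  refine le_antisymm (L.hv_int h) ?_
  by_contra hlt
  rw [not_le] at hlt
  exact ha (h.uniq (L.hv_zero.2 hlt))

omit [CharZero K] [IsAlgClosure K Ω] [Algebra F K] [Algebra F Ω] [IsScalarTower F K Ω] in
private theorem we_ne {x : Ω} {a : L.κ} (h : L.rs.Hv x a) (h1 : L.nm x = 1) : a ≠ 0 := by
  rintro rfl
  have h2 := L.hv_zero.1 h
  rw [h1] at h2
  exact lt_irrefl _ h2

private theorem we_fix {κ : Type} [Field κ] {p n d : ℕ} [Fact p.Prime] [CharP κ p]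
    {a b : Fin (d + 1) → κ} (ha : ∀ r, a r ^ p ^ n = a r) (hb : ∀ r, b r ^ p ^ n = b r) :
    (∑ r, a r * b r) ^ p ^ n = ∑ r, a r * b r := by
  rw [sum_pow_char_pow]
  exact Finset.sum_congr rfl fun r _ => by rw [mul_pow, ha, hb]

/-- The traces in the two charts. -/
private theorem we_tr (hy : Hyt f L π k) (h : Dak f L ψ f₀ ψ₀) (hχ : Ch f L π s χ)
    (hs : s ≠ 0) (hn : n ≠ 0) (hkn : k ∣ n)
    (hG : Gp L (ψ i) (L.Ur ⊥ n) c w)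
    (hD : L.nm (MvPolynomial.aeval ((ψ i').uv
      (((ψ i).om Ω).pt c w)) (ψ i').D) = 1)
    {u : Fin (d + 1) → L.κ} {y : L.κ} (hc : ∀ r, L.rs.Hv (c r) (u r)) (hw : L.rs.Hv w y)
    {g : Fin (d + 1) → Ω} (hg : ∀ r, g r ∈ L.Ur ⊥ n) {ξ : Fin (d + 1) → L.κ}
    (hξ : ∀ r, L.rs.Hv (g r) (ξ r)) :
    trn L.p n (∑ r, ξ r * lw f L (ψ i) π s χ k c w r) =
      trn L.p n (∑ r, (ψ₂ ψ₀ i').uv ((ψ₂ ψ₀ i).lt u y ξ) r *
        lw f L (ψ i') π s χ k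
          ((ψ i').uv (((ψ i).om Ω).pt c w))
          ((ψ i').yv (((ψ i).om Ω).pt c w)) r) := by
  have hψ := dak_pj hy.hm h i
  have hψ' := dak_pj hy.hm h i'
  have hM : Um L (L.Ur ⊥ n) := ⟨n, hn, le_rfl⟩
  have hg' : Iv L (L.Ur ⊥ n) g := fun r => ⟨hg r, L.hv_int (hξ r)⟩
  have h2 : ∀ r, L.nm ((π ^ s • g) r) ≤ L.nm π ^ s := fun r => by
    rw [Pi.smul_apply, smul_eq_mul, L.mul, L.pow]
    exact mul_le_of_le_one_right (pow_nonneg (L.nonneg _) s) (hg' r).2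
  have hh : Iv L (L.Ur ⊥ n) (π ^ s • g) := fun r =>
    ⟨mul_mem (pow_mem (hy.uf.mem _) s) (hg' r).1,
      (h2 r).trans (pow_le_one₀ (L.nonneg _) hy.uf.lt.le)⟩
  have ht := hy.uf.pow_lt hs
  have ht0 : 0 ≤ L.nm π ^ s := pow_nonneg (L.nonneg _) s
  obtain ⟨G', h', hI', hb', he', hv⟩ := cyv_chart hψ hψ' hG hD hh ht h2
  obtain ⟨-, m2, m3, m4⟩ := hG.tan hψ hh ht0 ht h2
  have hl : ∀ j, L.rs.Hv (((ψ i).om Ω).lt c w g j)
      ((ψ₂ ψ₀ i).lt u y ξ j) := dak_lt h i hG hc hw hξ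
  have hl' := (dak_uv h i' hl).1
  obtain ⟨g₁, hg₁⟩ : ∃ g₁, g₁ = (ψ i').uv
      (((ψ i).om Ω).lt c w g) := ⟨_, rfl⟩
  rw [← hg₁] at hl'
  have hIg : Iv L (L.Ur ⊥ n) g₁ := fun r => by
    refine ⟨?_, L.hv_int (hl' r)⟩
    rw [hg₁]
    exact lv_mem _ fun j => lt_mem (fun r => (hG.iv r).1) hG.mem (fun r => hg r) j
  have hIs : Iv L (L.Ur ⊥ n) (π ^ s • g₁) := fun r => by
    refine ⟨mul_mem (pow_mem (hy.uf.mem _) s) (hIg r).1, ?_⟩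
    rw [Pi.smul_apply, smul_eq_mul, L.mul, L.pow]
    exact mul_le_one₀ (pow_le_one₀ (L.nonneg _) hy.uf.lt.le) (L.nonneg _) (hIg r).2
  have h1s : ∀ r, L.nm ((π ^ s • g₁) r) < 1 := fun r => by
    rw [Pi.smul_apply, smul_eq_mul, L.mul, L.pow]
    exact (mul_le_of_le_one_right ht0 (hIg r).2).trans_lt ht
  have hcl : ∀ r, L.nm (h' r - (π ^ s • g₁) r) ≤ L.nm π ^ (s + 1) := fun r => by
    have e1 : h' r - (π ^ s • g₁) r =
        (ψ i').uv (((ψ i).om Ω).pt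
          (c + π ^ s • g) (sht L (ψ i) w (c + π ^ s • g))) r -
        (ψ i').uv (((ψ i).om Ω).pt c w +
          ((ψ i).om Ω).lt c w (π ^ s • g)) r := by
      rw [he', hg₁, uv_add, Prj.lt_smul, uv_smul, Pi.sub_apply, Pi.add_apply]
      ring
    rw [e1]
    refine (lv_close (hψ'.iu r) (sq_nonneg (L.nm π ^ s)) fun j => ?_).trans ?_
    · rw [Pi.add_apply, ← sub_sub]
      exact m4 j
    · rw [← pow_mul]
      exact hy.uf.pow_le (by omega)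
  have hd := cyv_close hy.uf hψ' hM G' hIs hI' (Nat.succ_ne_zero s) h1s hcl
  have hX := Ch.congr hy.uf hχ (cyv_vl hy hψ' hM G' hIg hs) (vl_dr (s + 1) hd)
  have r1 := (lw_spec hy hψ hχ hs hn hkn hG).2 g ξ hg' hξ
  have r2 := (lw_spec hy hψ' hχ hs hn hkn G').2 g₁ _ hIg hl'
  rw [← r1, ← r2, ← hX, hv]

/-- **Change of the chart.** `(c, w)` in the chart `i` and `(c', w')` in the chart `i'` have the residues of the point `x` of the reduction. Proof: let `X = pt_i (c, w)`, `c'' = u_i' (X)`, `w'' = y_i' (X)` (residues `u_i' (x)`, `y_i' (x)`: `dak_pt`, `dak_uv`, `x = pt (u x) (y x)` by `Prj.Ok`): `lw_cong` gives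
`lw_i' (c', w') = lw_i' (c'', w'')`. For `g` over `Ur ⊥ n'''` with residues `ξ`: `cyv_chart` for `h = π ^ s g` (`t = nm π ^ s`), `Gp.tan`: `h'` is `π ^ s u_i' (lt_i (c, w; g))` modulo `π ^ (2 s)` (`lt` is linear: `lt_form`), `cyv_close`, `Ch.congr` (`s + 1 ≤ 2 s`); `lw_spec` in both charts:
`trn (∑ ξ_r lw_i r) = trn (∑ (ψ₂ i').uv ((ψ₂ i).lt u y ξ) r lw_i' r)`; with `τ ξ` in place of `ξ`: `fp_uniq`. Finally `ξ = (ψ₂ i).uv t` and `t = (ψ₂ i).lt u y ξ` (`Prj.Ok.lt_eq`). The coordinates of `t` are over the field with `p ^ n'''` elements (`dak_lift` or `rn_fin`). -/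
theorem lw_chart (hy : Hyt f L π k) (h : Dak f L ψ f₀ ψ₀) (hχ : Ch f L π s χ) (hs : s ≠ 0)
    (hsp : s + 1 < L.p) (hn : n ≠ 0) (hkn : k ∣ n)
    (hG : Gp L (ψ i) (L.Ur ⊥ n) c w) (hn' : n' ≠ 0) (hkn' : k ∣ n')
    (hG' : Gp L (ψ i') (L.Ur ⊥ n') c' w') {x t : Fin N → L.κ}
    (ht : Tg (f₂ f₀) x t) (hc : ∀ r, L.rs.Hv (c r) ((ψ₂ ψ₀ i).uv x r))
    (hw : L.rs.Hv w ((ψ₂ ψ₀ i).yv x)) (hc' : ∀ r, L.rs.Hv (c' r) ((ψ₂ ψ₀ i').uv x r))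
    (hw' : L.rs.Hv w' ((ψ₂ ψ₀ i').yv x)) :
    ∑ r, (ψ₂ ψ₀ i).uv t r * lw f L (ψ i) π s χ k c w r =
      ∑ r, (ψ₂ ψ₀ i').uv t r * lw f L (ψ i') π s χ k c' w' r := by
  classical
  have : Fact L.p.Prime := ⟨L.pp⟩
  have : CharP L.κ L.p := L.char_κ
  have : IsAlgClosed Ω := IsAlgClosure.isAlgClosed K
  have : IsAlgClosed L.κ := L.κ_closed
  have hψ' := dak_pj hy.hm h i'
  have hD₂ : MvPolynomial.eval ((ψ₂ ψ₀ i).uv x) (ψ₂ ψ₀ i).D ≠ 0 :=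
    we_ne (dak_D h i hc) hG.D
  have hD₂' : MvPolynomial.eval ((ψ₂ ψ₀ i').uv x) (ψ₂ ψ₀ i').D ≠ 0 :=
    we_ne (dak_D h i' hc') hG'.D
  obtain ⟨-, hpt⟩ := (dak_ok h i).pt_eq ht.1 hD₂
  have hlt := (dak_ok h i).lt_eq ht hD₂
  have hX : ∀ j, L.rs.Hv (((ψ i).om Ω).pt c w j) (x j) := fun j => by
    have h1 := dak_pt h i hG hc hw j
    rwa [hpt] at h1
  obtain ⟨hu', hy'⟩ := dak_uv h i' hX
  have hD : L.nm (MvPolynomial.aeval ((ψ i').uv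
      (((ψ i).om Ω).pt c w)) (ψ i').D) = 1 :=
    we_one (dak_D h i' hu') hD₂'
  have hg0 : Iv L (L.Ur ⊥ n) (0 : Fin (d + 1) → Ω) := fun r =>
    ⟨zero_mem _, by rw [Pi.zero_apply, L.zero]; exact zero_le_one⟩
  obtain ⟨G', -⟩ := cyv_chart (dak_pj hy.hm h i) hψ' hG hD hg0 zero_lt_one fun r => by
    rw [Pi.zero_apply, L.zero]
  have e1 := lw_cong hy hψ' hχ hs hsp hn hkn G' hn' hkn' hG' hu' hy' hc' hw'
  rw [e1]
  obtain ⟨n₁, hn₁, hd, -, hT⟩ := rn_fin (L := L) (mul_ne_zero hn hn') ∅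
    (fun x hx => absurd hx (Finset.notMem_empty x))
    (Finset.univ.image (fun r => (ψ₂ ψ₀ i).uv t r) ∪ Finset.univ.image fun r => (ψ₂ ψ₀ i').uv t r)
  have hT1 : ∀ r, (ψ₂ ψ₀ i).uv t r ^ L.p ^ n₁ = (ψ₂ ψ₀ i).uv t r := fun r =>
    hT _ (Finset.mem_union_left _ (Finset.mem_image_of_mem _ (Finset.mem_univ r)))
  have hT2 : ∀ r, (ψ₂ ψ₀ i').uv t r ^ L.p ^ n₁ = (ψ₂ ψ₀ i').uv t r := fun r =>
    hT _ (Finset.mem_union_right _ (Finset.mem_image_of_mem _ (Finset.mem_univ r)))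
  have hnn : n ∣ n₁ := (dvd_mul_right _ _).trans hd
  have hk₁ : k ∣ n₁ := hkn.trans hnn
  have hle : L.Ur (⊥ : IntermediateField K Ω) n ≤ L.Ur ⊥ n₁ := Ld.ur_dvd ⊥ hnn
  have F1 := (lw_spec hy (dak_pj hy.hm h i) hχ hs hn₁ hk₁ (hG.mono hle)).1
  have F2 := (lw_spec hy hψ' hχ hs hn₁ hk₁ (G'.mono hle)).1
  refine fp_uniq hn₁ (we_fix hT1 F1) (we_fix hT2 F2) fun τ hτ => ?_
  have hτ1 : ∀ r, (τ • (ψ₂ ψ₀ i).uv t) r ^ L.p ^ n₁ = (τ • (ψ₂ ψ₀ i).uv t) r := fun r => by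
    rw [Pi.smul_apply, smul_eq_mul, mul_pow, hτ, hT1]
  choose g hg1 hg2 using fun r => kf_ur (L := L) hn₁ (hτ1 r)
  have h3 := we_tr hy h hχ hs hn₁ hk₁ (hG.mono hle) hD hc hw hg1 hg2
  rw [Prj.lt_smul, hlt, uv_smul] at h3
  have e2 : ∀ (a b : Fin (d + 1) → L.κ), ∑ r, (τ • a) r * b r = τ * ∑ r, a r * b r := by
    intro a b
    rw [Finset.mul_sum]
    refine Finset.sum_congr rfl fun r _ => ?_
    rw [Pi.smul_apply, smul_eq_mul, mul_assoc]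
  rw [e2, e2] at h3
  exact h3

end GX
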