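import Pool.Agent.Lib.MP_f80667_ag.Lv.Xe

/-!
The function on the tangent vectors of the reduction.

* `Wa .. x t a`: `a` is the value of the trace functional at the tangent vector `t` at `x`, computed in some chart. `wl .. x t`: this value.
-/

open ZC BE PE CV IntermediateField

namespace GX

variable {F : Type} [Field F] {N d m : ℕ} {ι : Type} (f : ι → MvPolynomial (Fin N) F)
  {K Ω : Type} [Field K] [CharZero K] [Field Ω] [Algebra K Ω] [Algebra F K] [Algebra F Ω]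
  [IsScalarTower F K Ω] [IsAlgClosure K Ω] (L : Ld K Ω) (ψ : Fin m → Prj K N d)
  {f₀ : ι → MvPolynomial (Fin N) (L.V.comap (algebraMap K Ω))}
  (ψ₀ : Fin m → Prj (L.V.comap (algebraMap K Ω)) N d) (π : Ω) (s : ℕ)
  (χ : ((Xf f).pt Ω →₀ ℤ) → ZMod L.p) (k : ℕ)

/-- `(c, w)` over `Ur ⊥ n` has the residues of the point `x` in the chart `i`. -/
def Wp (i : Fin m) (n : ℕ) (c : Fin (d + 1) → Ω) (w : Ω) (x : Fin N → L.κ) : Prop :=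
  n ≠ 0 ∧ k ∣ n ∧ Gp L (ψ i) (L.Ur ⊥ n) c w ∧
    (∀ r, L.rs.Hv (c r) ((ψ₂ ψ₀ i).uv x r)) ∧ L.rs.Hv w ((ψ₂ ψ₀ i).yv x)

/-- `a` is the value of the trace functional at `x`, `t`. -/
def Wa (x t : Fin N → L.κ) (a : L.κ) : Prop :=
  ∃ i n c w, Wp L ψ ψ₀ k i n c w x ∧
    a = ∑ r, (ψ₂ ψ₀ i).uv t r * lw f L (ψ i) π s χ k c w r

open Classical in
/-- The value of the trace functional at `x`, `t`. -/
noncomputable def wl (x t : Fin N → L.κ) : L.κ :=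
  if h : ∃ a, Wa f L ψ ψ₀ π s χ k x t a then h.choose else 0

variable {f L ψ ψ₀ π s χ k}

/-- Every point has lifts. Proof: `dak_cov` (`Cov.exists_ne`), `dak_lift`. -/
theorem exists_wp (h : Dak f L ψ f₀ ψ₀) (hk : L.Rf ⊥ k) {x : Fin N → L.κ}
    (hx : Zp (f₂ f₀) x) : ∃ i n c w, Wp L ψ ψ₀ k i n c w x := by
  obtain ⟨i, hi⟩ := (dak_cov h).exists_ne hx
  obtain ⟨n, c, w, hn, hkn, hG, hc, hw, -⟩ := dak_lift h hk i hx hi ∅
  exact ⟨i, n, c, w, hn, hkn, hG, hc, hw⟩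

/-- A point over `Ur ⊥ n` in a chart is a lift of its residue. Proof: `dak_pt`, `Prj.Ok` (`u (pt a v) = a`, `y (pt a v) = v`). -/
theorem wp_of (h : Dak f L ψ f₀ ψ₀) {i : Fin m} {n : ℕ} (hn : n ≠ 0) (hkn : k ∣ n)
    {c : Fin (d + 1) → Ω} {w : Ω} (hG : Gp L (ψ i) (L.Ur ⊥ n) c w)
    {a : Fin (d + 1) → L.κ} {v : L.κ} (hc : ∀ r, L.rs.Hv (c r) (a r)) (hw : L.rs.Hv w v) :
    Wp L ψ ψ₀ k i n c w ((ψ₂ ψ₀ i).pt a v) ∧ Zp (f₂ f₀) ((ψ₂ ψ₀ i).pt a v) ∧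
      (ψ₂ ψ₀ i).uv ((ψ₂ ψ₀ i).pt a v) = a ∧ ∀ b, Tg (f₂ f₀) ((ψ₂ ψ₀ i).pt a v)
        ((ψ₂ ψ₀ i).lt a v b) ∧ (ψ₂ ψ₀ i).uv ((ψ₂ ψ₀ i).lt a v b) = b := by
  have hG' : pe a v (ψ₂ ψ₀ i).G = 0 := by
    have h1 := dak_G h i hc hw
    rw [hG.G] at h1
    exact h1.uniq (L.hv_zero.2 (by rw [L.zero]; exact one_pos))
  have hD' : MvPolynomial.eval a (ψ₂ ψ₀ i).D ≠ 0 := by
    intro h0
    have h1 := dak_D h i hc
    rw [h0] at h1
    have h2 := L.hv_zero.1 h1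
    rw [hG.D] at h2
    exact lt_irrefl _ h2
  obtain ⟨hz, hu, hy⟩ := (dak_ok h i).pt_zp (dak_hom h) hG' hD'
  refine ⟨⟨hn, hkn, hG, fun r => ?_, ?_⟩, hz, hu, fun b =>
    (dak_ok h i).lt_tg (dak_hom h) hG' hD' b⟩
  · rw [hu]
    exact hc r
  · rw [hy]
    exact hw

/-- **The value in any chart.** Proof: `lw_chart`. -/
theorem wl_at (hy : Hyt f L π k) (h : Dak f L ψ f₀ ψ₀) (hχ : Ch f L π s χ) (hs : s ≠ 0)
    (hsp : s + 1 < L.p) {x t : Fin N → L.κ} (ht : Tg (f₂ f₀) x t) {i : Fin m} {n : ℕ}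
    {c : Fin (d + 1) → Ω} {w : Ω} (hp : Wp L ψ ψ₀ k i n c w x) :
    wl f L ψ ψ₀ π s χ k x t =
      ∑ r, (ψ₂ ψ₀ i).uv t r * lw f L (ψ i) π s χ k c w r := by
  have hex : ∃ a, Wa f L ψ ψ₀ π s χ k x t a := ⟨_, i, n, c, w, hp, rfl⟩
  rw [wl, dif_pos hex]
  obtain ⟨i', n', c', w', hp', ha⟩ := hex.choose_spec
  rw [ha]
  obtain ⟨h1, h2, h3, h4, h5⟩ := hp
  obtain ⟨h1', h2', h3', h4', h5'⟩ := hp'
  exact lw_chart hy h hχ hs hsp h1' h2' h3' h1 h2 h3 ht h4' h5' h4 h5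

/-- Proof: `wl_at` three times with one lift (`exists_wp`), `uv` is linear; `Tg` is closed under sums and multiples. -/
theorem wl_add (hy : Hyt f L π k) (h : Dak f L ψ f₀ ψ₀) (hχ : Ch f L π s χ) (hs : s ≠ 0)
    (hsp : s + 1 < L.p) {x t t' : Fin N → L.κ} (ht : Tg (f₂ f₀) x t) (ht' : Tg (f₂ f₀) x t') :
    wl f L ψ ψ₀ π s χ k x (t + t') = wl f L ψ ψ₀ π s χ k x t + wl f L ψ ψ₀ π s χ k x t' := by
  obtain ⟨i, n, c, w, hp⟩ := exists_wp (K := K) h hy.rf ht.1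
  rw [wl_at hy h hχ hs hsp (tg_add ht ht') hp, wl_at hy h hχ hs hsp ht hp,
    wl_at hy h hχ hs hsp ht' hp, ← Finset.sum_add_distrib]
  refine Finset.sum_congr rfl fun r _ => ?_
  rw [uv_add, Pi.add_apply, add_mul]

theorem wl_smul (hy : Hyt f L π k) (h : Dak f L ψ f₀ ψ₀) (hχ : Ch f L π s χ) (hs : s ≠ 0)
    (hsp : s + 1 < L.p) {x t : Fin N → L.κ} (ht : Tg (f₂ f₀) x t) (b : L.κ) :
    wl f L ψ ψ₀ π s χ k x (b • t) = b * wl f L ψ ψ₀ π s χ k x t := by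
  obtain ⟨i, n, c, w, hp⟩ := exists_wp (K := K) h hy.rf ht.1
  rw [wl_at hy h hχ hs hsp (tg_smul ht b) hp, wl_at hy h hχ hs hsp ht hp, Finset.mul_sum]
  refine Finset.sum_congr rfl fun r _ => ?_
  rw [uv_smul, Pi.smul_apply, smul_eq_mul, mul_assoc]

/-- Homogeneity. Proof: a lift `z` of `b` (`kf_ur`; a common field), `(z c, z w)` is a lift of `b x` (`cyv_hom` or directly `Gp`), `lw_hom`. -/
theorem wl_hom (hy : Hyt f L π k) (h : Dak f L ψ f₀ ψ₀) (hχ : Ch f L π s χ) (hs : s ≠ 0)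
    (hsp : s + 1 < L.p) {x t : Fin N → L.κ} (ht : Tg (f₂ f₀) x t) {b : L.κ} (hb : b ≠ 0) :
    wl f L ψ ψ₀ π s χ k (b • x) (b • t) = wl f L ψ ψ₀ π s χ k x t := by
  obtain ⟨i, hi⟩ := (dak_cov h).exists_ne ht.1
  obtain ⟨n, c, w, hn, hkn, hG, hc, hw, hT⟩ := dak_lift h hy.rf i ht.1 hi {b}
  obtain ⟨z, hz, hzb⟩ := kf_ur (K := K) hn (hT b (Finset.mem_singleton_self b))
  have hz1 : L.nm z = 1 := by
    refine le_antisymm (L.hv_int hzb) (not_lt.1 fun h1 => hb ?_)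
    exact hzb.uniq (L.hv_zero.2 h1)
  have hrv : rv L z = b := (rv_hv L hz1.le).uniq hzb
  have h00 : ∀ r, L.nm ((0 : Fin (d + 1) → Ω) r) < 1 := fun r => by
    rw [Pi.zero_apply, L.zero]
    exact one_pos
  have hG' : Gp L (ψ i) (L.Ur ⊥ n) (z • c) (z * w) :=
    (cyv_hom hy.hm (dak_pj hy.hm h i) hG (h := 0)
      (fun r => ⟨by rw [Pi.zero_apply]; exact zero_mem _, (h00 r).le⟩) h00 hz hz1).1
  have hp : Wp L ψ ψ₀ k i n c w x := ⟨hn, hkn, hG, hc, hw⟩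
  have hp' : Wp L ψ ψ₀ k i n (z • c) (z * w) (b • x) := by
    refine ⟨hn, hkn, hG', fun r => ?_, ?_⟩
    · rw [uv_smul, Pi.smul_apply, Pi.smul_apply, smul_eq_mul, smul_eq_mul]
      exact hzb.mul (hc r)
    · rw [yv_smul]
      exact hzb.mul hw
  rw [wl_at hy h hχ hs hsp (tg_hom (dak_hom h) ht hb) hp', wl_at hy h hχ hs hsp ht hp]
  refine Finset.sum_congr rfl fun r _ => ?_
  have h1 := lw_hom hy (dak_pj hy.hm h i) hχ hs hn hkn hG hz hz1 r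
  rw [hrv] at h1
  rw [← h1, uv_smul, Pi.smul_apply, smul_eq_mul]
  ring

/-- Radial vectors. Proof: `lw_rad`, `wl_at`. -/
theorem wl_rad (hy : Hyt f L π k) (h : Dak f L ψ f₀ ψ₀) (hχ : Ch f L π s χ) (hs : s ≠ 0)
    (hsp : s + 1 < L.p) {x : Fin N → L.κ} (hx : Zp (f₂ f₀) x) (b : L.κ) :
    wl f L ψ ψ₀ π s χ k x (b • x) = 0 := by
  obtain ⟨i, n, c, w, hp⟩ := exists_wp (K := K) h hy.rf hx
  rw [wl_at hy h hχ hs hsp (tg_rad (dak_hom h) hx b) hp]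
  obtain ⟨hn, hkn, hG, hc, hw⟩ := hp
  have h1 := lw_rad hy (dak_pj hy.hm h i) hχ hs hn hkn hG hc
  have h2 : ∑ r, (ψ₂ ψ₀ i).uv (b • x) r *
      lw f L (ψ i) π s χ k c w r =
      b * ∑ r, (ψ₂ ψ₀ i).uv x r * lw f L (ψ i) π s χ k c w r := by
    rw [Finset.mul_sum]
    refine Finset.sum_congr rfl fun r _ => ?_
    rw [uv_smul, Pi.smul_apply, smul_eq_mul, mul_assoc]
  rw [h2, h1, mul_zero]

end GX
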