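import Pool.Agent.Lib.MP_f80667_ag.Lv.Xf
import Pool.Agent.Lib.MP_f80667_ag.Lv.Kj
import Pool.Agent.Lib.MP_f80667_ag.Gx.Ft

/-! The relations of the curves for the function `wl`; the Frobenius map. -/

open ZC BE PE CV IntermediateField

namespace GX

variable {F : Type} [Field F] {N d m : ℕ} {ι : Type} {f : ι → MvPolynomial (Fin N) F}
  {K Ω : Type} [Field K] [CharZero K] [Field Ω] [Algebra K Ω] [Algebra F K] [Algebra F Ω]
  [IsScalarTower F K Ω] [IsAlgClosure K Ω] {L : Ld K Ω} {ψ : Fin m → Prj K N d}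
  {f₀ : ι → MvPolynomial (Fin N) (L.V.comap (algebraMap K Ω))}
  {ψ₀ : Fin m → Prj (L.V.comap (algebraMap K Ω)) N d} {π : Ω} {k s : ℕ}
  {χ : ((Xf f).pt Ω →₀ ℤ) → ZMod L.p}

/-- **The sum over the roots.** Proof: `Pw` by definition, `dak_roots` for `T v = v ^ j * wl (pt a v) (lt a v b)`; every root is in `Gp` (`rts_ur`), `wp_of`, `wl_at`: `∑ r, lw .. r * b r = wl (pt a v) (lt a v b)` with `v` the residue of the root. -/
theorem pw_wl (hy : Hyt f L π k) (h : Dak f L ψ f₀ ψ₀) (hχ : Ch f L π s χ) (hs : s ≠ 0)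
    (hsp : s + 1 < L.p) (i : Fin m) (j : ℕ) {c : Fin (d + 1) → Rn L} {b : Fin (d + 1) → L.κ}
    (hD : MvPolynomial.eval (fun r => rdn L (c r)) (ψ₂ ψ₀ i).D ≠ 0) :
    Pw f L (ψ i) π s χ k j c b =
      (((ψ₂ ψ₀ i).gc fun r => rdn L (c r)).roots.map fun v => v ^ j *
        wl f L ψ ψ₀ π s χ k ((ψ₂ ψ₀ i).pt (fun r => rdn L (c r)) v)
          ((ψ₂ ψ₀ i).lt (fun r => rdn L (c r)) v b)).sum := by
  classical
  have hΩ : IsAlgClosed Ω := IsAlgClosure.isAlgClosed K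
  obtain ⟨C, hC⟩ : ∃ C : Fin (d + 1) → Ω, C = fun r => (c r : Ω) := ⟨_, rfl⟩
  obtain ⟨a, ha⟩ : ∃ a : Fin (d + 1) → L.κ, a = fun r => rdn L (c r) := ⟨_, rfl⟩
  have hca : ∀ r, L.rs.Hv (C r) (a r) := fun r => by
    rw [hC, ha]
    exact rdn_hv L (c r)
  obtain ⟨n, hn, hkn, h1, -⟩ := rn_fin (L := L) (k := k) hy.rf.ne (Finset.univ.image C) (by
    intro x hx
    obtain ⟨r, -, rfl⟩ := Finset.mem_image.1 hx
    rw [hC]
    exact (c r).2) ∅
  have hcM : Iv L (L.Ur ⊥ n) C := fun r =>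
    ⟨h1 _ (Finset.mem_image_of_mem _ (Finset.mem_univ r)), L.hv_int (hca r)⟩
  have hDc : L.nm (MvPolynomial.aeval C (ψ i).D) = 1 := by
    rw [← ha] at hD
    exact (L.hv_ne (dak_D h i hca)).1 hD
  obtain ⟨t, ht, hG⟩ := rts_ur (dak_pj hy.hm h i) hn hcM hDc
  have key := dak_roots h i hn hcM hDc hca fun v => v ^ j *
    wl f L ψ ψ₀ π s χ k ((ψ₂ ψ₀ i).pt a v) ((ψ₂ ψ₀ i).lt a v b)
  rw [← ha, ← key]
  unfold Pw
  rw [← hC]
  refine Finset.sum_congr rfl fun w hw => ?_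
  have hGw := hG w hw
  obtain ⟨hp, -, -, hT⟩ := wp_of h (mul_ne_zero hn ht) (hkn.mul_right t) hGw hca
    (rv_hv L hGw.le)
  obtain ⟨hT1, hT2⟩ := hT b
  rw [wl_at hy h hχ hs hsp hT1 hp, hT2]
  congr 1
  refine Finset.sum_congr rfl fun r _ => ?_
  rw [mul_comm]

/-- **The function `wl` satisfies all relations.** Proof: `wl_add`, `wl_smul`, `wl_hom`, `wl_rad`; `crv`: lift the arc (`rdn_surj` for the coefficients; degrees `≤ ρ`: `Polynomial.lifts`, `lifts_and_natDegree_eq` or the sum of the lifts of the coefficients up to `ρ`) and `S` (a section of `rdn`) to `Rn L`,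
`pw_crv`, `pw_wl`, `dak_D`. -/
theorem wl_fv (hy : Hyt f L π k) (h : Dak f L ψ f₀ ψ₀) (hχ : Ch f L π s χ) (hs : s ≠ 0)
    (hsp : s + 1 < L.p) : Fv (f₂ f₀) (ψ₂ ψ₀) (wl f L ψ ψ₀ π s χ k) := by
  classical
  have hΩ : IsAlgClosed Ω := IsAlgClosure.isAlgClosed K
  refine ⟨fun x t t' ht ht' => wl_add hy h hχ hs hsp ht ht',
    fun x t c ht => wl_smul hy h hχ hs hsp ht c,
    fun x t c hc ht => wl_hom hy h hχ hs hsp ht hc,
    fun x c hx => wl_rad hy h hχ hs hsp hx c, ?_⟩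
  intro i a ρ j S hρ hj hD
  obtain ⟨g, hg⟩ : ∃ g : L.κ → Rn L, ∀ x, rdn L (g x) = x :=
    ⟨Function.surjInv rdn_surj, Function.surjInv_eq rdn_surj⟩
  have hgi : Function.Injective g := fun x y hxy => by
    rw [← hg x, ← hg y, hxy]
  have hlift : ∀ r, ∃ q : Polynomial (Rn L), q.map (rdn L) = a r ∧ q.degree = (a r).degree := by
    intro r
    refine Polynomial.exists_degree_eq_of_mem_lifts ?_
    rw [Polynomial.lifts_iff_coeff_lifts]
    intro e
    exact ⟨g ((a r).coeff e), hg _⟩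
  choose a' ha1 ha2 using hlift
  have hdeg : ∀ r, (a' r).natDegree ≤ ρ := fun r => by
    rw [Polynomial.natDegree_eq_of_degree_eq (ha2 r)]
    exact hρ r
  have hev : ∀ x, (fun r => rdn L ((a' r).eval (g x))) = av a x := by
    intro x
    funext r
    rw [av, ← ha1 r, Polynomial.eval_map, ← Polynomial.eval₂_at_apply, hg]
  have hdv : ∀ x, (fun r => rdn L ((Polynomial.derivative (a' r)).eval (g x))) = dv a x := by
    intro x
    funext r
    rw [dv, ← ha1 r, Polynomial.derivative_map, Polynomial.eval_map,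
      ← Polynomial.eval₂_at_apply, hg]
  have hD' : ∀ x ∈ S, MvPolynomial.eval (fun r => rdn L ((a' r).eval (g x)))
      (ψ₂ ψ₀ i).D ≠ 0 := by
    intro x hx
    rw [hev]
    exact hD x hx
  have key := pw_crv (j := j) hy (dak_pj hy.hm h i) hχ hs a' hdeg (S := S.map ⟨g, hgi⟩) (by
      intro x hx y hy' hxy
      obtain ⟨x', -, rfl⟩ := Finset.mem_map.1 hx
      obtain ⟨y', -, rfl⟩ := Finset.mem_map.1 hy'
      change rdn L (g x') = rdn L (g y') at hxy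
      rw [hg, hg] at hxy
      rw [hxy]) (by
      intro z hz
      obtain ⟨x, hx, rfl⟩ := Finset.mem_map.1 hz
      exact (L.hv_ne (dak_D h i (fun r => rdn_hv L ((a' r).eval (g x))))).1 (hD' x hx)) (by
      rw [Finset.card_map]
      exact hj)
  rw [Finset.sum_map] at key
  rw [← key]
  refine Finset.sum_congr rfl fun x hx => ?_
  have e1 : ∏ y ∈ (S.map ⟨g, hgi⟩).erase (g x), (rdn L (g x) - rdn L y) =
      ∏ y ∈ S.erase x, (x - y) := by
    have e2 : (S.map ⟨g, hgi⟩).erase (g x) = (S.erase x).map ⟨g, hgi⟩ := by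
      rw [Finset.map_erase]
      rfl
    rw [e2, Finset.prod_map]
    refine Finset.prod_congr rfl fun y _ => ?_
    change rdn L (g x) - rdn L (g y) = x - y
    rw [hg, hg]
  have e3 := pw_wl hy h hχ hs hsp i j (c := fun r => (a' r).eval (g x))
    (b := fun r => rdn L ((Polynomial.derivative (a' r)).eval (g x))) (hD' x hx)
  rw [hev x, hdv x] at e3
  change _ = (∏ y ∈ (S.map ⟨g, hgi⟩).erase (g x), (rdn L (g x) - rdn L y))⁻¹ *
    Pw f L (ψ i) π s χ k j (fun r => (a' r).eval (g x))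
      (fun r => rdn L ((Polynomial.derivative (a' r)).eval (g x)))
  rw [e1, hdv x, e3]

/-- **The Frobenius map.** Proof: a lift `(c, w)` of `x`; `γ` a Frobenius automorphism (`exists_frob`, `Ld.rf_frob`, as in `tn_frob` of `Gy/Vf`): `(γ c, γ w)` is a lift of the point of the powers (`ψ₂ ψ₀` has coefficients in the field with `p ^ k` elements: `rdO_kf`), `lw_frob`, `wl_at`. -/
theorem wl_frob (hy : Hyt f L π k) (h : Dak f L ψ f₀ ψ₀) (hχ : Ch f L π s χ) (hs : s ≠ 0)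
    (hsp : s + 1 < L.p) {x t : Fin N → L.κ} (ht : Tg (f₂ f₀) x t) :
    wl f L ψ ψ₀ π s χ k (fun j => x j ^ L.p ^ k) (fun j => t j ^ L.p ^ k) =
      wl f L ψ ψ₀ π s χ k x t ^ L.p ^ k := by
  have hpp : Fact L.p.Prime := ⟨L.pp⟩
  have hch : CharP L.κ L.p := L.char_κ
  have hex : ExpChar L.κ L.p := ExpChar.prime L.pp
  obtain ⟨i, n, c, w, hp⟩ := exists_wp h hy.rf ht.1
  obtain ⟨hn, hkn, hG, hc, hw⟩ := hp
  obtain ⟨γ, q, hγ⟩ := exists_frob L.toLf (⊥ : IntermediateField K Ω)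
  have hq : q = L.p ^ k := Ld.rf_frob hy.rf hγ
  subst hq
  have hfr : ∀ (a : Ω) (b : L.κ), L.rs.Hv a b → L.rs.Hv (γ a) (b ^ L.p ^ k) := by
    intro a b hab
    have ha := L.hv_int hab
    obtain ⟨b', hb'⟩ := L.hv_of (x := γ a) (by rw [L.act]; exact ha)
    have h1 := hγ.frob a ha
    have h2 : b' = b ^ L.p ^ k := (L.hv_sub hb' (hab.pow _)).2 h1
    rw [← h2]
    exact hb'
  have hlv : ∀ (u : Fin N → L.V.comap (algebraMap K Ω)) (z : Fin N → L.κ),
      lv (fun j => rdO K L.V (u j)) (fun j => z j ^ L.p ^ k) =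
        lv (fun j => rdO K L.V (u j)) z ^ L.p ^ k := by
    intro u z
    rw [lv, lv, ← iterateFrobenius_def, map_sum]
    refine Finset.sum_congr rfl fun j _ => ?_
    rw [iterateFrobenius_def, mul_pow]
    congr 1
    exact (rdO_kf (K := K) hy.rf (u j)).symm
  have huv : ∀ (z : Fin N → L.κ) (r : Fin (d + 1)),
      (ψ₂ ψ₀ i).uv (fun j => z j ^ L.p ^ k) r = (ψ₂ ψ₀ i).uv z r ^ L.p ^ k :=
    fun z r => hlv ((ψ₀ i).u r) z
  have hyv : (ψ₂ ψ₀ i).yv (fun j => x j ^ L.p ^ k) = (ψ₂ ψ₀ i).yv x ^ L.p ^ k :=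
    hlv (ψ₀ i).y x
  have hz1 : Iv L (L.Ur ⊥ n) (0 : Fin (d + 1) → Ω) := fun r => by
    rw [Pi.zero_apply, L.zero]
    exact ⟨zero_mem _, zero_le_one⟩
  have hz2 : ∀ r, L.nm ((0 : Fin (d + 1) → Ω) r) < 1 := fun r => by
    rw [Pi.zero_apply, L.zero]
    exact one_pos
  have hG' := (cyv_act (dak_pj hy.hm h i) hn hG hz1 hz2 γ).1
  have hp' : Wp L ψ ψ₀ k i n (fun r => γ (c r)) (γ w) (fun j => x j ^ L.p ^ k) := by
    refine ⟨hn, hkn, hG', fun r => ?_, ?_⟩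
    · rw [huv x r]
      exact hfr _ _ (hc r)
    · rw [hyv]
      exact hfr _ _ hw
  rw [wl_at hy h hχ hs hsp (tg_frob hy.rf ht) hp',
    wl_at hy h hχ hs hsp ht ⟨hn, hkn, hG, hc, hw⟩]
  have e : (∑ r, (ψ₂ ψ₀ i).uv t r * lw f L (ψ i) π s χ k c w r) ^
      L.p ^ k = ∑ r, (ψ₂ ψ₀ i).uv t r ^ L.p ^ k *
        lw f L (ψ i) π s χ k c w r ^ L.p ^ k := by
    rw [← iterateFrobenius_def, map_sum]
    refine Finset.sum_congr rfl fun r _ => ?_
    rw [iterateFrobenius_def, mul_pow]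
  rw [e]
  refine Finset.sum_congr rfl fun r _ => ?_
  rw [huv t r, lw_frob hy (dak_pj hy.hm h i) hχ hs hn hkn hG hγ r]

end GX
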