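import Pool.Agent.Lib.MP_f80667_ag.Lv.Xg
import Pool.Agent.Lib.MP_f80667_ag.Gx.Oa
import Pool.Agent.Lib.MP_f80667_ag.Gx.Ed

/-! The function `wl` is a combination of the given forms, with coefficients in the residue field of `K`. -/

open ZC BE PE CV IntermediateField

namespace GX

variable {F : Type} [Field F] {N d m g q : ℕ} {ι : Type} {f : ι → MvPolynomial (Fin N) F}
  {K Ω : Type} [Field K] [CharZero K] [Field Ω] [Algebra K Ω] [Algebra F K] [Algebra F Ω]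
  [IsScalarTower F K Ω] [IsAlgClosure K Ω] {L : Ld K Ω} {ψ : Fin m → Prj K N d}
  {f₀ : ι → MvPolynomial (Fin N) (L.V.comap (algebraMap K Ω))}
  {ψ₀ : Fin m → Prj (L.V.comap (algebraMap K Ω)) N d} {π : Ω} {k s : ℕ}
  {χ : ((Xf f).pt Ω →₀ ℤ) → ZMod L.p} {ω₀ : Om (L.V.comap (algebraMap K Ω)) N g q}

private theorem wi_ev {R κ σ : Type} [CommRing R] [Field κ] {ρ : R →+* κ} {φ : κ →+* κ}
    (h : ∀ a, φ (ρ a) = ρ a) (P : MvPolynomial σ R) (x : σ → κ) :
    φ (MvPolynomial.eval x (MvPolynomial.map ρ P)) =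
      MvPolynomial.eval (fun i => φ (x i)) (MvPolynomial.map ρ P) := by
  rw [MvPolynomial.eval_map, MvPolynomial.eval_map, MvPolynomial.eval₂_comp_left]
  have h1 : φ.comp ρ = ρ := RingHom.ext h
  rw [h1]
  rfl

private theorem wi_iter {κ : Type} [Monoid κ] {p n : ℕ} {a : κ} (h : a ^ p ^ n = a) (e : ℕ) :
    a ^ p ^ (n * e) = a := by
  rw [pow_mul]
  induction e with
  | zero => rw [pow_zero, pow_one]
  | succ e ih => rw [pow_succ, pow_mul, ih, h]

omit [CharZero K] [IsAlgClosure K Ω] in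
private theorem wi_frob (L : Ld K Ω) (n : ℕ) : ∃ φ : L.κ →+* L.κ, ∀ a, φ a = a ^ L.p ^ n := by
  have h1 : CharP L.κ L.p := L.char_κ
  have h2 : ExpChar L.κ L.p := ExpChar.prime L.pp
  exact ⟨iterateFrobenius L.κ L.p n, fun a => iterateFrobenius_def L.p n a⟩

/-- The values of the forms and a homomorphism which fixes the coefficients. -/
private theorem wi_at {R κ : Type} [CommRing R] [Field κ] {ρ : R →+* κ} {φ : κ →+* κ}
    (h : ∀ a, φ (ρ a) = ρ a) {ω : Om R N g q} {x t : Fin N → κ} {b : Fin g → κ} :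
    (ω.map ρ).At (fun j => φ (x j)) (fun j => φ (t j)) (fun l => φ (b l)) ↔
      (ω.map ρ).At x t b := by
  have hc : ∀ j, MvPolynomial.eval (fun j => φ (x j)) ((ω.map ρ).c j) =
      φ (MvPolynomial.eval x ((ω.map ρ).c j)) := fun j => (wi_ev h _ x).symm
  have hv : ∀ j l, (ω.map ρ).v j l (fun j => φ (x j)) (fun j => φ (t j)) =
      φ ((ω.map ρ).v j l x t) := by
    intro j l
    rw [Om.v, Om.v, map_sum]
    refine Finset.sum_congr rfl fun k _ => ?_
    rw [map_mul]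
    congr 1
    exact (wi_ev h _ x).symm
  constructor
  · rintro ⟨j, h1, h2⟩
    rw [hc] at h1
    refine ⟨j, fun h0 => h1 (by rw [h0, map_zero]), fun l => φ.injective ?_⟩
    have h3 := h2 l
    rw [hc, hv, ← map_mul] at h3
    exact h3
  · rintro ⟨j, h1, h2⟩
    refine ⟨j, ?_, fun l => ?_⟩
    · rw [hc]
      exact (map_ne_zero φ).2 h1
    · rw [hc, hv, ← map_mul, h2 l]

omit [CharZero K] [Algebra F K] [IsScalarTower F K Ω] [IsAlgClosure K Ω] in
/-- The tangent vectors and a homomorphism which fixes the coefficients. -/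
private theorem wi_tg {φ : L.κ →+* L.κ} (h : ∀ a, φ (rdO K L.V a) = rdO K L.V a)
    {x t : Fin N → L.κ} (ht : Tg (f₂ f₀) (fun j => φ (x j)) fun j => φ (t j)) :
    Tg (f₂ f₀) x t := by
  obtain ⟨⟨h1, h2⟩, h3⟩ := ht
  refine ⟨⟨fun h0 => h1 (funext fun j => ?_), fun i => φ.injective ?_⟩,
    fun i => φ.injective ?_⟩
  · change φ (x j) = 0
    rw [congrFun h0 j]
    exact map_zero φ
  · have h4 := h2 i
    rw [map_zero]
    exact (wi_ev h (f₀ i) x).trans h4
  · rw [map_zero, ← h3 i, map_sum]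
    refine Finset.sum_congr rfl fun j _ => ?_
    rw [map_mul]
    congr 1
    have h5 : MvPolynomial.pderiv j (f₂ f₀ i) =
      MvPolynomial.map (rdO K L.V) (MvPolynomial.pderiv j (f₀ i)) := MvPolynomial.pderiv_map
    rw [h5]
    exact wi_ev h _ x

/-- The values of the forms at the conjugate vectors. Proof: the coefficients are in the field with `p ^ k` elements (`rdO_kf`), as `tg_frob`. -/
theorem at_frob (hk : L.Rf ⊥ k) {x t : Fin N → L.κ} {b : Fin g → L.κ}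
    (h : (ω₀.map (rdO K L.V)).At x t b) :
    (ω₀.map (rdO K L.V)).At (fun j => x j ^ L.p ^ k) (fun j => t j ^ L.p ^ k)
      (fun l => b l ^ L.p ^ k) := by
  obtain ⟨φ, hφ⟩ := wi_frob L k
  have h1 : ∀ a, φ (rdO K L.V a) = rdO K L.V a := fun a => by rw [hφ, rdO_kf (K := K) hk a]
  have h2 := (wi_at (ω := ω₀) h1).2 h
  simp only [hφ] at h2
  exact h2

/-- The values are over the field of `x` and `t`. Proof: `c_j (x) b_l = v_j l x t`, the coefficients are in the field with `p ^ k` elements. -/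
theorem at_kf (hk : L.Rf ⊥ k) {n : ℕ} (hkn : k ∣ n) {x t : Fin N → L.κ} {b : Fin g → L.κ}
    (h : (ω₀.map (rdO K L.V)).At x t b) (hx : Kfn L n x) (ht : Kfn L n t) (l : Fin g) :
    b l ^ L.p ^ n = b l := by
  obtain ⟨φ, hφ⟩ := wi_frob L n
  have h1 : ∀ a, φ (rdO K L.V a) = rdO K L.V a := by
    intro a
    obtain ⟨e, rfl⟩ := hkn
    rw [hφ]
    exact wi_iter (rdO_kf (K := K) hk a) e
  have h2 : (fun j => φ (x j)) = x := funext fun j => by rw [hφ]; exact hx j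
  have h3 : ∀ j, φ (t j) = t j := fun j => by rw [hφ]; exact ht j
  obtain ⟨j, h4, h5⟩ := h
  have h6 : φ (MvPolynomial.eval x ((ω₀.map (rdO K L.V)).c j)) =
      MvPolynomial.eval x ((ω₀.map (rdO K L.V)).c j) := by
    refine (wi_ev h1 _ x).trans ?_
    rw [h2]
    rfl
  have h7 : φ ((ω₀.map (rdO K L.V)).v j l x t) = (ω₀.map (rdO K L.V)).v j l x t := by
    rw [Om.v, map_sum]
    refine Finset.sum_congr rfl fun k _ => ?_
    rw [map_mul, h3]
    congr 1
    refine (wi_ev h1 _ x).trans ?_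
    rw [h2]
    rfl
  have h8 := congrArg φ (h5 l)
  rw [map_mul, h6, h7, ← h5 l] at h8
  rw [← hφ]
  exact mul_left_cancel₀ h4 h8

/-- An element of trace `1`. Proof: the polynomial `∑ i in range N, X ^ (p ^ (k i))` of degree `p ^ (k (N - 1))` is not `0` on the field with `p ^ (k N)` elements; divide by the value (it is in the field with `p ^ k` elements). -/
theorem exists_tr_one (L : Ld K Ω) {k N : ℕ} (hk : k ≠ 0) (hN : N ≠ 0) : ∃ θ : L.κ,
    θ ^ L.p ^ (k * N) = θ ∧ ∑ i ∈ Finset.range N, θ ^ L.p ^ (k * i) = 1 := by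
  have hch : CharP L.κ L.p := L.char_κ
  have hF : Fact L.p.Prime := ⟨L.pp⟩
  have hΩ : IsAlgClosed Ω := IsAlgClosure.isAlgClosed K
  have hcl : IsAlgClosed L.κ := L.κ_closed
  have hkN : k * N ≠ 0 := mul_ne_zero hk hN
  have hp0 : ∀ n : ℕ, L.p ^ n ≠ 0 := fun n => pow_ne_zero n L.pp.ne_zero
  obtain ⟨τ, hτ, h1⟩ : ∃ τ : L.κ, τ ^ L.p ^ (k * N) = τ ∧
      trn L.p (k * N) (τ * 1) ≠ trn L.p (k * N) (τ * 0) := by
    by_contra h0
    have h2 : (1 : L.κ) = 0 := fp_uniq (p := L.p) (n := k * N) hkN (one_pow _)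
      (zero_pow (hp0 _)) fun τ hτ => by
        by_contra h3
        exact h0 ⟨τ, hτ, h3⟩
    exact one_ne_zero h2
  obtain ⟨R, hR⟩ : ∃ R, R = ∑ j ∈ Finset.range N, τ ^ L.p ^ (k * j) := ⟨_, rfl⟩
  have hz : ∀ n : ℕ, trn L.p n (0 : L.κ) = 0 := by
    intro n
    unfold trn
    exact Finset.sum_eq_zero fun i _ => zero_pow (hp0 i)
  have hR0 : R ≠ 0 := by
    intro h0
    apply h1
    rw [trn_rel (p := L.p) (n := k) (t := N) (τ := τ) (a := (1 : L.κ)) (one_pow _), ← hR, h0,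
      zero_mul, mul_zero, hz, hz]
  have hRk : R ^ L.p ^ k = R := by
    rw [hR]
    exact rel_mem hτ
  have hRi : ∀ i, R ^ L.p ^ (k * i) = R := fun i => wi_iter hRk i
  refine ⟨τ * R⁻¹, ?_, ?_⟩
  · rw [mul_pow, inv_pow, hτ, hRi]
  · have h2 : ∀ i ∈ Finset.range N, (τ * R⁻¹) ^ L.p ^ (k * i) = τ ^ L.p ^ (k * i) * R⁻¹ :=
      fun i _ => by rw [mul_pow, inv_pow, hRi]
    rw [Finset.sum_congr rfl h2, ← Finset.sum_mul, ← hR, mul_inv_cancel₀ hR0]

/-- **Coefficients over the residue field of `K`.** Proof: `wl_fv`, `Fv.sy`, `Al`: `η₀` with `wl = ∑ η₀ l b l` (`ev = gy * wl`, `gy ≠ 0`, a chart with `D ≠ 0`: `Cov.exists_ne`; `At` with its `j`). `wl_frob`, `at_frob` (and `x ↦ x ^ p ^ k` is bijective): `wl x t = ∑ (η₀ l) ^ (p ^ (k i)) b l` for every `i`.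
`η₀` is over the field with `p ^ (k N)` elements for some `N ≠ 0` (`rn_fin`); `θ` of `exists_tr_one`; `η l = ∑ i in range N, (θ η₀ l) ^ (p ^ (k i))`: invariant (`rel_mem`) and `∑ η l b l = ∑ i, θ ^ (p ^ (k i)) wl = wl`. -/
theorem exists_eta (hy : Hyt f L π k) (h : Dak f L ψ f₀ ψ₀) (hχ : Ch f L π s χ)
    (hs : s ≠ 0) (hsp : s + 1 < L.p)
    (hAl : Al (f₂ f₀) (ψ₂ ψ₀) (ω₀.map (rdO K L.V))) :
    ∃ η : Fin g → L.κ, (∀ l, η l ^ L.p ^ k = η l) ∧ ∀ x t b, Tg (f₂ f₀) x t →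
      (ω₀.map (rdO K L.V)).At x t b → wl f L ψ ψ₀ π s χ k x t = ∑ l, η l * b l := by
  classical
  have hch : CharP L.κ L.p := L.char_κ
  have hF : Fact L.p.Prime := ⟨L.pp⟩
  have hΩ : IsAlgClosed Ω := IsAlgClosure.isAlgClosed K
  have hcl : IsAlgClosed L.κ := L.κ_closed
  have hinf : Infinite L.κ := inferInstance
  have hpp : ∀ n : ℕ, 0 < L.p ^ n := fun n => pow_pos L.pp.pos n
  obtain ⟨P, hP, hev⟩ := (wl_fv hy h hχ hs hsp).sy (dak_hom h) (dak_ok h) L.pp
    (fun x => IsAlgClosed.exists_pow_nat_eq x L.pp.pos)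
  obtain ⟨η₀, hη⟩ := hAl P hP
  have h0 : ∀ x t b, Tg (f₂ f₀) x t → (ω₀.map (rdO K L.V)).At x t b →
      wl f L ψ ψ₀ π s χ k x t = ∑ l, η₀ l * b l := by
    rintro x t b ht ⟨j, hc, hb⟩
    obtain ⟨i, hi⟩ := (dak_cov h).exists_ne ht.1
    have hok := dak_ok h i
    have hgy : (ψ₂ ψ₀ i).gy x ≠ 0 := hok.gy_ne (hok.pt_eq ht.1 hi).1 hi
    have e1 := hη i x t ht hi j
    rw [hev i x t ht hi] at e1
    have e2 : ∑ l, η₀ l * (ω₀.map (rdO K L.V)).v j l x t =
        MvPolynomial.eval x ((ω₀.map (rdO K L.V)).c j) * ∑ l, η₀ l * b l := by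
      rw [Finset.mul_sum]
      refine Finset.sum_congr rfl fun l _ => ?_
      rw [← hb l]
      ring
    rw [e2] at e1
    have e3 : (MvPolynomial.eval x ((ω₀.map (rdO K L.V)).c j) * (ψ₂ ψ₀ i).gy x) *
        wl f L ψ ψ₀ π s χ k x t =
        (MvPolynomial.eval x ((ω₀.map (rdO K L.V)).c j) * (ψ₂ ψ₀ i).gy x) *
          ∑ l, η₀ l * b l := by
      rw [mul_assoc, e1]
      ring
    exact mul_left_cancel₀ (mul_ne_zero hc hgy) e3
  obtain ⟨φ, hφ⟩ := wi_frob L k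
  have hφr : ∀ a, φ (rdO K L.V a) = rdO K L.V a := fun a => by
    rw [hφ, rdO_kf (K := K) hy.rf a]
  have hroot : ∀ a : L.κ, ∃ a', φ a' = a := by
    intro a
    obtain ⟨a', ha⟩ := IsAlgClosed.exists_pow_nat_eq a (hpp k)
    exact ⟨a', by rw [hφ, ha]⟩
  have hi : ∀ i : ℕ, ∀ x t b, Tg (f₂ f₀) x t → (ω₀.map (rdO K L.V)).At x t b →
      wl f L ψ ψ₀ π s χ k x t = ∑ l, η₀ l ^ L.p ^ (k * i) * b l := by
    intro i
    induction i with
    | zero =>
      intro x t b ht hb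
      rw [h0 x t b ht hb]
      refine Finset.sum_congr rfl fun l _ => ?_
      rw [mul_zero, pow_zero, pow_one]
    | succ i ih =>
      intro x t b ht hb
      choose x' hx' using fun j => hroot (x j)
      choose t' ht' using fun j => hroot (t j)
      choose b' hb' using fun l => hroot (b l)
      obtain rfl : (fun j => φ (x' j)) = x := funext hx'
      obtain rfl : (fun j => φ (t' j)) = t := funext ht'
      obtain rfl : (fun l => φ (b' l)) = b := funext hb'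
      have e1 := wi_tg hφr ht
      have e2 := (wi_at (ω := ω₀) hφr).1 hb
      have e3 := wl_frob hy h hχ hs hsp e1
      rw [ih _ _ _ e1 e2, ← hφ, map_sum] at e3
      simp only [← hφ] at e3
      rw [e3]
      refine Finset.sum_congr rfl fun l _ => ?_
      rw [map_mul, hφ (η₀ l ^ L.p ^ (k * i)), ← pow_mul, ← pow_add, mul_add, mul_one]
  obtain ⟨n, hn, hkn, -, hfin⟩ := rn_fin (K := K) (L := L) hy.rf.ne ∅
    (fun x hx => absurd hx (Finset.notMem_empty x)) (Finset.univ.image η₀)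
  obtain ⟨M, rfl⟩ := hkn
  have hM : M ≠ 0 := by
    rintro rfl
    exact hn (mul_zero k)
  obtain ⟨θ, hθ, hθ1⟩ := exists_tr_one L hy.rf.ne hM
  refine ⟨fun l => ∑ i ∈ Finset.range M, (θ * η₀ l) ^ L.p ^ (k * i), fun l => ?_,
    fun x t b ht hb => ?_⟩
  · refine rel_mem ?_
    rw [mul_pow, hθ, hfin _ (Finset.mem_image_of_mem _ (Finset.mem_univ l))]
  · have e1 : ∀ l, (∑ i ∈ Finset.range M, (θ * η₀ l) ^ L.p ^ (k * i)) * b l =
        ∑ i ∈ Finset.range M, θ ^ L.p ^ (k * i) * (η₀ l ^ L.p ^ (k * i) * b l) := by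
      intro l
      rw [Finset.sum_mul]
      refine Finset.sum_congr rfl fun i _ => ?_
      rw [mul_pow, mul_assoc]
    have e2 : ∑ l, (∑ i ∈ Finset.range M, (θ * η₀ l) ^ L.p ^ (k * i)) * b l =
        ∑ i ∈ Finset.range M, θ ^ L.p ^ (k * i) * wl f L ψ ψ₀ π s χ k x t := by
      rw [Finset.sum_congr rfl fun l _ => e1 l, Finset.sum_comm]
      refine Finset.sum_congr rfl fun i _ => ?_
      rw [← Finset.mul_sum, ← hi i x t b ht hb]
    change wl f L ψ ψ₀ π s χ k x t =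
      ∑ l, (∑ i ∈ Finset.range M, (θ * η₀ l) ^ L.p ^ (k * i)) * b l
    rw [e2, ← Finset.sum_mul, hθ1, one_mul]

end GX
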