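import Pool.Agent.Lib.MP_f80667_ag.Lv.Xi
import Pool.Agent.Lib.MP_f80667_ag.Lv.Kk
import Pool.Agent.Lib.MP_f80667_ag.Sb.A

/-!
**The tame levels**: a displacement of level `s`, `s + 1 < p`, for which the traces of the values of the forms have norm `< 1`, is of level `s + 1`.
-/

open ZC BE PE CV IntermediateField

namespace GX

variable {F : Type} [Field F] {N d m g q : ℕ} {ι : Type} {f : ι → MvPolynomial (Fin N) F}
  {K Ω : Type} [Field K] [CharZero K] [Field Ω] [Algebra K Ω] [Algebra F K] [Algebra F Ω]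
  [IsScalarTower F K Ω] [IsAlgClosure K Ω] {L : Ld K Ω} {ψ : Fin m → Prj K N d}
  {f₀ : ι → MvPolynomial (Fin N) (L.V.comap (algebraMap K Ω))}
  {ψ₀ : Fin m → Prj (L.V.comap (algebraMap K Ω)) N d} {π : Ω} {k s : ℕ}
  {ω₀ : Om (L.V.comap (algebraMap K Ω)) N g q}

omit [CharZero K] [Algebra F K] [Algebra F Ω] [IsScalarTower F K Ω] [IsAlgClosure K Ω] in
private theorem xj_pol {x : Fin N → Ω} {y : Fin N → L.κ} (hx : ∀ j, L.rs.Hv (x j) (y j))
    (P : MvPolynomial (Fin N) (L.V.comap (algebraMap K Ω))) :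
    L.rs.Hv (MvPolynomial.aeval x (MvPolynomial.map (L.V.comap (algebraMap K Ω)).subtype P))
      (MvPolynomial.eval y (MvPolynomial.map (rdO K L.V) P)) := by
  induction P using MvPolynomial.induction_on with
  | C a =>
    rw [MvPolynomial.map_C, MvPolynomial.map_C, MvPolynomial.aeval_C, MvPolynomial.eval_C]
    exact rdO_hv a
  | add p q hp hq =>
    rw [map_add, map_add, map_add, map_add]
    exact hp.add hq
  | mul_X p j hp =>
    rw [map_mul, map_mul, map_mul, map_mul, MvPolynomial.map_X, MvPolynomial.map_X,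
      MvPolynomial.aeval_X, MvPolynomial.eval_X]
    exact hp.mul (hx j)

omit [CharZero K] [IsAlgClosure K Ω] in
private theorem xj_hv {x : Fin N → Ω} {y : Fin N → L.κ} (hx : ∀ j, L.rs.Hv (x j) (y j))
    {P : MvPolynomial (Fin N) (L.V.comap (algebraMap K Ω))} {Q : MvPolynomial (Fin N) F}
    (h : MvPolynomial.map (L.V.comap (algebraMap K Ω)).subtype P =
      MvPolynomial.map (algebraMap F K) Q) :
    L.rs.Hv (MvPolynomial.aeval x Q) (MvPolynomial.eval y (MvPolynomial.map (rdO K L.V) P)) := by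
  have h1 := xj_pol hx P
  rwa [h, MvPolynomial.aeval_map_algebraMap] at h1

omit [CharZero K] [Algebra F K] [Algebra F Ω] [IsScalarTower F K Ω] [IsAlgClosure K Ω] in
private theorem xj_zs {a : Ω} {b : L.κ} (h : L.rs.Hv a b) (e : ℤ) : L.rs.Hv (e • a) (e • b) := by
  obtain ⟨h1, rfl⟩ := h
  exact ⟨zsmul_mem h1 e, map_zsmul L.rs.res e ⟨a, h1⟩⟩

omit [CharZero K] [IsAlgClosure K Ω] in
private theorem xj_sum {σ : Type} (S : Finset σ) {a : σ → Ω} {b : σ → L.κ}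
    (h : ∀ i ∈ S, L.rs.Hv (a i) (b i)) : L.rs.Hv (∑ i ∈ S, a i) (∑ i ∈ S, b i) := by
  classical
  induction S using Finset.induction_on with
  | empty =>
    rw [Finset.sum_empty, Finset.sum_empty]
    exact L.hv_zero.2 (by rw [L.zero]; exact one_pos)
  | insert i S hi ih =>
    rw [Finset.sum_insert hi, Finset.sum_insert hi]
    exact (h i (Finset.mem_insert_self _ _)).add
      (ih fun j hj => h j (Finset.mem_insert_of_mem hj))

private theorem xj_dual' {V : Type} [AddCommGroup V] {p : ℕ} [Fact p.Prime]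
    [Module (ZMod p) V] {x : V} (h : ∀ θ : V →+ ZMod p, θ x = 0) : x = 0 :=
  (Module.forall_dual_apply_eq_zero_iff (ZMod p) x).1 fun θ => h θ.toAddMonoidHom

private theorem xj_dual {V : Type} [AddCommGroup V] {p : ℕ} [Fact p.Prime]
    (hk : ∀ x : V, p • x = 0) {x : V} (h : ∀ θ : V →+ ZMod p, θ x = 0) : x = 0 := by
  let _ : Module (ZMod p) V := AddCommGroup.zmodModule hk
  exact xj_dual' h

private theorem xj_trn {κ : Type} [Field κ] {p n : ℕ} [Fact p.Prime] [CharP κ p] {σ : Type}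
    (S : Finset σ) (a : σ → κ) : trn p n (∑ i ∈ S, a i) = ∑ i ∈ S, trn p n (a i) := by
  classical
  induction S using Finset.induction_on with
  | empty =>
    rw [Finset.sum_empty, Finset.sum_empty]
    unfold trn
    exact Finset.sum_eq_zero fun i _ => zero_pow (pow_ne_zero i (Fact.out : p.Prime).ne_zero)
  | insert i S hi ih => rw [Finset.sum_insert hi, Finset.sum_insert hi, trn_add, ih]

/-- Separation of points of a graded piece. Proof: `Gr` is killed by `p` (`vl_mul_one`), so a vector space over `ZMod p`: a linear functional which is not `0` at a given vector `≠ 0` (`AddCommGroup.zmodModule`, `Module.forall_dual_apply_eq_zero_iff`). -/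
theorem gr_sep (hπ : Uf L π) (hf : Hm f) {ψ' : Fin m → Prj K N d} (hψ : ∀ i, Pj f L (ψ' i))
    (hc : Cvr f L ψ') (hs : s ≠ 0) {z : (Xf f).pt Ω →₀ ℤ} (hz : z ∈ Vl f L π s)
    (h : ∀ θ : Gr f L π s →+ ZMod L.p, chi θ z = 0) : z ∈ Vl f L π (s + 1) := by
  have hp : Fact L.p.Prime := ⟨L.pp⟩
  have hk : ∀ x : Gr f L π s, L.p • x = 0 := by
    intro x
    induction x using QuotientAddGroup.induction_on with
    | H y =>
      rw [← QuotientAddGroup.mk_nsmul, QuotientAddGroup.eq_zero_iff]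
      exact vl_mul_one hπ hf hψ hc hs y.2
  have h0 : (QuotientAddGroup.mk ⟨z, hz⟩ : Gr f L π s) = 0 := by
    refine xj_dual hk fun θ => ?_
    have h1 := h θ
    rw [chi, dif_pos hz] at h1
    exact h1
  rw [QuotientAddGroup.eq_zero_iff] at h0
  exact h0

/-- The values of the forms are integral; their residues are the values of the reduced forms. -/
private theorem xj_b (h : Dak f L ψ f₀ ψ₀) {i : Fin m} {n : ℕ} {c y : Fin (d + 1) → Ω} {w : Ω}
    (hG : Gp L (ψ i) (L.Ur ⊥ n) c w) (hy' : Iv L (L.Ur ⊥ n) y) {ω : Om F N g q}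
    (hω : ω₀.map (L.V.comap (algebraMap K Ω)).subtype = ω.map (algebraMap F K)) {j : Fin q}
    (hj : L.nm (MvPolynomial.aeval (((ψ i).om Ω).pt c w) (ω.c j)) = 1)
    {b : Fin g → Ω} (hb : ∀ l, MvPolynomial.aeval
      (((ψ i).om Ω).pt c w) (ω.c j) * b l =
        ∑ r, MvPolynomial.aeval (((ψ i).om Ω).pt c w) (ω.q j l r) *
          ((ψ i).om Ω).lt c w y r) :
    (∀ l, L.nm (b l) ≤ 1) ∧
      (ω₀.map (rdO K L.V)).At ((ψ₂ ψ₀ i).pt (fun r => rv L (c r)) (rv L w))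
        ((ψ₂ ψ₀ i).lt (fun r => rv L (c r)) (rv L w) fun r => rv L (y r))
        (fun l => rv L (b l)) := by
  have hc : ∀ r, L.rs.Hv (c r) (rv L (c r)) := fun r => rv_hv L (hG.iv r).2
  have hw : L.rs.Hv w (rv L w) := rv_hv L hG.le
  have hξ : ∀ r, L.rs.Hv (y r) (rv L (y r)) := fun r => rv_hv L (hy' r).2
  have hpt := dak_pt h i hG hc hw
  have hlt := dak_lt h i hG hc hw hξ
  have hcω : MvPolynomial.map (L.V.comap (algebraMap K Ω)).subtype (ω₀.c j) =
      MvPolynomial.map (algebraMap F K) (ω.c j) := congrFun (congrArg Om.c hω) j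
  have hqω : ∀ l r, MvPolynomial.map (L.V.comap (algebraMap K Ω)).subtype (ω₀.q j l r) =
      MvPolynomial.map (algebraMap F K) (ω.q j l r) := fun l r =>
    congrFun (congrFun (congrFun (congrArg Om.q hω) j) l) r
  have hcj := xj_hv hpt hcω
  have hqj := fun l r => xj_hv hpt (hqω l r)
  have hrhs : ∀ l, L.rs.Hv (MvPolynomial.aeval (((ψ i).om Ω).pt c w) (ω.c j) * b l)
      ((ω₀.map (rdO K L.V)).v j l ((ψ₂ ψ₀ i).pt (fun r => rv L (c r)) (rv L w))
        ((ψ₂ ψ₀ i).lt (fun r => rv L (c r)) (rv L w) fun r => rv L (y r))) := by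
    intro l
    rw [hb l, Om.v]
    exact xj_sum _ fun r _ => (hqj l r).mul (hlt r)
  have hble : ∀ l, L.nm (b l) ≤ 1 := by
    intro l
    have h1 : L.nm (MvPolynomial.aeval (((ψ i).om Ω).pt c w) (ω.c j) * b l) ≤ 1 := (hrhs l).1
    rwa [L.mul, hj, one_mul] at h1
  have hβ : ∀ l, L.rs.Hv (b l) (rv L (b l)) := fun l => rv_hv L (hble l)
  refine ⟨hble, j, fun h0 => ?_, fun l => ?_⟩
  · have h1 : L.rs.Hv (MvPolynomial.aeval (((ψ i).om Ω).pt c w) (ω.c j)) 0 := by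
      rw [← h0]
      exact hcj
    have h2 := L.hv_zero.1 h1
    rw [hj] at h2
    exact lt_irrefl _ h2
  · exact (hcj.mul (hβ l)).uniq (hrhs l)

/-- The value of a character. Proof: `lw_spec`, `wp_of`, `wl_at`: `χ` of the value is `trn p n (wl x̄ t̄)`, `x̄ = pt`, `t̄ = lt` of the residues; `exists_eta`; the residue of the values `b` of the forms at `(pt, lt g)` are values of the reduced forms (`dak_pt`, `dak_lt`, `rdO_hv`): `At`. `∑ η l b̄ l` is in the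
field with `p ^ n` elements (`at_kf`), and `trn p n (η b̄) = trn p k (η (∑ j in range (n / k), b̄ ^ (p ^ (k j))))` (`trn_rel` with `n = k (n / k)`), the residue of the trace of `b l` to `K` (`nm_hv`, `Ur ⊥ k = ⊥` as in `Hyt.rf`). -/
theorem chi_val (hy : Hyt f L π k) (h : Dak f L ψ f₀ ψ₀) (hs : s ≠ 0) (hsp : s + 1 < L.p)
    {χ : ((Xf f).pt Ω →₀ ℤ) → ZMod L.p} (hχ : Ch f L π s χ) {η : Fin g → L.κ}
    (hη : ∀ l, η l ^ L.p ^ k = η l)
    (hη' : ∀ x t b, Tg (f₂ f₀) x t → (ω₀.map (rdO K L.V)).At x t b →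
      wl f L ψ ψ₀ π s χ k x t = ∑ l, η l * b l)
    {i : Fin m} {n : ℕ} (hn : n ≠ 0) (hkn : k ∣ n) {c y : Fin (d + 1) → Ω} {w : Ω}
    (hG : Gp L (ψ i) (L.Ur ⊥ n) c w) (hy' : Iv L (L.Ur ⊥ n) y)
    {ω : Om F N g q} (hω : ω₀.map (L.V.comap (algebraMap K Ω)).subtype = ω.map (algebraMap F K)) {j : Fin q}
    (hj : L.nm (MvPolynomial.aeval (((ψ i).om Ω).pt c w) (ω.c j)) = 1)
    {b : Fin g → Ω} (hb : ∀ l, MvPolynomial.aeval
      (((ψ i).om Ω).pt c w) (ω.c j) * b l =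
        ∑ r, MvPolynomial.aeval (((ψ i).om Ω).pt c w) (ω.q j l r) *
          ((ψ i).om Ω).lt c w y r) :
    ((χ (cyv f L (ψ i) (L.Ur ⊥ n) c w (π ^ s • y))).val : L.κ) =
      trn L.p k (∑ l, η l *
        rv L (Nm (⊥ : IntermediateField K Ω) (L.Ur ⊥ n) (b l))) := by
  have hfp : Fact L.p.Prime := ⟨L.pp⟩
  have hch : CharP L.κ L.p := L.char_κ
  have hfd : FiniteDimensional K (L.Ur ⊥ n) := Ld.ur_fin ⊥ n hn
  have hc : ∀ r, L.rs.Hv (c r) (rv L (c r)) := fun r => rv_hv L (hG.iv r).2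
  have hw : L.rs.Hv w (rv L w) := rv_hv L hG.le
  have hξ : ∀ r, L.rs.Hv (y r) (rv L (y r)) := fun r => rv_hv L (hy' r).2
  obtain ⟨hwp, hZ, huv, htg⟩ := wp_of h hn hkn hG hc hw
  obtain ⟨ht, hut⟩ := htg fun r => rv L (y r)
  -- the value
  have F1 := (lw_spec hy (dak_pj hy.hm h i) hχ hs hn hkn hG).2 y _ hy' hξ
  have F2 := wl_at hy h hχ hs hsp ht hwp
  rw [hut] at F2
  obtain ⟨hble, hat⟩ := xj_b h hG hy' hω hj hb
  have hβ : ∀ l, L.rs.Hv (b l) (rv L (b l)) := fun l => rv_hv L (hble l)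
  have F3 := hη' _ _ _ ht hat
  rw [F1, ← F2, F3, xj_trn]
  have hc0 : MvPolynomial.aeval (((ψ i).om Ω).pt c w) (ω.c j) ≠ 0 :=
    L.ne_zero (by rw [hj]; exact one_pos)
  -- the traces
  obtain ⟨t, rfl⟩ := hkn
  have hk0 : k ≠ 0 := fun h0 => hn (by rw [h0, zero_mul])
  have ht0 : t ≠ 0 := fun h0 => hn (by rw [h0, mul_zero])
  have hxM : ∀ q, ((ψ i).om Ω).pt c w q ∈ L.Ur ⊥ (k * t) := fun q =>
    ((hG.pt (dak_pj hy.hm h i)).1 q).1
  have htM : ∀ q, ((ψ i).om Ω).lt c w y q ∈ L.Ur ⊥ (k * t) :=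
    lt_mem (fun r => (hG.iv r).1) hG.mem fun r => (hy' r).1
  have hae : ∀ G : MvPolynomial (Fin N) F,
      MvPolynomial.aeval (((ψ i).om Ω).pt c w) G ∈ L.Ur ⊥ (k * t) := by
    intro G
    rw [← MvPolynomial.aeval_map_algebraMap K]
    exact aev_mem _ hxM
  have hbM : ∀ l, b l ∈ L.Ur ⊥ (k * t) := by
    intro l
    have h1 : b l = (∑ r, MvPolynomial.aeval (((ψ i).om Ω).pt c w) (ω.q j l r) *
        ((ψ i).om Ω).lt c w y r) / MvPolynomial.aeval (((ψ i).om Ω).pt c w) (ω.c j) := by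
      rw [← hb l, mul_div_cancel_left₀ _ hc0]
    rw [h1]
    exact div_mem (sum_mem fun r _ => mul_mem (hae _) (htM r)) (hae _)
  have hU : L.Ur (⊥ : IntermediateField K Ω) k = ⊥ := le_antisymm hy.rf.le bot_le
  have hN : ∀ l, rv L (Nm (⊥ : IntermediateField K Ω) (L.Ur ⊥ (k * t)) (b l)) =
      ∑ j ∈ Finset.range t, rv L (b l) ^ L.p ^ (k * j) := by
    intro l
    have h1 := nm_hv (t := t) (n := 1) (z := b l) hy.rf one_ne_zero ht0 (by
      rw [mul_one]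
      exact hbM l) (hβ l)
    rw [mul_one, hU] at h1
    exact (rv_hv L h1.1).uniq h1
  rw [xj_trn]
  refine Finset.sum_congr rfl fun l _ => ?_
  rw [hN l, mul_comm (η l), mul_comm (η l), trn_rel (hη l)]

/-- **The step.** Proof: `gr_sep`; `θ`, `χ = chi θ` (`chi_ch`), `exists_eta`, `chi_val` for every term; `Ch.map_sum`, multiples (`cyv_vl`); `∑ a, e a • rv (Nm (b a l)) = rv (∑ a, e a • Nm (b a l)) = 0` (`b a l` integral: `nm (c_j) = 1`; residues of sums), so `χ z = trn p k 0 = 0` in `L.κ`, a number `< p` with value `0` in `L.κ` is `0`. -/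
theorem w_step (hy : Hyt f L π k) (h : Dak f L ψ f₀ ψ₀) (hs : s ≠ 0) (hsp : s + 1 < L.p)
    (hAl : Al (f₂ f₀) (ψ₂ ψ₀) (ω₀.map (rdO K L.V))) {ω : Om F N g q}
    (hω : ω₀.map (L.V.comap (algebraMap K Ω)).subtype = ω.map (algebraMap F K)) {I : Type} (S : Finset I)
    (e : I → ℤ) (i : I → Fin m) (n : I → ℕ) (c : I → Fin (d + 1) → Ω) (w : I → Ω)
    (y : I → Fin (d + 1) → Ω) (j : I → Fin q) (b : I → Fin g → Ω)
    (hG : ∀ a ∈ S, n a ≠ 0 ∧ k ∣ n a ∧
      Gp L (ψ (i a)) (L.Ur ⊥ (n a)) (c a) (w a) ∧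
        Iv L (L.Ur ⊥ (n a)) (y a))
    (hj : ∀ a ∈ S, L.nm (MvPolynomial.aeval
      (((ψ (i a)).om Ω).pt (c a) (w a)) (ω.c (j a))) = 1)
    (hb : ∀ a ∈ S, ∀ l, MvPolynomial.aeval
      (((ψ (i a)).om Ω).pt (c a) (w a)) (ω.c (j a)) * b a l =
        ∑ r, MvPolynomial.aeval (((ψ (i a)).om Ω).pt (c a) (w a))
          (ω.q (j a) l r) * ((ψ (i a)).om Ω).lt (c a) (w a) (y a) r)
    (h0 : ∀ l, L.nm (∑ a ∈ S, e a • Nm (⊥ : IntermediateField K Ω) (L.Ur ⊥ (n a)) (b a l)) < 1) :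
    ∑ a ∈ S, e a • cyv f L (ψ (i a)) (L.Ur ⊥ (n a)) (c a) (w a)
      (π ^ s • y a) ∈ Vl f L π (s + 1) := by
  have hfp : Fact L.p.Prime := ⟨L.pp⟩
  have hch : CharP L.κ L.p := L.char_κ
  have hψ := dak_pj hy.hm h
  have hfd : ∀ a ∈ S, FiniteDimensional K (L.Ur ⊥ (n a)) := fun a ha =>
    Ld.ur_fin ⊥ _ (hG a ha).1
  have hvl : ∀ a ∈ S, cyv f L (ψ (i a)) (L.Ur ⊥ (n a)) (c a) (w a) (π ^ s • y a) ∈
      Vl f L π s := fun a ha => cyv_vl hy (hψ (i a)) ⟨_, (hG a ha).1, le_rfl⟩ (hG a ha).2.2.1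
    (hG a ha).2.2.2 hs
  refine gr_sep hy.uf hy.hm hψ (dak_cvr hy.hm h) hs
    (sum_mem fun a ha => zsmul_mem (hvl a ha) _) fun θ => ?_
  have hχ := chi_ch hy.uf θ
  obtain ⟨η, hη, hη'⟩ := exists_eta hy h hχ hs hsp hAl
  have hadd : ∀ a ∈ S, chi θ (e a • cyv f L (ψ (i a)) (L.Ur ⊥ (n a)) (c a) (w a) (π ^ s • y a)) =
      e a • chi θ (cyv f L (ψ (i a)) (L.Ur ⊥ (n a)) (c a) (w a) (π ^ s • y a)) := by
    intro a ha
    have h1 := hvl a ha
    rw [chi, dif_pos (zsmul_mem h1 _), chi, dif_pos h1, ← map_zsmul]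
    rfl
  rw [hχ.map_sum S fun a ha => zsmul_mem (hvl a ha) _, Finset.sum_congr rfl hadd]
  -- the value in `L.κ`
  let φ : ZMod L.p →+* L.κ := ZMod.castHom (dvd_refl L.p) L.κ
  have hφ : ∀ x : ZMod L.p, φ x = (x.val : L.κ) := fun x => by
    change (ZMod.cast x : L.κ) = _
    rw [ZMod.natCast_val]
  refine φ.injective ?_
  rw [map_zero, map_sum]
  have hval : ∀ a ∈ S, φ (e a • chi θ (cyv f L (ψ (i a)) (L.Ur ⊥ (n a)) (c a) (w a)
      (π ^ s • y a))) = e a • trn L.p k (∑ l, η l *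
        rv L (Nm (⊥ : IntermediateField K Ω) (L.Ur ⊥ (n a)) (b a l))) := by
    intro a ha
    rw [map_zsmul, hφ, chi_val hy h hs hsp hχ hη hη' (hG a ha).1 (hG a ha).2.1 (hG a ha).2.2.1
      (hG a ha).2.2.2 hω (hj a ha) (hb a ha)]
  rw [Finset.sum_congr rfl hval]
  let T : L.κ →+ L.κ := AddMonoidHom.mk' (trn L.p k) trn_add
  have hT : ∀ x, trn L.p k x = T x := fun _ => rfl
  have h1 : ∀ a ∈ S, e a • trn L.p k (∑ l, η l *
      rv L (Nm (⊥ : IntermediateField K Ω) (L.Ur ⊥ (n a)) (b a l))) = T (e a • ∑ l, η l *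
        rv L (Nm (⊥ : IntermediateField K Ω) (L.Ur ⊥ (n a)) (b a l))) := fun a _ => by
    rw [hT, map_zsmul]
  rw [Finset.sum_congr rfl h1, ← map_sum]
  have h2 : ∑ a ∈ S, e a • ∑ l, η l *
      rv L (Nm (⊥ : IntermediateField K Ω) (L.Ur ⊥ (n a)) (b a l)) = 0 := by
    simp only [Finset.smul_sum]
    rw [Finset.sum_comm]
    refine Finset.sum_eq_zero fun l _ => ?_
    have h3 : ∑ a ∈ S, e a • rv L (Nm (⊥ : IntermediateField K Ω) (L.Ur ⊥ (n a)) (b a l)) = 0 := by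
      have h4 : L.rs.Hv (∑ a ∈ S, e a • Nm (⊥ : IntermediateField K Ω) (L.Ur ⊥ (n a)) (b a l))
          (∑ a ∈ S, e a • rv L (Nm (⊥ : IntermediateField K Ω) (L.Ur ⊥ (n a)) (b a l))) := by
        refine xj_sum S fun a ha => xj_zs (rv_hv L ?_) (e a)
        have := hfd a ha
        obtain ⟨s', -, -, -, h₃⟩ := nm_rep (K := K) (Ω := Ω)
          (bot_le : (⊥ : IntermediateField K Ω) ≤ L.Ur ⊥ (n a))
        rw [h₃ _ (b a l)]
        refine L.sum_le _ _ zero_le_one fun γ _ => ?_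
        change L.nm (γ (b a l)) ≤ 1
        rw [L.act]
        exact (xj_b h (hG a ha).2.2.1 (hG a ha).2.2.2 hω (hj a ha) (hb a ha)).1 l
      exact h4.uniq (L.hv_zero.2 (h0 l))
    rw [← mul_zero (η l), ← h3, Finset.mul_sum]
    exact Finset.sum_congr rfl fun a _ => (mul_smul_comm _ _ _).symm
  rw [h2, map_zero]

end GX
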