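import Pool.Agent.Lib.MP_f80667_ag.Lv.Xj
import Pool.Agent.Lib.MP_f80667_ag.Lv.Gb

/-!
The leading term of the sum of a displacement of level `s`.
-/

open ZC BE PE CV IntermediateField

namespace GX

variable {F : Type} [Field F] {N N' kk k' d m : ℕ} {ι ι' : Type}
  {f : ι → MvPolynomial (Fin N) F} {A : Gv F N' k' ι'} {M : Mf f A kk}
  {K Ω : Type} [Field K] [CharZero K] [Field Ω] [Algebra K Ω] [Algebra F K] [Algebra F Ω]
  [IsScalarTower F K Ω] [IsAlgClosure K Ω] {L : Ld K Ω} {ψ : Fin m → Prj K N d}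
  {f₀ : ι → MvPolynomial (Fin N) (L.V.comap (algebraMap K Ω))}
  {ψ₀ : Fin m → Prj (L.V.comap (algebraMap K Ω)) N d} {π : Ω} {k s e : ℕ}
  {ω₀ : Om (L.V.comap (algebraMap K Ω)) N N' (kk * N' * k')}

private theorem wk_lt {K Ω : Type} [Field K] [Field Ω] [Algebra K Ω] {N d : ℕ} (ψ : Prj K N d)
    (c ξ : Fin (d + 1) → Ω) (w a : Ω) (j : Fin N) :
    (ψ.om Ω).lt c w (a • ξ) j = a * (ψ.om Ω).lt c w ξ j := by
  rw [Prj.lt, Prj.lt, ← mul_div_assoc, Finset.mul_sum]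
  congr 1
  refine Finset.sum_congr rfl fun r _ => ?_
  rw [Pi.smul_apply, smul_eq_mul, mul_assoc]

private theorem wk_nm {K Ω : Type} [Field K] [CharZero K] [Field Ω] [Algebra K Ω]
    [IsAlgClosure K Ω] {E : IntermediateField K Ω} [FiniteDimensional K E] {a : Ω}
    (ha : a ∈ (⊥ : IntermediateField K Ω)) (b : Ω) :
    Nm (K := K) ⊥ E (a * b) = a * Nm (K := K) ⊥ E b := by
  obtain ⟨s, -, -, -, h₃⟩ := nm_rep (K := K) (Ω := Ω) (bot_le : (⊥ : IntermediateField K Ω) ≤ E)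
  obtain ⟨x, rfl⟩ := IntermediateField.mem_bot.1 ha
  rw [h₃ _ (algebraMap K Ω x * b), h₃ _ b, Finset.mul_sum]
  refine Finset.sum_congr rfl fun γ _ => ?_
  change γ (algebraMap K Ω x * b) = algebraMap K Ω x * γ b
  rw [map_mul, AlgEquiv.commutes]

private theorem wk_le {K Ω : Type} [Field K] [CharZero K] [Field Ω] [Algebra K Ω]
    [IsAlgClosure K Ω] {L : Ld K Ω} {E : IntermediateField K Ω} [FiniteDimensional K E] {b : Ω}
    (hb : L.nm b ≤ 1) : L.nm (Nm (K := K) ⊥ E b) ≤ 1 := by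
  obtain ⟨s, -, -, -, h₃⟩ := nm_rep (K := K) (Ω := Ω) (bot_le : (⊥ : IntermediateField K Ω) ≤ E)
  rw [h₃ _ b]
  refine L.sum_le _ _ zero_le_one fun γ _ => ?_
  change L.nm (γ b) ≤ 1
  rw [L.act]
  exact hb

private theorem wk_sc {K Ω : Type} [Field K] [CharZero K] [Field Ω] [Algebra K Ω]
    [IsAlgClosure K Ω] {N' : ℕ} {I : Type} (S : Finset I) (e : I → ℤ)
    (E : I → IntermediateField K Ω) (hE : ∀ a, FiniteDimensional K (E a)) {a : Ω}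
    (ha : a ∈ (⊥ : IntermediateField K Ω)) (b : I → Fin N' → Ω) :
    (∑ i ∈ S, e i • fun l => Nm (K := K) ⊥ (E i) (a * b i l)) =
      a • fun l => ∑ i ∈ S, e i • Nm (K := K) ⊥ (E i) (b i l) := by
  funext l
  rw [Finset.sum_apply, Pi.smul_apply, smul_eq_mul, Finset.mul_sum]
  refine Finset.sum_congr rfl fun i _ => ?_
  have := hE i
  rw [Pi.smul_apply, wk_nm ha, mul_smul_comm]

/-- **The leading term.** `v` is the leading term of `S z` at the level `s`. (1) If `s + 1 < p` and `nm (v l) < 1` for all `l`, then `z` is of level `s + 1`. (2) `p z` is congruent to a displacement of level `s + e` with the leading term `p v`.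
Proof: `dr_sum`: `z = ∑ e a • cyv .. (h a)`, `h a = π ^ s • y a`; `x = pt`, `x' =` the point over `c a + h a`, `τ = lt (h a) = π ^ s lt (y a)` (`Gp.tan`, `lt_form`), `exists_part`: `j a`; `b a l` the values at `lt (y a)`; `v l = ∑ e a • Nm ⊥ (Ur ⊥ (n a)) (b a l)` (in `⊥`: `nm_fx`; integral).
`sum_lt` with `t = nm π ^ s` (as in `lam_small` of `Lc/Z`): `Lt`. (1): `w_step`. (2): `z' = ∑ e a • cyv .. (p h a)`: `cyv_mul`, `sum_lt` with `t = nm π ^ (s + e)`, `τ = p π ^ s lt (y a)`. -/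
theorem w_lead (hy : Hyt f L π k) (h : Dak f L ψ f₀ ψ₀) (hA : A.Ok) (hM : M.Ok)
    (hL : Lga L A) (hLm : Lmf L M)
    (hω : ω₀.map (L.V.comap (algebraMap K Ω)).subtype = M.om.map (algebraMap F K))
    (hAl : Al (f₂ f₀) (ψ₂ ψ₀) (ω₀.map (rdO K L.V)))
    (he : L.nm (L.p : Ω) = L.nm π ^ e) (hs : s ≠ 0) {z : (Xf f).pt Ω →₀ ℤ}
    (hz : z ∈ Dr f L π s (⊥ : IntermediateField K Ω)) :
    letI := A.G.grp Ω
    ∃ v : Fin N' → Ω, (∀ l, v l ∈ (⊥ : IntermediateField K Ω) ∧ L.nm (v l) ≤ 1) ∧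
      Lt L A (L.nm π ^ s) (M.S Ω z) (π ^ s • v) ∧
      (s + 1 < L.p → (∀ l, L.nm (v l) < 1) → z ∈ Vl f L π (s + 1)) ∧
      ∃ z' ∈ Dr f L π (s + e) (⊥ : IntermediateField K Ω),
        Lt L A (L.nm π ^ (s + e)) (M.S Ω z') ((L.p : Ω) • π ^ s • v) ∧
          L.p • z - z' ∈ Dr f L π (min (e + 2 * s) (L.p * s)) ⊥ ⊔ (Xf f).ratEq K Ω := by
  classical
  let _ : AddCommGroup ((Xf A.a).pt Ω) := A.G.grp Ω
  have hπ := hy.uf
  obtain ⟨I, S, e0, i, n, c, w, h', h1, rfl⟩ := dr_sum hy.hm (dak_pj hy.hm h) (dak_cvr hy.hm h) hπ hs hy.rf hz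
  obtain ⟨y, hy1, rfl⟩ : ∃ y : I → Fin (d + 1) → Ω, (∀ a, Iv L (L.Ur ⊥ (n a)) (y a)) ∧
      h' = fun a => π ^ s • y a := by
    have h0 : π ^ s ≠ 0 := pow_ne_zero s hπ.ne
    have h2 : 0 < L.nm π ^ s := pow_pos hπ.pos s
    refine ⟨fun a r => (π ^ s)⁻¹ * h' a r, fun a r => ⟨mul_mem (inv_mem (pow_mem (hπ.mem _) s))
      ((h1 a).2.2.2.1 r).1, ?_⟩, ?_⟩
    · rw [L.mul, L.inv, L.pow, inv_mul_le_iff₀ h2, mul_one]
      exact (h1 a).2.2.2.2 r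
    · funext a r
      rw [Pi.smul_apply, smul_eq_mul, ← mul_assoc, mul_inv_cancel₀ h0, one_mul]
  have hse : s + e ≠ 0 := by omega
  have ht0 : 0 ≤ L.nm π ^ s := pow_nonneg hπ.pos.le _
  have ht1 : L.nm π ^ s < 1 := hπ.pow_lt hs
  have hu0 : 0 ≤ L.nm π ^ (s + e) := pow_nonneg hπ.pos.le _
  have hu1 : L.nm π ^ (s + e) < 1 := hπ.pow_lt hse
  have hfd : ∀ a, FiniteDimensional K (L.Ur ⊥ (n a)) := fun a => Ld.ur_fin ⊥ (n a) (h1 a).1
  have hum : ∀ a, Um L (L.Ur ⊥ (n a)) := fun a => ⟨n a, (h1 a).1, le_rfl⟩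
  -- the displacements multiplied by the prime
  have hp1 : ∀ a, Iv L (L.Ur ⊥ (n a)) ((L.p : Ω) • π ^ s • y a) := by
    intro a r
    rw [Pi.smul_apply, smul_eq_mul]
    refine ⟨mul_mem (_root_.natCast_mem _ L.p) ((h1 a).2.2.2.1 r).1, ?_⟩
    rw [L.mul]
    exact mul_le_one₀ L.lt.le (L.nonneg _) ((h1 a).2.2.2.1 r).2
  have hp2 : ∀ a r, L.nm (((L.p : Ω) • π ^ s • y a) r) ≤ L.nm π ^ (s + e) := by
    intro a r
    rw [Pi.smul_apply, smul_eq_mul, L.mul, he, pow_add, mul_comm]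
    exact mul_le_mul_of_nonneg_right ((h1 a).2.2.2.2 r) (pow_nonneg hπ.pos.le _)
  -- the points
  have h2 : ∀ a : I, ∃ (x' x'' : Fin N → Ω) (P P' P'' : (Xf f).pt Ω) (j : Fin (kk * N' * k'))
      (b : Fin N' → Ω), Pco L f P (((ψ (i a)).om Ω).pt (c a) (w a)) ∧
      Co P' x' ∧ Co P'' x'' ∧
      (∀ r, L.nm ((π ^ s • ((ψ (i a)).om Ω).lt (c a) (w a) (y a)) r) ≤
        L.nm π ^ s) ∧
      (∀ r, L.nm (x' r - ((ψ (i a)).om Ω).pt (c a) (w a) r -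
        (π ^ s • ((ψ (i a)).om Ω).lt (c a) (w a) (y a)) r) ≤
          L.nm π ^ s * L.nm π ^ s) ∧
      (∀ r, L.nm (((L.p : Ω) • π ^ s •
        ((ψ (i a)).om Ω).lt (c a) (w a) (y a)) r) ≤ L.nm π ^ (s + e)) ∧
      (∀ r, L.nm (x'' r - ((ψ (i a)).om Ω).pt (c a) (w a) r -
        ((L.p : Ω) • π ^ s •
          ((ψ (i a)).om Ω).lt (c a) (w a) (y a)) r) ≤
          L.nm π ^ (s + e) * L.nm π ^ (s + e)) ∧
      L.nm (MvPolynomial.aeval (((ψ (i a)).om Ω).pt (c a) (w a))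
        (M.om.c j)) = 1 ∧
      (∀ l, MvPolynomial.aeval (((ψ (i a)).om Ω).pt (c a) (w a))
        (M.om.c j) * b l =
        ∑ r, MvPolynomial.aeval (((ψ (i a)).om Ω).pt (c a) (w a))
          (M.om.q j l r) * ((ψ (i a)).om Ω).lt (c a) (w a) (y a) r) ∧
      (∀ l, b l ∈ L.Ur ⊥ (n a)) ∧ (∀ l, L.nm (b l) ≤ 1) ∧
      cyv f L (ψ (i a)) (L.Ur ⊥ (n a)) (c a) (w a) (π ^ s • y a) =
        Nm (K := K) ⊥ (L.Ur ⊥ (n a)) (Finsupp.single P' 1 - Finsupp.single P 1 :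
          (Xf f).pt Ω →₀ ℤ) ∧
      cyv f L (ψ (i a)) (L.Ur ⊥ (n a)) (c a) (w a)
          ((L.p : Ω) • π ^ s • y a) =
        Nm (K := K) ⊥ (L.Ur ⊥ (n a)) (Finsupp.single P'' 1 - Finsupp.single P 1 :
          (Xf f).pt Ω →₀ ℤ) := by
    intro a
    obtain ⟨-, -, g, hh, hhs⟩ := h1 a
    obtain ⟨a1, a2, a3, a4, P, a5, a6, a7⟩ := g.pt (dak_pj hy.hm h (i a))
    obtain ⟨b0, -⟩ := g.sh (dak_pj hy.hm h (i a)) hh ht1 hhs
    obtain ⟨b1, b2, b3, b4, P', b5, b6, b7⟩ := b0.pt (dak_pj hy.hm h (i a))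
    obtain ⟨c1, c2, c3, c4⟩ := g.tan (dak_pj hy.hm h (i a)) hh ht0 ht1 hhs
    obtain ⟨d0, -⟩ := g.sh (dak_pj hy.hm h (i a)) (hp1 a) hu1 (hp2 a)
    obtain ⟨d1, d2, d3, d4, P'', d5, d6, d7⟩ := d0.pt (dak_pj hy.hm h (i a))
    obtain ⟨q1, q2, q3, q4⟩ := g.tan (dak_pj hy.hm h (i a)) (hp1 a) hu0 hu1 (hp2 a)
    obtain ⟨k1, k2, k3, k4⟩ : Tg (fun i => MvPolynomial.map (algebraMap F Ω) (f i))
        (((ψ (i a)).om Ω).pt (c a) (w a))
        (((ψ (i a)).om Ω).lt (c a) (w a) (y a)) ∧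
        (∀ j, ((ψ (i a)).om Ω).lt (c a) (w a) (y a) j ∈
          L.Ur ⊥ (n a)) ∧
        (∀ j, L.nm (((ψ (i a)).om Ω).lt (c a) (w a) (y a) j) ≤ 1) ∧
        True := by
      refine ⟨((dak_pj hy.hm h (i a)).ok.lt_tg (om_hom (dak_pj hy.hm h (i a)).hom) (by rw [om_G]; exact g.G)
        (by rw [om_D]; exact L.ne_zero (by rw [g.D]; exact one_pos)) _).1,
        lt_mem (fun r => (g.iv r).1) g.mem fun r => (hy1 a r).1,
        (dak_pj hy.hm h (i a)).lt_le (fun r => (g.iv r).2) g.le g.G g.D zero_le_one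
          fun r => (hy1 a r).2, trivial⟩
    have hx : Pco L f P (((ψ (i a)).om Ω).pt (c a) (w a)) :=
      ⟨a5, fun r => (a1 r).2, a2⟩
    obtain ⟨j, hj⟩ := exists_part hA hM hL hLm hx
    have e1 : ∀ r, ((ψ (i a)).om Ω).lt (c a) (w a) (π ^ s • y a) r =
        (π ^ s • ((ψ (i a)).om Ω).lt (c a) (w a) (y a)) r := by
      intro r
      rw [wk_lt, Pi.smul_apply, smul_eq_mul]
    have e2 : ∀ r, ((ψ (i a)).om Ω).lt (c a) (w a)
        ((L.p : Ω) • π ^ s • y a) r = ((L.p : Ω) • π ^ s •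
          ((ψ (i a)).om Ω).lt (c a) (w a) (y a)) r := by
      intro r
      rw [wk_lt, e1, Pi.smul_apply (L.p : Ω), smul_eq_mul]
    have hae : ∀ G : MvPolynomial (Fin N) F, MvPolynomial.aeval
        (((ψ (i a)).om Ω).pt (c a) (w a)) G ∈ L.Ur ⊥ (n a) := by
      intro G
      rw [← MvPolynomial.aeval_map_algebraMap K]
      exact aev_mem _ fun r => (a1 r).1
    refine ⟨_, _, P, P', P'', j, fun l => (∑ r, MvPolynomial.aeval
      (((ψ (i a)).om Ω).pt (c a) (w a)) (M.om.q j l r) *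
        ((ψ (i a)).om Ω).lt (c a) (w a) (y a) r) / MvPolynomial.aeval
          (((ψ (i a)).om Ω).pt (c a) (w a)) (M.om.c j), hx, b5, d5,
      fun r => ?_, fun r => ?_, fun r => ?_, fun r => ?_, hj, fun l => ?_, fun l => ?_,
      fun l => ?_, ?_, ?_⟩
    · rw [← e1]
      exact c3 r
    · rw [← e1, ← pow_two]
      exact c4 r
    · rw [← e2]
      exact q3 r
    · rw [← e2, ← pow_two]
      exact q4 r
    · exact mul_div_cancel₀ _ (L.ne_zero (by rw [hj]; exact zero_lt_one))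
    · exact div_mem (sum_mem fun r _ => mul_mem (hae _) (k2 r)) (hae _)
    · rw [L.div, hj, div_one]
      refine L.sum_le _ _ zero_le_one fun r _ => ?_
      rw [L.mul]
      exact mul_le_one₀ (om_q_le hL hLm hx.le j l r) (L.nonneg _) (k3 r)
    · unfold cyv
      rw [b7, a7]
    · unfold cyv
      rw [d7, a7]
  choose x' x'' P P' P'' j b hx hx' hx'' hτ hd hτ' hd' hj hb hbm hbi hcy hcy' using h2
  have hbot : ∀ a l, Nm (⊥ : IntermediateField K Ω) (L.Ur ⊥ (n a)) (b a l) ∈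
      (⊥ : IntermediateField K Ω) := by
    intro a l
    have := hfd a
    exact fx_mem.1 (nm_fx bot_le (fx_mem.2 (hbm a l)))
  have hπs : π ^ s ∈ (⊥ : IntermediateField K Ω) := pow_mem (hπ.mem _) s
  have hpπ : (L.p : Ω) * π ^ s ∈ (⊥ : IntermediateField K Ω) := mul_mem (_root_.natCast_mem _ L.p) hπs
  refine ⟨fun l => ∑ a ∈ S, e0 a • Nm (⊥ : IntermediateField K Ω) (L.Ur ⊥ (n a)) (b a l),
    fun l => ⟨sum_mem fun a _ => zsmul_mem (hbot a l) _, ?_⟩, ?_, fun hsp hv => ?_,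
    ∑ a ∈ S, e0 a • cyv f L (ψ (i a)) (L.Ur ⊥ (n a)) (c a) (w a)
      ((L.p : Ω) • π ^ s • y a), ?_, ?_, ?_⟩
  · refine L.sum_le _ _ zero_le_one fun a _ => ?_
    have := hfd a
    rw [zsmul_eq_mul, L.mul]
    exact mul_le_one₀ (L.int_le _) (L.nonneg _) (wk_le (hbi a l))
  · have h3 := sum_lt hA hM hL hLm ht1 ht0 S e0 (fun a => L.Ur ⊥ (n a)) (fun a _ => hfd a) P P'
      (fun a => ((ψ (i a)).om Ω).pt (c a) (w a)) x'
      (fun a => π ^ s • ((ψ (i a)).om Ω).lt (c a) (w a) (y a))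
      (fun a _ => hx a) (fun a _ => hx' a) (fun a _ => hτ a) (fun a _ => hd a) j
      (fun a _ => hj a) (fun a l => π ^ s * b a l) (fun a _ l => by
        rw [mul_left_comm, hb a l, Finset.mul_sum]
        refine Finset.sum_congr rfl fun r _ => ?_
        rw [Pi.smul_apply, smul_eq_mul, mul_left_comm])
    rw [wk_sc S e0 _ hfd hπs b] at h3
    have h4 : ∑ a ∈ S, e0 a • cyv f L (ψ (i a)) (L.Ur ⊥ (n a)) (c a)
        (w a) (π ^ s • y a) = ∑ a ∈ S, e0 a • Nm (K := K) ⊥ (L.Ur ⊥ (n a))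
          (Finsupp.single (P' a) 1 - Finsupp.single (P a) 1 : (Xf f).pt Ω →₀ ℤ) :=
      Finset.sum_congr rfl fun a _ => by rw [hcy a]
    change Lt L A (L.nm π ^ s) (M.S Ω (∑ a ∈ S, e0 a • cyv f L
      (ψ (i a)) (L.Ur ⊥ (n a)) (c a) (w a) (π ^ s • y a))) _
    rw [h4]
    exact h3
  · exact w_step hy h hs hsp hAl hω S e0 i n c w y j b
      (fun a _ => ⟨(h1 a).1, (h1 a).2.1, (h1 a).2.2.1, hy1 a⟩) (fun a _ => hj a)
      (fun a _ => hb a) hv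
  · exact sum_mem fun a _ => zsmul_mem (cyv_dr hπ (dak_pj hy.hm h (i a)) (hum a) (h1 a).2.2.1 (hp1 a) hse
      (hp2 a)) _
  · have h3 := sum_lt hA hM hL hLm hu1 hu0 S e0 (fun a => L.Ur ⊥ (n a)) (fun a _ => hfd a) P P''
      (fun a => ((ψ (i a)).om Ω).pt (c a) (w a)) x''
      (fun a => (L.p : Ω) • π ^ s •
        ((ψ (i a)).om Ω).lt (c a) (w a) (y a))
      (fun a _ => hx a) (fun a _ => hx'' a) (fun a _ => hτ' a) (fun a _ => hd' a) j
      (fun a _ => hj a) (fun a l => (L.p : Ω) * π ^ s * b a l) (fun a _ l => by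
        rw [mul_left_comm, hb a l, Finset.mul_sum]
        refine Finset.sum_congr rfl fun r _ => ?_
        rw [Pi.smul_apply, Pi.smul_apply, smul_eq_mul, smul_eq_mul]
        ring)
    rw [wk_sc S e0 _ hfd hpπ b, mul_smul] at h3
    have h4 : ∑ a ∈ S, e0 a • cyv f L (ψ (i a)) (L.Ur ⊥ (n a)) (c a)
        (w a) ((L.p : Ω) • π ^ s • y a) = ∑ a ∈ S, e0 a • Nm (K := K) ⊥ (L.Ur ⊥ (n a))
          (Finsupp.single (P'' a) 1 - Finsupp.single (P a) 1 : (Xf f).pt Ω →₀ ℤ) :=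
      Finset.sum_congr rfl fun a _ => by rw [hcy' a]
    change Lt L A (L.nm π ^ (s + e)) (M.S Ω (∑ a ∈ S, e0 a • cyv f L
      (ψ (i a)) (L.Ur ⊥ (n a)) (c a) (w a)
        ((L.p : Ω) • π ^ s • y a))) _
    rw [h4]
    exact h3
  · rw [Finset.smul_sum, ← Finset.sum_sub_distrib]
    refine sum_mem fun a _ => ?_
    rw [smul_comm, ← smul_sub]
    exact zsmul_mem (cyv_mul hπ (dak_pj hy.hm h (i a)) (hum a) (h1 a).2.2.1 (h1 a).2.2.2.1 he hs
      (h1 a).2.2.2.2) _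

end GX
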