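import Pool.Agent.Lib.MP_f80667_ag.Lv.Xk
import Pool.Agent.Lib.MP_f80667_ag.Lv.Z

/-!
Steps between the levels; points near `0` without torsion.
-/

open ZC BE PE CV IntermediateField

namespace GX

variable {F : Type} [Field F] {N N' kk k' d m : ℕ} {ι ι' : Type}
  {f : ι → MvPolynomial (Fin N) F} {A : Gv F N' k' ι'} {M : Mf f A kk}
  {K Ω : Type} [Field K] [CharZero K] [Field Ω] [Algebra K Ω] [Algebra F K] [Algebra F Ω]
  [IsScalarTower F K Ω] [IsAlgClosure K Ω] {L : Ld K Ω} {ψ : Fin m → Prj K N d}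
  {f₀ : ι → MvPolynomial (Fin N) (L.V.comap (algebraMap K Ω))}
  {ψ₀ : Fin m → Prj (L.V.comap (algebraMap K Ω)) N d} {π : Ω} {k s e : ℕ}
  {ω₀ : Om (L.V.comap (algebraMap K Ω)) N N' (kk * N' * k')}

/-- **No torsion near `0`.** `l • S z = 0`, `S z` at distance `≤ nm π ^ s`, `nm l = nm π ^ u`, `u < s`: `S z = 0`. Proof: by induction on `j ≥ s` the point `R = S z` is at distance `≤ nm π ^ j` from `0` (`lt_dr` for `j = s`; `RS.rs` for the part in `ratEq`): if `Nc L A t R y`, `t = nm π ^ j`, then `Lt L A t R (y - o)`,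
`lt_zsmul`: `Lt L A t (l • R) (l (y - o))`, `l • R = 0` and `lt_zero`, `lt_uniq`: `nm l nm (y - o) ≤ t * t`, so the distance is `≤ nm π ^ (2 j - u) ≤ nm π ^ (j + 1)`. At the end as in `dr_sum_zero` (`nc_eq`). -/
theorem w_tor (hπ : Uf L π) (hf : Hm f) (hA : A.Ok) (hM : M.Ok) (hL : Lga L A)
    (hLm : Lmf L M) {l u : ℕ} (hl : L.nm (l : Ω) = L.nm π ^ u) (hu : u < s)
    {z : (Xf f).pt Ω →₀ ℤ} (hz : z ∈ Vl f L π s) :
    letI := A.G.grp Ω
    l • M.S Ω z = 0 → M.S Ω z = 0 := by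
  let _ : AddCommGroup ((Xf A.a).pt Ω) := A.G.grp Ω
  intro h0
  change M.S Ω z = 0
  change l • M.S Ω z = 0 at h0
  have hs : s ≠ 0 := by omega
  obtain ⟨d, hd, r, hr, rfl⟩ := AddSubgroup.mem_sup.1 hz
  rw [map_add, RS.rs (K := K) hf hA hM hr, add_zero] at h0 ⊢
  obtain ⟨b, y, hy, -⟩ := lt_dr hπ hA hM hL hLm hs hd
  obtain ⟨t, ht, hts, hyt, j, hj⟩ := nc_dist hy
  have h1 := tf_one hA hL (hts.trans_lt (hπ.pow_lt hs)) ht hyt h0 j
  rw [hj] at h1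
  rcases ht.eq_or_lt with h2 | h2
  · rw [← h2] at hyt
    exact nc_eq hA hyt
  · exfalso
    have h3 : L.nm (l : Ω) ≤ t := le_of_mul_le_mul_right h1 h2
    rw [hl] at h3
    have h4 : L.nm π ^ s < L.nm π ^ u := pow_lt_pow_right_of_lt_one₀ hπ.pos hπ.lt hu
    exact absurd (h3.trans hts) (not_le.2 h4)

/-- **Step A.** Proof: `z = d + r`; `w_lead` for `d`: `Lt (nm π ^ s) (S d) (π ^ s v)`, `S d = 0` (`RS.rs`), `lt_zero`, `lt_uniq`: `nm (π ^ s v l) ≤ nm π ^ (2 s)`, so `nm (v l) < 1`. -/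
theorem w_A (hy : Hyt f L π k) (h : Dak f L ψ f₀ ψ₀) (hA : A.Ok) (hM : M.Ok)
    (hL : Lga L A) (hLm : Lmf L M)
    (hω : ω₀.map (L.V.comap (algebraMap K Ω)).subtype = M.om.map (algebraMap F K))
    (hAl : Al (f₂ f₀) (ψ₂ ψ₀) (ω₀.map (rdO K L.V)))
    (hs : s ≠ 0) (hsp : s + 1 < L.p) {z : (Xf f).pt Ω →₀ ℤ} (hz : z ∈ Vl f L π s) :
    letI := A.G.grp Ω
    M.S Ω z = 0 → z ∈ Vl f L π (s + 1) := by
  let _ : AddCommGroup ((Xf A.a).pt Ω) := A.G.grp Ω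
  intro h0
  change M.S Ω z = 0 at h0
  have hπ := hy.uf
  obtain ⟨e, -, he⟩ := exists_e (L := L) hπ
  obtain ⟨d, hd, r, hr, rfl⟩ := AddSubgroup.mem_sup.1 hz
  rw [map_add, RS.rs (K := K) hy.hm hA hM hr, add_zero] at h0
  obtain ⟨v, -, hLt, h1, -⟩ := w_lead hy h hA hM hL hLm hω hAl he hs hd
  have ht1 : L.nm π ^ s < 1 := hπ.pow_lt hs
  have ht : 0 ≤ L.nm π ^ s := pow_nonneg hπ.pos.le _
  rw [h0] at hLt
  have h2 := lt_uniq hLt (lt_zero hA ht)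
  refine add_mem (h1 hsp fun l => ?_) (vl_rat (s + 1) hr)
  have h3 := h2 l
  rw [Pi.zero_apply, sub_zero, Pi.smul_apply, smul_eq_mul, L.mul, L.pow] at h3
  exact (le_of_mul_le_mul_left h3 (pow_pos hπ.pos _)).trans_lt ht1

/-- **Step B.** Proof: `z = d + r`; `w_lead` for `d`: `v`, `z'`; `p d - z' = y + r'`, `y` of level `t' = min (e + 2 s, p s) ≥ s + e + 1` (`e + 1 < p`, `s ≠ 0`); `S (p d) = 0`, so `S z' = - S y`; `lt_dr` for `y` at the level `t'`, as an `Lt` at the level `s + e` (the coordinates `y j - o j` have norm `≤ nm π ^ t'`); `lt_add`, `lt_zero`, `lt_uniq`: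
`nm (p π ^ s v l) ≤ max (nm π ^ t') (nm π ^ (2 (s + e)))`, so `nm (v l) < 1`. -/
theorem w_B (hy : Hyt f L π k) (h : Dak f L ψ f₀ ψ₀) (hA : A.Ok) (hM : M.Ok)
    (hL : Lga L A) (hLm : Lmf L M)
    (hω : ω₀.map (L.V.comap (algebraMap K Ω)).subtype = M.om.map (algebraMap F K))
    (hAl : Al (f₂ f₀) (ψ₂ ψ₀) (ω₀.map (rdO K L.V)))
    (he : L.nm (L.p : Ω) = L.nm π ^ e) (hep : e + 1 < L.p) (hs : s ≠ 0) (hsp : s + 1 < L.p)
    {z : (Xf f).pt Ω →₀ ℤ} (hz : z ∈ Vl f L π s) :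
    letI := A.G.grp Ω
    L.p • M.S Ω z = 0 → z ∈ Vl f L π (s + 1) := by
  let _ : AddCommGroup ((Xf A.a).pt Ω) := A.G.grp Ω
  intro h0
  change L.p • M.S Ω z = 0 at h0
  have hπ := hy.uf
  obtain ⟨d, hd, r, hr, rfl⟩ := AddSubgroup.mem_sup.1 hz
  rw [map_add, RS.rs (K := K) hy.hm hA hM hr, add_zero] at h0
  obtain ⟨v, -, -, h1, z', -, hLt, h4⟩ := w_lead hy h hA hM hL hLm hω hAl he hs hd
  obtain ⟨y, hyd, r', hr', h5⟩ := AddSubgroup.mem_sup.1 h4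
  have hS : M.S Ω z' + M.S Ω y = 0 := by
    have h6 : M.S Ω (y + r') = M.S Ω (L.p • d - z') := by rw [h5]
    rw [map_add, RS.rs (K := K) hy.hm hA hM hr', add_zero, map_sub, map_nsmul, h0,
      zero_sub] at h6
    rw [h6, add_neg_cancel]
  set t' : ℕ := min (e + 2 * s) (L.p * s) with ht'
  have hle : s + e + 1 ≤ t' := by
    refine le_min (by omega) ?_
    have h7 : (e + 2) * s ≤ L.p * s := Nat.mul_le_mul_right _ (by omega)
    obtain ⟨m', rfl⟩ := Nat.exists_eq_succ_of_ne_zero hs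
    refine le_trans ?_ h7
    have h8 : (e + 2) * (m' + 1) = e * m' + 2 * m' + e + 2 := by ring
    rw [Nat.succ_eq_add_one, h8]
    have h9 : 0 ≤ e * m' := Nat.zero_le _
    omega
  have ht0 : t' ≠ 0 := by omega
  have hse : s + e ≠ 0 := by omega
  have ht1 : L.nm π ^ (s + e) < 1 := hπ.pow_lt hse
  have ht : 0 ≤ L.nm π ^ (s + e) := pow_nonneg hπ.pos.le _
  obtain ⟨b, w, hw, -⟩ := lt_dr hπ hA hM hL hLm ht0 hyd
  have hwt : L.nm π ^ t' ≤ L.nm π ^ (s + e) := hπ.pow_le (by omega)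
  have hLy : Lt L A (L.nm π ^ (s + e)) (M.S Ω y) fun j => w j - algebraMap F Ω (A.o j) :=
    ⟨w, hw.mono hwt, fun j => by
      rw [sub_self, L.zero]
      exact mul_nonneg ht ht⟩
  have hsum := lt_add hA hL ht1 ht hLt hLy
  change Lt L A (L.nm π ^ (s + e)) (M.S Ω z' + M.S Ω y) _ at hsum
  rw [hS] at hsum
  have h2 := lt_uniq hsum (lt_zero hA ht)
  refine add_mem (h1 hsp fun l => ?_) (vl_rat (s + 1) hr)
  have h3 := h2 l
  have h6 := hw.2.2 l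
  rw [Pi.zero_apply, sub_zero, Pi.add_apply, Pi.smul_apply, Pi.smul_apply, smul_eq_mul,
    smul_eq_mul] at h3
  have h7 : L.nm ((L.p : Ω) * (π ^ s * v l)) ≤ L.nm π ^ (s + e + 1) := by
    have e1 : (L.p : Ω) * (π ^ s * v l) =
        ((L.p : Ω) * (π ^ s * v l) + (w l - algebraMap F Ω (A.o l))) -
          (w l - algebraMap F Ω (A.o l)) := by ring
    rw [e1]
    refine (L.sub _ _).trans (max_le (h3.trans ?_) (h6.trans (hπ.pow_le hle)))
    rw [← pow_add]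
    exact hπ.pow_le (by omega)
  rw [L.mul, L.mul, L.pow, he, ← mul_assoc, ← pow_add, pow_succ, add_comm e s] at h7
  exact (le_of_mul_le_mul_left h7 (pow_pos hπ.pos _)).trans_lt hπ.lt

end GX
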