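import Pool.Agent.Lib.MP_f80667_ag.Lv.Xl
import Pool.Agent.Lib.MP_f80667_ag.St.Gl

/-!
**The local theorem for ramification index `e < p - 1`**: the cycles with reduction `0` and sum `0` are divisible.
-/

open ZC BE PE CV IntermediateField

namespace GX

variable {F : Type} [Field F] {N N' kk k' d m : ℕ} {ι ι' : Type}
  {f : ι → MvPolynomial (Fin N) F} {A : Gv F N' k' ι'} {M : Mf f A kk}
  {K Ω : Type} [Field K] [CharZero K] [Field Ω] [Algebra K Ω] [Algebra F K] [Algebra F Ω]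
  [IsScalarTower F K Ω] [IsAlgClosure K Ω] {L : Ld K Ω} {ψ : Fin m → Prj K N d}
  {f₀ : ι → MvPolynomial (Fin N) (L.V.comap (algebraMap K Ω))}
  {ψ₀ : Fin m → Prj (L.V.comap (algebraMap K Ω)) N d} {π : Ω} {k e : ℕ}
  {ω₀ : Om (L.V.comap (algebraMap K Ω)) N N' (kk * N' * k')}

/-- Division by a prime. Proof: `l = p`: `w_A` for `s = 1 .. e`: `z ∈ Vl (1 + e)`; `vl_div_p` (`n = 1`): `z = p w + r`, `w ∈ Vl 1`; `S (p w) = 0` (`RS.rs`); `w_B` for `s = 1 .. e`: `w ∈ Vl (1 + e)`; `w_tor` (`u = e`, `s = 1 + e`): `S w = 0`. `l ≠ p`: `vl_div_l`, `w_tor` with `u = 0` (`L.nat_unit`). -/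
theorem w_div (hy : Hyt f L π k) (h : Dak f L ψ f₀ ψ₀) (hA : A.Ok) (hM : M.Ok)
    (hL : Lga L A) (hLm : Lmf L M)
    (hω : ω₀.map (L.V.comap (algebraMap K Ω)).subtype = M.om.map (algebraMap F K))
    (hAl : Al (f₂ f₀) (ψ₂ ψ₀) (ω₀.map (rdO K L.V)))
    (he : L.nm (L.p : Ω) = L.nm π ^ e) (hep : e + 1 < L.p) {l : ℕ} (hl : l.Prime)
    {z : (Xf f).pt Ω →₀ ℤ} (hz : z ∈ Vl f L π 1) :
    letI := A.G.grp Ω
    M.S Ω z = 0 → ∃ w ∈ Vl f L π 1, M.S Ω w = 0 ∧ z - l • w ∈ (Xf f).ratEq K Ω := by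
  let _ : AddCommGroup ((Xf A.a).pt Ω) := A.G.grp Ω
  intro h0
  have hπ := hy.uf
  have hf := hy.hm
  have hn0 : ∀ {n : ℕ} {w : (Xf f).pt Ω →₀ ℤ}, z - n • w ∈ (Xf f).ratEq K Ω →
      n • M.S Ω w = 0 := by
    intro n w hw
    have h1 := RS.rs (K := K) hf hA hM hw
    rw [map_sub, h0, map_nsmul, zero_sub, neg_eq_zero] at h1
    exact h1
  by_cases hlp : l = L.p
  · subst hlp
    have h1 : ∀ s, s ≤ e → z ∈ Vl f L π (s + 1) := by
      intro s
      induction s with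
      | zero => exact fun _ => hz
      | succ s ih =>
        intro hs
        exact w_A hy h hA hM hL hLm hω hAl (Nat.succ_ne_zero s) (by omega) (ih (by omega)) h0
    have h2 : z ∈ Vl f L π (1 + e) := by
      rw [add_comm]
      exact h1 e le_rfl
    obtain ⟨w, hw, h3⟩ := vl_div_p hπ hf (dak_pj hy.hm h) (dak_cvr hy.hm h) he (n := 1) (by omega) h2
    have h4 := hn0 h3
    have h5 : ∀ s, s ≤ e → w ∈ Vl f L π (s + 1) := by
      intro s
      induction s with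
      | zero => exact fun _ => hw
      | succ s ih =>
        intro hs
        exact w_B hy h hA hM hL hLm hω hAl he hep (Nat.succ_ne_zero s) (by omega)
          (ih (by omega)) h4
    exact ⟨w, hw, w_tor hπ hf hA hM hL hLm he (Nat.lt_succ_self e) (h5 e le_rfl) h4, h3⟩
  · have h1 : ¬ L.p ∣ l := fun h2 => hlp ((Nat.prime_dvd_prime_iff_eq L.pp hl).1 h2).symm
    obtain ⟨w, hw, h3⟩ := vl_div_l hπ hf (dak_pj hy.hm h) (dak_cvr hy.hm h) hl hlp one_ne_zero hz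
    exact ⟨w, hw, w_tor hπ hf hA hM hL hLm (u := 0) (by rw [pow_zero]; exact L.nat_unit h1)
      one_pos hw (hn0 h3), h3⟩

/-- **The local theorem.** Proof: induction on the prime factors of the number (as `sum_divm` of `St/Lo`) with `w_div`; `vl_zr`, `zrd_iff`; an element of `Vl 1` is `d + r` with `d` in `Dr 1`, a cycle over `K` with reduction `0` (`Uf.x_dr_zr`), `S d = S (d + r)`. -/
theorem w_dva (hy : Hyt f L π k) (h : Dak f L ψ f₀ ψ₀) (hA : A.Ok) (hM : M.Ok)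
    (hL : Lga L A) (hLm : Lmf L M)
    (hω : ω₀.map (L.V.comap (algebraMap K Ω)).subtype = M.om.map (algebraMap F K))
    (hAl : Al (f₂ f₀) (ψ₂ ψ₀) (ω₀.map (rdO K L.V)))
    (he : L.nm (L.p : Ω) = L.nm π ^ e) (hep : e + 1 < L.p) : Dva M L.V K := by
  let _ : AddCommGroup ((Xf A.a).pt Ω) := A.G.grp Ω
  have hπ := hy.uf
  have hf := hy.hm
  have key : ∀ n : ℕ, n ≠ 0 → ∀ z ∈ Vl f L π 1, M.S Ω z = 0 →
      ∃ w ∈ Vl f L π 1, M.S Ω w = 0 ∧ z - n • w ∈ (Xf f).ratEq K Ω := by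
    intro n
    induction n using Nat.recOnMul with
    | zero => exact fun hn => absurd rfl hn
    | one =>
      exact fun _ d hd h0 => ⟨d, hd, h0, by rw [one_nsmul, sub_self]; exact zero_mem _⟩
    | prime l hl =>
      exact fun _ d hd h0 => w_div hy h hA hM hL hLm hω hAl he hep hl hd h0
    | mul a b iha ihb =>
      intro hn d hd h0
      obtain ⟨d₁, h₁, s₁, e₁⟩ := iha (left_ne_zero_of_mul hn) d hd h0
      obtain ⟨d₂, h₂, s₂, e₂⟩ := ihb (right_ne_zero_of_mul hn) d₁ h₁ s₁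
      refine ⟨d₂, h₂, s₂, ?_⟩
      have e' : d - (a * b) • d₂ = (d - a • d₁) + a • (d₁ - b • d₂) := by
        rw [nsmul_sub, mul_nsmul']
        abel
      rw [e']
      exact add_mem e₁ (nsmul_mem e₂ a)
  intro n hn z hz h0 hS
  obtain ⟨w, hw, hw0, hzw⟩ := key n hn z (vl_zr hπ hf (dak_pj hy.hm h) (dak_cvr hy.hm h) hz (zrd_iff.1 h0)) hS
  obtain ⟨b, hb, c, hc, rfl⟩ := AddSubgroup.mem_sup.1 hw
  obtain ⟨h7, h8⟩ := hπ.x_dr_zr hf hb
  rw [map_add, RS.rs (K := K) hf hA hM hc, add_zero] at hw0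
  refine ⟨b, h7, zrd_iff.2 h8, hw0, ?_⟩
  have e1 : z - n • b = (z - n • (b + c)) + n • c := by
    rw [smul_add]
    abel
  rw [e1]
  exact add_mem hzw (nsmul_mem hc n)

end GX
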