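import Pool.Agent.Lib.MP_f80667_ag.Gx.Dt
import Pool.Agent.Lib.MP_f80667_ag.Gx.Oa
import Pool.Agent.Lib.MP_f80667_ag.Sb.A

/-!
The global `1`-forms on the reduction.

* `Spv V M`: every global `1`-form on the reduction is a combination of the reductions of the pull-backs of the invariant forms.
-/

open ZC BE PE CV

namespace GX

variable {F : Type} [Field F] {N N' k k' : ℕ} {ι ι' : Type} {f : ι → MvPolynomial (Fin N) F}
  {Ω : Type} [Field Ω] [Algebra F Ω]

/-- Every global `1`-form on the reduction is a combination of the reductions of the pull-backs of the invariant forms. -/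
def Spv (V : ValuationSubring Ω) {A : Gv F N' k' ι'} (M : Mf f A k) : Prop :=
  ∃ (f₀ : ι → MvPolynomial (Fin N) (V.comap (algebraMap F Ω)))
    (ω₀ : Om (V.comap (algebraMap F Ω)) N N' (k * N' * k')),
    (∀ i, MvPolynomial.map (V.comap (algebraMap F Ω)).subtype (f₀ i) = f i) ∧
      ω₀.map (V.comap (algebraMap F Ω)).subtype = M.om ∧
        Spf (fun i => MvPolynomial.map (rdO F V) (f₀ i)) (ω₀.map (rdO F V))

end GX
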