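import Pool.Agent.Lib.MP_f80667_ag.Lv.Xm
import Pool.Agent.Lib.MP_f80667_ag.Ng.X
import Pool.Agent.Lib.MP_f80667_ag.St.Ja
import Pool.Agent.Lib.MP_f80667_ag.Gm.GwE
import Pool.Agent.Lib.MP_f80667_ag.Lv.Xs

/-! The local theorem for ramification index `e < p - 1`. -/

open ZC BE PE CV IntermediateField IsDedekindDomain NumberField

namespace GX

private theorem xn_om {R R' R'' : Type} [CommRing R] [CommRing R'] [CommRing R''] {N g h : ℕ}
    (φ : R →+* R') (φ' : R' →+* R'') (ω : Om R N g h) :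
    (ω.map φ).map φ' = ω.map (φ'.comp φ) := by
  unfold Om.map
  simp only [MvPolynomial.map_map]

section loc

variable {F : Type} [Field F] {N N' k k' d : ℕ} {ι ι' : Type} {f : ι → MvPolynomial (Fin N) F}
  {K Ω : Type} [Field K] [CharZero K] [Field Ω] [Algebra K Ω] [Algebra F K] [Algebra F Ω]
  [IsScalarTower F K Ω] [IsAlgClosure K Ω] {L : Ld K Ω} {A : Gv F N' k' ι'} {M : Mf f A k}
  {π : Ω} {e : ℕ}

/-- With projections over `K`. -/
private theorem xn_dat (hf : Hm f) (hπ : Uf L π) (he : L.nm (L.p : Ω) = L.nm π ^ e)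
    (hep : e + 1 < L.p) (h2 : 2 < L.p) (hA : A.Ok) (hM : M.Ok) (hG : Gav L.V A)
    (hGm : Gmv L.V M) (hS : Spv L.V M) {m : ℕ} {ψ : Fin m → Prj K N d}
    {f₀ : ι → MvPolynomial (Fin N) (L.V.comap (algebraMap K Ω))}
    {ψ₀ : Fin m → Prj (L.V.comap (algebraMap K Ω)) N d}
    (h : Dat L.V (fun i => MvPolynomial.map (algebraMap F K) (f i)) ψ f₀ ψ₀) :
    Dva M L.V K := by
  obtain ⟨r, hr⟩ := exists_rf0 L
  obtain ⟨g₀, ω₀, hg, hω, hSp⟩ := hS
  let θ : L.V.comap (algebraMap F Ω) →+* L.V.comap (algebraMap K Ω) :=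
    ((algebraMap F K).comp (L.V.comap (algebraMap F Ω)).subtype).codRestrict
      (L.V.comap (algebraMap K Ω)) fun x => by
        rw [ValuationSubring.mem_comap]
        change algebraMap K Ω (algebraMap F K (x : F)) ∈ L.V
        rw [← IsScalarTower.algebraMap_apply]
        exact x.2
  have hθ : (L.V.comap (algebraMap K Ω)).subtype.comp θ =
      (algebraMap F K).comp (L.V.comap (algebraMap F Ω)).subtype := rfl
  have hρ : (rdO K L.V).comp θ = rdO F L.V := by
    refine RingHom.ext fun x => ?_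
    change IsLocalRing.residue L.V _ = IsLocalRing.residue L.V _
    congr 1
    exact Subtype.ext (IsScalarTower.algebraMap_apply F K Ω (x : F)).symm
  have hf₀ : ∀ i, MvPolynomial.map θ (g₀ i) = f₀ i := by
    intro i
    refine MvPolynomial.map_injective (L.V.comap (algebraMap K Ω)).subtype
      Subtype.val_injective ?_
    rw [h.mf i, MvPolynomial.map_map, hθ, ← MvPolynomial.map_map, hg i]
  have h1 : (ω₀.map θ).map (L.V.comap (algebraMap K Ω)).subtype =
      M.om.map (algebraMap F K) := by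
    rw [xn_om, hθ, ← xn_om, hω]
  have h3 : Spf (f₂ f₀) ((ω₀.map θ).map (rdO K L.V)) := by
    rw [xn_om, hρ]
    have e1 : f₂ f₀ = fun i => MvPolynomial.map (rdO F L.V) (g₀ i) := by
      funext i
      change MvPolynomial.map (rdO K L.V) (f₀ i) = _
      rw [← hf₀ i, MvPolynomial.map_map, hρ]
    rw [e1]
    exact hSp
  exact w_dva ⟨hf, hπ, h2, hr⟩ h hA hM (lga_of hG) (lmf_of hGm) h1
    (al_of (dak_hom h) (dak_ok h) (dak_cov h) h3) he hep

private theorem xn_uf (hπ : Uf L π) {M : IntermediateField K Ω} [FiniteDimensional K M]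
    (hM : Um L M) : Uf (xt L M) π where
  bot := by
    obtain ⟨y, hy⟩ := IntermediateField.mem_bot.1 hπ.bot
    refine IntermediateField.mem_bot.2 ⟨algebraMap K M y, ?_⟩
    rw [← IsScalarTower.algebraMap_apply, hy]
  pos := hπ.pos
  lt := hπ.lt
  val x hx := by
    refine hπ.um_val hM (x : Ω) x.2 fun h0 => hx (Subtype.ext h0)

private theorem xn_l (h : Gdv L.V f d) (hπ : Uf L π) (he : L.nm (L.p : Ω) = L.nm π ^ e)
    (hep : e + 1 < L.p) (h2 : 2 < L.p) (hA : A.Ok) (hM : M.Ok) (hG : Gav L.V A)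
    (hGm : Gmv L.V M) (hS : Spv L.V M) {r l : ℕ} (hr : r ≠ 0) (hl : 2 ≤ l) :
    ∃ a : ℕ, Dva M L.V (L.Ur ⊥ (r * l ^ a)) := by
  obtain ⟨a, m, ψ, f₀, ψ₀, hdat, -, -⟩ := exists_datl' hπ hr hl h
  have hn : r * l ^ a ≠ 0 := mul_ne_zero hr (pow_ne_zero a (by omega))
  have hfd : FiniteDimensional K (L.Ur ⊥ (r * l ^ a)) := Ld.ur_fin ⊥ _ hn
  have hcl : IsAlgClosure (L.Ur ⊥ (r * l ^ a)) Ω :=
    ⟨IsAlgClosure.isAlgClosed K, Algebra.IsAlgebraic.tower_top (K := K) _⟩
  have hu : Uf (xt L (L.Ur ⊥ (r * l ^ a))) π := xn_uf hπ ⟨_, hn, le_rfl⟩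
  exact ⟨a, xn_dat (L := xt L (L.Ur ⊥ (r * l ^ a))) h.hom hu he hep h2 hA hM hG hGm hS hdat⟩

/-- **The local theorem for `e < p - 1`.** -/
theorem Gdv.dva (h : Gdv L.V f d) (hπ : Uf L π) (he : L.nm (L.p : Ω) = L.nm π ^ e)
    (hep : e + 1 < L.p) (h2 : 2 < L.p) (hA : A.Ok) (hM : M.Ok) (hG : Gav L.V A)
    (hGm : Gmv L.V M) (hS : Spv L.V M) : Dva M L.V K := by
  obtain ⟨r, hr⟩ := exists_rf0 L
  obtain ⟨a, ha⟩ := xn_l h hπ he hep h2 hA hM hG hGm hS hr.ne (le_refl 2)
  obtain ⟨b, hb⟩ := xn_l h hπ he hep h2 hA hM hG hGm hS (l := 3) hr.ne (by norm_num)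
  have hfa : FiniteDimensional K (L.Ur ⊥ (r * 2 ^ a)) :=
    Ld.ur_fin ⊥ _ (mul_ne_zero hr.ne (pow_ne_zero a two_ne_zero))
  have hfb : FiniteDimensional K (L.Ur ⊥ (r * 3 ^ b)) :=
    Ld.ur_fin ⊥ _ (mul_ne_zero hr.ne (pow_ne_zero b three_ne_zero))
  refine dva_cop hM (inv_V L) ?_ ha hb
  rw [ur_deg hr two_ne_zero, ur_deg hr three_ne_zero]
  exact Nat.Coprime.pow _ _ (by norm_num)

end loc

section glob

/-- The valuation of `F_v`. -/
private noncomputable def xnv {F : Type} [Field F] [NumberField F] (v : HeightOneSpectrum (𝓞 F)) :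
    Valuation (v.adicCompletion F) (WithZero (Multiplicative ℤ)) := Valued.v

private theorem xnv_F {F : Type} [Field F] [NumberField F] (v : HeightOneSpectrum (𝓞 F)) (x : F) :
    xnv v (algebraMap F (v.adicCompletion F) x) = v.valuation F x :=
  HeightOneSpectrum.valuedAdicCompletion_eq_valuation' v x

/-- The elements with valuation `1` have norm `1`. -/
private theorem xn_one {F : Type} [Field F] [NumberField F] {v : HeightOneSpectrum (𝓞 F)}
    {L : Ld (FK F v) (AlgebraicClosure (FK F v))}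
    (hmem : ∀ x : v.adicCompletion F,
      L.nm (algebraMap (FK F v) (AlgebraicClosure (FK F v)) x) ≤ 1 ↔ xnv v x ≤ 1)
    {x : v.adicCompletion F} (h : xnv v x = 1) :
    L.nm (algebraMap (FK F v) (AlgebraicClosure (FK F v)) x) = 1 := by
  have hx0 : x ≠ 0 := by
    rintro rfl
    rw [map_zero] at h
    exact zero_ne_one h
  have h1 := (hmem x).2 h.le
  have h2 : L.nm (algebraMap (FK F v) (AlgebraicClosure (FK F v)) x⁻¹) ≤ 1 :=
    (hmem x⁻¹).2 (by rw [map_inv₀, h, inv_one])
  refine le_antisymm h1 ?_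
  have h4 : L.nm (algebraMap (FK F v) (AlgebraicClosure (FK F v)) x) *
      L.nm (algebraMap (FK F v) (AlgebraicClosure (FK F v)) x⁻¹) = 1 := by
    rw [← L.mul, ← map_mul]
    have h5 : x * x⁻¹ = 1 := mul_inv_cancel₀ hx0
    change L.nm (algebraMap (FK F v) (AlgebraicClosure (FK F v))
      ((x * x⁻¹ : v.adicCompletion F) : FK F v)) = 1
    rw [h5]
    exact (congrArg L.nm (map_one (algebraMap (FK F v) (AlgebraicClosure (FK F v))))).trans L.one
  by_contra h5
  rw [not_le] at h5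
  have h6 := mul_lt_one_of_nonneg_of_lt_one_left (L.nonneg _) h5 h2
  rw [h4] at h6
  exact lt_irrefl _ h6

/-- **The local theorem** for the completions of number fields, `e < p - 1`. -/
theorem nf_dva {F : Type} [Field F] [NumberField F] {v : HeightOneSpectrum (𝓞 F)}
    {N N' k k' d : ℕ} {ι ι' : Type} {f : ι → MvPolynomial (Fin N) F} {A : Gv F N' k' ι'}
    {M : Mf f A k} {V : ValuationSubring (AlgebraicClosure (FK F v))}
    (hV : V.comap (algebraMap (FK F v) _) = CV.Iv v) (h : Gdv V f d) (hA : A.Ok) (hM : M.Ok)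
    (hG : Gav V A) (hGm : Gmv V M) (hS : Spv V M) {p e : ℕ} (hp : p.Prime) (he : e ≠ 0)
    (hv : v.valuation F (p : F) = WithZero.exp (-(e : ℤ))) (hep : e + 1 < p) :
    Dva M V (FK F v) := by
  have hch : CharZero (FK F v) :=
    charZero_of_injective_algebraMap (algebraMap F (FK F v)).injective
  obtain ⟨L, hL⟩ := exists_ldI v
  have h1 : V.comap (algebraMap (FK F v) _) = Ok L := by
    rw [hV]
    exact SetLike.ext fun x => (hL x).symm
  obtain rfl := GM.v_uniq L V h1
  obtain ⟨t, ht⟩ := v.valuation_exists_uniformizer F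
  have hmem : ∀ x : v.adicCompletion F,
      L.nm (algebraMap (FK F v) (AlgebraicClosure (FK F v)) x) ≤ 1 ↔ xnv v x ≤ 1 := hL
  have ht0 : t ≠ 0 := by
    rintro rfl
    rw [map_zero] at ht
    exact WithZero.exp_ne_zero ht.symm
  have hA' : ∀ x : F, algebraMap F (AlgebraicClosure (FK F v)) x =
      algebraMap (FK F v) (AlgebraicClosure (FK F v)) (algebraMap F (v.adicCompletion F) x) :=
    fun x => IsScalarTower.algebraMap_apply F (FK F v) _ x
  have hpos : 0 < L.nm (algebraMap F (AlgebraicClosure (FK F v)) t) :=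
    L.pos ((_root_.map_ne_zero _).2 ht0)
  have hlt : L.nm (algebraMap F (AlgebraicClosure (FK F v)) t) < 1 := by
    by_contra h3
    rw [not_lt] at h3
    have h4 : L.nm (algebraMap F (AlgebraicClosure (FK F v)) t⁻¹) ≤ 1 := by
      rw [map_inv₀, L.inv]
      exact inv_le_one_of_one_le₀ h3
    rw [hA' t⁻¹] at h4
    have h5 := (hmem _).1 h4
    rw [xnv_F, map_inv₀, ht, ← WithZero.exp_neg, ← WithZero.exp_zero, WithZero.exp_le_exp] at h5
    omega
  have hu : Uf L (algebraMap F (AlgebraicClosure (FK F v)) t) := by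
    refine ⟨?_, hpos, hlt, ?_⟩
    · rw [hA' t]
      exact IntermediateField.algebraMap_mem _ _
    · refine fun (x : v.adicCompletion F) (hx : x ≠ 0) => ?_
      have h3 : xnv v x ≠ 0 := (Valuation.ne_zero_iff _).2 hx
      obtain ⟨n, hn⟩ : ∃ n : ℤ, xnv v x = WithZero.exp n := ⟨_, (WithZero.exp_log h3).symm⟩
      refine ⟨-n, ?_⟩
      have h4 : xnv v (x * algebraMap F (v.adicCompletion F) t ^ n) = 1 := by
        rw [map_mul, map_zpow₀, xnv_F, ht, hn, ← WithZero.exp_zsmul, ← WithZero.exp_add,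
          ← WithZero.exp_zero]
        congr 1
        simp
      have h5 := xn_one hmem h4
      have h6 : algebraMap (FK F v) (AlgebraicClosure (FK F v))
          ((x * algebraMap F (v.adicCompletion F) t ^ n : v.adicCompletion F) : FK F v) =
          algebraMap (FK F v) (AlgebraicClosure (FK F v)) x *
            algebraMap F (AlgebraicClosure (FK F v)) t ^ n := by
        refine (map_mul (algebraMap (FK F v) (AlgebraicClosure (FK F v))) (x : FK F v)
          ((algebraMap F (v.adicCompletion F) t ^ n : v.adicCompletion F) : FK F v)).trans ?_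
        rw [hA' t]
        exact congrArg (algebraMap (FK F v) (AlgebraicClosure (FK F v)) x * ·)
          (map_zpow₀ (algebraMap (FK F v) (AlgebraicClosure (FK F v)))
            (algebraMap F (v.adicCompletion F) t : FK F v) n)
      rw [h6, L.mul, L.zpow] at h5
      rw [zpow_neg]
      exact eq_inv_of_mul_eq_one_left h5
  have hpe : L.nm (p : AlgebraicClosure (FK F v)) =
      L.nm (algebraMap F (AlgebraicClosure (FK F v)) t) ^ e := by
    have h4 : xnv v (algebraMap F (v.adicCompletion F) ((p : F) * (t ^ e)⁻¹)) = 1 := by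
      rw [xnv_F, map_mul, map_inv₀, map_pow, hv, ht, ← WithZero.exp_nsmul, ← WithZero.exp_neg,
        ← WithZero.exp_add, ← WithZero.exp_zero]
      congr 1
      simp
    have h5 := xn_one hmem h4
    rw [← hA', map_mul, L.mul, map_inv₀, L.inv, map_pow, L.pow, map_natCast] at h5
    exact eq_of_mul_inv_eq_one h5
  have h3 : L.p = p := by
    by_contra hne
    have h4 : L.nm (p : AlgebraicClosure (FK F v)) = 1 := L.nat_unit fun h5 =>
      hne ((Nat.prime_dvd_prime_iff_eq L.pp hp).1 h5)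
    rw [hpe] at h4
    exact (hu.pow_lt he).ne h4
  subst h3
  exact h.dva hu hpe hep (by omega) hA hM hG hGm hS

end glob

end GX
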