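import Pool.Agent.Lib.MP_f80667_ag.Lv.Xn
import Pool.Agent.Lib.MP_f80667_ag.Kt.N3

/-! The zero-cycles with zero reduction at the places of good reduction. -/

open ZC BE PE CV IsDedekindDomain NumberField

namespace GX

/-- The elements with valuation `< 1`. -/
private theorem xo_non {F : Type} [Field F] [NumberField F] {v : HeightOneSpectrum (𝓞 F)}
    {V : ValuationSubring (AlgebraicClosure (FK F v))}
    (hV : V.comap (algebraMap (FK F v) _) = CV.Iv v) {x : F} (hx : v.valuation F x < 1) :
    algebraMap F (AlgebraicClosure (FK F v)) x ∈ V.nonunits := by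
  rw [ValuationSubring.mem_nonunits_iff_or]
  by_cases h0 : x = 0
  · left
    rw [h0, map_zero]
  right
  intro h3
  have h4 : (algebraMap (FK F v) (AlgebraicClosure (FK F v))
      (algebraMap F (FK F v) x⁻¹)) ∈ V := by
    rw [← IsScalarTower.algebraMap_apply F (FK F v), map_inv₀]
    exact h3
  have h5 : algebraMap F (FK F v) x⁻¹ ∈ V.comap (algebraMap (FK F v) _) := h4
  rw [hV] at h5
  have h6 : v.valuation F x⁻¹ ≤ 1 :=
    (HeightOneSpectrum.valuedAdicCompletion_eq_valuation' v x⁻¹).symm.trans_le h5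
  rw [map_inv₀] at h6
  have h7 : v.valuation F x ≠ 0 := (Valuation.ne_zero_iff _).2 h0
  exact absurd hx (not_lt.2 ((inv_le_one₀ (zero_lt_iff.2 h7)).1 h6))

/-- **The zero-cycles with zero reduction** at a place of good reduction. -/
theorem nf_good {F : Type} [Field F] [NumberField F] {N N' k k' d : ℕ} {ι ι' : Type}
    {f : ι → MvPolynomial (Fin N) F} {A : Gv F N' k' ι'} {M : Mf f A k}
    (hA : A.Ok) (hM : M.Ok) {v : HeightOneSpectrum (𝓞 F)}
    {V : ValuationSubring (AlgebraicClosure (FK F v))}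
    (hV : V.comap (algebraMap (FK F v) _) = CV.Iv v) (h : Gdv V f d) {p e : ℕ} (hp : p.Prime)
    (he : e ≠ 0) (hv : v.valuation F (p : F) = WithZero.exp (-(e : ℤ))) :
    (M.Alb (AlgebraicClosure F) → Ctv V M (FK F v) p) ∧
      (e + 1 < p → Gav V A → Gmv V M → Spv V M → Dva M V (FK F v)) := by
  have hpv : (p : AlgebraicClosure (FK F v)) ∈ V.nonunits := by
    have h3 : v.valuation F (p : F) < 1 := by
      rw [hv, ← WithZero.exp_zero, WithZero.exp_lt_exp]
      omega
    have h4 := xo_non hV h3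
    rwa [map_natCast] at h4
  exact ⟨fun hb => ctv_glob3 hA hM v hb hV h hp hpv,
    fun hep hG hGm hS => nf_dva hV h hA hM hG hGm hS hp he hv hep⟩

end GX
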