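import Pool.Agent.Lib.MP_f80667_ag.Lv.Xo

/-!
The group of the zero-cycles with zero reduction and sum `0` at the places of good reduction.

* `Gzk V M K`: the cycles over `K` with reduction `0` whose image has the sum `0`.
* `Ctk V M K p`: modulo rational equivalence this group is the sum of a divisible group and of a finite group whose elements are
  killed by powers of `p`.
* `Dvg V M K`: modulo rational equivalence this group is divisible.
-/

open ZC BE PE CV IsDedekindDomain NumberField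

namespace GX

section defs

variable {F : Type} [Field F] {N N' k k' : ℕ} {ι ι' : Type} {f : ι → MvPolynomial (Fin N) F}
  {Ω : Type} [Field Ω] [Algebra F Ω] (V : ValuationSubring Ω)

/-- The cycles over `K` with reduction `0` and sum `0`. -/
def Gzk {A : Gv F N' k' ι'} (M : Mf f A k) (K : Type) [Field K] [Algebra F K] [Algebra K Ω]
    [IsScalarTower F K Ω] : Set ((Xf f).pt Ω →₀ ℤ) :=
  letI := A.G.grp Ω
  {z | z ∈ (Xf f).cyc K Ω ∧ Zrd f V z ∧ M.S Ω z = 0}

/-- The cycles over `K` with reduction `0` and sum `0` are the sum of a divisible group and a finite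
group killed by a power of `p`. -/
def Ctk {A : Gv F N' k' ι'} (M : Mf f A k) (K : Type) [Field K] [Algebra F K] [Algebra K Ω]
    [IsScalarTower F K Ω] (p : ℕ) : Prop :=
  ∃ E : Finset ((Xf f).pt Ω →₀ ℤ),
    (∀ e ∈ E, e ∈ Gzk V M K ∧ ∃ k : ℕ, p ^ k • e ∈ (Xf f).ratEq K Ω) ∧
    ∀ z ∈ Gzk V M K, ∃ e ∈ E, ∀ m : ℕ, m ≠ 0 →
      ∃ z' ∈ Gzk V M K, z - e - m • z' ∈ (Xf f).ratEq K Ω

/-- The cycles over `K` with reduction `0` and sum `0` are divisible. -/
def Dvg {A : Gv F N' k' ι'} (M : Mf f A k) (K : Type) [Field K] [Algebra F K] [Algebra K Ω]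
    [IsScalarTower F K Ω] : Prop :=
  ∀ m : ℕ, m ≠ 0 → ∀ z ∈ Gzk V M K, ∃ z' ∈ Gzk V M K, z - m • z' ∈ (Xf f).ratEq K Ω

theorem Ctv.ctk {A : Gv F N' k' ι'} {M : Mf f A k} {K : Type} [Field K] [Algebra F K]
    [Algebra K Ω] [IsScalarTower F K Ω] {p : ℕ} (h : Ctv V M K p) : Ctk V M K p := by
  obtain ⟨E, h1, h2⟩ := h
  refine ⟨E, fun e he => ?_, fun z hz => ?_⟩
  · obtain ⟨h3, h4, h5, h6⟩ := h1 e he
    exact ⟨⟨h3, h4, h5⟩, h6⟩
  · obtain ⟨e, he, h3⟩ := h2 z hz.1 hz.2.1 hz.2.2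
    refine ⟨e, he, fun m hm => ?_⟩
    obtain ⟨z', h4, h5, h6, h7⟩ := h3 m hm
    exact ⟨z', ⟨h4, h5, h6⟩, h7⟩

theorem Dva.dvg {A : Gv F N' k' ι'} {M : Mf f A k} {K : Type} [Field K] [Algebra F K]
    [Algebra K Ω] [IsScalarTower F K Ω] (h : Dva M V K) : Dvg V M K := by
  intro m hm z hz
  obtain ⟨z', h4, h5, h6, h7⟩ := h m hm z hz.1 hz.2.1 hz.2.2
  exact ⟨z', ⟨h4, h5, h6⟩, h7⟩

end defs

/-- **The zero-cycles with zero reduction and sum `0`** at a place of good reduction. -/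
theorem nf_goodk {F : Type} [Field F] [NumberField F] {N N' k k' d : ℕ} {ι ι' : Type}
    {f : ι → MvPolynomial (Fin N) F} {A : Gv F N' k' ι'} {M : Mf f A k}
    (hA : A.Ok) (hM : M.Ok) {v : HeightOneSpectrum (𝓞 F)}
    {V : ValuationSubring (AlgebraicClosure (FK F v))}
    (hV : V.comap (algebraMap (FK F v) _) = CV.Iv v) (h : Gdv V f d) {p e : ℕ} (hp : p.Prime)
    (he : e ≠ 0) (hv : v.valuation F (p : F) = WithZero.exp (-(e : ℤ))) :
    (M.Alb (AlgebraicClosure F) → Ctk V M (FK F v) p) ∧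
      (e + 1 < p → Gav V A → Gmv V M → Spv V M → Dvg V M (FK F v)) := by
  obtain ⟨h1, h2⟩ := nf_good hA hM hV h hp he hv
  exact ⟨fun hb => (h1 hb).ctk V, fun h3 h4 h5 h6 => (h2 h3 h4 h5 h6).dvg V⟩

end GX
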